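import Pool.Agent.P.MP_824f38_ag.H.Prod
import Pool.Agent.P.MP_824f38_ag.Mono

/-! Disjoint unions of hypercoverings; affine space. -/

set_option linter.unusedSectionVars false
set_option linter.style.haveILetI false

namespace Pool.Agent.P.MP_824f38_ag.DB

open Function

section Pi

variable {α : Type} {A B C : α → Type} [∀ a, CommRing (A a)] [∀ a, Algebra ℂ (A a)]
  [∀ a, CommRing (B a)] [∀ a, Algebra ℂ (B a)] [∀ a, CommRing (C a)] [∀ a, Algebra ℂ (C a)]

/-- componentwise maps -/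
def HyperPi_map (f : ∀ a, A a →ₐ[ℂ] B a) : (∀ a, A a) →ₐ[ℂ] ∀ a, B a :=
  AlgHom.pi fun a => (f a).comp (Pi.evalAlgHom ℂ A a)

theorem HyperPi_ev (f : ∀ a, A a →ₐ[ℂ] B a) (a : α) :
    (Pi.evalAlgHom ℂ B a).comp (HyperPi_map f) = (f a).comp (Pi.evalAlgHom ℂ A a) := rfl

theorem HyperPi_comp (f : ∀ a, A a →ₐ[ℂ] B a) (g : ∀ a, B a →ₐ[ℂ] C a) :
    (HyperPi_map g).comp (HyperPi_map f) = HyperPi_map fun a => (g a).comp (f a) := rfl

theorem HyperPi_single [Finite α] {p : ℕ} (a : α) {ω : DR (A a)} (hω : ω ∈ Forms (A a) p) :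
    ∃ θ ∈ Forms (∀ a, A a) p, pull (Pi.evalAlgHom ℂ A a) θ = ω ∧
      ∀ b, b ≠ a → pull (Pi.evalAlgHom ℂ A b) θ = 0 := by
  classical
  obtain ⟨θ, h1, h2⟩ := pi_forms_lift (B := A) (p := p) (Pi.single a ω) fun b => by
    by_cases h : b = a
    · subst h
      rwa [Pi.single_eq_same]
    · rw [Pi.single_eq_of_ne h]
      exact zero_mem _
  exact ⟨θ, h1, by rw [h2, Pi.single_eq_same], fun b h => by rw [h2, Pi.single_eq_of_ne h]⟩

end Pi

theorem HyperPi_zero {R : Type} [CommRing R] [Algebra ℂ R] (X : Hyper R) (k : ℕ) :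
    X.delta k 0 = 0 := by
  simp [Hyper.delta, altSum]

section Main

variable {α : Type} [Finite α] {R : α → Type} [∀ a, CommRing (R a)] [∀ a, Algebra ℂ (R a)]
  (X : ∀ a, Hyper (R a))

/-- the disjoint union -/
noncomputable def HyperPi_obj : Hyper (∀ a, R a) where
  B k := ∀ a, (X a).B k
  smooth k := pi_smooth _ fun a => (X a).smooth k
  aug := HyperPi_map fun a => (X a).aug
  d k i := HyperPi_map fun a => (X a).d k i
  d_aug := by
    rw [HyperPi_comp, HyperPi_comp]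
    exact congrArg _ (funext fun a => (X a).d_aug)
  d_d k i j h := by
    rw [HyperPi_comp, HyperPi_comp]
    exact congrArg _ (funext fun a => (X a).d_d k i j h)

/-- the projection to a factor -/
noncomputable def HyperPi_pr (k : ℕ) (a : α) : (HyperPi_obj X).B k →ₐ[ℂ] (X a).B k :=
  Pi.evalAlgHom ℂ (fun a => (X a).B k) a

theorem HyperPi_str (k : ℕ) (a : α) : (HyperPi_pr X k a).comp ((HyperPi_obj X).str k) =
    ((X a).str k).comp (Pi.evalAlgHom ℂ R a) := by
  induction k with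
  | zero => rfl
  | succ k ih =>
    change ((X a).d k 0).comp ((HyperPi_pr X k a).comp ((HyperPi_obj X).str k)) = _
    rw [ih]
    rfl

theorem HyperPi_delta (k : ℕ) (a : α) (ω : DR ((HyperPi_obj X).B k)) :
    pull (HyperPi_pr X (k + 1) a) ((HyperPi_obj X).delta k ω) =
      (X a).delta k (pull (HyperPi_pr X k a) ω) := by
  simp only [Hyper.delta, altSum, map_sum, map_mul, map_pow, map_neg, map_one, pull_pull]
  rfl

theorem HyperPi_ext {k : ℕ} {ω : DR ((HyperPi_obj X).B k)}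
    (h : ∀ a, pull (HyperPi_pr X k a) ω = 0) : ω = 0 :=
  pi_forms_ext (B := fun a => (X a).B k) h

theorem HyperPi_closed {k p : ℕ} (a : α) {ω : DR ((X a).B k)} (hω : ω ∈ Forms _ p)
    (h : (X a).delta k ω = 0) : ∃ θ ∈ Forms ((HyperPi_obj X).B k) p,
      (HyperPi_obj X).delta k θ = 0 ∧ pull (HyperPi_pr X k a) θ = ω := by
  obtain ⟨θ, h1, h2, h3⟩ := HyperPi_single (A := fun a => (X a).B k) a hω
  refine ⟨θ, h1, HyperPi_ext X fun b => ?_, h2⟩
  rw [HyperPi_delta]
  by_cases e : b = a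
  · subst e
    exact (congrArg _ h2).trans h
  · exact (congrArg _ (h3 b e)).trans (HyperPi_zero _ _)

variable {V : Type} [CommRing V] [IsDomain V] [Algebra ℂ V]

theorem HyperPi_fib {k : ℕ} {a : α} {x : R a →ₐ[ℂ] V} {y : (HyperPi_obj X).B k →ₐ[ℂ] V}
    (h : y.comp ((HyperPi_obj X).str k) = x.comp (Pi.evalAlgHom ℂ R a)) :
    ∃ y' : (X a).B k →ₐ[ℂ] V, y = y'.comp (HyperPi_pr X k a) ∧ y'.comp ((X a).str k) = x := by
  obtain ⟨b, y', rfl⟩ := pi_point (B := fun a => (X a).B k) y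
  have e : (y'.comp ((X b).str k)).comp (Pi.evalAlgHom ℂ R b) = x.comp (Pi.evalAlgHom ℂ R a) := by
    rw [AlgHom.comp_assoc, ← HyperPi_str]
    exact h
  have e' := pi_point_inj e
  obtain rfl : b = a := congrArg Sigma.fst e'
  exact ⟨y', rfl, eq_of_heq (Sigma.mk.inj e').2⟩

theorem HyperPi_fib' {k : ℕ} {a : α} {x : R a →ₐ[ℂ] V} {y : (X a).B k →ₐ[ℂ] V}
    (h : y.comp ((X a).str k) = x) : (y.comp (HyperPi_pr X k a)).comp ((HyperPi_obj X).str k) =
      x.comp (Pi.evalAlgHom ℂ R a) := by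
  rw [AlgHom.comp_assoc, HyperPi_str, ← AlgHom.comp_assoc, h]

theorem HyperPi_cob (k : ℕ) (a : α) (h : ((HyperPi_obj X).B k →ₐ[ℂ] V) → ℚ)
    (y : (X a).B (k + 1) →ₐ[ℂ] V) : (HyperPi_obj X).cob k h (y.comp (HyperPi_pr X (k + 1) a)) =
      (X a).cob k (fun z => h (z.comp (HyperPi_pr X k a))) y := rfl

theorem HyperPi_descent (hX : ∀ a, (X a).Descent) : (HyperPi_obj X).Descent := by
  intro V _ _ _ _ x
  obtain ⟨a, x, rfl⟩ := pi_point x
  obtain ⟨⟨y0, h0⟩, h1, h2⟩ := hX a V x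
  refine ⟨⟨_, HyperPi_fib' X h0⟩, fun h hh => ?_, fun k h hh => ?_⟩
  · obtain ⟨c, hc⟩ := h1 (fun z => h (z.comp (HyperPi_pr X 0 a))) fun y hy =>
      hh _ (HyperPi_fib' X hy)
    refine ⟨c, fun y hy => ?_⟩
    obtain ⟨y', rfl, e⟩ := HyperPi_fib X hy
    exact hc y' e
  · obtain ⟨g, hg⟩ := h2 k (fun z => h (z.comp (HyperPi_pr X (k + 1) a))) fun y hy =>
      hh _ (HyperPi_fib' X hy)
    have hi : Injective fun z : (X a).B k →ₐ[ℂ] V => z.comp (HyperPi_pr X k a) := fun z z' e =>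
      eq_of_heq (Sigma.mk.inj (pi_point_inj (B := fun a => (X a).B k) e)).2
    refine ⟨extend (fun z : (X a).B k →ₐ[ℂ] V => z.comp (HyperPi_pr X k a)) g 0, fun y hy => ?_⟩
    obtain ⟨y', rfl, e⟩ := HyperPi_fib X hy
    rw [HyperPi_cob, hg y' e]
    exact congrArg (fun g => (X a).cob k g y') (funext fun z => (hi.extend_apply g 0 z).symm)

end Main

theorem HyperPi_sign {A : Type} [Ring A] (n : ℕ) :
    ∑ i : Fin n, (-1 : A) ^ (i : ℕ) = if Even n then 0 else 1 := by
  rw [Fin.sum_univ_eq_sum_range fun i => (-1 : A) ^ i, neg_one_geom_sum]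

/-- the constant object -/
noncomputable def HyperPi_const (R : Type) [CommRing R] [Algebra ℂ R] (h : Algebra.Smooth ℂ R) :
    Hyper R where
  B _ := R
  smooth _ := h
  aug := AlgHom.id ℂ R
  d _ _ := AlgHom.id ℂ R
  d_aug := rfl
  d_d _ _ _ _ := rfl

section Const

variable {R : Type} [CommRing R] [Algebra ℂ R] (h : Algebra.Smooth ℂ R)

theorem HyperPi_const_str (k : ℕ) : (HyperPi_const R h).str k = AlgHom.id ℂ R := by
  induction k with
  | zero => rfl
  | succ k ih => exact ih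

theorem HyperPi_const_delta (k : ℕ) (ω : DR R) :
    (HyperPi_const R h).delta k ω = if Even k then (0 : DR R) else ω := by
  change ∑ i : Fin (k + 2), (-1) ^ (i : ℕ) * pull (AlgHom.id ℂ R) ω = _
  rw [← Finset.sum_mul, HyperPi_sign, pull_id]
  simp [parity_simps]

theorem HyperPi_const_cob {V : Type} [CommRing V] [Algebra ℂ V] (k : ℕ) (g : (R →ₐ[ℂ] V) → ℚ)
    (y : R →ₐ[ℂ] V) : (HyperPi_const R h).cob k g y = if Even k then 0 else g y := by
  change ∑ i : Fin (k + 2), (-1) ^ (i : ℕ) * g y = _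
  rw [← Finset.sum_mul, HyperPi_sign]
  simp [parity_simps]

end Const

/- `B k = ∀ a, (X a).B k`, all maps componentwise (`AlgHom.pi`), `pi_smooth`; forms by
`pi_forms_ext`, `pi_forms_lift` (lift `Pi.single a ω`), points by `pi_point`, `pi_point_inj`. -/
theorem exists_pi {α : Type} [Finite α] {R : α → Type} [∀ a, CommRing (R a)]
    [∀ a, Algebra ℂ (R a)] (X : ∀ a, Hyper (R a)) :
    ∃ Y : Hyper (∀ a, R a), ((∀ a, (X a).Descent) → Y.Descent) ∧
      ∀ p q, Y.HNonzero p q ↔ ∃ a, (X a).HNonzero p q := by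
  refine ⟨HyperPi_obj X, HyperPi_descent X, fun p q => ?_⟩
  have hz : ∀ k a ω, (HyperPi_obj X).delta k ω = 0 →
      (X a).delta k (pull (HyperPi_pr X k a) ω) = 0 := fun k a ω h => by
    rw [← HyperPi_delta, h, map_zero]
  cases q with
  | zero =>
    constructor
    · rintro ⟨ω, h1, h2, h3⟩
      obtain ⟨a, ha⟩ := not_forall.1 fun h => h3 (HyperPi_ext X h)
      exact ⟨a, _, pull_mem _ h1, hz _ a ω h2, ha⟩
    · rintro ⟨a, ω, h1, h2, h3⟩
      obtain ⟨θ, k1, k2, k3⟩ := HyperPi_closed X a h1 h2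
      exact ⟨θ, k1, k2, fun e => h3 (by rw [← k3, e, map_zero])⟩
  | succ q =>
    constructor
    · rintro ⟨ω, h1, h2, h3⟩
      by_contra hn
      have : ∀ a, ∃ η ∈ Forms ((X a).B q) p,
          (X a).delta q η = pull (HyperPi_pr X (q + 1) a) ω := fun a => by
        by_contra hc
        exact hn ⟨a, _, pull_mem _ h1, hz _ a ω h2, fun η hη e => hc ⟨η, hη, e⟩⟩
      choose η h4 h5 using this
      obtain ⟨θ, k1, k2⟩ := pi_forms_lift (B := fun a => (X a).B q) η h4
      refine h3 θ k1 (sub_eq_zero.1 (HyperPi_ext X fun a => ?_))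
      rw [map_sub, HyperPi_delta, ← h5 a, sub_eq_zero]
      exact congrArg _ (k2 a)
    · rintro ⟨a, ω, h1, h2, h3⟩
      obtain ⟨θ, k1, k2, k3⟩ := HyperPi_closed X a h1 h2
      exact ⟨θ, k1, k2, fun η hη e => h3 _ (pull_mem (HyperPi_pr X q a) hη)
        (by rw [← HyperPi_delta, e, k3])⟩

/- The constant object: `B k = R`, all maps the identity; the alternating sums are `0` or the
identity according to the parity. Nonzero forms: the last theorem of `Mono`. -/
theorem exists_affine (n : ℕ) : ∃ X : Hyper (MvPolynomial (Fin n) ℂ), X.Descent ∧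
    (∀ p ≤ n, X.HNonzero p 0) ∧ ∀ p q, ¬ X.HNonzero p (q + 1) := by
  have hs : Algebra.Smooth ℂ (MvPolynomial (Fin n) ℂ) := ⟨inferInstance, inferInstance⟩
  refine ⟨HyperPi_const _ hs, fun V _ _ _ _ x => ⟨⟨x, rfl⟩, fun h _ => ⟨h x, ?_⟩,
    fun k h hh => ⟨h, fun y hy => ?_⟩⟩, fun p hp => ?_, ?_⟩
  · rintro y rfl
    rfl
  · rw [HyperPi_const_cob]
    split_ifs with e
    · have := hh y (by
        rw [HyperPi_const_str] at hy ⊢
        exact hy)
      rwa [HyperPi_const_cob, if_neg (by simpa [parity_simps] using e)] at this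
    · rfl
  · obtain ⟨ω, h1, h2⟩ := exists_wx_ne_zero hp
    exact ⟨ω, h1, (HyperPi_const_delta hs 0 ω).trans (if_pos Even.zero), h2⟩
  · rintro p q ⟨ω, h1, h2, h3⟩
    refine h3 ω h1 ((HyperPi_const_delta hs q ω).trans ?_)
    split_ifs with e
    · exact (((HyperPi_const_delta hs (q + 1) ω).trans
        (if_neg (by simpa [parity_simps] using e))).symm.trans h2).symm
    · rfl

end Pool.Agent.P.MP_824f38_ag.DB
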