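import Pool.Agent.P.MP_824f38_ag.H.Nerve

/-! A preorder with a zigzag from the identity to a constant map has an acyclic nerve. -/

set_option linter.unusedSectionVars false
set_option linter.style.haveILetI false

namespace Pool.Agent.P.MP_824f38_ag.DB

open Function

section

variable {Q : Type}

/-- coboundary of a function on lists -/
def Acyc_d : List Q → (List Q → ℚ) → ℚ
  | [], _ => 0
  | b :: l, F => F l - Acyc_d l fun m => F (b :: m)

/-- the prism operator -/
def Acyc_P (ρ : Q → Q) : List Q → (List Q → ℚ) → ℚ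
  | [], _ => 0
  | b :: l, F => F (b :: ρ b :: l.map ρ) - Acyc_P ρ l fun m => F (b :: m)

theorem Acyc_d_sub (l : List Q) (F G : List Q → ℚ) :
    Acyc_d l (fun m => F m - G m) = Acyc_d l F - Acyc_d l G := by
  induction l generalizing F G with
  | nil => simp [Acyc_d]
  | cons b l ih =>
    simp only [Acyc_d]
    rw [ih]
    ring

theorem Acyc_P_sub (ρ : Q → Q) (l : List Q) (F G : List Q → ℚ) :
    Acyc_P ρ l (fun m => F m - G m) = Acyc_P ρ l F - Acyc_P ρ l G := by
  induction l generalizing F G with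
  | nil => simp [Acyc_P]
  | cons b l ih =>
    simp only [Acyc_P]
    rw [ih]
    ring

theorem Acyc_d_map (ρ : Q → Q) (l : List Q) (F : List Q → ℚ) :
    Acyc_d l (fun m => F (m.map ρ)) = Acyc_d (l.map ρ) F := by
  induction l generalizing F with
  | nil => rfl
  | cons b l ih =>
    simp only [Acyc_d, List.map_cons]
    rw [ih fun m => F (ρ b :: m)]

theorem Acyc_prism (ρ : Q → Q) (l : List Q) (F : List Q → ℚ) :
    Acyc_P ρ l (fun m => Acyc_d m F) + Acyc_d l (fun m => Acyc_P ρ m F) =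
      F (l.map ρ) - F l := by
  induction l generalizing F with
  | nil => simp [Acyc_d, Acyc_P]
  | cons b l ih =>
    simp only [Acyc_d, Acyc_P, List.map_cons]
    rw [Acyc_P_sub, Acyc_d_sub, Acyc_d_map ρ l fun m => F (b :: ρ b :: m)]
    linear_combination ih fun m => F (b :: m)

theorem Acyc_ofFn (n : ℕ) (c : Fin (n + 1) → Q) (F : List Q → ℚ) :
    Acyc_d (List.ofFn c) F =
      ∑ i : Fin (n + 1), (-1) ^ (i : ℕ) * F (List.ofFn fun j => c (i.succAbove j)) := by
  induction n generalizing F with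
  | zero => simp [Acyc_d]
  | succ n ih =>
    rw [List.ofFn_succ, Acyc_d, ih, Fin.sum_univ_succ (n := n + 1), sub_eq_add_neg,
      ← Finset.sum_neg_distrib]
    congr 1
    · simp
    · refine Finset.sum_congr rfl fun i _ => ?_
      rw [List.ofFn_succ (n := n)]
      simp only [Fin.succ_succAbove_zero, Fin.succ_succAbove_succ, Fin.val_succ]
      ring

variable [Preorder Q]

theorem Acyc_vanish {ρ : Q → Q} (hm : Monotone ρ) (h1 : ∀ q, q ≤ ρ q) (l : List Q)
    (G : List Q → ℚ) (lo : Q → Prop) (hlo : ∀ q, lo q → lo (ρ q)) (hl : ∀ x ∈ l, lo x)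
    (hs : l.Pairwise (· ≤ ·))
    (hG : ∀ m : List Q, (∀ x ∈ m, lo x) → m.Pairwise (· ≤ ·) → m.length = l.length + 1 → G m = 0) :
    Acyc_P ρ l G = 0 := by
  induction l generalizing G lo with
  | nil => rfl
  | cons b l ih =>
    obtain ⟨hb, hs'⟩ := List.pairwise_cons.1 hs
    obtain ⟨hb', hl'⟩ := List.forall_mem_cons.1 hl
    rw [Acyc_P, ih (fun m => G (b :: m)) (fun x => lo x ∧ b ≤ x)
      (fun q hq => ⟨hlo q hq.1, hq.2.trans (h1 q)⟩) (fun x hx => ⟨hl' x hx, hb x hx⟩) hs'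
      fun m k1 k2 k3 => hG _ (List.forall_mem_cons.2 ⟨hb', fun x hx => (k1 x hx).1⟩)
        (List.pairwise_cons.2 ⟨fun x hx => (k1 x hx).2, k2⟩) (by simp [k3]), sub_zero]
    refine hG _ (List.forall_mem_cons.2 ⟨hb', ?_⟩) (List.pairwise_cons.2 ⟨?_, ?_⟩) (by simp)
    · exact (List.forall_mem_map (l := b :: l)).2 fun x hx => hlo x (hl x hx)
    · refine (List.forall_mem_map (l := b :: l)).2 (List.forall_mem_cons.2 ⟨h1 b, fun x hx => ?_⟩)
      exact (hb x hx).trans (h1 x)
    · exact hs.map ρ fun _ _ h => hm h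

theorem Acyc_sorted {k : ℕ} (c : Ch Q k) : (List.ofFn c).Pairwise (· ≤ ·) :=
  List.pairwise_ofFn.2 fun _ _ h => c.monotone h.le

theorem Acyc_chain {k : ℕ} {l : List Q} (hs : l.Pairwise (· ≤ ·)) (hl : l.length = k + 1) :
    ∃ c : Ch Q k, List.ofFn c = l := by
  obtain ⟨f, rfl⟩ : ∃ f : Fin (k + 1) → Q, List.ofFn f = l := hl ▸ ⟨l.get, List.ofFn_get l⟩
  exact ⟨⟨f, monotone_iff_forall_lt.2 fun _ _ h => List.pairwise_ofFn.1 hs h⟩, rfl⟩

theorem Acyc_main {ρ : Q → Q} {a : Q} (hm : Monotone ρ) (h1 : ∀ q, q ≤ ρ q) (h2 : ∀ q, a ≤ ρ q)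
    {k : ℕ} (h : Ch Q k → ℚ)
    (hh : ∀ c : Ch Q (k + 1), ∑ i : Fin (k + 2), (-1) ^ (i : ℕ) * h (face c i) = 0) :
    ∃ G : List Q → ℚ, ∀ c : Ch Q k,
      h c = ∑ i : Fin (k + 1), (-1) ^ (i : ℕ) * G (List.ofFn fun j => c (i.succAbove j)) := by
  have hi : Injective fun c : Ch Q k => List.ofFn c :=
    List.ofFn_injective.comp DFunLike.coe_injective
  let F : List Q → ℚ := Function.extend (fun c : Ch Q k => List.ofFn c) h 0
  have hF : ∀ c : Ch Q k, F (List.ofFn c) = h c := fun c => hi.extend_apply h 0 c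
  have hd : ∀ m : List Q, m.Pairwise (· ≤ ·) → m.length = k + 2 → Acyc_d m F = 0 := by
    intro m k1 k2
    obtain ⟨c, rfl⟩ := Acyc_chain k1 k2
    rw [Acyc_ofFn, ← hh c]
    exact Finset.sum_congr rfl fun i _ => congrArg _ (hF (face c i))
  refine ⟨fun m => F (a :: m.map ρ) - Acyc_P ρ m F, fun c => ?_⟩
  have e1 := Acyc_prism ρ (List.ofFn c) F
  have e2 := Acyc_vanish hm h1 (List.ofFn c) (fun m => Acyc_d m F) (fun _ => True)
    (fun _ _ => trivial) (fun _ _ => trivial) (Acyc_sorted c)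
    fun m _ k1 k2 => hd m k1 (by simpa using k2)
  have e3 := hd (a :: (List.ofFn c).map ρ) (List.pairwise_cons.2
    ⟨List.forall_mem_map.2 fun x _ => h2 x, (Acyc_sorted c).map ρ fun _ _ h => hm h⟩) (by simp)
  rw [← Acyc_ofFn k c fun m => F (a :: m.map ρ) - Acyc_P ρ m F, Acyc_d_sub,
    Acyc_d_map ρ _ fun m => F (a :: m), ← hF c]
  rw [Acyc_d] at e3
  linear_combination e1 - e2 + e3

end

/- Proof. Work in the free abelian group on lists of elements of `Q` (`List Q →₀ ℤ`) with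
`∂ [] = 0`, `∂ (b :: l) = l - b :: ∂ l` (here `b :: -` is `Finsupp.mapDomain (List.cons b)`), and
`P [] = 0`, `P (b :: l) = b :: ρ b :: map ρ l - b :: P l`. Then `∂ ∂ = 0` is not needed;
`∂ P + P ∂ = map ρ - id` by induction on the list, and `K l = a :: map ρ l - P l` satisfies
`∂ K + K ∂ = id`. On a sorted list (`List.Pairwise (· ≤ ·)`) of length `n`, `P`, `K` are supported
on sorted lists of length `n + 1`, and `∂ (List.ofFn c) = ∑ i, (-1)^i • List.ofFn (face c i)`
(induction with `Fin.sum_univ_succ`). Extend a cochain `h` to a function on lists (value of `h` on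
sorted lists of the right length, else zero) and put `g c = h (K (ofFn c))`; for degree zero use
the empty list. Any other proof (for instance the prism operator on `Fin`) is welcome. -/
theorem acyc_of {Q : Type} [Preorder Q] (ρ : Q → Q) (a : Q) (hm : Monotone ρ) (h1 : ∀ q, q ≤ ρ q)
    (h2 : ∀ q, a ≤ ρ q) : Acyc Q := by
  refine ⟨⟨a⟩, fun h hh => ?_, fun k h hh => ?_⟩
  · obtain ⟨G, hG⟩ := Acyc_main hm h1 h2 h hh
    exact ⟨G [], fun c => by simp [hG c]⟩
  · obtain ⟨G, hG⟩ := Acyc_main hm h1 h2 h hh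
    exact ⟨fun c => G (List.ofFn c), hG⟩

end Pool.Agent.P.MP_824f38_ag.DB
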