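import Pool.Agent.P.MP_824f38_ag.H.Atom

/-! The algebra of the toric monoid. -/

set_option linter.unusedSectionVars false
set_option linter.style.haveILetI false

namespace Pool.Agent.P.MP_824f38_ag.DB

open Function

variable {ι : Type} [Fintype ι] [LinearOrder ι] (col : ι → Col)

/-- an interior weight -/
def m0 : ι → ℤ := fun i => if col i = .A then 3 else if col i = .C then 1 else 0

theorem m0_gam : Gam col ∅ (m0 col) ∅ := by
  refine ⟨fun i _ hi => ?_, fun i _ hi => ?_, fun i k _ _ hk => ?_⟩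
  · simp [m0, hi]
  · simp [m0, hi]
  · simp only [m0, wt, hk, if_true]
    split_ifs <;> norm_num

theorem m0_add_mem (i : ι) : m0 col + Pi.single i 1 ∈ PM col := by
  refine ⟨fun j hj => ?_, fun j k hk => ?_⟩
  · simp only [m0, Pi.add_apply, Pi.single_apply]
    split_ifs <;> norm_num
  · simp only [m0, wt, hk, if_true, Pi.add_apply, Pi.single_apply]
    split_ifs <;> norm_num

theorem PM_domain : IsDomain (MA (PM col)) := by
  exact Injective.isDomain (AddMonoidAlgebra.mapDomainAlgHom ℂ ℂ (PM col).subtype)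
    (AddMonoidAlgebra.mapDomain_injective Subtype.val_injective)

/-- weights of level `d` -/
def PMAlg_lev (d : ℕ) (m : ι → ℤ) : Prop :=
  (∀ i, col i = .C ∨ col i = .O → 0 ≤ m i) ∧ (∀ i, |m i| ≤ wt col i * d) ∧
    ∀ k, col k = .A → (d : ℤ) ≤ m k

theorem PMAlg_gen (d : ℕ) (m : ι → ℤ) (h : PMAlg_lev col d m) :
    m ∈ AddSubmonoid.closure ((PM col : Set (ι → ℤ)) ∩ Set.Icc (-1) 2) := by
  induction d generalizing m with
  | zero =>
    obtain rfl : m = 0 := funext fun i => by simpa using h.2.1 i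
    exact zero_mem _
  | succ d ih =>
    let g : ι → ℤ := fun i => if col i = .A then (if m i < 2 * (d + 1) then 1 else 2)
      else if 0 < m i then 1 else if m i < 0 then -1 else 0
    have h1 : ∀ i, col i = .C ∨ col i = .O → 0 ≤ g i ∧ 0 ≤ m i - g i := fun i hi => by
      have h2 := h.1 i hi
      have h3 : col i ≠ .A := by rcases hi with e | e <;> simp [e]
      simp only [g, if_neg h3]
      split_ifs <;> omega
    have h2 : ∀ i, |g i| ≤ wt col i ∧ |m i - g i| ≤ wt col i * d ∧ -1 ≤ g i ∧ g i ≤ 2 ∧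
        0 ≤ wt col i := fun i => by
      have h3 := abs_le.1 (h.2.1 i)
      have h4 := h.2.2 i
      simp only [g, wt, abs_le] at h3 ⊢
      push_cast at h3 h4
      by_cases hi : col i = .A
      · have h5 := h4 hi
        simp only [if_pos hi] at h3 ⊢
        split_ifs <;> omega
      · simp only [if_neg hi] at h3 ⊢
        split_ifs <;> omega
    have h3 : ∀ k, col k = .A → 1 ≤ g k ∧ (d : ℤ) ≤ m k - g k := fun k hk => by
      have h4 := h.2.2 k hk
      simp only [g, if_pos hk]
      push_cast at h4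
      split_ifs <;> omega
    rw [← add_sub_cancel g m]
    refine add_mem (AddSubmonoid.subset_closure ⟨⟨fun i hi => (h1 i hi).1, fun i k hk => ?_⟩,
      fun i => (h2 i).2.2.1, fun i => (h2 i).2.2.2.1⟩)
      (ih _ ⟨fun i hi => (h1 i hi).2, fun i => (h2 i).2.1, fun k hk => (h3 k hk).2⟩)
    exact (h2 i).1.trans (le_mul_of_one_le_right (h2 i).2.2.2.2 (h3 k hk).1)

theorem PMAlg_nonneg {m : ι → ℤ} (hm : m ∈ PM col) {k : ι} (hk : col k = .A) : 0 ≤ m k := by
  have h := (abs_nonneg _).trans (hm.2 k k hk)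
  simp only [wt, if_pos hk] at h
  omega

/- The monoid is generated by its finitely many elements with entries in `[-1, 2]`. Induct on
the least value `d` on the first kind: `d = 0` forces `m = 0`; else subtract `g i = 1` (kind A,
`m i < 2 d`), `2` (kind A, `m i = 2 d`), `sign (m i)` (other kinds). Then
`AddMonoidAlgebra.finiteType_of_fg`. -/
theorem PM_ft (hA : ∃ k, col k = .A) : Algebra.FiniteType ℂ (MA (PM col)) := by
  have : AddMonoid.FG (PM col) := by
    refine (AddMonoid.fg_iff_addSubmonoid_fg _).2 ((AddSubmonoid.fg_iff _).2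
      ⟨(PM col : Set (ι → ℤ)) ∩ Set.Icc (-1) 2, le_antisymm
        (AddSubmonoid.closure_le.2 Set.inter_subset_left) fun m hm => ?_,
        (Set.finite_Icc _ _).subset Set.inter_subset_right⟩)
    obtain ⟨k, hk, hmin⟩ := Finset.exists_min_image (Finset.univ.filter fun k => col k = .A) m
      (hA.imp fun k hk => by simpa using hk)
    have hk' := (Finset.mem_filter.1 hk).2
    have e := Int.toNat_of_nonneg (PMAlg_nonneg col hm hk')
    refine PMAlg_gen col (m k).toNat m ⟨hm.1, fun i => ?_, fun j hj => ?_⟩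
    · rw [e]
      exact hm.2 i k hk'
    · rw [e]
      exact hmin j (by simpa using hj)
  exact AddMonoidAlgebra.finiteType_of_fg ℂ _

/-- the exponents of the monomials in the chosen basis -/
noncomputable def PMAlg_phi : (ι →₀ ℕ) →+ PM col :=
  (Finsupp.linearCombination ℕ fun i =>
    (⟨m0 col + Pi.single i 1, m0_add_mem col i⟩ : PM col)).toAddMonoidHom

theorem PMAlg_phi_apply (c : ι →₀ ℕ) (j : ι) :
    (PMAlg_phi col c : ι → ℤ) j = (∑ i, (c i : ℤ)) * m0 col j + c j := by
  simp [PMAlg_phi, Finsupp.linearCombination_apply, Finsupp.sum_fintype,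
    Finset.sum_add_distrib, Finset.sum_mul, Pi.single_apply]

theorem PMAlg_sum : 0 ≤ ∑ i, m0 col i :=
  Finset.sum_nonneg fun i _ => by
    simp only [m0]
    split_ifs <;> norm_num

theorem PMAlg_phi_inj : Injective (PMAlg_phi col) := fun c c' h => by
  have h1 : ∀ j, (∑ i, (c i : ℤ)) * m0 col j + c j = (∑ i, (c' i : ℤ)) * m0 col j + c' j :=
    fun j => by rw [← PMAlg_phi_apply, ← PMAlg_phi_apply, h]
  have h2 := Finset.sum_congr (s₁ := Finset.univ) rfl fun j _ => h1 j
  simp only [Finset.sum_add_distrib, ← Finset.mul_sum, ← mul_add_one] at h2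
  have h3 := mul_right_cancel₀ (by have := PMAlg_sum col; omega) h2
  ext j
  have h4 := h1 j
  rw [h3] at h4
  omega

theorem PMAlg_rel (m : PM col) : ∃ (D : ℕ) (a b : ι →₀ ℕ), 0 < D ∧
    PMAlg_phi col a + D • m = PMAlg_phi col b := by
  obtain ⟨D, hD⟩ := Int.eq_ofNat_of_zero_le (PMAlg_sum col)
  let c : ι → ℤ := fun i => (D + 1) * m.1 i - (∑ j, m.1 j) * m0 col i
  have h1 : ∑ i, c i = ∑ j, m.1 j := by
    simp only [c, Finset.sum_sub_distrib, ← Finset.mul_sum, hD]
    ring
  refine ⟨D + 1, Finsupp.equivFunOnFinite.symm fun i => (-c i).toNat,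
    Finsupp.equivFunOnFinite.symm fun i => (c i).toNat, Nat.succ_pos _,
    Subtype.ext (funext fun j => ?_)⟩
  have h2 : ∑ i, ((c i).toNat : ℤ) = ∑ i, ((-c i).toNat : ℤ) + ∑ j, m.1 j := by
    rw [← h1, ← Finset.sum_add_distrib]
    exact Finset.sum_congr rfl fun i _ => by omega
  have h3 : ((c j).toNat : ℤ) = (-c j).toNat + c j := by omega
  rw [AddSubmonoid.coe_add, Pi.add_apply, PMAlg_phi_apply, PMAlg_phi_apply]
  simp only [Finsupp.equivFunOnFinite_symm_apply_apply, AddSubmonoidClass.coe_nsmul, Pi.smul_apply,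
    nsmul_eq_mul]
  rw [h2, h3]
  simp only [c]
  push_cast
  ring

/- `x i = chi (m0 + e i)`. With `D = 1 + ∑ m0 > 0` and `w i = m0 + e i`:
`D • m = ∑ (D * m i - ∑ m * ..)`, precisely `D • m = ∑ i, c i • w i` with
`c i = D * m i - (∑ m) * m0 i`, and `c ↦ ∑ c i • w i` is injective. Independence: `aeval x` is
`mapDomain` along an injective map; each `chi m` is algebraic over `adjoin (range x)` since
`chi m ^ D * ∏ x i ^ (c i)⁻ = ∏ x i ^ (c i)⁺`, and algebraic elements of a domain form a
subalgebra. -/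
theorem PM_basis : ∃ x : ι → MA (PM col), IsTranscendenceBasis ℂ x := by
  haveI := PM_domain col
  let x : ι → MA (PM col) := fun i => chi ⟨m0 col + Pi.single i 1, m0_add_mem col i⟩
  have h1 : MvPolynomial.aeval x = AddMonoidAlgebra.mapDomainAlgHom ℂ ℂ (PMAlg_phi col) :=
    MvPolynomial.algHom_ext fun i => by
      rw [MvPolynomial.aeval_X, MvPolynomial.X, ← MvPolynomial.single_eq_monomial,
        AddMonoidAlgebra.mapDomainAlgHom_apply, AddMonoidAlgebra.mapDomain_single]
      simp [x, chi, PMAlg_phi]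
  have h2 : ∀ a ∈ Algebra.adjoin ℂ (Set.range x),
      IsAlgebraic (Algebra.adjoin ℂ (Set.range x)) a := fun a ha =>
    isAlgebraic_algebraMap (⟨a, ha⟩ : Algebra.adjoin ℂ (Set.range x))
  have h3 : ∀ c, chi (PMAlg_phi col c) ∈ Algebra.adjoin ℂ (Set.range x) := fun c => by
    rw [Algebra.adjoin_range_eq_range_aeval, h1]
    exact ⟨AddMonoidAlgebra.single c 1, AddMonoidAlgebra.mapDomain_single⟩
  refine ⟨x, isTranscendenceBasis_iff_algebraicIndependent_isAlgebraic.2 ⟨?_, ⟨fun a => ?_⟩⟩⟩
  · rw [algebraicIndependent_iff_injective_aeval, h1]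
    exact AddMonoidAlgebra.mapDomain_injective (PMAlg_phi_inj col)
  · induction a using AddMonoidAlgebra.induction_on with
    | of m =>
      obtain ⟨D, a, b, hD, e⟩ := PMAlg_rel col m
      refine IsAlgebraic.of_pow hD (IsAlgebraic.of_mul (mem_nonZeroDivisors_of_ne_zero
        (AddMonoidAlgebra.single_ne_zero.2 one_ne_zero)) (h2 _ (h3 a)) ?_)
      have e' : chi (PMAlg_phi col a) * chi m ^ D = chi (PMAlg_phi col b) := by
        rw [← e, chi_add, chi, chi, chi, AddMonoidAlgebra.single_pow, one_pow]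
      exact e' ▸ h2 _ (h3 b)
    | add a b ha hb => exact ha.add hb
    | smul r a ha =>
      rw [Algebra.smul_def]
      exact (h2 _ (Subalgebra.algebraMap_mem _ r)).mul ha

/- The character `chi m ↦ if m = 0 then 1 else 0` (the monoid is pointed: `a + b = 0` forces
`a = 0` when a coordinate of the first kind exists) kills `IB`. -/
theorem IA_ne_top (hA : ∃ k, col k = .A) : IA col ≠ ⊤ := by
  obtain ⟨k, hk⟩ := hA
  let χ : Multiplicative (PM col) →* ℂ :=
    { toFun := fun m => 0 ^ ((Multiplicative.toAdd m).1 k).toNat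
      map_one' := by simp
      map_mul' := fun a b => by
        rw [toAdd_mul, AddSubmonoid.coe_add, Pi.add_apply, Int.toNat_add
          (PMAlg_nonneg col (Multiplicative.toAdd a).2 hk)
          (PMAlg_nonneg col (Multiplicative.toAdd b).2 hk), pow_add] }
  have h : IB col ≤ RingHom.ker (AddMonoidAlgebra.lift ℂ ℂ (PM col) χ) := by
    refine Ideal.span_le.2 ?_
    rintro _ ⟨m, hm, rfl⟩
    have h1 := (le_abs_self _).trans_lt (hm.2.2 k k (by simp) (by simp) hk)
    simp only [wt, if_pos hk] at h1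
    rw [SetLike.mem_coe, RingHom.mem_ker, chi, AddMonoidAlgebra.lift_single, one_smul]
    exact zero_pow (n := (m.1 k).toNat) (by omega)
  exact ne_top_of_le_ne_top (RingHom.ker_ne_top _) (inf_le_left.trans h)

/-- a function that vanishes exactly on the boundary -/
noncomputable def f0 : MA (PM col) :=
  chi ⟨m0 col, (m0_gam col).mem_PM⟩ * ∏ j ∈ Finset.univ.filter (fun j => col j ≠ .O),
    (chi ⟨m0 col + Pi.single j 1, m0_add_mem col j⟩ - chi ⟨m0 col, (m0_gam col).mem_PM⟩)

theorem f0_mem : f0 col ∈ IA col := by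
  refine (mem_IA col).2 ⟨Ideal.mul_mem_right _ _ (Ideal.subset_span ⟨_, m0_gam col, rfl⟩),
    fun j hj => ?_⟩
  rw [f0, map_mul, map_prod, Finset.prod_eq_zero (i := j) (by simpa using hj), mul_zero]
  rw [map_sub, sub_chi, sub_chi, sub_eq_zero]
  refine congrArg (AddMonoidAlgebra.single · 1) (funext fun i => ?_)
  by_cases h : i = j <;> simp [prj, h]

end Pool.Agent.P.MP_824f38_ag.DB
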