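import Pool.Agent.P.MP_824f38_ag.H.DescS
import Pool.Agent.P.MP_824f38_ag.H.PMAlg
import Pool.Agent.P.MP_824f38_ag.H.Acyc

/-! Descent at points of the pinched locus. -/

set_option linter.unusedSectionVars false
set_option linter.style.haveILetI false

namespace Pool.Agent.P.MP_824f38_ag.DB

open Function

variable {ι : Type} [Fintype ι] [LinearOrder ι] {col : ι → Col}

section Aux

variable (X : Res col) {V : Type} [CommRing V] [IsDomain V] [Algebra ℂ V]

theorem DescB_c0 {s : X.D → St} (h : X.ix.valid s) :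
    Cmp (CM (X.G (X.eps s)) ∅ ∅) (X.G (X.eps s)) (X.Is s) (X.Js s) :=
  cmp_CM (Finset.Subset.refl _) (Finset.empty_subset _) h.2.2.2

theorem DescB_cG {ε ε' : Fin X.K → St} (h : cle ε ε') : Cmp (CM (X.G ε) ∅ ∅) (X.G ε') ∅ ∅ :=
  cmp_CM (X.anti _ _ h) (Finset.Subset.refl _) fun _ hv => absurd hv (Finset.notMem_empty _)

theorem DescB_cP (ε : Fin X.K → St) : Cmp (PM col) (X.G ε) ∅ ∅ :=
  ⟨fun m hm v hv _ => X.nonneg _ v hv m hm, fun _ hv => absurd hv (Finset.notMem_empty _)⟩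

/-- the point of the chart under a point of a stratum -/
noncomputable def DescB_z {s : X.D → St} (h : X.ix.valid s) (y : MA (X.Q s) →ₐ[ℂ] V) :
    MA (CM (X.G (X.eps s)) ∅ ∅) →ₐ[ℂ] V := y.comp (tmap (DescB_c0 X h))

theorem DescB_z_inj {s : X.D → St} (h : X.ix.valid s) {y y' : MA (X.Q s) →ₐ[ℂ] V}
    (e : DescB_z X h y = DescB_z X h y') : y = y' := by
  refine AlgHom.ext fun a => ?_
  obtain ⟨b, rfl⟩ := tmap_surj (X.sign _) (DescB_c0 X h) a
  exact DFunLike.congr_fun e b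

theorem DescB_z_comp {s t : X.D → St} (hs : X.ix.valid s) (ht : X.ix.valid t) (h : cle s t)
    (y : MA (X.Q t) →ₐ[ℂ] V) : DescB_z X hs (y.comp (tmap (X.cmpQ ht h))) =
      (DescB_z X ht y).comp (tmap (DescB_cG X (X.eps_mono h))) := by
  have hc : Cmp (CM (X.G (X.eps s)) ∅ ∅) (X.G (X.eps t)) (X.Is t) (X.Js t) :=
    cmp_CM (X.anti _ _ (X.eps_mono h)) (Finset.empty_subset _) ht.2.2.2
  rw [DescB_z, DescB_z, AlgHom.comp_assoc, AlgHom.comp_assoc,
    tmap_comp _ (X.Is_mono h) (X.Js_mono h) _ hc,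
    tmap_comp _ (Finset.empty_subset _) (Finset.empty_subset _) _ hc]

open Classical in
/-- the deepest stratum of the chart `ε` through the point `z` -/
noncomputable def DescB_up (ε : Fin X.K → St) (z : MA (CM (X.G ε) ∅ ∅) →ₐ[ℂ] V) : X.D → St
  | .cut k => ε k
  | .ray b => if OnRay z (X.ray b) then none else some true
  | .col j => if col j ≠ .O ∧ OnCol z j then none else some true

theorem DescB_up_ray {ε : Fin X.K → St} {z : MA (CM (X.G ε) ∅ ∅) →ₐ[ℂ] V} {b : Fin X.r} :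
    DescB_up X ε z (.ray b) = none ↔ OnRay z (X.ray b) := by
  simp [DescB_up]

theorem DescB_up_col {ε : Fin X.K → St} {z : MA (CM (X.G ε) ∅ ∅) →ₐ[ℂ] V} {j : ι} :
    DescB_up X ε z (.col j) = none ↔ col j ≠ .O ∧ OnCol z j := by
  simp only [DescB_up]
  split_ifs with h
  · exact iff_of_true rfl h
  · exact iff_of_false (by simp) h

theorem DescB_up_ray' (ε : Fin X.K → St) (z : MA (CM (X.G ε) ∅ ∅) →ₐ[ℂ] V) (b : Fin X.r) :
    DescB_up X ε z (.ray b) ≠ some false := by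
  simp only [DescB_up]
  split_ifs <;> simp

theorem DescB_up_col' (ε : Fin X.K → St) (z : MA (CM (X.G ε) ∅ ∅) →ₐ[ℂ] V) (j : ι) :
    DescB_up X ε z (.col j) ≠ some false := by
  simp only [DescB_up]
  split_ifs <;> simp

theorem DescB_up_Is {ε : Fin X.K → St} {z : MA (CM (X.G ε) ∅ ∅) →ₐ[ℂ] V} {v : ι → ℤ}
    (h : v ∈ X.Is (DescB_up X ε z)) : OnRay z v := by
  obtain ⟨b, hb, rfl⟩ := X.mem_Is.mp h
  exact (DescB_up_ray X).mp hb

theorem DescB_up_valid (ε : Fin X.K → St) (z : MA (CM (X.G ε) ∅ ∅) →ₐ[ℂ] V) :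
    X.ix.valid (DescB_up X ε z) :=
  ⟨DescB_up_ray' X ε z, DescB_up_col' X ε z,
    fun _ hj => ((DescB_up_col X).mp (X.mem_Js.mp hj)).1, fun _ hv =>
      ⟨(DescB_up_Is X hv).1, fun _ hj => OnCol.val (X.sign ε)
        ((DescB_up_col X).mp (X.mem_Js.mp hj)).2 (DescB_up_Is X hv)⟩⟩

theorem DescB_cle {s t : X.D → St} (hs : X.ix.valid s) (ht : X.ix.valid t)
    (h0 : cle (X.eps s) (X.eps t)) (h1 : ∀ b, s (.ray b) = none → t (.ray b) = none)
    (h2 : ∀ j, s (.col j) = none → t (.col j) = none) : cle s t := by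
  have key : ∀ a b : St, a ≠ some false → b ≠ some false → (a = none → b = none) →
      a = b ∨ b = none := by
    rintro (_ | _ | _) (_ | _ | _) <;> simp
  intro θ
  cases θ with
  | cut k => exact h0 k
  | ray b => exact key _ _ (hs.1 b) (ht.1 b) (h1 b)
  | col j => exact key _ _ (hs.2.1 j) (ht.2.1 j) (h2 j)

theorem DescB_le_up {s : X.D → St} (h : X.ix.valid s) (y : MA (X.Q s) →ₐ[ℂ] V) :
    cle s (DescB_up X (X.eps s) (DescB_z X h y)) :=
  DescB_cle X h (DescB_up_valid X _ _) (cle_refl _)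
    (fun b hb => (DescB_up_ray X).mpr
      (onRay_of_factor (DescB_c0 X h) y (X.mem_Is.mpr ⟨b, hb, rfl⟩)))
    fun j hj => (DescB_up_col X).mpr ⟨h.2.2.1 j (X.mem_Js.mpr hj),
      onCol_of_factor (X.sign _) (DescB_c0 X h) y (X.mem_Js.mpr hj)⟩

theorem DescB_up_mono {ε ε' : Fin X.K → St} (h : cle ε ε')
    (z : MA (CM (X.G ε') ∅ ∅) →ₐ[ℂ] V) :
    cle (DescB_up X ε (z.comp (tmap (DescB_cG X h)))) (DescB_up X ε' z) :=
  DescB_cle X (DescB_up_valid X _ _) (DescB_up_valid X _ _) h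
    (fun _ hb => (DescB_up_ray X).mpr
      (OnRay.mono (X.dual ε) (X.anti _ _ h) _ z ((DescB_up_ray X).mp hb)))
    fun _ hj => (DescB_up_col X).mpr ⟨((DescB_up_col X).mp hj).1,
      OnCol.mono _ z ((DescB_up_col X).mp hj).2⟩

theorem DescB_factor (ε : Fin X.K → St) (z : MA (CM (X.G ε) ∅ ∅) →ₐ[ℂ] V) :
    ∃ y : MA (X.Q (DescB_up X ε z)) →ₐ[ℂ] V, DescB_z X (DescB_up_valid X ε z) y = z :=
  point_factor (X.sign ε) (DescB_c0 X (DescB_up_valid X ε z)) z (fun _ hv => DescB_up_Is X hv)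
    fun _ hj => ((DescB_up_col X).mp (X.mem_Js.mp hj)).2

theorem DescB_prj_empty (m : ι → ℤ) : prj ∅ m = m := by
  funext i
  simp [prj]

theorem DescB_bd (ε : Fin X.K → St) (z : MA (CM (X.G ε) ∅ ∅) →ₐ[ℂ] V)
    (hz : z (tmap (DescB_cP X ε) (f0 col)) = 0) : X.ix.bd (DescB_up X ε z) := by
  have he : ∀ m : PM col, ∀ v ∈ (∅ : Finset (ι → ℤ)), (m : ι → ℤ) ⬝ᵥ v = 0 :=
    fun _ _ hv => absurd hv (Finset.notMem_empty _)
  have hc := fun m : PM col => tmap_chi_pos (DescB_cP X ε) m (he m)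
  by_cases h0 : z (tmap (DescB_cP X ε) (chi ⟨m0 col, (m0_gam col).mem_PM⟩)) = 0
  · rw [hc] at h0
    obtain ⟨v, hv, hpos⟩ := exists_onRay (X.dual ε) z _ h0
    obtain ⟨b, rfl⟩ := X.ray_surj ε v hv.1 fun o ho e => by
      change 0 < prj ∅ (m0 col) ⬝ᵥ v at hpos
      rw [DescB_prj_empty, e] at hpos
      simp [m0, ho] at hpos
    exact ⟨.ray b, fun k => by simp, (DescB_up_ray X).mpr hv⟩
  · rw [f0, map_mul, map_mul, mul_eq_zero, map_prod, map_prod, Finset.prod_eq_zero_iff] at hz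
    obtain ⟨j, hj, hj0⟩ := hz.resolve_left h0
    rw [map_sub, map_sub, sub_eq_zero, hc, hc] at hj0
    rw [hc] at h0
    refine ⟨.col j, fun k => by simp, (DescB_up_col X).mpr
      ⟨(Finset.mem_filter.mp hj).2, _, _, ?_, hj0, h0⟩⟩
    change prj ∅ (m0 col + Pi.single j 1) = prj ∅ (m0 col) + Pi.single j 1
    rw [DescB_prj_empty, DescB_prj_empty]

end Aux

/- Proof by `acyc_of`. `a = (base, x ∘ l)` (over `x` by `sub_mem`); it is the only element over
`base` (`β_l`), and it is below every element over a boundary state. `ρ` fixes `a`. For an element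
`(st s, y)` let `z = y.comp (tmap _)` on the chart `CM (X.G (eps s)) ∅ ∅` and let `s'` have the
same cuts, `s' (ray b) = none` iff `OnRay z (X.ray b)`, `s' (col j) = none` iff
`col j ≠ O ∧ OnCol z j`, else `some true`. `s'` is valid (`OnCol.val`), `cle s s'`
(`onRay_of_factor`, `onCol_of_factor`), `point_factor` gives `y'` on `X.Q s'` (note
`eps s' = eps s` holds by `rfl`), and identities between points follow from `tmap_surj` and
`tmap_comp`. `s'` is a boundary state: `z` kills the image of `f0 col ∈ IA col ⊆ R`, so either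
`z (chi m0) = 0` (`exists_onRay`, `ray_surj`; `m0` vanishes on kind O) or `OnCol z j` for some `j`.
Monotonicity: `OnRay.mono`, `OnCol.mono`. -/
theorem Res.acyc_bd (X : Res col) (Pn : Pinch (MA (PM col)) (IA col))
    (hs : ∀ s, X.ix.valid s → Algebra.Smooth ℂ (MA (X.Q s))) {V : Type} [CommRing V] [IsDomain V]
    [Algebra ℂ V] (x : Pn.R →ₐ[ℂ] V)
    (hx : ∀ g : Pn.R, (g : MA (PM col)) ∈ IA col → x g = 0) : Acyc ((X.diag Pn hs).El x) := by
  have ha : (x.comp Pn.l).comp Pn.β = x := AlgHom.ext fun r => by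
    have h := hx (r - Pn.l (Pn.β r)) (Pn.sub_mem r)
    rw [map_sub, sub_eq_zero] at h
    exact h.symm
  let a : (X.diag Pn hs).El x := ⟨⟨.base, x.comp Pn.l⟩, ha⟩
  have hup : ∀ (s : X.D → St) (h : X.ix.valid s) (y : MA (X.Q s) →ₐ[ℂ] V)
      (y' : MA (X.Q (DescB_up X (X.eps s) (DescB_z X h y))) →ₐ[ℂ] V),
      DescB_z X (DescB_up_valid X _ _) y' = DescB_z X h y →
      y'.comp (tmap (X.cmpQ (DescB_up_valid X _ _) (DescB_le_up X h y))) = y := by
    intro s h y y' e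
    refine DescB_z_inj X h ?_
    rw [DescB_z_comp X h (DescB_up_valid X _ _) (DescB_le_up X h y), e]
    exact (congrArg _ (tmap_id _)).trans (AlgHom.comp_id _)
  have hex : ∀ q : (X.diag Pn hs).El x, ∃ q' : (X.diag Pn hs).El x, q ≤ q' ∧ a ≤ q' ∧
      (q.1.1 = .base → q' = a) ∧ ∀ (s : X.D → St) (h : X.ix.valid s) (y : MA (X.Q s) →ₐ[ℂ] V),
        q.1 = ⟨.st s h, y⟩ → ∃ y' : MA (X.Q (DescB_up X (X.eps s) (DescB_z X h y))) →ₐ[ℂ] V,
          DescB_z X (DescB_up_valid X _ _) y' = DescB_z X h y ∧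
            q'.1 = ⟨.st _ (DescB_up_valid X _ _), y'⟩ := by
    rintro ⟨⟨_ | ⟨s, h⟩, y⟩, hy⟩
    · refine ⟨a, ⟨trivial, ?_⟩, le_rfl, fun _ => rfl, fun s h y e => ?_⟩
      · change (x.comp Pn.l).comp (AlgHom.id ℂ _) = y
        rw [AlgHom.comp_id, ← hy]
        exact AlgHom.ext fun p => congrArg y (DFunLike.congr_fun Pn.β_l p)
      · cases e
    · obtain ⟨y', hy'⟩ := DescB_factor X (X.eps s) (DescB_z X h y)
      have h1 := hup s h y y' hy'
      have hle : (Ob.st s h : Ob X.ix) ≤ .st _ (DescB_up_valid X _ (DescB_z X h y)) :=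
        DescB_le_up X h y
      have h2 : y'.comp ((X.diag Pn hs).aug (.st _ (DescB_up_valid X _ (DescB_z X h y)))) = x := by
        rw [← (X.diag Pn hs).f_aug hle, ← hy]
        exact congrArg (fun w : MA (X.Q s) →ₐ[ℂ] V => w.comp (X.oAug Pn (.st s h))) h1
      have hb : X.ix.bd (DescB_up X (X.eps s) (DescB_z X h y)) := by
        refine DescB_bd X _ _ ?_
        have h3 := hx ⟨f0 col, Pn.mem_of _ (f0_mem col)⟩ (f0_mem col)
        rw [← hy] at h3
        rw [← h3]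
        exact congrArg y (DFunLike.congr_fun (tmap_comp (DescB_cP X _) (Finset.empty_subset _)
          (Finset.empty_subset _) (DescB_c0 X h) (X.cmpP h)) (f0 col))
      refine ⟨⟨⟨.st _ (DescB_up_valid X _ _), y'⟩, h2⟩, ⟨hle, h1⟩, ⟨hb, ?_⟩, fun e => ?_,
        fun s' h' y₁ e => ?_⟩
      · exact congrArg (fun w : Pn.R →ₐ[ℂ] V => w.comp Pn.l) h2
      · cases e
      · cases e
        exact ⟨y', hy', rfl⟩
  choose ρ h1 h2 h3 h4 using hex
  refine acyc_of ρ a ?_ h1 h2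
  rintro ⟨⟨_ | ⟨s, h⟩, y⟩, hy⟩ ⟨⟨_ | ⟨t, h'⟩, w⟩, hw⟩ ⟨hle, e⟩
  · rw [h3 _ rfl]
    exact h2 _
  · rw [h3 _ rfl]
    exact h2 _
  · exact False.elim hle
  · obtain ⟨y', e1, e2⟩ := h4 ⟨⟨.st s h, y⟩, hy⟩ s h y rfl
    obtain ⟨w', e3, e4⟩ := h4 ⟨⟨.st t h', w⟩, hw⟩ t h' w rfl
    have hst : cle s t := hle
    have e5 : DescB_z X h y = (DescB_z X h' w).comp (tmap (DescB_cG X (X.eps_mono hst))) := by
      rw [← DescB_z_comp X h h' hst]
      exact congrArg _ e.symm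
    have hc : cle (DescB_up X (X.eps s) (DescB_z X h y))
        (DescB_up X (X.eps t) (DescB_z X h' w)) := by
      rw [e5]
      exact DescB_up_mono X (X.eps_mono hst) _
    have e6 : w'.comp (tmap (X.cmpQ (DescB_up_valid X _ _) hc)) = y' := by
      refine DescB_z_inj X (DescB_up_valid X _ _) ?_
      rw [DescB_z_comp X _ (DescB_up_valid X _ _) hc, e1, e3]
      exact e5.symm
    generalize ρ ⟨⟨.st s h, y⟩, hy⟩ = q at e2 ⊢
    generalize ρ ⟨⟨.st t h', w⟩, hw⟩ = q' at e4 ⊢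
    obtain ⟨q, hq⟩ := q
    obtain ⟨q', hq'⟩ := q'
    cases e2
    cases e4
    exact ⟨hc, e6⟩

end Pool.Agent.P.MP_824f38_ag.DB
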