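import Pool.Agent.P.MP_824f38_ag.H.Chart

/-! Strata of smooth charts split as products of free monoids and lattices. -/

set_option linter.unusedSectionVars false
set_option linter.style.haveILetI false

namespace Pool.Agent.P.MP_824f38_ag.DB

open Function

variable {ι : Type} [Fintype ι] [LinearOrder ι] {G I : Finset (ι → ℤ)} {J : Finset ι}

/- Proof. Let `G'` be the `v ∈ G` killed by `J`, and `u v = prj J (dual vector of v)`, so
`u v ⬝ᵥ v' = δ` on `G'` (`prj_dot`). Generators: `u v` for `v ∈ G' \ I` (`Finset.equivFin`), and a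
basis `k` of the submodule `{m | m = 0 on J, m ⬝ᵥ v = 0 for v ∈ G'}` of `ι → ℤ`
(`Module.finBasis ℤ`; submodules of finite free modules over a PID are free). For `m ∈ CM G I J`,
`m - ∑ (m ⬝ᵥ v) • u v` lies in the submodule. Independence: pair with `v`. -/
theorem frame_CM (hd : HasDual G) (hv : Val G I J) : Nonempty (Frame (CM G I J)) := by
  classical
  choose! U hU using hd
  let A : Finset (ι → ℤ) := G.filter fun v => (∀ j ∈ J, v j = 0) ∧ v ∉ I
  let e : Fin A.card ≃ A := A.equivFin.symm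
  have hA : ∀ i, ((e i : ι → ℤ) ∈ G ∧ ∀ j ∈ J, (e i : ι → ℤ) j = 0) ∧ (e i : ι → ℤ) ∉ I :=
    fun i => by simpa only [A, Finset.mem_filter, and_assoc] using (e i).2
  let K : Submodule ℤ (ι → ℤ) :=
    { carrier := {m | (∀ j ∈ J, m j = 0) ∧ ∀ v ∈ G, (∀ j ∈ J, v j = 0) → m ⬝ᵥ v = 0}
      zero_mem' := ⟨fun _ _ => rfl, fun v _ _ => zero_dotProduct v⟩
      add_mem' := fun ha hb => ⟨fun j hj => by rw [Pi.add_apply, ha.1 j hj, hb.1 j hj, add_zero],
        fun v h1 h2 => by rw [add_dotProduct, ha.2 v h1 h2, hb.2 v h1 h2, add_zero]⟩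
      smul_mem' := fun c _ ha => ⟨fun j hj => by rw [Pi.smul_apply, ha.1 j hj, smul_zero],
        fun v h1 h2 => by rw [smul_dotProduct, ha.2 v h1 h2, smul_zero]⟩ }
  let b := Module.finBasis ℤ K
  let u : Fin A.card → ι → ℤ := fun i => prj J (U (e i))
  have hu : ∀ i, ∀ v ∈ G, (∀ j ∈ J, v j = 0) → u i ⬝ᵥ v = if v = e i then 1 else 0 :=
    fun i v h1 h2 => by
      rw [prj_dot _ h2, hU _ (hA i).1.1 v h1]
  have hJ : ∀ (c : Fin A.card → ℤ), ∀ j ∈ J, (∑ i, c i • u i) j = 0 := fun c j hj => by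
    simp [u, prj, hj]
  have h1 : ∀ (c : Fin A.card → ℤ) i, (∑ i, c i • u i) ⬝ᵥ e i = c i := fun c i => by
    rw [sum_dotProduct, Finset.sum_eq_single i]
    · rw [smul_dotProduct, hu i _ (hA i).1.1 (hA i).1.2, if_pos rfl, smul_eq_mul, mul_one]
    · intro i' _ hi
      rw [smul_dotProduct, hu i' _ (hA i).1.1 (hA i).1.2,
        if_neg fun h => hi (e.injective (Subtype.ext h)).symm, smul_zero]
    · exact fun h => absurd (Finset.mem_univ i) h
  have h2 : ∀ (c : Fin A.card → ℤ), ∀ v ∈ I, (∑ i, c i • u i) ⬝ᵥ v = 0 := fun c v h => by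
    rw [sum_dotProduct]
    refine Finset.sum_eq_zero fun i _ => ?_
    rw [smul_dotProduct, hu i v (hv v h).1 (hv v h).2,
      if_neg fun h' : v = e i => (hA i).2 (h' ▸ h), smul_zero]
  have h3 : ∀ v ∈ G, (∀ j ∈ J, v j = 0) → v ∈ I ∨ ∃ i, v = e i := fun v h h' =>
    or_iff_not_imp_left.2 fun hI => ⟨e.symm ⟨v, Finset.mem_filter.2 ⟨h, h', hI⟩⟩, by simp⟩
  have hK : ∀ d : _ → ℤ, ∑ i, d i • (b i : ι → ℤ) ∈ K := fun d =>
    K.sum_mem fun i _ => K.smul_mem _ (b i).2
  refine ⟨⟨_, _, u, fun i => b i, Fintype.linearIndependent_iff.2 fun g hg => ?_, fun m => ?_⟩⟩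
  · simp only [Fintype.sum_sum_type, Sum.elim_inl, Sum.elim_inr] at hg
    have h4 : ∀ i, g (.inl i) = 0 := fun i => by
      have := congrArg (· ⬝ᵥ (e i : ι → ℤ)) hg
      simp only [add_dotProduct, h1, zero_dotProduct] at this
      rwa [(hK _).2 _ (hA i).1.1 (hA i).1.2, add_zero] at this
    simp only [h4, zero_smul, Finset.sum_const_zero, zero_add] at hg
    rintro (i | i)
    exacts [h4 i, Fintype.linearIndependent_iff.1
      (b.linearIndependent.map' K.subtype K.ker_subtype) _ hg i]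
  · constructor
    · intro hm
      have h5 : m - ∑ i, (m ⬝ᵥ e i) • u i ∈ K := by
        refine ⟨fun j hj => by rw [Pi.sub_apply, hm.1 j hj, hJ _ j hj, sub_zero],
          fun v h h' => ?_⟩
        rw [sub_dotProduct]
        rcases h3 v h h' with hI | ⟨i, rfl⟩
        · rw [hm.2.2 v hI, h2 _ v hI, sub_zero]
        · rw [h1, sub_self]
      refine ⟨fun i => (m ⬝ᵥ e i).toNat, b.repr ⟨_, h5⟩, ?_⟩
      have h6 := congrArg K.subtype (b.sum_repr ⟨_, h5⟩)
      simp only [map_sum, map_smul, Submodule.subtype_apply] at h6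
      rw [h6, ← sub_eq_iff_eq_add, sub_sub_cancel]
      refine Finset.sum_congr rfl fun i _ => ?_
      rw [← natCast_zsmul, Int.toNat_of_nonneg (hm.2.1 _ (hA i).1.1 (hA i).1.2)]
    · rintro ⟨c, d, rfl⟩
      simp only [← natCast_zsmul]
      refine ⟨fun j hj => by rw [Pi.add_apply, hJ _ j hj, (hK d).1 j hj, add_zero],
        fun v h h' => ?_, fun v h => ?_⟩
      · rw [add_dotProduct, (hK d).2 v h h', add_zero]
        rcases h3 v h h' with hI | ⟨i, rfl⟩
        · rw [h2 _ v hI]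
        · rw [h1]
          exact Int.natCast_nonneg _
      · rw [add_dotProduct, (hK d).2 v (hv v h).1 (hv v h).2, h2 _ v h, add_zero]

theorem lat_CM (hv : Val G I J) {μ : ι → ℤ} (hμ : μ ∈ CM G I J) (w : ι → ℤ) :
    w ∈ Lat (CM G I J) μ ↔ (∀ j ∈ J, w j = 0) ∧
      ∀ v ∈ G, (∀ j ∈ J, v j = 0) → μ ⬝ᵥ v = 0 → w ⬝ᵥ v = 0 := by
  constructor
  · rintro ⟨N, h1, h2⟩
    refine ⟨fun j hj => ?_, fun v h h' h0 => ?_⟩
    · simpa [hμ.1 j hj] using h1.1 j hj
    · have h3 := h1.2.1 v h h'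
      have h4 := h2.2.1 v h h'
      rw [add_dotProduct, smul_dotProduct, h0, smul_zero] at h3
      rw [sub_dotProduct, smul_dotProduct, h0, smul_zero] at h4
      omega
  · rintro ⟨h1, h2⟩
    have key : ∀ v ∈ G, (∀ j ∈ J, v j = 0) →
        |w ⬝ᵥ v| ≤ ((∑ v ∈ G, (w ⬝ᵥ v).natAbs) • μ) ⬝ᵥ v := fun v h h' => by
      rw [smul_dotProduct, nsmul_eq_mul]
      rcases (hμ.2.1 v h h').eq_or_lt with h0 | h0
      · rw [h2 v h h' h0.symm, ← h0, mul_zero, abs_zero]
      · have h3 := Finset.single_le_sum (f := fun v => (w ⬝ᵥ v).natAbs)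
          (fun _ _ => Nat.zero_le _) h
        rw [Int.abs_eq_natAbs]
        exact (Int.ofNat_le.2 h3).trans (le_mul_of_one_le_right (Int.natCast_nonneg _) h0)
    have hI : ∀ v ∈ I, w ⬝ᵥ v = 0 := fun v h => h2 v (hv v h).1 (hv v h).2 (hμ.2.2 v h)
    refine ⟨∑ v ∈ G, (w ⬝ᵥ v).natAbs, ⟨fun j hj => ?_, fun v h h' => ?_, fun v h => ?_⟩,
      fun j hj => ?_, fun v h h' => ?_, fun v h => ?_⟩
    · rw [Pi.add_apply, Pi.smul_apply, hμ.1 j hj, h1 j hj, smul_zero, add_zero]
    · rw [add_dotProduct]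
      linarith [key v h h', neg_abs_le (w ⬝ᵥ v)]
    · rw [add_dotProduct, smul_dotProduct, hμ.2.2 v h, hI v h, smul_zero, add_zero]
    · rw [Pi.sub_apply, Pi.smul_apply, hμ.1 j hj, h1 j hj, smul_zero, sub_zero]
    · rw [sub_dotProduct]
      linarith [key v h h', le_abs_self (w ⬝ᵥ v)]
    · rw [sub_dotProduct, smul_dotProduct, hμ.2.2 v h, hI v h, smul_zero, sub_zero]

/- Backward: coefficients `c v = ∑ i, u v i • ξ i`; for `m = Pi.single i 1` both
`± (m - ∑ v, (m ⬝ᵥ v) • u v)` pair to zero with `G`. -/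
theorem inCone_iff {Γ : Type} [AddCommGroup Γ] [LinearOrder Γ] [IsOrderedAddMonoid Γ]
    (hd : HasDual G) (ξ : ι → Γ) :
    InCone G ξ ↔ ∀ m : ι → ℤ, (∀ v ∈ G, 0 ≤ m ⬝ᵥ v) → 0 ≤ ∑ i, m i • ξ i := by
  constructor
  · rintro ⟨c, hc, e⟩ m hm
    have : ∑ i, m i • ξ i = ∑ v ∈ G, (m ⬝ᵥ v) • c v := by
      simp only [e, Finset.smul_sum, dotProduct, Finset.sum_smul, mul_smul]
      exact Finset.sum_comm
    rw [this]
    exact Finset.sum_nonneg fun v hv => zsmul_nonneg (hc v) (hm v hv)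
  · intro h
    choose! U hU using hd
    let φ := Fintype.linearCombination ℤ ξ
    have hφ : ∀ m : ι → ℤ, (∀ v ∈ G, 0 ≤ m ⬝ᵥ v) → 0 ≤ φ m := h
    refine ⟨fun v => if v ∈ G then φ (U v) else 0, fun v => ?_, fun i => ?_⟩
    · dsimp only
      split_ifs with hv
      · refine hφ _ fun v' hv' => ?_
        rw [hU v hv v' hv']
        split_ifs <;> norm_num
      · exact le_rfl
    · have h0 : ∀ v' ∈ G, (Pi.single i 1 - ∑ v ∈ G, v i • U v) ⬝ᵥ v' = 0 := fun v' hv' => by
        rw [sub_dotProduct, single_dotProduct, one_mul, sum_dotProduct, Finset.sum_eq_single v']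
        · rw [smul_dotProduct, hU v' hv' v' hv', if_pos rfl, smul_eq_mul, mul_one, sub_self]
        · intro v hv hne
          rw [smul_dotProduct, hU v hv v' hv', if_neg hne.symm, smul_zero]
        · exact fun h => absurd hv' h
      have h1 := hφ _ fun v hv => (h0 v hv).ge
      have h2 := hφ (-_) fun v hv => by rw [neg_dotProduct, h0 v hv, neg_zero]
      rw [map_neg, neg_nonneg] at h2
      have h3 := le_antisymm h2 h1
      rw [map_sub, sub_eq_zero, map_sum, Fintype.linearCombination_apply_single, one_smul] at h3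
      rw [h3]
      exact Finset.sum_congr rfl fun v hv => by simp only [map_smul, if_pos hv]

theorem FrameCM_nat {M : Type} [CommMonoid M] {a : ℕ} (h : Multiplicative (Fin a → ℕ) →* M)
    (c : Fin a → ℕ) : h (.ofAdd c) = ∏ i, h (.ofAdd (Pi.single i 1)) ^ c i := by
  conv_lhs => rw [pi_eq_sum_univ' c, ofAdd_sum, map_prod]
  simp only [ofAdd_nsmul, map_pow]

theorem FrameCM_int {M : Type} [CommGroup M] {a : ℕ} (h : Multiplicative (Fin a → ℤ) →* M)
    (c : Fin a → ℤ) : h (.ofAdd c) = ∏ i, h (.ofAdd (Pi.single i 1)) ^ c i := by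
  conv_lhs => rw [pi_eq_sum_univ' c, ofAdd_sum, map_prod]
  simp only [ofAdd_zsmul, map_zpow]

theorem FrameCM_equiv {Q : AddSubmonoid (ι → ℤ)} (F : Frame Q) :
    Nonempty ((Fin F.a → ℕ) × (Fin F.e → ℤ) ≃+ Q) := by
  let φ : (Fin F.a → ℕ) × (Fin F.e → ℤ) →+ Q :=
    { toFun := fun p => ⟨∑ i, p.1 i • F.u i + ∑ i, p.2 i • F.k i, (F.mem _).2 ⟨_, _, rfl⟩⟩
      map_zero' := Subtype.ext (by simp)
      map_add' := fun p q => Subtype.ext (by
        simp only [Prod.fst_add, Prod.snd_add, Pi.add_apply, add_smul, Finset.sum_add_distrib,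
          AddSubmonoid.coe_add]
        abel) }
  refine ⟨AddEquiv.ofBijective φ ⟨fun p q h => ?_, fun m => ?_⟩⟩
  · have h1 := Fintype.linearIndependent_iffₛ.1 F.li (Sum.elim (fun i => (p.1 i : ℤ)) p.2)
      (Sum.elim (fun i => (q.1 i : ℤ)) q.2) (by
        simp only [Fintype.sum_sum_type, Sum.elim_inl, Sum.elim_inr, natCast_zsmul]
        exact congrArg Subtype.val h)
    exact Prod.ext (funext fun i => Int.natCast_inj.1 (h1 (.inl i))) (funext fun i => h1 (.inr i))
  · obtain ⟨c, d, h⟩ := (F.mem m).1 m.2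
    exact ⟨(c, d), Subtype.ext h.symm⟩

/- Proof. Formal smoothness by `Algebra.FormallySmooth.of_comp_surjective` (or
`iff_comp_surjective`): given `f : MA Q →ₐ B ⧸ 𝔟` with `𝔟 ^ 2 = ⊥`, lift `f (chi (u i))` to
`x i : B` and the units `f (chi (k i))` to units `y i : Bˣ` (a lift of a unit modulo a nilpotent
ideal is a unit: `IsNilpotent.isUnit_quotient_mk_iff`). The coordinates `(c, d)` of `m ∈ Q` are
unique by `li`, hence additive; send `m` to `∏ x i ^ c i * ∏ y i ^ d i` and use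
`AddMonoidAlgebra.lift`, `ma_ext`. Finite type: `Q` is generated by `u i`, `± k i`
(`AddMonoidAlgebra.finiteType_of_fg`), then `Algebra.FinitePresentation.of_finiteType`. -/
theorem Frame.smooth {Q : AddSubmonoid (ι → ℤ)} (F : Frame Q) : Algebra.Smooth ℂ (MA Q) := by
  obtain ⟨E⟩ := FrameCM_equiv F
  have hfg : AddMonoid.FG Q := AddMonoid.fg_of_surjective E.toAddMonoidHom E.surjective
  refine ⟨Algebra.FormallySmooth.of_comp_surjective fun B _ _ 𝔟 h𝔟 f => ?_,
    Algebra.FinitePresentation.of_finiteType.1 inferInstance⟩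
  let h₁ : Multiplicative (Fin F.a → ℕ) →* B ⧸ 𝔟 :=
    { toFun := fun c => f (chi (E (c.toAdd, 0)))
      map_one' := by rw [toAdd_one, Prod.mk_zero_zero, map_zero, chi_zero, map_one]
      map_mul' := fun c c' => by
        rw [← map_mul, ← chi_add, ← map_add, Prod.mk_add_mk, add_zero, toAdd_mul] }
  let h₂ : Multiplicative (Fin F.e → ℤ) →* B ⧸ 𝔟 :=
    { toFun := fun d => f (chi (E (0, d.toAdd)))
      map_one' := by rw [toAdd_one, Prod.mk_zero_zero, map_zero, chi_zero, map_one]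
      map_mul' := fun c c' => by
        rw [← map_mul, ← chi_add, ← map_add, Prod.mk_add_mk, add_zero, toAdd_mul] }
  choose x hx using fun i => Ideal.Quotient.mk_surjective (h₁ (.ofAdd (Pi.single i 1)))
  have hy : ∀ j, ∃ y : Bˣ, Units.map (Ideal.Quotient.mk 𝔟).toMonoidHom y =
      h₂.toHomUnits (.ofAdd (Pi.single j 1)) := fun j => by
    obtain ⟨y, hy⟩ := Ideal.Quotient.mk_surjective (h₂ (.ofAdd (Pi.single j 1)))
    obtain ⟨y, rfl⟩ : IsUnit y := (IsNilpotent.isUnit_quotient_mk_iff ⟨2, h𝔟⟩).1 (by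
      rw [hy]
      exact (h₂.toHomUnits (.ofAdd (Pi.single j 1))).isUnit)
    exact ⟨y, Units.ext hy⟩
  choose y hy using hy
  let g : Multiplicative Q →* B :=
    { toFun := fun m => (∏ i, x i ^ (E.symm m.toAdd).1 i) *
        ((∏ j, y j ^ (E.symm m.toAdd).2 j : Bˣ) : B)
      map_one' := by simp
      map_mul' := fun m m' => by
        simp only [toAdd_mul, map_add, Prod.fst_add, Prod.snd_add, Pi.add_apply, pow_add, zpow_add,
          Finset.prod_mul_distrib, Units.val_mul]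
        ring }
  refine ⟨AddMonoidAlgebra.lift ℂ B Q g, ma_ext fun m => ?_⟩
  obtain ⟨⟨c, d⟩, rfl⟩ := E.surjective m
  have e1 : f (chi (E (c, d))) = h₁ (.ofAdd c) * h₂.toHomUnits (.ofAdd d) := by
    change _ = f (chi (E (c, 0))) * f (chi (E (0, d)))
    rw [← map_mul, ← chi_add, ← map_add, Prod.mk_add_mk, add_zero, zero_add]
  have e2 : AddMonoidAlgebra.lift ℂ B Q g (chi (E (c, d))) =
      (∏ i, x i ^ c i) * ((∏ j, y j ^ d j : Bˣ) : B) := by
    rw [chi, AddMonoidAlgebra.lift_single, one_smul]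
    change (∏ i, x i ^ (E.symm (E (c, d))).1 i) *
      ((∏ j, y j ^ (E.symm (E (c, d))).2 j : Bˣ) : B) = _
    rw [E.symm_apply_apply]
  rw [AlgHom.comp_apply, e1, e2, FrameCM_nat h₁, FrameCM_int h₂.toHomUnits,
    Ideal.Quotient.mkₐ_eq_mk, map_mul, map_prod]
  simp only [map_pow, hx, ← hy, ← map_zpow, ← map_prod]
  rfl

end Pool.Agent.P.MP_824f38_ag.DB
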