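import Pool.Agent.P.MP_824f38_ag.H.DescV
import Pool.Agent.P.MP_824f38_ag.H.FrameCM
import Pool.Agent.P.MP_824f38_ag.H.Acyc

/-! Descent at points outside the pinched locus. -/

set_option linter.unusedSectionVars false
set_option linter.style.haveILetI false

namespace Pool.Agent.P.MP_824f38_ag.DB

open Function

variable {ι : Type} [Fintype ι] [LinearOrder ι] {col : ι → Col}

theorem DescT_eval {K : Type} [Field K] {t : ι → K} {m : ι → ℤ} (hm : ∀ i, t i = 0 → 0 ≤ m i)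
    {y : K} (h : y * ∏ i, t i ^ (-m i).toNat = ∏ i, t i ^ (m i).toNat) :
    y = ∏ i, t i ^ m i := by
  have h0 : ∏ i, t i ^ (-m i).toNat ≠ 0 := Finset.prod_ne_zero_iff.2 fun i _ => by
    by_cases hi : t i = 0
    · rw [Int.toNat_of_nonpos (neg_nonpos.2 (hm i hi)), pow_zero]
      exact one_ne_zero
    · exact pow_ne_zero _ hi
  refine mul_right_cancel₀ h0 (h.trans ?_)
  rw [← Finset.prod_mul_distrib]
  refine Finset.prod_congr rfl fun i _ => ?_
  rcases le_or_gt 0 (m i) with h1 | h1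
  · rw [Int.toNat_of_nonpos (neg_nonpos.2 h1), pow_zero, mul_one, ← zpow_natCast,
      Int.toNat_of_nonneg h1]
  · rw [Int.toNat_of_nonpos h1.le, pow_zero, ← zpow_natCast, Int.toNat_of_nonneg (by omega),
      ← zpow_add₀ fun e => h1.not_ge (hm i e), add_neg_cancel, zpow_zero]

theorem DescT_mul {K : Type} [Field K] {t : ι → K} {a b : ι → ℤ} (ha : ∀ i, t i = 0 → 0 ≤ a i)
    (hb : ∀ i, t i = 0 → 0 ≤ b i) :
    ∏ i, t i ^ (a + b) i = (∏ i, t i ^ a i) * ∏ i, t i ^ b i := by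
  rw [← Finset.prod_mul_distrib]
  refine Finset.prod_congr rfl fun i _ => zpow_add' ?_
  by_cases hi : t i = 0
  · have := ha i hi
    have := hb i hi
    omega
  · exact Or.inl hi

theorem DescT_prj (m : ι → ℤ) : prj ∅ m = m := by
  funext i
  simp [prj]

theorem DescT_tmap {Q : AddSubmonoid (ι → ℤ)} {G : Finset (ι → ℤ)} (h : Cmp Q G ∅ ∅) (m : Q)
    (hm : (m : ι → ℤ) ∈ CM G ∅ ∅) : tmap h (chi m) = chi ⟨m, hm⟩ := by
  rw [tmap_chi_pos h m (by simp)]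
  exact congrArg chi (Subtype.ext (DescT_prj _))

theorem DescT_le {Q : AddSubmonoid (ι → ℤ)} {G : Finset (ι → ℤ)} (h : Cmp Q G ∅ ∅) :
    Q ≤ CM G ∅ ∅ := fun m hm => ⟨by simp, h.1 m hm, by simp⟩

theorem DescT_nonneg {G : Finset (ι → ℤ)} {o : ι} (ho : Pi.single o 1 ∈ G) {m : ι → ℤ}
    (hm : m ∈ CM G ∅ ∅) : 0 ≤ m o := by
  simpa using hm.2.1 _ ho (by simp)

/-- A character of the monoid with values in `V` gives a point. -/
theorem DescT_point {V K : Type} [CommRing V] [Algebra ℂ V] [Field K] [Algebra V K]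
    (hi : Injective (algebraMap V K)) {Q : AddSubmonoid (ι → ℤ)} {t : ι → K}
    (h0 : ∀ m ∈ Q, ∀ i, t i = 0 → 0 ≤ m i)
    (h : ∀ m ∈ Q, ∃ v : V, algebraMap V K v = ∏ i, t i ^ m i) :
    ∃ y : MA Q →ₐ[ℂ] V, ∀ m : Q, algebraMap V K (y (chi m)) = ∏ i, t i ^ (m : ι → ℤ) i := by
  choose f hf using fun m : Q => h m m.2
  let F : Multiplicative Q →* V :=
    { toFun := fun m => f m.toAdd
      map_one' := hi (by rw [hf]; simp)
      map_mul' := fun a b => hi (by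
        rw [map_mul (algebraMap V K), hf, hf, hf]
        exact DescT_mul (h0 _ a.toAdd.2) (h0 _ b.toAdd.2)) }
  refine ⟨AddMonoidAlgebra.lift ℂ V Q F, fun m => ?_⟩
  rw [chi, AddMonoidAlgebra.lift_single, one_smul]
  exact hf m

/-- A point of the toric variety that is not in the boundary lifts to a least chart. -/
theorem Res.torus_point (X : Res col) {V : Type} [CommRing V] [IsDomain V] [ValuationRing V]
    [Algebra ℂ V] (z : MA (PM col) →ₐ[ℂ] V) (m₁ : PM col) (hm : Gam col ∅ m₁ ∅)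
    (hz : z (chi m₁) ≠ 0) (hc : ∀ ε, Cmp (PM col) (X.G ε) ∅ ∅) :
    ∃ (t : Fin X.K → St) (y : MA (CM (X.G t) ∅ ∅) →ₐ[ℂ] V), y.comp (tmap (hc t)) = z ∧
      ∀ ε (y' : MA (CM (X.G ε) ∅ ∅) →ₐ[ℂ] V), y'.comp (tmap (hc ε)) = z →
        cle ε t ∧ ∀ h : Cmp (CM (X.G ε) ∅ ∅) (X.G t) ∅ ∅, y.comp (tmap h) = y' := by
  let φ := IsScalarTower.toAlgHom ℂ V (FractionRing V)
  have hi : Injective (algebraMap V (FractionRing V)) := IsFractionRing.injective _ _
  obtain ⟨t, -, -, -, -, ht, H⟩ := torus_param (φ.comp z) m₁ hm fun e =>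
    hz (hi (e.trans (map_zero _).symm))
  have hO : ∀ i, t i = 0 → col i = .O := fun i hi => by_contra fun e => ht i e hi
  obtain ⟨Γ, _, _, _, ξ, lam, hl, hl1, -, hξ⟩ := exists_value_group (V := V) t
  have hP : ∀ m ∈ PM col, ∀ i, t i = 0 → 0 ≤ m i := fun m hm i hi => hm.1 i (Or.inr (hO i hi))
  have hz' : ∀ m : PM col, algebraMap V _ (z (chi m)) = ∏ i, t i ^ (m : ι → ℤ) i := fun m =>
    DescT_eval (hP m m.2) (H (PM col) le_rfl (φ.comp z) (fun _ => rfl) m)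
  obtain ⟨t₀, ht₀⟩ := X.top Γ ξ fun m hm => (hξ m (hP m hm)).2 ⟨_, hz' ⟨m, hm⟩⟩
  have hin := (ht₀ t₀).2 (cle_refl t₀)
  have hray : ∀ o, t o = 0 → Pi.single o 1 ∈ X.G t₀ := by
    intro o ho
    by_contra hn
    obtain ⟨c, hc0, hc1⟩ := hin
    have h1 := hl1 o ho
    rw [hc1, map_sum] at h1
    have h2 : ∑ v ∈ X.G t₀, lam (v o • c v) ≤ 0 := Finset.sum_nonpos fun v hv => by
      rw [map_zsmul, smul_eq_mul]
      refine mul_nonpos_of_nonpos_of_nonneg
        ((X.oinv t₀ v hv o (hO o ho)).resolve_left fun e => hn (e ▸ hv)) ?_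
      rw [← map_zero lam]
      exact hl (hc0 v)
    omega
  have h0 : ∀ m ∈ CM (X.G t₀) ∅ ∅, ∀ i, t i = 0 → 0 ≤ m i := fun m hm i hi =>
    DescT_nonneg (hray i hi) hm
  obtain ⟨y, hy⟩ := DescT_point hi h0 fun m hm => (hξ m (h0 m hm)).1
    ((inCone_iff (X.dual t₀) ξ).1 hin m fun v hv => hm.2.1 v hv (by simp))
  refine ⟨t₀, y, ma_ext fun m => hi ?_, fun ε y' hy' => ?_⟩
  · rw [AlgHom.comp_apply, DescT_tmap _ _ (DescT_le (hc t₀) m.2), hy, hz']
  · have H' := H _ (DescT_le (hc ε)) (φ.comp y') fun m => by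
      rw [← hy', AlgHom.comp_apply, AlgHom.comp_apply, AlgHom.comp_apply,
        DescT_tmap _ _ (DescT_le (hc ε) m.2)]
    have hray' : ∀ o, t o = 0 → Pi.single o 1 ∈ X.G ε := by
      intro o ho
      by_contra hn
      have h1 := H' ⟨-Pi.single o 1, by simp, fun v hv _ => by
        simpa using (X.oinv ε v hv o (hO o ho)).resolve_left fun e => hn (e ▸ hv), by simp⟩
      rw [Finset.prod_eq_zero (Finset.mem_univ o) (by simp [ho]), mul_zero,
        Finset.prod_eq_one fun i _ => by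
          rw [Int.toNat_of_nonpos (by by_cases e : i = o <;> simp [Pi.single_apply, e]),
            pow_zero]] at h1
      exact zero_ne_one h1
    have h1 : ∀ m ∈ CM (X.G ε) ∅ ∅, ∀ i, t i = 0 → 0 ≤ m i := fun m hm i hi =>
      DescT_nonneg (hray' i hi) hm
    have h2 : ∀ m : CM (X.G ε) ∅ ∅, algebraMap V _ (y' (chi m)) = ∏ i, t i ^ (m : ι → ℤ) i :=
      fun m => DescT_eval (h1 m m.2) (H' m)
    refine ⟨(ht₀ ε).1 ((inCone_iff (X.dual ε) ξ).2 fun m hm => ?_), fun h => ma_ext fun m => hi ?_⟩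
    · have h3 : m ∈ CM (X.G ε) ∅ ∅ := ⟨by simp, fun v hv _ => hm v hv, by simp⟩
      exact (hξ m (h1 m h3)).2 ⟨_, h2 ⟨m, h3⟩⟩
    · rw [AlgHom.comp_apply, DescT_tmap _ _ (DescT_le h m.2), hy, h2]

theorem DescT_gen (X : Res col) {V : Type} [CommRing V] [IsDomain V] [ValuationRing V]
    [Algebra ℂ V] (z : MA (PM col) →ₐ[ℂ] V) (m₁ : PM col) (hm : Gam col ∅ m₁ ∅)
    (hz : z (chi m₁) ≠ 0) : ∃ t : Fin X.K → St, ∀ I₀ J₀, I₀ = ∅ → J₀ = ∅ →
      ∀ h₀ : Cmp (PM col) (X.G t) I₀ J₀, ∃ y : MA (CM (X.G t) I₀ J₀) →ₐ[ℂ] V,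
        y.comp (tmap h₀) = z ∧ ∀ ε I J, I = ∅ → J = ∅ → ∀ (h₁ : Cmp (PM col) (X.G ε) I J)
          (y' : MA (CM (X.G ε) I J) →ₐ[ℂ] V), y'.comp (tmap h₁) = z →
          cle ε t ∧ ∀ h : Cmp (CM (X.G ε) I J) (X.G t) I₀ J₀, y.comp (tmap h) = y' := by
  obtain ⟨t, y, h1, h2⟩ := X.torus_point z m₁ hm hz fun ε =>
    ⟨fun m hm v hv _ => X.nonneg ε v hv m hm, fun v hv => absurd hv (by simp)⟩
  refine ⟨t, ?_⟩
  rintro _ _ rfl rfl h₀
  refine ⟨y, h1, ?_⟩
  rintro ε _ _ rfl rfl h₁ y' hy'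
  exact h2 ε y' hy'

/-- The points of the diagram over a point outside the pinched locus have a largest element. -/
theorem Res.acyc_torus (X : Res col) (Pn : Pinch (MA (PM col)) (IA col))
    (hs : ∀ s, X.ix.valid s → Algebra.Smooth ℂ (MA (X.Q s))) {V : Type} [CommRing V] [IsDomain V]
    [ValuationRing V] [Algebra ℂ V] (x : Pn.R →ₐ[ℂ] V) (g : Pn.R)
    (hg : (g : MA (PM col)) ∈ IA col) (hx : x g ≠ 0) : Acyc ((X.diag Pn hs).El x) := by
  obtain ⟨z, hz, hu⟩ := Pn.extend x g hg hx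
  have hzg : z g ≠ 0 := by rwa [← hz] at hx
  obtain ⟨m₁, hm, hm'⟩ : ∃ m₁ : PM col, Gam col ∅ m₁ ∅ ∧ z (chi m₁) ≠ 0 := by
    by_contra hn
    have : IB col ≤ RingHom.ker z := by
      refine Ideal.span_le.2 ?_
      rintro _ ⟨m, hm, rfl⟩
      exact by_contra fun e => hn ⟨m, hm, e⟩
    exact hzg (this ((mem_IA col).1 hg).1)
  obtain ⟨t, H⟩ := DescT_gen X z m₁ hm hm'
  let s₀ : X.D → St := fun θ => match θ with
    | .cut k => t k
    | _ => some true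
  have hI : X.Is s₀ = ∅ := Finset.eq_empty_of_forall_notMem fun v hv => by
    obtain ⟨a, ha, -⟩ := X.mem_Is.1 hv
    cases ha
  have hJ : X.Js s₀ = ∅ := Finset.eq_empty_of_forall_notMem fun j hj => by
    cases X.mem_Js.1 hj
  have hv : X.ix.valid s₀ := by
    refine ⟨fun a h => ?_, fun j h => ?_, fun j hj => ?_, fun v hv => ?_⟩
    · cases h
    · cases h
    · simp [hJ] at hj
    · simp [hI] at hv
  obtain ⟨y, hy, H'⟩ := H _ _ hI hJ (X.cmpP hv)
  let a : (X.diag Pn hs).El x := ⟨⟨.st s₀ hv, y⟩,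
    (congrArg (fun w => AlgHom.comp w Pn.R.val) hy).trans hz⟩
  refine acyc_of (fun _ => a) a monotone_const ?_ fun _ => le_rfl
  rintro ⟨⟨_ | ⟨s, h⟩, y'⟩, hy'⟩
  · refine absurd ?_ hx
    rw [← hy']
    change y' (Pn.β g) = 0
    rw [Pn.β_I g hg]
    exact map_zero y'
  · have hb : ¬ X.ix.bd s := fun hb => hx (by
      rw [← hy']
      change y' (tmap (X.cmpP h) g) = 0
      rw [X.tmap_IA h hb hg]
      exact map_zero y')
    have h1 : ∀ a, s (.ray a) ≠ none := fun a e => hb ⟨_, fun k => by simp, e⟩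
    have h2 : ∀ j, s (.col j) ≠ none := fun j e => hb ⟨_, fun k => by simp, e⟩
    have h3 : ∀ u : St, u ≠ none → u ≠ some false → u = some true := by decide
    obtain ⟨h4, h5⟩ := H' (X.eps s) (X.Is s) (X.Js s)
      (Finset.eq_empty_of_forall_notMem fun v hv => by
        obtain ⟨a, ha, -⟩ := X.mem_Is.1 hv
        exact h1 a ha)
      (Finset.eq_empty_of_forall_notMem fun j hj => h2 j (X.mem_Js.1 hj)) (X.cmpP h) y'
      (hu _ hy')
    have h6 : cle s s₀ := fun θ => match θ with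
      | .cut k => h4 k
      | .ray a => Or.inl (h3 _ (h1 a) (h.1 a))
      | .col j => Or.inl (h3 _ (h2 j) (h.2.1 j))
    exact ⟨h6, h5 (X.cmpQ hv h6)⟩

end Pool.Agent.P.MP_824f38_ag.DB
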