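import Pool.Agent.P.MP_824f38_ag.H.Cube

/-! Transport of cubes along isomorphisms and embeddings of directions. -/

set_option linter.unusedSectionVars false
set_option linter.style.haveILetI false

namespace Pool.Agent.P.MP_824f38_ag.DB

open Function

variable {Θ Θ' : Type} [Fintype Θ] [LinearOrder Θ] [Fintype Θ'] [LinearOrder Θ']
  {V V' : Type} [AddCommGroup V] [AddCommGroup V']

theorem CubeTr_d (C : CP Θ V) (C' : CP Θ V') (e : V ≃+ V') (hok : ∀ s, C'.ok s ↔ C.ok s)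
    (hr : ∀ t θ x, C.ok t → t θ = none → e (C.r θ x) = C'.r θ (e x)) (c : (Θ → St) → V)
    (t : Θ → St) : e (C.d c t) = C'.d (fun s => e (c s)) t := by
  unfold CP.d
  by_cases h : C.ok t
  · rw [if_pos h, if_pos ((hok t).2 h), map_sum]
    refine Finset.sum_congr rfl fun θ _ => ?_
    split_ifs with h1
    · rw [map_zsmul, hr t θ _ h h1, map_sub e]
    · exact map_zero e
  · rw [if_neg h, if_neg fun h1 => h ((hok t).1 h1), map_zero]

theorem CubeTr_ex (C : CP Θ V) (C' : CP Θ V') (e : V ≃+ V') (hok : ∀ s, C'.ok s ↔ C.ok s)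
    (hN : ∀ s x, e x ∈ C'.N s ↔ x ∈ C.N s)
    (hr : ∀ t θ x, C.ok t → t θ = none → e (C.r θ x) = C'.r θ (e x)) {q : ℕ} (h : C.Ex q) :
    C'.Ex q := by
  intro c h1 h2 h3
  obtain ⟨b, b1, b2, b3⟩ := h (fun s => e.symm (c s))
    (fun s => (hN s _).1 (by rw [e.apply_symm_apply]; exact h1 s))
    (fun s hs => by rw [h2 s hs, map_zero]) fun t => e.injective (by
      simp only [CubeTr_d C C' e hok hr, e.apply_symm_apply, map_zero]
      exact h3 t)
  exact ⟨fun s => e (b s), fun s => (hN s _).2 (b1 s), fun s hs => by simp only [b2 s hs, map_zero],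
    fun t => by rw [← CubeTr_d C C' e hok hr, b3, e.apply_symm_apply]⟩

theorem CP.congr (C : CP Θ V) (C' : CP Θ V') (e : V ≃+ V') (hok : ∀ s, C'.ok s ↔ C.ok s)
    (hN : ∀ s x, e x ∈ C'.N s ↔ x ∈ C.N s)
    (hr : ∀ t θ x, C.ok t → t θ = none → e (C.r θ x) = C'.r θ (e x)) :
    (C.Good → C'.Good) ∧ ∀ q, C.Ex q ↔ C'.Ex q := by
  refine ⟨fun h => ⟨fun s hs => ?_, fun t θ b x h1 h2 h3 => ?_, fun u w t h1 h2 h3 h4 => ?_,
    fun t θ θ' x h1 h2 h3 => ?_⟩, fun q => ⟨CubeTr_ex C C' e hok hN hr,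
      CubeTr_ex C' C e.symm (fun s => (hok s).symm) (fun s x => ?_) fun t θ x h1 h2 => ?_⟩⟩
  · refine (AddSubgroup.eq_bot_iff_forall _).2 fun x hx => ?_
    obtain ⟨y, rfl⟩ := e.surjective x
    rw [hN, h.bot s fun h1 => hs ((hok s).2 h1), AddSubgroup.mem_bot] at hx
    rw [hx, map_zero]
  · obtain ⟨y, rfl⟩ := e.surjective x
    rw [← hr t θ y ((hok t).1 h1) h2, hN]
    exact h.mem t θ b y ((hok t).1 h1) h2 ((hN _ _).1 h3)
  · exact (hok w).2 (h.conv u w t h1 h2 ((hok u).1 h3) ((hok t).1 h4))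
  · obtain ⟨y, rfl⟩ := e.surjective x
    have h4 := (hok t).1 h1
    rw [← hr t θ' y h4 h3, ← hr t θ _ h4 h2, ← hr t θ y h4 h2, ← hr t θ' _ h4 h3,
      h.comm t θ θ' y h4 h2 h3]
  · rw [← hN, e.apply_symm_apply]
  · rw [e.symm_apply_eq, hr t θ _ ((hok t).1 h1) h2, e.apply_symm_apply]

/- Proof. Extend a state `s'` of `Θ'` to `ext s' = Function.extend e s' (fun _ => some true)`.
Then `ext s' ∘ e = s'`, `ext (update s' θ a) = update (ext s') (e θ) a`, `cdeg` and `sg` are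
preserved, an admissible `s` is `ext (s ∘ e)`, and
`C.d c (ext t') = C'.d (c ∘ ext) t'`. Cochains of `C` vanish outside the range of `ext`. -/
theorem CP.reindex (e : Θ' ↪o Θ) (C : CP Θ V) (C' : CP Θ' V)
    (hb : ∀ s, ¬ C.ok s → C.N s = ⊥) (hb' : ∀ s, ¬ C'.ok s → C'.N s = ⊥)
    (hok : ∀ s, C.ok s ↔ (∀ θ, θ ∉ Set.range e → s θ = some true) ∧ C'.ok (s ∘ e))
    (hN : ∀ s, C.ok s → C.N s = C'.N (s ∘ e)) (hr : ∀ θ, C'.r θ = C.r (e θ)) (q : ℕ) :
    C.Ex q ↔ C'.Ex q := by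
  obtain ⟨X, x1, x2⟩ : ∃ X : (Θ' → St) → Θ → St, (∀ s θ, X s (e θ) = s θ) ∧
      ∀ s θ, θ ∉ Set.range e → X s θ = some true :=
    ⟨fun s => extend e s fun _ => some true, fun s θ => e.injective.extend_apply s _ θ,
      fun s θ h => extend_apply' _ _ _ h⟩
  have x3 : ∀ s, X s ∘ e = s := fun s => funext (x1 s)
  have inj : Injective X := fun s s' h => by rw [← x3 s, h, x3]
  have x4 : ∀ s θ a, X (update s θ a) = update (X s) (e θ) a := fun s θ a => funext fun θ' => by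
    by_cases h : θ' ∈ Set.range e
    · obtain ⟨θ', rfl⟩ := h
      rw [x1, update_apply, update_apply, x1]
      exact if_congr e.injective.eq_iff.symm rfl rfl
    · rw [x2 _ _ h, update_of_ne fun h1 => h ⟨θ, h1.symm⟩, x2 _ _ h]
  have x5 : ∀ s θ, X s θ = none → θ ∈ Set.range e := fun s θ h => by
    by_contra h1
    rw [x2 s θ h1] at h
    cases h
  have x6 : ∀ s, cdeg (X s) = cdeg s := fun s =>
    (Finset.card_bij (fun θ _ => e θ) (fun θ h => by simpa [x1] using h)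
      (fun _ _ _ _ h => e.injective h) fun θ h => by
        obtain ⟨θ, rfl⟩ := x5 s θ (Finset.mem_filter.1 h).2
        exact ⟨θ, by simpa [x1] using h, rfl⟩).symm
  have x7 : ∀ s θ, sg (X s) (e θ) = sg s θ := fun s θ => congrArg ((-1 : ℤ) ^ ·)
    (Finset.card_bij (fun θ _ => e θ) (fun θ h => by simpa [x1] using h)
      (fun _ _ _ _ h => e.injective h) fun θ h => by
        obtain ⟨θ, rfl⟩ := x5 s θ (Finset.mem_filter.1 h).2.2
        exact ⟨θ, by simpa [x1] using h, rfl⟩).symm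
  have x8 : ∀ s, C.ok (X s) ↔ C'.ok s := fun s => by
    rw [hok, x3]
    exact and_iff_right (x2 s)
  have x9 : ∀ s, C.N (X s) = C'.N s := fun s => by
    by_cases h : C'.ok s
    · rw [hN _ ((x8 s).2 h), x3]
    · rw [hb' s h, hb _ fun h1 => h ((x8 s).1 h1)]
  have out : ∀ s, (¬ ∃ s', X s' = s) → ¬ C.ok s := fun s h h1 => h ⟨s ∘ e, funext fun θ => by
    by_cases h2 : θ ∈ Set.range e
    · obtain ⟨θ, rfl⟩ := h2
      exact x1 _ _
    · rw [x2 _ _ h2, ((hok s).1 h1).1 θ h2]⟩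
  have hd : ∀ c t, C.d c (X t) = C'.d (fun s => c (X s)) t := fun c t => by
    unfold CP.d
    by_cases h : C'.ok t
    · rw [if_pos h, if_pos ((x8 t).2 h)]
      refine (Fintype.sum_of_injective e e.injective _ _ (fun θ h1 => if_neg fun h2 =>
        h1 (x5 t θ h2)) fun θ => ?_).symm
      simp only [x1, x4, x7, hr]
    · rw [if_neg h, if_neg fun h1 => h ((x8 t).1 h1)]
  have hd0 : ∀ c t, (¬ ∃ s', X s' = t) → C.d c t = 0 := fun c t h => if_neg (out t h)
  have up : ∀ (c : (Θ' → St) → V) (n : ℕ), (∀ s, c s ∈ C'.N s) → (∀ s, cdeg s ≠ n → c s = 0) →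
      ∃ b : (Θ → St) → V, (∀ s, b s ∈ C.N s) ∧ (∀ s, cdeg s ≠ n → b s = 0) ∧
        (fun s => b (X s)) = c := fun c n h1 h2 => by
    refine ⟨extend X c 0, fun s => ?_, fun s hs => ?_, funext fun s => inj.extend_apply c _ s⟩ <;>
      by_cases h : ∃ s', X s' = s
    · obtain ⟨s, rfl⟩ := h
      rw [inj.extend_apply, x9]
      exact h1 s
    · rw [extend_apply' _ _ _ h]
      exact zero_mem _
    · obtain ⟨s, rfl⟩ := h
      rw [inj.extend_apply]
      exact h2 s (x6 s ▸ hs)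
    · rw [extend_apply' _ _ _ h]
      rfl
  constructor
  · intro h c h1 h2 h3
    obtain ⟨c, c1, c2, rfl⟩ := up c _ h1 h2
    obtain ⟨b, b1, b2, b3⟩ := h c c1 c2 fun t => by
      by_cases h4 : ∃ s', X s' = t
      · obtain ⟨t, rfl⟩ := h4
        rw [hd, h3]
      · exact hd0 c t h4
    exact ⟨fun s => b (X s), fun s => x9 s ▸ b1 _, fun s hs => b2 _ ((x6 s).symm ▸ hs),
      fun t => by rw [← hd, b3]⟩
  · intro h c h1 h2 h3
    obtain ⟨b, b1, b2, b3⟩ := h (fun s => c (X s)) (fun s => x9 s ▸ h1 _)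
      (fun s hs => h2 _ ((x6 s).symm ▸ hs)) fun t => by rw [← hd, h3]
    obtain ⟨b, c1, c2, rfl⟩ := up b _ b1 b2
    refine ⟨b, c1, c2, fun t => ?_⟩
    by_cases h4 : ∃ s', X s' = t
    · obtain ⟨t, rfl⟩ := h4
      rw [hd, b3]
    · have := h1 t
      rw [hb t (out t h4), AddSubgroup.mem_bot] at this
      rw [hd0 b t h4, this]

end Pool.Agent.P.MP_824f38_ag.DB
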