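import Pool.Agent.P.MP_824f38_ag.H.Cube

/-! Elimination of one direction of a cube. -/

set_option linter.unusedSectionVars false
set_option linter.style.haveILetI false

namespace Pool.Agent.P.MP_824f38_ag.DB

open Function

variable {Θ : Type} [Fintype Θ] [LinearOrder Θ] {V : Type} [AddCommGroup V]

theorem Elim_sg_sq (t : Θ → St) (θ : Θ) (x : V) : sg t θ • sg t θ • x = x := by
  rw [smul_smul, sg, ← mul_pow, neg_mul_neg, one_mul, one_pow, one_smul]

theorem Elim_sg (t : Θ → St) {θ : Θ} (h : t θ = none) (b : Bool) (θ' : Θ) :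
    sg (update t θ (some b)) θ' = if θ < θ' then -sg t θ' else sg t θ' := by
  unfold sg
  split_ifs with h1
  · have e : (Finset.univ.filter fun x => x < θ' ∧ t x = none) =
        insert θ (Finset.univ.filter fun x => x < θ' ∧ update t θ (some b) x = none) := by
      ext x
      by_cases hx : x = θ
      · simp [hx, h, h1]
      · simp [hx]
    rw [e, Finset.card_insert_of_notMem (by simp), pow_succ]
    ring
  · congr 2
    ext x
    by_cases hx : x = θ
    · simp [hx, h1]
    · simp [hx]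

theorem Elim_cdeg {t : Θ → St} {θ : Θ} (h : t θ = none) (b : Bool) :
    cdeg (update t θ (some b)) + 1 = cdeg t := by
  unfold cdeg
  rw [← Finset.card_insert_of_notMem (a := θ) (by simp)]
  congr 1
  ext x
  by_cases hx : x = θ
  · simp [hx, h]
  · simp [hx]

theorem Elim_cdeg' {t : Θ → St} {θ : Θ} (h : t θ ≠ none) (b : Bool) :
    cdeg (update t θ (some b)) = cdeg t := by
  unfold cdeg
  congr 1
  ext x
  by_cases hx : x = θ
  · simp [hx, h]
  · simp [hx]

theorem Elim_upd {s : Θ → St} {θ : Θ} {a : St} (h : s θ = a) (b : St) :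
    update (update s θ b) θ a = s := by
  rw [update_idem, ← h, update_eq_self]

theorem Elim_zero {C : CP Θ V} (hG : C.Good) {s : Θ → St} {x : V} (hx : x ∈ C.N s)
    (h : ¬ C.ok s) : x = 0 := by
  rwa [hG.bot s h, AddSubgroup.mem_bot] at hx

theorem Elim_d_not {C : CP Θ V} (c : (Θ → St) → V) {t : Θ → St} (h : ¬ C.ok t) : C.d c t = 0 :=
  if_neg h

theorem Elim_d {C : CP Θ V} (c : (Θ → St) → V) {t : Θ → St} (h : C.ok t) :
    C.d c t = ∑ θ, if t θ = none then
      sg t θ • C.r θ (c (update t θ (some true)) - c (update t θ (some false))) else 0 :=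
  if_pos h

theorem Elim_d' {C : CP Θ V} (hG : C.Good) {c : (Θ → St) → V} (hc : ∀ s, c s ∈ C.N s)
    {w t : Θ → St} (hw : cle w t) (h : C.ok t) : C.d c w = ∑ θ, if w θ = none then
      sg w θ • C.r θ (c (update w θ (some true)) - c (update w θ (some false))) else 0 := by
  by_cases h1 : C.ok w
  · exact Elim_d c h1
  · rw [Elim_d_not c h1, eq_comm]
    refine Finset.sum_eq_zero fun θ _ => ite_eq_right_iff.2 fun h2 => ?_
    have h3 : ∀ a, c (update w θ a) = 0 := fun a =>
      Elim_zero hG (hc _) fun h3 => h1 (hG.conv _ _ _ (cle_update h2 a) hw h3 h)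
    rw [h3, h3, sub_self, map_zero, smul_zero]

/- Koszul signs: for `θ ≠ θ'` both zero in `t`,
`sg t θ * sg (update t θ (some b)) θ' = - (sg t θ' * sg (update t θ' (some b')) θ)`. Use `conv`
(between `update (update t θ b) θ' b'`, where `c ≠ 0` forces `ok`, and `t`) and `comm`. -/
theorem CP.d_d {C : CP Θ V} (hG : C.Good) (c : (Θ → St) → V) (hc : ∀ s, c s ∈ C.N s)
    (t : Θ → St) : C.d (C.d c) t = 0 := by
  by_cases ht : C.ok t
  swap
  · exact Elim_d_not _ ht
  obtain ⟨A, hA⟩ : ∃ A : Θ × Θ → V, A = fun p => if t p.1 = none ∧ t p.2 = none ∧ p.1 ≠ p.2 then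
      (sg t p.1 * if p.1 < p.2 then -sg t p.2 else sg t p.2) • C.r p.1 (C.r p.2
        ((c (update (update t p.1 (some true)) p.2 (some true)) -
          c (update (update t p.1 (some true)) p.2 (some false))) -
        (c (update (update t p.1 (some false)) p.2 (some true)) -
          c (update (update t p.1 (some false)) p.2 (some false))))) else 0 := ⟨_, rfl⟩
  have h1 : C.d (C.d c) t = ∑ p, A p := by
    rw [Elim_d _ ht, Fintype.sum_prod_type]
    refine Finset.sum_congr rfl fun θ _ => ?_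
    by_cases h : t θ = none
    · rw [if_pos h, Elim_d' hG hc (cle_update h _) ht, Elim_d' hG hc (cle_update h _) ht,
        ← Finset.sum_sub_distrib, map_sum, Finset.smul_sum]
      refine Finset.sum_congr rfl fun θ' _ => ?_
      by_cases e : θ' = θ
      · simp [hA, e]
      · rw [update_of_ne e, update_of_ne e, Elim_sg t h, Elim_sg t h, hA]
        by_cases h' : t θ' = none
        · simp only [h, h', if_true, true_and, if_pos (Ne.symm e)]
          rw [← smul_sub, ← map_sub, map_zsmul, smul_smul]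
        · simp [h']
    · simp [hA, h]
  rw [h1]
  refine Finset.sum_ninvolution Prod.swap (fun p => ?_) (fun p h e => h ?_) (by simp) (by simp)
  · obtain ⟨θ, θ'⟩ := p
    simp only [hA, Prod.swap_prod_mk]
    by_cases h : t θ = none ∧ t θ' = none ∧ θ ≠ θ'
    · rw [if_pos h, if_pos (show t θ' = none ∧ t θ = none ∧ θ' ≠ θ from ⟨h.2.1, h.1, h.2.2.symm⟩),
        hG.comm t θ' θ _ ht h.2.1 h.1]
      simp only [update_comm h.2.2.symm]
      rw [sub_sub_sub_comm, ← add_smul]
      convert zero_smul ℤ _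
      rcases lt_or_gt_of_ne h.2.2 with e | e
      · rw [if_pos e, if_neg e.not_gt]
        ring
      · rw [if_pos e, if_neg e.not_gt]
        ring
    · rw [if_neg h, if_neg fun h' => h ⟨h'.2.1, h'.1, h'.2.2.symm⟩, add_zero]
  · rw [hA]
    exact if_neg fun h' => h'.2.2 (congrArg Prod.snd e)

theorem CP.d_mem {C : CP Θ V} (hG : C.Good) (c : (Θ → St) → V) (hc : ∀ s, c s ∈ C.N s)
    (t : Θ → St) : C.d c t ∈ C.N t := by
  by_cases ht : C.ok t
  · rw [Elim_d c ht]
    refine sum_mem fun θ _ => ?_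
    split_ifs with h
    · rw [map_sub]
      exact zsmul_mem (sub_mem (hG.mem t θ _ _ ht h (hc _)) (hG.mem t θ _ _ ht h (hc _))) _
    · exact zero_mem _
  · rw [Elim_d_not c ht]
    exact zero_mem _

theorem Elim_d_add (C : CP Θ V) (c c' : (Θ → St) → V) (t : Θ → St) :
    C.d (fun s => c s + c' s) t = C.d c t + C.d c' t := by
  by_cases h : C.ok t
  · rw [Elim_d _ h, Elim_d _ h, Elim_d _ h, ← Finset.sum_add_distrib]
    refine Finset.sum_congr rfl fun θ _ => ?_
    split_ifs
    · rw [← smul_add, ← map_add, add_sub_add_comm]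
    · rw [add_zero]
  · rw [Elim_d_not _ h, Elim_d_not _ h, Elim_d_not _ h, add_zero]

theorem Elim_d_sub (C : CP Θ V) (c c' : (Θ → St) → V) (t : Θ → St) :
    C.d (fun s => c s - c' s) t = C.d c t - C.d c' t := by
  rw [eq_sub_iff_add_eq, ← Elim_d_add]
  simp only [sub_add_cancel]

theorem Elim_d_deg (C : CP Θ V) {c : (Θ → St) → V} {n : ℕ} (h : ∀ s, cdeg s + 1 ≠ n → c s = 0)
    (t : Θ → St) (ht : cdeg t ≠ n) : C.d c t = 0 := by
  refine (em (C.ok t)).elim (fun ho => ?_) (Elim_d_not c)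
  rw [Elim_d c ho]
  refine Finset.sum_eq_zero fun θ _ => ite_eq_right_iff.2 fun h1 => ?_
  rw [h _ (by rwa [Elim_cdeg h1]), h _ (by rwa [Elim_cdeg h1]), sub_self, map_zero, smul_zero]

theorem Elim_d_one {C : CP Θ V} {c : (Θ → St) → V} {θ : Θ} (hc : ∀ s, s θ = none → c s = 0)
    {t : Θ → St} (ht : t θ = none) (h : C.ok t) : C.d c t =
      sg t θ • C.r θ (c (update t θ (some true)) - c (update t θ (some false))) := by
  rw [Elim_d c h, Finset.sum_eq_single θ (fun θ' _ h1 => ite_eq_right_iff.2 fun _ => ?_) (by simp),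
    if_pos ht]
  rw [hc _ (by rwa [update_of_ne h1.symm]), hc _ (by rwa [update_of_ne h1.symm]), sub_self,
    map_zero, smul_zero]

/-- the subcomplex -/
def Elim_K (C : CP Θ V) (θ : Θ) (c : (Θ → St) → V) : Prop :=
  (∀ s, c s ∈ C.N s) ∧ (∀ s, s θ = none → c s = 0) ∧ ∀ t, t θ = none → C.d c t = 0

theorem Elim_K.r {C : CP Θ V} {θ : Θ} {c : (Θ → St) → V} (h : Elim_K C θ c) {s : Θ → St}
    (hs : s θ = some true) (ho : C.ok (update s θ none)) :
    C.r θ (c s - c (update s θ (some false))) = 0 := by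
  have h1 := h.2.2 _ (update_self θ none s)
  rw [Elim_d_one h.2.1 (update_self θ none s) ho, Elim_upd hs, update_idem] at h1
  rw [← Elim_sg_sq (update s θ none) θ (C.r θ _), h1, smul_zero]

theorem Elim_lift {C : CP Θ V} (hG : C.Good) {θ : Θ}
    (H : ∀ t y, t θ = none → y ∈ C.N t → ∃ x : Bool → V,
      (∀ b, x b ∈ C.N (update t θ (some b))) ∧ C.r θ (x true - x false) = y)
    {c : (Θ → St) → V} (hc : ∀ s, c s ∈ C.N s) {n : ℕ} (hn : ∀ s, cdeg s ≠ n → c s = 0) :
    ∃ b : (Θ → St) → V, (∀ s, b s ∈ C.N s) ∧ (∀ s, cdeg s + 1 ≠ n → b s = 0) ∧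
      ∀ t, t θ = none → C.d b t = c t := by
  have h1 : ∀ t : Θ → St, ∃ x : Bool → V, t θ = none → (∀ b, x b ∈ C.N (update t θ (some b))) ∧
      C.r θ (x true - x false) = sg t θ • c t ∧ (c t = 0 → ∀ b, x b = 0) := fun t => by
    by_cases ht : t θ = none
    · by_cases h0 : c t = 0
      · exact ⟨0, fun _ => ⟨fun _ => zero_mem _, by simp [h0], fun _ _ => rfl⟩⟩
      · obtain ⟨x, h1, h2⟩ := H t _ ht (zsmul_mem (hc t) (sg t θ))
        exact ⟨x, fun _ => ⟨h1, h2, fun h => absurd h h0⟩⟩
    · exact ⟨0, fun h => absurd h ht⟩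
  choose x hx using h1
  refine ⟨fun s => (s θ).elim 0 (x (update s θ none)), fun s => ?_, fun s hs => ?_, fun t ht => ?_⟩
  · rcases h : s θ with _ | b
    · simp only [h, Option.elim_none]
      exact zero_mem _
    · have := (hx _ (update_self θ none s)).1 b
      rw [Elim_upd h] at this
      simpa only [h, Option.elim_some] using this
  · rcases h : s θ with _ | b
    · simp only [h, Option.elim_none]
    · simp only [h, Option.elim_some]
      refine (hx _ (update_self θ none s)).2.2 (hn _ ?_) b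
      rwa [← Elim_cdeg (update_self θ none s) b, Elim_upd h]
  · by_cases ho : C.ok t
    · rw [Elim_d_one (fun s hs => by simp only [hs, Option.elim_none]) ht ho]
      simp only [update_self, Option.elim_some, Elim_upd ht]
      rw [(hx t ht).2.1, Elim_sg_sq]
    · rw [Elim_d_not _ ho, Elim_zero hG (hc t) ho]

theorem Elim_res {C C' : CP Θ V} {θ : Θ} (hr : C'.r = C.r)
    (hok : ∀ s, C'.ok s ↔ C.ok s ∧ s θ = some true) {c c' : (Θ → St) → V}
    (h : ∀ s, s θ = some true → c s = c' s) {t : Θ → St} (ht : t θ = some true) :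
    C'.d c' t = C.d c t := by
  by_cases ho : C.ok t
  · rw [Elim_d _ ho, Elim_d _ ((hok t).2 ⟨ho, ht⟩), hr]
    refine Finset.sum_congr rfl fun θ' _ => ?_
    split_ifs with h1
    · have h2 : θ ≠ θ' := fun e => by simp [← e, ht] at h1
      rw [h _ (by rwa [update_of_ne h2]), h _ (by rwa [update_of_ne h2])]
    · rfl
  · rw [Elim_d_not _ ho, Elim_d_not _ fun h1 => ho ((hok t).1 h1).1]

theorem Elim_main {C C' : CP Θ V} (hG : C.Good) {θ : Θ} (hr : C'.r = C.r)
    (hok : ∀ s, C'.ok s ↔ C.ok s ∧ s θ = some true) (hN' : ∀ s, s θ ≠ some true → C'.N s = ⊥)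
    (H : ∀ t y, t θ = none → y ∈ C.N t → ∃ x : Bool → V,
      (∀ b, x b ∈ C.N (update t θ (some b))) ∧ C.r θ (x true - x false) = y)
    (h1 : ∀ c, Elim_K C θ c → ∀ s, s θ = some true → c s ∈ C'.N s)
    (h2 : ∀ c c', Elim_K C θ c → Elim_K C θ c' → (∀ s, s θ = some true → c s = c' s) →
      ∀ s, s θ = some false → c s = c' s)
    (h3 : ∀ (c' : (Θ → St) → V) (n : ℕ), (∀ s, c' s ∈ C'.N s) → (∀ s, cdeg s ≠ n → c' s = 0) →
      ∃ c, Elim_K C θ c ∧ (∀ s, cdeg s ≠ n → c s = 0) ∧ ∀ s, s θ = some true → c s = c' s)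
    (q : ℕ) : C.Ex q ↔ C'.Ex q := by
  have inj : ∀ c c', Elim_K C θ c → Elim_K C θ c' → (∀ s, s θ = some true → c s = c' s) →
      ∀ s, c s = c' s := fun c c' hc hc' h s => by
    rcases e : s θ with _ | _ | _
    · rw [hc.2.1 s e, hc'.2.1 s e]
    · exact h2 c c' hc hc' h s e
    · exact h s e
  have dK : ∀ c, Elim_K C θ c → Elim_K C θ (C.d c) := fun c hc =>
    ⟨CP.d_mem hG c hc.1, hc.2.2, fun t _ => CP.d_d hG c hc.1 t⟩
  have zK : Elim_K C θ fun _ => 0 := ⟨fun _ => zero_mem _, fun _ _ => rfl, fun t _ => by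
    simpa using Elim_d_sub C (fun _ => 0) (fun _ => 0) t⟩
  have res : ∀ c, Elim_K C θ c → ∀ s, (if s θ = some true then c s else 0) ∈ C'.N s :=
    fun c hc s => by
      split_ifs with e
      exacts [h1 c hc s e, zero_mem _]
  have off : ∀ (c : (Θ → St) → V) t, t θ ≠ some true → C'.d c t = 0 := fun c t e =>
    Elim_d_not c fun h => e ((hok t).1 h).2
  refine ⟨fun h c' a1 a2 a3 => ?_, fun h c a1 a2 a3 => ?_⟩
  · obtain ⟨c, hc, b1, b2⟩ := h3 c' _ a1 a2
    obtain ⟨b, b3, b4, b5⟩ := h c hc.1 b1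
      (inj _ _ (dK c hc) zK fun s hs => by rw [← Elim_res hr hok b2 hs, a3])
    obtain ⟨b', b6, b7, b8⟩ := Elim_lift hG H b3 b4
    have b9 : ∀ t, C.d (fun s => b s - C.d b' s) t = c t := fun t => by
      rw [Elim_d_sub, CP.d_d hG b' b6, sub_zero, b5]
    have hb : Elim_K C θ fun s => b s - C.d b' s :=
      ⟨fun s => sub_mem (b3 s) (CP.d_mem hG b' b6 s), fun s hs => sub_eq_zero.2 (b8 s hs).symm,
        fun t ht => by rw [b9, hc.2.1 t ht]⟩
    refine ⟨_, res _ hb, fun s hs => ?_, fun t => ?_⟩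
    · rw [b4 s hs, Elim_d_deg C b7 s hs, sub_self, ite_self]
    · by_cases e : t θ = some true
      · rw [Elim_res hr hok (c := fun s => b s - C.d b' s) (fun s hs => (if_pos hs).symm) e, b9,
          b2 t e]
      · have := a1 t
        rw [hN' t e, AddSubgroup.mem_bot] at this
        rw [off _ t e, this]
  · obtain ⟨b', b6, b7, b8⟩ := Elim_lift hG H a1 a2
    have b9 : ∀ t, C.d (fun s => c s - C.d b' s) t = 0 := fun t => by
      rw [Elim_d_sub, CP.d_d hG b' b6, sub_zero, a3]
    have hc : Elim_K C θ fun s => c s - C.d b' s :=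
      ⟨fun s => sub_mem (a1 s) (CP.d_mem hG b' b6 s), fun s hs => sub_eq_zero.2 (b8 s hs).symm,
        fun t _ => b9 t⟩
    obtain ⟨e', b1, b2, b3⟩ := h _ (res _ hc)
      (fun s hs => by rw [a2 s hs, Elim_d_deg C b7 s hs, sub_self, ite_self]) fun t => by
        by_cases e : t θ = some true
        · rw [Elim_res hr hok (c := fun s => c s - C.d b' s) (fun s hs => (if_pos hs).symm) e, b9]
        · exact off _ t e
    obtain ⟨b, hb, b4, b5⟩ := h3 e' _ b1 b2
    refine ⟨fun s => b s + b' s, fun s => add_mem (hb.1 s) (b6 s), fun s hs => ?_, fun t => ?_⟩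
    · simp only [b4 s hs, b7 s fun e => hs (Nat.succ_injective e), add_zero]
    · rw [Elim_d_add, inj _ _ (dK b hb) hc (fun s hs => ?_) t, sub_add_cancel]
      rw [← Elim_res hr hok b5 hs, b3, if_pos hs]

theorem Elim_good {C C' : CP Θ V} (hG : C.Good) {θ : Θ} (hr : C'.r = C.r)
    (hok : ∀ s, C'.ok s ↔ C.ok s ∧ s θ = some true) (hN' : ∀ s, s θ ≠ some true → C'.N s = ⊥)
    (hN : ∀ s, s θ = some true → C'.N s ≤ C.N s)
    (hm : ∀ t θ' b x, C.ok t → t θ = some true → θ ≠ θ' → t θ' = none →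
      x ∈ C'.N (update t θ' (some b)) → C.r θ' x ∈ C'.N t) : C'.Good := by
  refine ⟨fun s hs => ?_, fun t θ' b x ht h1 hx => ?_, fun u w t h1 h2 hu ht => ?_,
    fun t θ₁ θ₂ x ht h1 h2 => ?_⟩
  · by_cases e : s θ = some true
    · exact eq_bot_iff.2 ((hN s e).trans (hG.bot s fun h => hs ((hok s).2 ⟨h, e⟩)).le)
    · exact hN' s e
  · obtain ⟨h2, h3⟩ := (hok t).1 ht
    rw [hr]
    exact hm t θ' b x h2 h3 (fun e => by simp [← e, h3] at h1) h1 hx
  · obtain ⟨h3, h4⟩ := (hok t).1 ht
    exact (hok w).2 ⟨hG.conv u w t h1 h2 ((hok u).1 hu).1 h3,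
      ((h2 θ).resolve_right (by simp [h4])).trans h4⟩
  · rw [hr]
    exact hG.comm t θ₁ θ₂ x ((hok t).1 ht).1 h1 h2

/- Proof of both eliminations. Let `K` be the cochains `c` with `c s = 0` when `s θ = none` and
`C.d c t = 0` when `t θ = none`. By `surj`, for every cochain `c` of degree `n` there is `b` of
degree `n - 1` (zero if `n = 0`), supported on `s θ ≠ none`, with `C.d b t = c t` whenever
`t θ = none` (only the term `θ` of the sum survives, `sg t θ * sg t θ = 1`). Hence if `C.d c`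
vanishes on the states with `θ` zero then `c - C.d b ∈ K`. With `d_d` this gives: `C` is exact in
degree `q + 1` iff `K` is. Finally `K` is identified with the cochains of `C'` by restriction to
the states with `s θ = some true` (inverse: the identity for an edge; for a corner
`c' ↦ fun s => if s θ = none then 0 else c' (update s θ (some true))`), compatibly with `d`
(`sg`, `cdeg` do not change when `some true` is replaced by `some false`). It pays to prove one
abstract lemma for a subgroup-valued family `K` first. -/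
theorem CP.edge_elim {C C' : CP Θ V} (hG : C.Good) (θ : Θ) (hr : C'.r = C.r)
    (hneg : ∀ s, C.ok s → s θ ≠ some false)
    (hok : ∀ s, C'.ok s ↔ C.ok s ∧ s θ = some true)
    (hN : ∀ s x, s θ = some true →
      (x ∈ C'.N s ↔ x ∈ C.N s ∧ (C.ok (update s θ none) → C.r θ x = 0)))
    (hN' : ∀ s, s θ ≠ some true → C'.N s = ⊥)
    (surj : ∀ t y, t θ = none → y ∈ C.N t → ∃ x ∈ C.N (update t θ (some true)), C.r θ x = y) :
    C'.Good ∧ ∀ q, C.Ex q ↔ C'.Ex q := by
  have z : ∀ s x, x ∈ C.N s → s θ = some false → x = 0 := fun s x hx e =>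
    Elim_zero hG hx fun h => hneg s h e
  have z' : ∀ s x, x ∈ C'.N s → s θ ≠ some true → x = 0 := fun s x hx e => by
    rwa [hN' s e, AddSubgroup.mem_bot] at hx
  refine ⟨Elim_good hG hr hok hN' (fun s e x hx => ((hN s x e).1 hx).1)
    fun t θ' b x h1 h2 h3 h4 hx => ?_, Elim_main hG hr hok hN' (fun t y ht hy => ?_)
      (fun c hc s hs => (hN s _ hs).2 ⟨hc.1 s, fun ho => ?_⟩)
      (fun c c' hc hc' _ s hs => by rw [z s _ (hc.1 s) hs, z s _ (hc'.1 s) hs])
      fun c n h1 h2 => ⟨c, ⟨fun s => ?_, fun s hs => z' s _ (h1 s) (by simp [hs]), fun t ht => ?_⟩,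
        h2, fun _ _ => rfl⟩⟩
  · obtain ⟨h5, h6⟩ := (hN _ x (by rwa [update_of_ne h3])).1 hx
    refine (hN t _ h2).2 ⟨hG.mem t θ' b x h1 h4 h5, fun ho => ?_⟩
    have h7 : update t θ none θ' = none := by rwa [update_of_ne h3.symm]
    by_cases h8 : C.ok (update t θ' (some b))
    · have h9 : C.ok (update (update t θ' (some b)) θ none) := by
        refine hG.conv _ _ _ (fun θ₁ => ?_) ?_ h8 ho
        · by_cases e : θ₁ = θ
          · exact .inr (by rw [e, update_self])
          · exact .inl (update_of_ne e _ _).symm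
        · rw [update_comm h3.symm]
          exact cle_update h7 _
      rw [hG.comm _ θ θ' x ho (update_self _ _ _) h7, h6 h9, map_zero]
    · rw [Elim_zero hG h5 h8, map_zero, map_zero]
  · obtain ⟨x, h1, h2⟩ := surj t y ht hy
    exact ⟨fun b => cond b x 0, fun b => by cases b; exacts [zero_mem _, h1], by simpa using h2⟩
  · have := hc.r hs ho
    rwa [z _ _ (hc.1 (update s θ (some false))) (update_self _ _ _), sub_zero] at this
  · by_cases e : s θ = some true
    · exact ((hN s _ e).1 (h1 s)).1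
    · rw [z' s _ (h1 s) e]
      exact zero_mem _
  · refine (em (C.ok t)).elim (fun ho => ?_) (Elim_d_not c)
    rw [Elim_d_one (fun s hs => z' s _ (h1 s) (by simp [hs])) ht ho,
      z' _ _ (h1 (update t θ (some false))) (by simp), sub_zero,
      ((hN _ _ (update_self _ _ _)).1 (h1 _)).2 (by rwa [Elim_upd ht]), smul_zero]

theorem CP.corner_elim {C C' : CP Θ V} (hG : C.Good) (θ : Θ) (hr : C'.r = C.r)
    (hid : ∀ x, C.r θ x = x) (hind : ∀ s a, C.ok (update s θ a) ↔ C.ok s)
    (hok : ∀ s, C'.ok s ↔ C.ok s ∧ s θ = some true)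
    (hN : ∀ s, s θ = some true → C'.N s = C.N s ⊓ C.N (update s θ (some false)))
    (hN' : ∀ s, s θ ≠ some true → C'.N s = ⊥)
    (surj : ∀ t, t θ = none →
      C.N t ≤ C.N (update t θ (some true)) ⊔ C.N (update t θ (some false))) :
    C'.Good ∧ ∀ q, C.Ex q ↔ C'.Ex q := by
  have eq : ∀ c, Elim_K C θ c → ∀ s, s θ = some true → c s = c (update s θ (some false)) :=
    fun c hc s hs => by
      by_cases ho : C.ok s
      · exact sub_eq_zero.1 ((hid _).symm.trans (hc.r hs ((hind s _).2 ho)))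
      · rw [Elim_zero hG (hc.1 s) ho, Elim_zero hG (hc.1 _) fun h => ho ((hind s _).1 h)]
  refine ⟨Elim_good hG hr hok hN' (fun s e => (hN s e).le.trans inf_le_left)
    fun t θ' b x h1 h2 h3 h4 hx => ?_, Elim_main hG hr hok hN' (fun t y ht hy => ?_)
      (fun c hc s hs => ?_) (fun c c' hc hc' h s hs => ?_)
      fun c n h1 h2 => ⟨fun s => if s θ = none then 0 else c (update s θ (some true)),
        ⟨fun s => ?_, fun s hs => if_pos hs, fun t ht => ?_⟩, fun s hs => ?_, fun s hs => ?_⟩⟩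
  · rw [hN _ (by rwa [update_of_ne h3]), update_comm h3.symm] at hx
    rw [hN t h2]
    exact ⟨hG.mem t θ' b x h1 h4 hx.1,
      hG.mem _ θ' b x ((hind t _).2 h1) (by rwa [update_of_ne h3.symm]) hx.2⟩
  · obtain ⟨x, h1, x', h2, h3⟩ := AddSubgroup.mem_sup.1 (surj t ht hy)
    exact ⟨fun b => cond b x (-x'), fun b => by cases b; exacts [neg_mem h2, h1],
      by simpa [hid] using h3⟩
  · rw [hN s hs]
    exact ⟨hc.1 s, eq c hc s hs ▸ hc.1 _⟩
  · have h1 := eq c hc (update s θ (some true)) (update_self _ _ _)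
    have h2 := eq c' hc' (update s θ (some true)) (update_self _ _ _)
    rw [Elim_upd hs] at h1 h2
    rw [← h1, ← h2, h _ (update_self _ _ _)]
  · have h3 := h1 (update s θ (some true))
    rw [hN _ (update_self _ _ _)] at h3
    rcases e : s θ with _ | _ | _
    · simp only [e, if_true]
      exact zero_mem _
    · rw [Elim_upd e] at h3
      simpa [e] using h3.2
    · have h4 : update s θ (some true) = s := by rw [← e, update_eq_self]
      rw [h4] at h3
      simpa [e, h4] using h3.1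
  · refine (em (C.ok t)).elim (fun ho => ?_) (Elim_d_not _)
    rw [Elim_d_one (fun s hs => if_pos hs) ht ho]
    simp
  · exact ite_eq_left_iff.2 fun e => h2 _ (by rwa [Elim_cdeg' e])
  · exact (if_neg (by simp [hs])).trans (by rw [← hs, update_eq_self])

end Pool.Agent.P.MP_824f38_ag.DB
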