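import Pool.Agent.P.MP_824f38_ag.H.Chart

/-! Logarithmic forms in coordinates. -/

set_option linter.unusedSectionVars false
set_option linter.style.haveILetI false

namespace Pool.Agent.P.MP_824f38_ag.DB

open Function

variable {ι : Type} [Fintype ι] [LinearOrder ι]

theorem WedgeC_prj (m : ι → ℤ) : prj ∅ m = m := by
  funext i; simp [prj]

theorem WedgeC_prjC (ω : Lam ι) : ExteriorAlgebra.map (prjC (∅ : Finset ι)) ω = ω := by
  have h : prjC (∅ : Finset ι) = LinearMap.id := by
    refine LinearMap.ext fun x => funext fun i => ?_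
    simp [prjC_apply]
  rw [h, ExteriorAlgebra.map_id]
  rfl

theorem WedgeC_prj_comm (b b' : Finset ι) (m : ι → ℤ) : prj b (prj b' m) = prj b' (prj b m) := by
  funext i
  by_cases h : i ∈ b <;> by_cases h' : i ∈ b' <;> simp [prj, h, h']

theorem WedgeC_prjC_comm (b b' : Finset ι) (ω : Lam ι) :
    ExteriorAlgebra.map (prjC b) (ExteriorAlgebra.map (prjC b') ω) =
      ExteriorAlgebra.map (prjC b') (ExteriorAlgebra.map (prjC b) ω) := by
  have h : prjC b ∘ₗ prjC b' = prjC b' ∘ₗ prjC b := by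
    refine LinearMap.ext fun x => funext fun i => ?_
    by_cases h : i ∈ b <;> by_cases h' : i ∈ b' <;> simp [prjC_apply, h, h']
  rw [← AlgHom.comp_apply, ← AlgHom.comp_apply, ExteriorAlgebra.map_comp_map,
    ExteriorAlgebra.map_comp_map, h]

theorem WedgeC_lamB {p : ℕ} {S : Finset ι} (h : S.card = p) :
    lamB ι S = ExteriorAlgebra.ιMulti ℂ p fun i => Pi.single (S.orderEmbOfFin h i) (1 : ℂ) := by
  rw [lamB, ExteriorAlgebra.basis_apply_ofCard _ h, ExteriorAlgebra.ιMulti_family]
  congr 1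
  funext i
  exact Pi.basisFun_apply ℂ ι _

theorem WedgeC_crd (μ : ι → ℤ) (S : Finset ι) :
    crd ι (Finsupp.single μ (lamB ι S)) = Finsupp.single (μ, S) 1 := by
  classical
  ext ⟨ν, T⟩
  rw [crd_apply]
  by_cases h : μ = ν
  · subst h
    simp [Finsupp.single_apply]
  · simp [h]

theorem rho_empty (f : Amb ι) : rho ∅ ∅ f = f := by
  induction f using Finsupp.induction_linear with
  | zero => exact map_zero _
  | add f g hf hg => rw [map_add, hf, hg]
  | single μ ω => rw [rho_single, if_pos (by simp), WedgeC_prj, WedgeC_prjC]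

theorem rho_ray_apply (v : ι → ℤ) (f : Amb ι) (μ : ι → ℤ) :
    rho {v} ∅ f μ = if μ ⬝ᵥ v = 0 then f μ else 0 := by
  induction f using Finsupp.induction_linear with
  | zero => simp
  | add f g hf hg =>
    rw [map_add, Finsupp.add_apply, Finsupp.add_apply, hf, hg]
    split_ifs <;> simp
  | single ν ω =>
    rw [rho_single, WedgeC_prj, WedgeC_prjC]
    by_cases h : ν = μ
    · subst h
      by_cases h' : ν ⬝ᵥ v = 0 <;> simp [h']
    · split_ifs <;> simp [h]

theorem rho_comm (a a' : Finset (ι → ℤ)) (b b' : Finset ι) (h : ∀ v ∈ a, ∀ j ∈ b', v j = 0)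
    (h' : ∀ v ∈ a', ∀ j ∈ b, v j = 0) (f : Amb ι) :
    rho a b (rho a' b' f) = rho a' b' (rho a b f) := by
  induction f using Finsupp.induction_linear with
  | zero => simp
  | add f g hf hg => simp only [map_add, hf, hg]
  | single μ ω =>
    have e : (∀ v ∈ a, prj b' μ ⬝ᵥ v = 0) ↔ ∀ v ∈ a, μ ⬝ᵥ v = 0 :=
      forall₂_congr fun v hv => by rw [prj_dot _ (h v hv)]
    have e' : (∀ v ∈ a', prj b μ ⬝ᵥ v = 0) ↔ ∀ v ∈ a', μ ⬝ᵥ v = 0 :=
      forall₂_congr fun v hv => by rw [prj_dot _ (h' v hv)]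
    rw [rho_single, rho_single]
    by_cases h1 : ∀ v ∈ a, μ ⬝ᵥ v = 0 <;> by_cases h2 : ∀ v ∈ a', μ ⬝ᵥ v = 0
    · rw [if_pos h1, if_pos h2, rho_single, rho_single, if_pos (e.2 h1), if_pos (e'.2 h2),
        WedgeC_prj_comm, WedgeC_prjC_comm]
    · rw [if_pos h1, if_neg h2, map_zero, rho_single, if_neg (mt e'.1 h2)]
    · rw [if_neg h1, if_pos h2, map_zero, rho_single, if_neg (mt e.1 h1)]
    · rw [if_neg h1, if_neg h2, map_zero, map_zero]

/- `lamB ι S` is the ordered wedge of the basis vectors in `S` (`ExteriorAlgebra.basis_apply`). -/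
theorem map_prjC_lamB (J S : Finset ι) :
    ExteriorAlgebra.map (prjC J) (lamB ι S) = if Disjoint S J then lamB ι S else 0 := by
  rw [WedgeC_lamB (rfl : S.card = S.card), ExteriorAlgebra.map_apply_ιMulti]
  split_ifs with h
  · congr 1
    funext i k
    rw [comp_apply, prjC_apply]
    split_ifs with hk
    · have hne : k ≠ S.orderEmbOfFin rfl i := fun e =>
        Finset.disjoint_left.1 h (S.orderEmbOfFin_mem rfl i) (e ▸ hk)
      simp [hne]
    · rfl
  · obtain ⟨k, hk, hk'⟩ := Finset.not_disjoint_iff.1 h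
    have h1 : k ∈ Set.range (S.orderEmbOfFin rfl) := by
      rw [Finset.range_orderEmbOfFin]
      exact hk
    obtain ⟨i, rfl⟩ := h1
    refine AlternatingMap.map_coord_zero _ i (funext fun l => ?_)
    rw [comp_apply, prjC_apply]
    split_ifs with hl
    · rfl
    · have hne : l ≠ S.orderEmbOfFin rfl i := fun e => hl (e ▸ hk')
      simp [hne]

theorem crd_rho (j : ι) (f : Amb ι) : crd ι (rho ∅ {j} f) = cmap j (crd ι f) := by
  have h : (crd ι).toLinearMap ∘ₗ rho ∅ {j} = cmap j ∘ₗ (crd ι).toLinearMap := by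
    refine Finsupp.lhom_ext' fun μ => (lamB ι).ext fun S => ?_
    change crd ι (rho ∅ {j} (Finsupp.single μ (lamB ι S))) =
      cmap j (crd ι (Finsupp.single μ (lamB ι S)))
    rw [rho_single, if_pos (by simp), map_prjC_lamB, WedgeC_crd, cmap_single]
    by_cases hj : j ∈ S
    · rw [if_neg (by simpa using hj), if_pos hj, Finsupp.single_zero, map_zero]
    · rw [if_pos (by simpa using hj), if_neg hj, WedgeC_crd]
  exact LinearMap.congr_fun h f

theorem WedgeC_zero {S : Finset ι} {k : ι} (hk : k ∈ S) (ω : Lam ι) :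
    (lamB ι).repr (ExteriorAlgebra.map (prjC {k}) ω) S = 0 := by
  have h : (lamB ι).coord S ∘ₗ (ExteriorAlgebra.map (prjC {k})).toLinearMap = 0 := by
    refine (lamB ι).ext fun T => ?_
    change (lamB ι).repr (ExteriorAlgebra.map (prjC {k}) (lamB ι T)) S = 0
    rw [map_prjC_lamB]
    split_ifs with hd
    · rw [Module.Basis.repr_self]
      refine Finsupp.single_eq_of_ne fun e => ?_
      exact Finset.disjoint_singleton_right.1 hd (e ▸ hk)
    · simp
  exact LinearMap.congr_fun h ω

theorem WedgeC_card {p : ℕ} {S : Finset ι} (hS : S.card ≠ p) (x : ⋀[ℂ]^p (ι → ℂ)) :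
    (lamB ι).repr (x : Lam ι) S = 0 := by
  have h : (lamB ι).coord S ∘ₗ (⋀[ℂ]^p (ι → ℂ)).subtype = 0 := by
    refine ((Pi.basisFun ℂ ι).exteriorPower p).ext fun T => ?_
    change (lamB ι).repr ((Pi.basisFun ℂ ι).exteriorPower p T : Lam ι) S = 0
    rw [← ExteriorAlgebra.basis_eq_coe_basis, lamB, Module.Basis.repr_self]
    exact Finsupp.single_eq_of_ne fun e => hS (e ▸ T.prop)
  exact LinearMap.congr_fun h x

/- Backward: `ω = ∑ repr ω S • lamB ι S` and `lamB ι S = wz (fun i => Pi.single (S-enum i) 1)`.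
Forward: `wz w` lies in the `p`-th exterior power, where `repr` vanishes on `S.card ≠ p`
(`ExteriorAlgebra.basis_eq_coe_basis`: the power is spanned by the `lamB ι S`, `S.card = p`), and
it is fixed by `ExteriorAlgebra.map (prjC {k})` for `k ∉ U`, so `repr` vanishes on `S ∋ k`. -/
theorem mem_wedge_coord (p : ℕ) (U : Set ι) (ω : Lam ι) :
    ω ∈ Wedge p {w | ∀ k, k ∉ U → w k = 0} ↔
      ∀ S, (lamB ι).repr ω S ≠ 0 → S.card = p ∧ ∀ k ∈ S, k ∈ U := by
  constructor
  · intro hω S hS
    by_contra hn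
    refine hS ?_
    clear hS
    induction hω using Submodule.span_induction with
    | zero => simp
    | add x y _ _ hx hy => rw [map_add, Finsupp.add_apply, hx, hy, add_zero]
    | smul c x _ hx => rw [map_smul, Finsupp.smul_apply, hx, smul_zero]
    | mem x hx =>
      obtain ⟨w, hw, rfl⟩ := hx
      by_cases hc : S.card = p
      · obtain ⟨k, hk⟩ := not_forall.1 (not_and.1 hn hc)
        obtain ⟨hk, hk'⟩ := Classical.not_imp.1 hk
        rw [← WedgeC_zero hk (wz w), wz, ExteriorAlgebra.map_apply_ιMulti]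
        congr 3
        funext i l
        rw [comp_apply, prjC_apply]
        split_ifs with hl
        · rw [Finset.mem_singleton.1 hl, hw i k hk', Int.cast_zero]
        · rfl
      · exact WedgeC_card hc ⟨_, ExteriorAlgebra.ιMulti_range ℂ p ⟨_, rfl⟩⟩
  · intro h
    rw [← (lamB ι).sum_repr ω]
    refine Submodule.sum_mem _ fun S _ => ?_
    by_cases hS : (lamB ι).repr ω S = 0
    · rw [hS, zero_smul]
      exact zero_mem _
    · obtain ⟨h1, h2⟩ := h S hS
      refine Submodule.smul_mem _ _ (Submodule.subset_span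
        ⟨fun i => Pi.single (S.orderEmbOfFin h1 i) 1, fun i k hk => ?_, ?_⟩)
      · have hne : k ≠ S.orderEmbOfFin h1 i := fun e =>
          hk (e ▸ h2 _ (S.orderEmbOfFin_mem h1 i))
        simp [hne]
      · rw [WedgeC_lamB h1, wz]
        congr 1
        funext i k
        simp [Pi.single_apply]

end Pool.Agent.P.MP_824f38_ag.DB
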