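import Pool.Agent.P.MP_824f38_ag.H.Atom
import Pool.Agent.P.MP_824f38_ag.H.Elim
import Pool.Agent.P.MP_824f38_ag.H.CubeTr
import Pool.Agent.P.MP_824f38_ag.H.FrameCM
import Pool.Agent.P.MP_824f38_ag.H.WedgeC

/-! Elimination of the toric strata and passage to coordinates. -/

set_option linter.unusedSectionVars false
set_option linter.style.haveILetI false

namespace Pool.Agent.P.MP_824f38_ag.DB

open Function

variable {ι : Type} [Fintype ι] [LinearOrder ι] {col : ι → Col}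

theorem ElimI_pos (X : Res col) {p : ℕ} {U : Finset (Fin X.r)} {s : X.D → St}
    (h : (X.CI p U).ok s) (x : Amb ι) : x ∈ (X.CI p U).N s ↔ x ∈ NF (X.Q s) p ∧
      ∀ μ, x μ ≠ 0 → ∀ a ∈ U, X.ray a ∈ X.G (X.eps s) → (∀ j ∈ X.Js s, X.ray a j = 0) →
        μ ⬝ᵥ X.ray a ≠ 0 := by
  have h' : X.ix.valid s ∧ ∀ a ∈ U, s (.ray a) = some true := h
  simp only [Res.CI, if_pos h', Submodule.mem_toAddSubgroup, Submodule.mem_inf,
    Finsupp.mem_supported]
  exact and_congr_right fun _ => ⟨fun H μ hμ => H (Finsupp.mem_support_iff.2 hμ),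
    fun H μ hμ => H μ (Finsupp.mem_support_iff.1 hμ)⟩

theorem ElimI_neg (X : Res col) {p : ℕ} {U : Finset (Fin X.r)} {s : X.D → St}
    (h : ¬ (X.CI p U).ok s) : (X.CI p U).N s = ⊥ := if_neg h

theorem ElimI_eps (X : Res col) (s : X.D → St) (a : Fin X.r) (b : St) :
    X.eps (update s (.ray a) b) = X.eps s := funext fun _ => update_of_ne (by simp) _ _

theorem ElimI_Js (X : Res col) (s : X.D → St) (a : Fin X.r) (b : St) :
    X.Js (update s (.ray a) b) = X.Js s := by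
  ext j
  rw [X.mem_Js, X.mem_Js, update_of_ne (by simp)]

theorem ElimI_NF {Q Q' : AddSubmonoid (ι → ℤ)} (h : Q ≤ Q') (p : ℕ) : NF Q p ≤ NF Q' p := by
  refine fun f hf μ => ⟨fun hμ => (hf μ).1 fun h' => hμ (h h'), Submodule.span_mono ?_ (hf μ).2⟩
  rintro _ ⟨w, hw, rfl⟩
  exact ⟨w, fun i => (hw i).imp fun _ H => ⟨h H.1, h H.2⟩, rfl⟩

theorem ElimI_ok (X : Res col) {p : ℕ} {U : Finset (Fin X.r)} {s : X.D → St} {a : Fin X.r}
    (ha : a ∉ U) (h : (X.CI p U).ok s) : (X.CI p U).ok (update s (.ray a) none) ↔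
      X.ray a ∈ X.G (X.eps s) ∧ ∀ j ∈ X.Js s, X.ray a j = 0 := by
  constructor
  · intro h'
    have := h'.1.2.2.2 _ (X.mem_Is.2 ⟨a, update_self _ _ _, rfl⟩)
    rwa [ElimI_eps, ElimI_Js] at this
  · intro h'
    refine ⟨⟨fun b => ?_, fun j => ?_, ?_, fun v hv => ?_⟩, fun b hb => ?_⟩
    · by_cases e : b = a
      · rw [e, update_self]
        simp
      · rw [update_of_ne (by simpa using e)]
        exact h.1.1 b
    · rw [update_of_ne (by simp)]
      exact h.1.2.1 j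
    · rw [ElimI_Js]
      exact h.1.2.2.1
    · rw [ElimI_eps, ElimI_Js]
      obtain ⟨b, hb, rfl⟩ := X.mem_Is.1 hv
      by_cases e : b = a
      · exact e ▸ h'
      · rw [update_of_ne (by simpa using e)] at hb
        exact h.1.2.2.2 _ (X.mem_Is.2 ⟨b, hb, rfl⟩)
    · rw [update_of_ne (by simpa using ne_of_mem_of_not_mem hb ha)]
      exact h.2 b hb

theorem ElimI_step (X : Res col) (p : ℕ) {U : Finset (Fin X.r)} {a : Fin X.r} (ha : a ∉ U)
    (hG : (X.CI p U).Good) : (X.CI p (insert a U)).Good ∧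
      ∀ q, (X.CI p U).Ex q ↔ (X.CI p (insert a U)).Ex q := by
  have hok : ∀ s, (X.CI p (insert a U)).ok s ↔ (X.CI p U).ok s ∧ s (.ray a) = some true :=
    fun s => ⟨fun h => ⟨⟨h.1, fun b hb => h.2 b (Finset.mem_insert_of_mem hb)⟩,
      h.2 a (Finset.mem_insert_self a U)⟩,
      fun h => ⟨h.1.1, Finset.forall_mem_insert _ _ _ |>.2 ⟨h.2, h.1.2⟩⟩⟩
  refine CP.edge_elim hG (.ray a) rfl (fun s h => h.1.1 a) hok (fun s x hs => ?_)
    (fun s hs => ElimI_neg X fun h => hs ((hok s).1 h).2) fun t y ht hy => ?_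
  · by_cases h : (X.CI p U).ok s
    · rw [ElimI_pos X h, ElimI_pos X ((hok s).2 ⟨h, hs⟩), ElimI_ok X ha h, and_assoc]
      have e : (X.CI p U).r (.ray a) x = 0 ↔ ∀ μ, x μ ≠ 0 → μ ⬝ᵥ X.ray a ≠ 0 := by
        change rho {X.ray a} ∅ x = 0 ↔ _
        simp only [Finsupp.ext_iff, rho_ray_apply, Finsupp.zero_apply, ite_eq_right_iff]
        exact forall_congr' fun μ => not_imp_not.symm
      rw [e]
      refine and_congr_right fun _ => ⟨fun H => ⟨fun μ hμ b hb =>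
        H μ hμ b (Finset.mem_insert_of_mem hb), fun h1 μ hμ =>
          H μ hμ a (Finset.mem_insert_self a U) h1.1 h1.2⟩, fun H μ hμ => ?_⟩
      exact (Finset.forall_mem_insert _ _ _).2 ⟨fun h1 h2 => H.2 ⟨h1, h2⟩ μ hμ, H.1 μ hμ⟩
    · rw [ElimI_neg X h, ElimI_neg X fun h' => h ((hok s).1 h').1, AddSubgroup.mem_bot]
      exact ⟨fun e => ⟨e, fun _ => by rw [e, map_zero]⟩, fun e => e.1⟩
  · by_cases h : (X.CI p U).ok t
    · have hc := cle_update ht (some true)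
      have h1 : (X.CI p U).ok (update t (.ray a) (some true)) := by
        refine ⟨X.ix.down _ t h.1 hc fun θ hθ => ?_, fun b hb => ?_⟩
        · by_cases e : θ = .ray a
          · rw [e, update_self]
            simp
          · rw [update_of_ne e]
            exact X.ix.valid_edge t θ h.1 hθ
        · rw [update_of_ne (by simpa using ne_of_mem_of_not_mem hb ha)]
          exact h.2 b hb
      obtain ⟨h2, h3⟩ := (ElimI_pos X h y).1 hy
      refine ⟨y, (ElimI_pos X h1 y).2 ⟨ElimI_NF (fun m hm => ?_) p h2, ?_⟩, Finsupp.ext fun μ => ?_⟩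
      · rw [mem_CM, ElimI_eps, ElimI_Js]
        exact ⟨hm.1, hm.2.1, fun v hv => hm.2.2 v (X.Is_mono hc hv)⟩
      · rwa [ElimI_eps, ElimI_Js]
      · refine (rho_ray_apply (X.ray a) y μ).trans (ite_eq_left_iff.2 fun hμ => ?_)
        exact ((h2 μ).1 fun hm => hμ (hm.2.2 _ (X.mem_Is.2 ⟨a, ht, rfl⟩))).symm
    · rw [ElimI_neg X h, AddSubgroup.mem_bot] at hy
      exact ⟨0, zero_mem _, by rw [hy, map_zero]⟩

/-- the directions that are allowed in a form of weight `μ` -/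
def ElimI_U (X : Res col) (s : X.D → St) (μ : ι → ℤ) : Set ι :=
  {k | k ∉ X.Js s ∧ ¬ (col k = .O ∧ Pi.single k 1 ∈ X.G (X.eps s) ∧ μ k = 0)}

/-- the weights that survive -/
def ElimI_P (X : Res col) (s : X.D → St) (μ : ι → ℤ) : Prop :=
  μ ∈ X.Q s ∧ ∀ a, X.ray a ∈ X.G (X.eps s) → (∀ j ∈ X.Js s, X.ray a j = 0) → μ ⬝ᵥ X.ray a ≠ 0

theorem ElimI_kill (X : Res col) {s : X.D → St} (h : X.ix.valid s) {k : ι} (hk : col k = .O) :
    ∀ j ∈ X.Js s, (Pi.single k 1 : ι → ℤ) j = 0 := fun j hj =>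
  Pi.single_eq_of_ne (fun e : j = k => h.2.2.1 j hj (e ▸ hk)) _

theorem ElimI_lat (X : Res col) {s : X.D → St} (h : X.ix.valid s) {μ : ι → ℤ}
    (hμ : ElimI_P X s μ) : Lat (X.Q s) μ = {w | ∀ k, k ∉ ElimI_U X s μ → w k = 0} := by
  ext w
  rw [lat_CM h.2.2.2 hμ.1]
  constructor
  · rintro ⟨h1, h2⟩ k hk
    by_cases hj : k ∈ X.Js s
    · exact h1 k hj
    · obtain ⟨h3, h4, h5⟩ := not_not.1 fun h' => hk ⟨hj, h'⟩
      simpa using h2 _ h4 (ElimI_kill X h h3) (by simpa using h5)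
  · refine fun H => ⟨fun j hj => H j fun h' => h'.1 hj, fun v hv h1 h2 => ?_⟩
    by_cases e : ∃ o, col o = .O ∧ v = Pi.single o 1
    · obtain ⟨o, ho, rfl⟩ := e
      simpa using H o fun h' => h'.2 ⟨ho, hv, by simpa using h2⟩
    · obtain ⟨a, rfl⟩ := X.ray_surj _ v hv fun o ho e' => e ⟨o, ho, e'⟩
      exact absurd h2 (hμ.2 a hv h1)

theorem ElimI_E (X : Res col) {p : ℕ} {s : X.D → St} (h : (X.CI p Finset.univ).ok s) (μ : ι → ℤ)
    (S : Finset ι) : (Disjoint S (X.Js s) ∧ (∀ j ∈ X.Js s, μ j = 0) ∧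
      X.E X.K (X.eps s) (X.Js s) μ S) ↔ ElimI_P X s μ ∧ ∀ k ∈ S, k ∈ ElimI_U X s μ := by
  rw [X.E_top]
  constructor
  · rintro ⟨h1, h2, h3⟩
    refine ⟨⟨⟨h2, fun v hv h4 => (h3 v hv h4).elim le_of_lt fun e => e.1.ge, fun v hv => ?_⟩,
      fun a ha h4 => ?_⟩, fun k hk => ⟨Finset.disjoint_left.1 h1 hk, fun h4 => ?_⟩⟩
    · obtain ⟨a, ha, -⟩ := X.mem_Is.1 hv
      rw [h.2 a (Finset.mem_univ a)] at ha
      cases ha
    · refine (h3 _ ha h4).elim ne_of_gt fun e => absurd e.2 (not_lt.2 ?_)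
      refine Finset.sum_nonpos fun o _ => ?_
      by_cases ho : col o = .O ∧ o ∉ S
      · rw [gO, if_pos ho, one_mul]
        exact (X.oinv _ _ ha o ho.1).resolve_left (X.ray_ne a o ho.1)
      · rw [gO, if_neg ho, zero_mul]
    · have := h3 _ h4.2.1 (ElimI_kill X h.1 h4.1)
      simp [LexPos, h4.2.2, gO, hk] at this
  · rintro ⟨h1, h2⟩
    refine ⟨Finset.disjoint_left.2 fun k hk => (h2 k hk).1, h1.1.1, fun v hv h3 => ?_⟩
    refine (h1.1.2.1 v hv h3).lt_or_eq.imp id fun h4 => ⟨h4.symm, ?_⟩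
    by_cases e : ∃ o, col o = .O ∧ v = Pi.single o 1
    · obtain ⟨o, ho, rfl⟩ := e
      have : o ∉ S := fun h5 => (h2 o h5).2 ⟨ho, hv, by simpa using h4.symm⟩
      simp [gO, ho, this]
    · obtain ⟨a, rfl⟩ := X.ray_surj _ v hv fun o ho e' => e ⟨o, ho, e'⟩
      exact absurd h4.symm (h1.2 a hv h3)

/- `Finset.induction` on `U`, `edge_elim` in the direction `ray a`, `rho_ray_apply`.
`eps`, `Js` do not change under `update s (ray a) _`. For `s (ray a) = some true` admissible,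
`update s (ray a) none` is admissible iff `X.ray a ∈ G` is killed by `Js s`. Surjectivity: take
`x = y`; `X.Q t ≤ X.Q (update t (ray a) (some true))`, and `NF` is monotone in the monoid. -/
theorem Res.elim_rays (X : Res col) (p : ℕ) (hG : (X.CI p ∅).Good) (U : Finset (Fin X.r)) :
    (X.CI p U).Good ∧ ∀ q, (X.CI p ∅).Ex q ↔ (X.CI p U).Ex q := by
  induction U using Finset.induction_on with
  | empty => exact ⟨hG, fun _ => Iff.rfl⟩
  | insert a U ha ih =>
    obtain ⟨h1, h2⟩ := ElimI_step X p ha ih.1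
    exact ⟨h1, fun q => (ih.2 q).trans (h2 q)⟩

/- `CP.congr` with `e = crd ι`, `rho_empty`, `crd_rho`. For admissible `s` (`Is s = ∅`) and `f`:
if `f μ ≠ 0` then `μ ∈ Q s` is positive on the rays of `G` killed by `J` other than the
`Pi.single o 1` (`ray_surj`), so by `lat_CM` the lattice is
`{w | w k = 0 unless k ∉ J ∧ ¬ (col k = O ∧ Pi.single k 1 ∈ G ∧ μ k = 0)}`; `mem_wedge_coord`,
`crd_apply`, `E_top`. For `v = Pi.single o 1`, `LexPos` says `0 < μ o ∨ (μ o = 0 ∧ o ∉ S)`; for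
the other `v`, `gO col S ⬝ᵥ v ≤ 0` by `oinv`, so it says `0 < μ ⬝ᵥ v`. -/
theorem Res.to_coord (X : Res col) (p : ℕ) :
    ((X.CI p Finset.univ).Good → (X.CK p X.K).Good) ∧
      ∀ q, (X.CI p Finset.univ).Ex q ↔ (X.CK p X.K).Ex q := by
  have hok : ∀ s, X.okK X.K s ↔ (X.CI p Finset.univ).ok s := fun s => by
    refine ⟨fun h => ⟨⟨fun a => by rw [h.1 a]; simp, h.2.1, h.2.2.1, fun v hv => ?_⟩,
      fun a _ => h.1 a⟩, fun h => ⟨fun a => h.2 a (Finset.mem_univ a), h.1.2.1, h.1.2.2.1,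
        fun j hj => absurd j.2 (not_lt.2 hj)⟩⟩
    obtain ⟨a, ha, -⟩ := X.mem_Is.1 hv
    rw [h.1 a] at ha
    cases ha
  refine CP.congr _ _ (crd ι).toAddEquiv hok (fun s x => ?_) fun t θ x ht hθ => ?_
  · by_cases h : (X.CI p Finset.univ).ok s
    · rw [ElimI_pos X h]
      simp only [Res.CK, if_pos ((hok s).2 h), Submodule.mem_toAddSubgroup, Finsupp.mem_supported]
      constructor
      · intro H
        have H1 : ∀ μ S, (lamB ι).repr (x μ) S ≠ 0 → S.card = p ∧ ElimI_P X s μ ∧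
            ∀ k ∈ S, k ∈ ElimI_U X s μ := fun μ S hS => by
          have := H (show (μ, S) ∈ (crd ι x).support from
            Finsupp.mem_support_iff.2 (by rwa [crd_apply]))
          exact ⟨this.1, (ElimI_E X h μ S).1 this.2⟩
        have H2 : ∀ μ, x μ ≠ 0 → ElimI_P X s μ := fun μ hμ => by
          obtain ⟨S, hS⟩ := Finsupp.ne_iff.1 ((lamB ι).repr.map_ne_zero_iff.2 hμ)
          exact (H1 μ S hS).2.1
        refine ⟨fun μ => ⟨fun hμ => by_contra fun e => hμ (H2 μ e).1, ?_⟩,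
          fun μ hμ a _ => (H2 μ hμ).2 a⟩
        by_cases e : x μ = 0
        · rw [e]
          exact zero_mem _
        · rw [ElimI_lat X h.1 (H2 μ e), mem_wedge_coord]
          exact fun S hS => ⟨(H1 μ S hS).1, (H1 μ S hS).2.2⟩
      · rintro ⟨H1, H2⟩ ⟨μ, S⟩ hS
        have h1 : (lamB ι).repr (x μ) S ≠ 0 := by
          rw [← crd_apply]
          exact Finsupp.mem_support_iff.1 hS
        have h2 : x μ ≠ 0 := fun e => h1 (by rw [e, map_zero, Finsupp.zero_apply])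
        have h3 : ElimI_P X s μ := ⟨by_contra fun e => h2 ((H1 μ).1 e),
          fun a => H2 μ h2 a (Finset.mem_univ a)⟩
        have h4 := (H1 μ).2
        rw [ElimI_lat X h.1 h3, mem_wedge_coord] at h4
        exact ⟨(h4 S h1).1, (ElimI_E X h μ S).2 ⟨h3, (h4 S h1).2⟩⟩
    · rw [ElimI_neg X h, show (X.CK p X.K).N s = ⊥ from if_neg fun h' => h ((hok s).1 h'),
        AddSubgroup.mem_bot, AddSubgroup.mem_bot, AddEquiv.map_eq_zero_iff]
  · cases θ with
    | cut k => exact congrArg (crd ι) (rho_empty x)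
    | ray a =>
      rw [ht.2 a (Finset.mem_univ a)] at hθ
      cases hθ
    | col j => exact crd_rho j x

end Pool.Agent.P.MP_824f38_ag.DB
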