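import Pool.Agent.P.MP_824f38_ag.H.Atom
import Pool.Agent.P.MP_824f38_ag.H.Elim
import Pool.Agent.P.MP_824f38_ag.H.CubeTr

/-! Elimination of the cuts. -/

set_option linter.unusedSectionVars false
set_option linter.style.haveILetI false

namespace Pool.Agent.P.MP_824f38_ag.DB

open Function

variable {ι : Type} [Fintype ι] [LinearOrder ι] {col : ι → Col}

theorem ElimK_eps (X : Res col) (s : X.D → St) (k : Fin X.K) (a : St) :
    X.eps (update s (.cut k) a) = update (X.eps s) k a := by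
  funext j
  by_cases h : j = k
  · subst h; simp [Res.eps]
  · have : (Dir.cut j : X.D) ≠ .cut k := fun e => h (by cases e; rfl)
    simp [Res.eps, update_of_ne this, update_of_ne h]

theorem ElimK_Js (X : Res col) (s : X.D → St) (k : Fin X.K) (a : St) :
    X.Js (update s (.cut k) a) = X.Js s := by
  ext j
  have : (Dir.col j : X.D) ≠ .cut k := fun e => by cases e
  simp [Res.mem_Js, update_of_ne this]

theorem ElimK_ok (X : Res col) (s : X.D → St) (k : Fin X.K) (a : St) :
    X.okK (k + 1) (update s (.cut k) a) ↔ X.okK (k + 1) s := by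
  have h1 : ∀ b, update s (.cut k) a (.ray b) = s (.ray b) := fun b =>
    update_of_ne (fun e => by cases e) _ _
  have h2 : ∀ j, update s (.cut k) a (.col j) = s (.col j) := fun j =>
    update_of_ne (fun e => by cases e) _ _
  have h3 : ∀ j : Fin X.K, (k : ℕ) + 1 ≤ j → update s (.cut k) a (.cut j) = s (.cut j) :=
    fun j hj => update_of_ne (fun e => by cases e; omega) _ _
  unfold Res.okK
  rw [ElimK_Js]
  simp only [h1, h2]
  refine and_congr Iff.rfl (and_congr Iff.rfl (and_congr Iff.rfl ?_))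
  exact forall_congr' fun j => forall_congr' fun hj => by rw [h3 j hj]

theorem ElimK_ok' (X : Res col) (s : X.D → St) (k : Fin X.K) :
    X.okK k s ↔ X.okK (k + 1) s ∧ s (.cut k) = some true := by
  unfold Res.okK
  constructor
  · rintro ⟨a, b, c, d⟩
    exact ⟨⟨a, b, c, fun j hj => d j (by omega)⟩, d k le_rfl⟩
  · rintro ⟨⟨a, b, c, d⟩, e⟩
    refine ⟨a, b, c, fun j hj => ?_⟩
    rcases hj.eq_or_lt with h | h
    · have : k = j := Fin.ext h
      subst this; exact e
    · exact d j h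

theorem ElimK_pos (X : Res col) (p k : ℕ) {s : X.D → St} (h : X.okK k s) (x : Crd ι) :
    x ∈ (X.CK p k).N s ↔ ∀ y ∈ x.support, y.2.card = p ∧ Disjoint y.2 (X.Js s) ∧
      (∀ j ∈ X.Js s, y.1 j = 0) ∧ X.E k (X.eps s) (X.Js s) y.1 y.2 := by
  simp only [Res.CK, if_pos h, Submodule.mem_toAddSubgroup, Finsupp.mem_supported]
  exact Iff.rfl

theorem ElimK_neg (X : Res col) (p k : ℕ) {s : X.D → St} (h : ¬ X.okK k s) :
    (X.CK p k).N s = ⊥ := by
  simp only [Res.CK, if_neg h]

theorem ElimK_step (X : Res col) (p : ℕ) (k : Fin X.K) (hG : (X.CK p (k + 1)).Good) :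
    (X.CK p k).Good ∧ ∀ q, (X.CK p (k + 1)).Ex q ↔ (X.CK p k).Ex q := by
  classical
  refine CP.corner_elim hG (.cut k) rfl (fun _ => rfl) (fun s a => ElimK_ok X s k a)
    (fun s => ElimK_ok' X s k) (fun s hs => ?_) (fun s hs => ?_) (fun t ht => ?_)
  · by_cases h : X.okK (k + 1) s
    · have h0 : X.okK k s := (ElimK_ok' X s k).mpr ⟨h, hs⟩
      have h1 := (ElimK_ok X s k (some false)).mpr h
      have he : update (X.eps s) k (some true) = X.eps s := update_eq_self_iff.mpr hs.symm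
      ext x
      rw [AddSubgroup.mem_inf, ElimK_pos X p _ h0, ElimK_pos X p _ h, ElimK_pos X p _ h1,
        ElimK_Js, ElimK_eps]
      simp only [X.E_mv1 k, he]
      constructor
      · intro H
        exact ⟨fun y hy => ⟨(H y hy).1, (H y hy).2.1, (H y hy).2.2.1, (H y hy).2.2.2.1⟩,
          fun y hy => ⟨(H y hy).1, (H y hy).2.1, (H y hy).2.2.1, (H y hy).2.2.2.2⟩⟩
      · rintro ⟨H, H'⟩ y hy
        exact ⟨(H y hy).1, (H y hy).2.1, (H y hy).2.2.1, (H y hy).2.2.2, (H' y hy).2.2.2⟩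
    · rw [ElimK_neg X p _ h, ElimK_neg X p _ fun h0 => h ((ElimK_ok' X s k).mp h0).1, bot_inf_eq]
  · exact ElimK_neg X p _ fun h0 => hs ((ElimK_ok' X s k).mp h0).2
  · by_cases h : X.okK (k + 1) t
    · intro x hx
      rw [ElimK_pos X p _ h] at hx
      have he : update (X.eps t) k none = X.eps t := update_eq_self_iff.mpr ht.symm
      let P : (ι → ℤ) × Finset ι → Prop := fun y =>
        X.E (k + 1) (update (X.eps t) k (some true)) (X.Js t) y.1 y.2
      rw [← Finsupp.filter_add_filter_not x P]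
      refine AddSubgroup.add_mem_sup ?_ ?_
      · rw [ElimK_pos X p _ ((ElimK_ok X t k _).mpr h), ElimK_Js, ElimK_eps]
        intro y hy
        rw [Finsupp.support_filter, Finset.mem_filter] at hy
        have := hx y hy.1
        exact ⟨this.1, this.2.1, this.2.2.1, hy.2⟩
      · rw [ElimK_pos X p _ ((ElimK_ok X t k _).mpr h), ElimK_Js, ElimK_eps]
        intro y hy
        rw [Finsupp.support_filter, Finset.mem_filter] at hy
        have := hx y hy.1
        refine ⟨this.1, this.2.1, this.2.2.1, ?_⟩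
        exact (X.E_mv2 k _ _ _ _ (he.symm ▸ this.2.2.2)).resolve_left hy.2
    · rw [ElimK_neg X p _ h]; exact bot_le

theorem ElimK_down (X : Res col) (p : ℕ) (hG : (X.CK p X.K).Good) (n : ℕ) :
    ∀ k, k + n = X.K → (X.CK p k).Good ∧ ∀ q, (X.CK p X.K).Ex q ↔ (X.CK p k).Ex q := by
  induction n with
  | zero =>
    intro k hk
    obtain rfl : k = X.K := hk
    exact ⟨hG, fun _ => Iff.rfl⟩
  | succ n ih =>
    intro k hk
    obtain ⟨h1, h2⟩ := ih (k + 1) (by omega)
    obtain ⟨h3, h4⟩ := ElimK_step X p ⟨k, by omega⟩ h1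
    exact ⟨h3, fun q => (h2 q).trans (h4 q)⟩

theorem ElimK_zs (X : Res col) (s : X.D → St) :
    zs (s ∘ (Dir.colEmb : ι ↪o X.D)) = X.Js s := rfl

theorem ElimK_ok0 (X : Res col) (p : ℕ) (s : X.D → St) :
    X.okK 0 s ↔ (∀ θ, θ ∉ Set.range (Dir.colEmb : ι ↪o X.D) → s θ = some true) ∧
      (smallCP col p).ok (s ∘ (Dir.colEmb : ι ↪o X.D)) := by
  constructor
  · rintro ⟨a, b, c, d⟩
    refine ⟨fun θ hθ => ?_, b, c⟩
    cases θ with
    | cut k => exact d k (Nat.zero_le _)
    | ray r => exact a r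
    | col j => exact absurd ⟨j, rfl⟩ hθ
  · rintro ⟨a, b, c⟩
    refine ⟨fun r => a _ ?_, b, c, fun k _ => a _ ?_⟩
    · rintro ⟨j, hj⟩; cases hj
    · rintro ⟨j, hj⟩; cases hj

/- Downward induction on `k ≤ K`: `corner_elim` in the direction `cut k` from `CK p (k+1)` to
`CK p k`. Then `CP.reindex Dir.colEmb` and `E_zero`. -/
theorem Res.elim_cuts (X : Res col) (p : ℕ) (hG : (X.CK p X.K).Good) (q : ℕ) :
    (X.CK p X.K).Ex q ↔ (smallCP col p).Ex q := by
  refine ((ElimK_down X p hG X.K 0 (zero_add _)).2 q).trans ?_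
  refine CP.reindex Dir.colEmb (X.CK p 0) (smallCP col p) (fun s hs => ElimK_neg X p 0 hs)
    (fun s hs => ?_) (ElimK_ok0 X p) (fun s hs => ?_) (fun _ => rfl) q
  · exact if_neg hs
  · have h := ((ElimK_ok0 X p s).mp hs).2
    have hs' : X.okK 0 s := hs
    ext x
    rw [ElimK_pos X p 0 hs']
    have e : (smallCP col p).N (s ∘ (Dir.colEmb : ι ↪o X.D)) =
        (Finsupp.supported ℂ ℂ {x : (ι → ℤ) × Finset ι | x.2.card = p ∧ Disjoint x.2 (X.Js s) ∧
          (∀ j ∈ X.Js s, x.1 j = 0) ∧ Gam col (X.Js s) x.1 x.2}).toAddSubgroup := if_pos h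
    rw [e, Submodule.mem_toAddSubgroup, Finsupp.mem_supported]
    refine forall_congr' fun y => forall_congr' fun _ => ?_
    refine and_congr Iff.rfl (and_congr Iff.rfl (and_congr_right fun h0 => ?_))
    exact X.E_zero _ _ _ _ h0 hs'.2.2.1

end Pool.Agent.P.MP_824f38_ag.DB
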