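import Pool.Agent.P.MP_824f38_ag.H.FC2

/-! The cohomology of the complexes of admissible colourings. -/

set_option linter.unusedSectionVars false
set_option linter.style.haveILetI false

namespace Pool.Agent.P.MP_824f38_ag.DB

open Function

variable {ι : Type} [Fintype ι] [LinearOrder ι] (col : ι → Col)

theorem FC3_mem_pJ {x : PC ι} {i : ι} : i ∈ pJ x ↔ x i = none := by simp [pJ]

theorem FC3_mem_FS {S : Finset ι} {i : ι} : i ∈ FS col S ↔ i ∉ S ∧ col i ≠ .O := by simp [FS]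

theorem FC3_pval {x : PC ι} {i : ι} (h : x i ≠ none) : x i = some (pval x i) := by
  obtain ⟨a, ha⟩ := Option.ne_none_iff_exists'.1 h
  rw [pval, ha, Option.getD_some]

theorem FC3_pval' {x : PC ι} {i : ι} {a : ℤ} (h : x i = some a) : pval x i = a := by
  rw [pval, h, Option.getD_some]

theorem FC3_ES {S : Finset ι} {x : PC ι} : x ∈ ES col S ↔ (∀ i, x i = none → i ∈ FS col S) ∧
    (∀ i a, x i = some a → col i = .C → 0 < a) ∧
    (∀ i a, x i = some a → col i = .O → (if i ∈ S then 1 else 0) ≤ a) ∧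
    ∀ i k a b, x i = some a → x k = some b → col k = .A → |a| < wt col i * b := by
  have n : ∀ {i a}, x i = some a → i ∉ pJ x := fun h h' => by
    rw [FC3_mem_pJ, h] at h'
    cases h'
  constructor
  · rintro ⟨h0, h1, h2, h3⟩
    refine ⟨fun i hi => h0 (FC3_mem_pJ.2 hi), fun i a ha hi => ?_, fun i a ha hi => ?_,
      fun i k a b ha hb hk => ?_⟩
    · exact FC3_pval' ha ▸ h1 i (n ha) hi
    · exact FC3_pval' ha ▸ h2 i (n ha) hi
    · exact FC3_pval' ha ▸ FC3_pval' hb ▸ h3 i k (n ha) (n hb) hk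
  · rintro ⟨h0, h1, h2, h3⟩
    exact ⟨fun i hi => h0 i (FC3_mem_pJ.1 hi),
      fun i hi => h1 i _ (FC3_pval (mt FC3_mem_pJ.2 hi)),
      fun i hi => h2 i _ (FC3_pval (mt FC3_mem_pJ.2 hi)),
      fun i k hi hk => h3 i k _ _ (FC3_pval (mt FC3_mem_pJ.2 hi)) (FC3_pval (mt FC3_mem_pJ.2 hk))⟩

theorem FC3_upd {x : PC ι} {i j : ι} {a : ℤ} (h : update x j none i = some a) : x i = some a := by
  rcases eq_or_ne i j with rfl | hij
  · rw [update_self] at h
    cases h
  · rwa [update_of_ne hij] at h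

theorem FC3_closed (S : Finset ι) : Closed (ES col S) (FS col S) := by
  intro x hx j hj
  obtain ⟨h0, h1, h2, h3⟩ := (FC3_ES col).1 hx
  refine (FC3_ES col).2 ⟨fun i hi => ?_, fun i a ha => h1 i a (FC3_upd ha),
    fun i a ha => h2 i a (FC3_upd ha), fun i k a b ha hb => h3 i k a b (FC3_upd ha) (FC3_upd hb)⟩
  rcases eq_or_ne i j with rfl | hij
  · exact hj
  · exact h0 i (by rwa [update_of_ne hij] at hi)

theorem FC3_gen_del {x : PC ι} (h : Gen col x) (j : ι) : Gen col (update x j none) :=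
  fun k hk e => h k hk (FC3_upd e)

/-- the smallest values -/
def FC3_t (i : ι) : ℤ := if col i = .A then 1 else 0

/-- colourings with the smallest values -/
def FC3_V (S : Finset ι) : Set (PC ι) :=
  {x | ∀ i, (x i = none ∧ i ∈ FS col S) ∨ (x i = some (FC3_t col i) ∧ col i ≠ .C)}

theorem FC3_V_closed (S : Finset ι) : Closed (FC3_V col S) (FS col S) := by
  intro x hx j hj i
  rcases eq_or_ne i j with rfl | hij
  · exact Or.inl ⟨update_self _ _ _, hj⟩
  · rw [update_of_ne hij]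
    exact hx i

theorem FC3_V_up {S : Finset ι} {x : PC ι} (hx : x ∈ FC3_V col S) {j : ι} (hj : col j ≠ .C) :
    update x j (some (FC3_t col j)) ∈ FC3_V col S := by
  intro i
  rcases eq_or_ne i j with rfl | hij
  · exact Or.inr ⟨update_self _ _ _, hj⟩
  · rw [update_of_ne hij]
    exact hx i

theorem FC3_V_val {S : Finset ι} {x : PC ι} (hx : x ∈ FC3_V col S) {i : ι} {a : ℤ}
    (h : x i = some a) : a = FC3_t col i ∧ col i ≠ .C := by
  rcases hx i with h1 | h1
  · rw [h] at h1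
    cases h1.1
  · exact ⟨Option.some.inj (h.symm.trans h1.1), h1.2⟩

theorem FC3_V_sub {S : Finset ι} (hS : ∀ i ∈ S, col i = .A ∨ col i = .B) {x : PC ι}
    (hx : x ∈ FC3_V col S) : x ∈ ES col S := by
  refine (FC3_ES col).2 ⟨fun i hi => ?_, fun i a ha hi => absurd hi (FC3_V_val col hx ha).2,
    fun i a ha hi => ?_, fun i k a b ha hb hk => ?_⟩
  · rcases hx i with h1 | h1
    · exact h1.2
    · rw [hi] at h1
      cases h1.1
  · have h : i ∉ S := fun h => by simpa [hi] using hS i h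
    simp [(FC3_V_val col hx ha).1, FC3_t, hi, h]
  · rw [(FC3_V_val col hx ha).1, (FC3_V_val col hx hb).1]
    simp only [FC3_t, wt, hk, if_true]
    split_ifs <;> simp

theorem FC3_special {S : Finset ι} {x : PC ι} (hx : x ∈ ES col S) (hg : ¬ Gen col x) :
    x ∈ FC3_V col S ∧ ∀ i ∈ S, col i = .A ∨ col i = .B := by
  obtain ⟨h0, h1, h2, h3⟩ := (FC3_ES col).1 hx
  simp only [Gen, not_forall, not_not] at hg
  obtain ⟨k, hk, hk1⟩ := hg
  have key : ∀ i a, x i = some a → a = FC3_t col i ∧ col i ≠ .C := fun i a ha => by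
    have h4 := h3 i k a 1 ha hk1 hk
    have h5 := h3 i i a a ha ha
    have h6 := h1 i a ha
    rw [abs_lt] at h4 h5
    unfold FC3_t
    unfold wt at h4 h5
    by_cases hi : col i = .A
    · rw [if_pos hi] at h4 h5 ⊢
      have h7 := h5 hi
      exact ⟨by omega, by simp [hi]⟩
    · rw [if_neg hi] at h4 ⊢
      exact ⟨by omega, fun h => by have := h6 h; omega⟩
  refine ⟨fun i => ?_, fun i hi => ?_⟩
  · rcases h : x i with _ | a
    · exact Or.inl ⟨rfl, h0 i h⟩
    · exact Or.inr ⟨congrArg some (key i a h).1, (key i a h).2⟩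
  · rcases h : x i with _ | a
    · exact absurd hi ((FC3_mem_FS col).1 (h0 i h)).1
    · have h4 := key i a h
      have h5 := h2 i a h
      rcases hc : col i with _ | _ | _ | _
      · exact Or.inl rfl
      · exact Or.inr rfl
      · exact absurd hc h4.2
      · have h6 := h5 hc
        simp [hi, h4.1, FC3_t, hc] at h6

/-- chains on a set in a given degree -/
def FC3_On (E : Set (PC ι)) (q : ℕ) : Submodule ℂ (PC ι →₀ ℂ) :=
  Finsupp.supported ℂ ℂ {x | x ∈ E ∧ (pJ x).card = q}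

theorem FC3_On_iff {E : Set (PC ι)} {q : ℕ} {c : PC ι →₀ ℂ} :
    c ∈ FC3_On E q ↔ ∀ x ∈ c.support, x ∈ E ∧ (pJ x).card = q := Iff.rfl

theorem FC3_On_pD {E : Set (PC ι)} {F : Finset ι} (hE : Closed E F) {q : ℕ} {c : PC ι →₀ ℂ}
    (hc : c ∈ FC3_On E q) : pD F c ∈ FC3_On E (q + 1) := by
  refine FC3_On_iff.2 fun y hy => ?_
  obtain ⟨x, hx, j, hj, h, rfl⟩ := pD_support hy
  obtain ⟨h1, h2⟩ := FC3_On_iff.1 hc x hx
  exact ⟨hE x h1 j hj, by rw [card_pJ_none h, h2]⟩

/-- chains on generic colourings -/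
def FC3_G : Submodule ℂ (PC ι →₀ ℂ) := Finsupp.supported ℂ ℂ {x | Gen col x}

theorem FC3_G_iff {c : PC ι →₀ ℂ} : c ∈ FC3_G col ↔ ∀ x ∈ c.support, Gen col x := Iff.rfl

theorem FC3_G_pD (F : Finset ι) {c : PC ι →₀ ℂ} (hc : c ∈ FC3_G col) : pD F c ∈ FC3_G col := by
  refine (FC3_G_iff col).2 fun y hy => ?_
  obtain ⟨x, hx, j, -, -, rfl⟩ := pD_support hy
  exact FC3_gen_del col ((FC3_G_iff col).1 hc x hx) j

theorem FC3_dec {E : Set (PC ι)} {q : ℕ} {c : PC ι →₀ ℂ} (hc : c ∈ FC3_On E q) :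
    ∃ s ∈ FC3_On (E ∩ {x | ¬ Gen col x}) q, ∃ g ∈ FC3_G col, c = s + g := by
  classical
  refine ⟨c.filter fun x => ¬ Gen col x, FC3_On_iff.2 fun x hx => ?_, c.filter (Gen col),
    (FC3_G_iff col).2 fun x hx => ?_, ?_⟩
  · rw [Finsupp.support_filter, Finset.mem_filter] at hx
    exact ⟨⟨(FC3_On_iff.1 hc x hx.1).1, hx.2⟩, (FC3_On_iff.1 hc x hx.1).2⟩
  · rw [Finsupp.support_filter, Finset.mem_filter] at hx
    exact hx.2
  · rw [add_comm, Finsupp.filter_add_filter_not]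

theorem FC3_gen (S : Finset ι) {q : ℕ} {c : PC ι →₀ ℂ} (hc : c ∈ FC3_On (ES col S) (q + 1))
    (hg : c ∈ FC3_G col) (h0 : pD (FS col S) c = 0) :
    ∃ b ∈ FC3_On (ES col S) q, b ∈ FC3_G col ∧ pD (FS col S) b = c := by
  obtain ⟨b, hb, e⟩ := gen_ex col S q c (fun x hx =>
    ⟨⟨(FC3_On_iff.1 hc x hx).1, (FC3_G_iff col).1 hg x hx⟩, (FC3_On_iff.1 hc x hx).2⟩) h0
  exact ⟨b, FC3_On_iff.2 fun x hx => ⟨(hb x hx).1.1, (hb x hx).2⟩,
    (FC3_G_iff col).2 fun x hx => (hb x hx).1.2, e⟩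

theorem FC3_suff {S : Finset ι} {q : ℕ}
    (h : ∀ c ∈ FC3_On (ES col S ∩ {x | ¬ Gen col x}) (q + 1), pD (FS col S) c ∈ FC3_G col →
      ∃ b ∈ FC3_On (ES col S) q, c - pD (FS col S) b ∈ FC3_G col) :
    FEx (ES col S) (FS col S) q := by
  intro c hc h0
  obtain ⟨s, hs, g, hg, rfl⟩ := FC3_dec col (FC3_On_iff.2 hc)
  have h1 : pD (FS col S) s ∈ FC3_G col := by
    rw [map_add] at h0
    rw [eq_neg_of_add_eq_zero_left h0]
    exact neg_mem (FC3_G_pD col _ hg)
  obtain ⟨b, hb, h2⟩ := h s hs h1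
  obtain ⟨b', hb', -, e⟩ := FC3_gen col S (c := s + g - pD (FS col S) b)
    (sub_mem (FC3_On_iff.2 hc) (FC3_On_pD (FC3_closed col S) hb))
    (by rw [add_sub_right_comm]; exact add_mem h2 hg) (by rw [map_sub, h0, pD_pD, sub_zero])
  exact ⟨b + b', FC3_On_iff.1 (add_mem hb hb'), by rw [map_add, e, add_sub_cancel]⟩

theorem FC3_nec {S : Finset ι} {q : ℕ} (h : FEx (ES col S) (FS col S) q) {c : PC ι →₀ ℂ}
    (hc : c ∈ FC3_On (ES col S) (q + 1)) (hg : pD (FS col S) c ∈ FC3_G col) :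
    ∃ b ∈ FC3_On (ES col S ∩ {x | ¬ Gen col x}) q, c - pD (FS col S) b ∈ FC3_G col := by
  obtain ⟨c', h1, h2, e⟩ := FC3_gen col S (FC3_On_pD (FC3_closed col S) hc) hg (pD_pD _ _)
  obtain ⟨b, hb, e'⟩ := h (c - c') (FC3_On_iff.1 (sub_mem hc h1)) (by rw [map_sub, e, sub_self])
  obtain ⟨s, hs, g, hg', rfl⟩ := FC3_dec col (FC3_On_iff.2 hb)
  refine ⟨s, hs, ?_⟩
  rw [map_add] at e'
  rw [eq_sub_of_add_eq e', sub_sub, sub_sub_cancel]
  exact add_mem h2 (FC3_G_pD col _ hg')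

theorem FC3_toV {S : Finset ι} {q : ℕ} {c : PC ι →₀ ℂ}
    (hc : c ∈ FC3_On (ES col S ∩ {x | ¬ Gen col x}) q) : c ∈ FC3_On (FC3_V col S) q :=
  FC3_On_iff.2 fun x hx => ⟨(FC3_special col (FC3_On_iff.1 hc x hx).1.1
    (FC3_On_iff.1 hc x hx).1.2).1, (FC3_On_iff.1 hc x hx).2⟩

theorem FC3_ofV {S : Finset ι} (hS : ∀ i ∈ S, col i = .A ∨ col i = .B) {q : ℕ} {c : PC ι →₀ ℂ}
    (hc : c ∈ FC3_On (FC3_V col S) q) : c ∈ FC3_On (ES col S) q :=
  FC3_On_iff.2 fun x hx => ⟨FC3_V_sub col hS (FC3_On_iff.1 hc x hx).1, (FC3_On_iff.1 hc x hx).2⟩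

theorem FC3_On_pK {S : Finset ι} {i : ι} (hi : col i ≠ .C) {q : ℕ} {c : PC ι →₀ ℂ}
    (hc : c ∈ FC3_On (FC3_V col S) (q + 1)) :
    pK i (FC3_t col i) c ∈ FC3_On (FC3_V col S) q := by
  refine FC3_On_iff.2 fun y hy => ?_
  obtain ⟨x, hx, h, rfl⟩ := pK_support hy
  obtain ⟨h1, h2⟩ := FC3_On_iff.1 hc x hx
  exact ⟨FC3_V_up col h1 hi, Nat.add_right_cancel ((card_pJ_some h _).trans h2)⟩

theorem FC3_htpy {S : Finset ι} {i : ι} (hi : i ∈ FS col S) {q : ℕ} {c : PC ι →₀ ℂ}
    (hc : c ∈ FC3_On (FC3_V col S) q) :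
    pD (FS col S) (pK i (FC3_t col i) c) + pK i (FC3_t col i) (pD (FS col S) c) = c :=
  pD_pK hi _ c fun x hx => ((FC3_On_iff.1 hc x hx).1 i).imp And.left And.left

/-- contraction by a cone operator -/
theorem FC3_cone {S : Finset ι} (hS : ∀ i ∈ S, col i = .A ∨ col i = .B) {q : ℕ} {i : ι}
    (hi : i ∈ FS col S) (hi' : col i ≠ .C)
    (h : ∀ x ∈ FC3_V col S, Gen col x → (pJ x).card = q + 2 →
      Gen col (update x i (some (FC3_t col i)))) : FEx (ES col S) (FS col S) q := by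
  refine FC3_suff col fun c hc hg => ?_
  have hV := FC3_toV col hc
  refine ⟨_, FC3_ofV col hS (FC3_On_pK col hi' hV), ?_⟩
  rw [← eq_sub_of_add_eq' (FC3_htpy col hi hV)]
  refine (FC3_G_iff col).2 fun y hy => ?_
  obtain ⟨x, hx, -, rfl⟩ := pK_support hy
  obtain ⟨h1, h2⟩ := FC3_On_iff.1 (FC3_On_pD (FC3_V_closed col S) hV) x hx
  exact h x h1 ((FC3_G_iff col).1 hg x hx) h2

theorem FC3_empty {S : Finset ι} {q : ℕ}
    (h : ∀ x ∈ ES col S, ¬ Gen col x → (pJ x).card ≠ q + 1) : FEx (ES col S) (FS col S) q := by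
  refine FC3_suff col fun c hc _ => ⟨0, zero_mem _, ?_⟩
  rw [map_zero, sub_zero]
  refine (FC3_G_iff col).2 fun x hx => ?_
  obtain ⟨h1, h2⟩ := FC3_On_iff.1 hc x hx
  exact absurd h2 (h x h1.1 h1.2)

/-- the colouring with all possible deletions -/
def FC3_y (S : Finset ι) : PC ι := fun i => if i ∈ FS col S then none else some (FC3_t col i)

theorem FC3_y_pJ (S : Finset ι) : pJ (FC3_y col S) = FS col S := by
  ext i
  rw [FC3_mem_pJ, FC3_y]
  split_ifs with h <;> simp [h]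

theorem FC3_y_mem {S : Finset ι} (hS : ∀ i ∈ S, col i = .A ∨ col i = .B) :
    FC3_y col S ∈ FC3_V col S := by
  intro i
  by_cases h : i ∈ FS col S
  · exact Or.inl ⟨if_pos h, h⟩
  · refine Or.inr ⟨if_neg h, fun hc => h ((FC3_mem_FS col).2 ⟨fun hi => ?_, by simp [hc]⟩)⟩
    simpa [hc] using hS i hi

theorem FC3_y_On {S : Finset ι} (hS : ∀ i ∈ S, col i = .A ∨ col i = .B) :
    Finsupp.single (FC3_y col S) (1 : ℂ) ∈ FC3_On (FC3_V col S) (FS col S).card :=
  FC3_On_iff.2 fun x hx => by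
    rw [Finset.mem_singleton.1 (Finsupp.support_single_subset hx)]
    exact ⟨FC3_y_mem col hS, by rw [FC3_y_pJ]⟩

theorem FC3_y_pD (S : Finset ι) : pD (FS col S) (Finsupp.single (FC3_y col S) 1) = 0 := by
  rw [pD_single]
  exact Finset.sum_eq_zero fun j hj => if_pos (if_pos hj)

theorem FC3_V_pJ {S : Finset ι} {x : PC ι} (hx : x ∈ FC3_V col S)
    (h : ∀ i ∈ FS col S, x i = some (FC3_t col i) → col i = .C) : pJ x = FS col S := by
  ext i
  rw [FC3_mem_pJ]
  rcases hx i with h1 | h1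
  · exact iff_of_true h1.1 h1.2
  · exact iff_of_false (by simp [h1.1]) fun h2 => h1.2 (h i h2 h1.1)

theorem FC3_caseAB (hA : ∃ k, col k = .A) {S : Finset ι}
    (hS : ∀ i, i ∈ S ↔ col i = .A ∨ col i = .B) (q : ℕ) :
    ¬ FEx (ES col S) (FS col S) q ↔ q + 1 = cnt col .C := by
  have hF : ∀ i, i ∈ FS col S ↔ col i = .C := fun i => by
    rw [FC3_mem_FS, hS]
    cases col i <;> simp
  have hc : (FS col S).card = cnt col .C := congrArg Finset.card (by ext i; simp [hF])
  have hd : ∀ x ∈ ES col S, ¬ Gen col x → (pJ x).card = cnt col .C := fun x hx hg => by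
    rw [FC3_V_pJ col (FC3_special col hx hg).1 fun i hi _ => (hF i).1 hi, hc]
  refine ⟨fun h => by_contra fun hq => h (FC3_empty col fun x hx hg e => hq
    (e.symm.trans (hd x hx hg))), fun hq h => ?_⟩
  have h1 := FC3_ofV col (fun i => (hS i).1) (FC3_y_On col fun i => (hS i).1)
  rw [hc, ← hq] at h1
  obtain ⟨b, hb, h2⟩ := FC3_nec col h h1 (by rw [FC3_y_pD]; exact zero_mem _)
  have h3 : b = 0 := Finsupp.support_eq_empty.1 (Finset.eq_empty_of_forall_notMem fun x hx => by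
    obtain ⟨h4, h5⟩ := FC3_On_iff.1 hb x hx
    have h6 := hd x h4.1 h4.2
    omega)
  rw [h3, map_zero, sub_zero] at h2
  obtain ⟨k, hk⟩ := hA
  refine (FC3_G_iff col).1 h2 (FC3_y col S) (by simp) k hk ?_
  rw [FC3_y, if_neg (by simp [hF, hk]), FC3_t, if_pos hk]

theorem FC3_caseB (hA : ∃ k, col k = .A) {S : Finset ι} (hS : ∀ i, i ∈ S ↔ col i = .B) (q : ℕ) :
    ¬ FEx (ES col S) (FS col S) q ↔ q + 2 = cnt col .A + cnt col .C := by
  have hS' : ∀ i ∈ S, col i = .A ∨ col i = .B := fun i hi => Or.inr ((hS i).1 hi)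
  have hF : ∀ i, i ∈ FS col S ↔ col i = .A ∨ col i = .C := fun i => by
    rw [FC3_mem_FS, hS]
    cases col i <;> simp
  have hc : (FS col S).card = cnt col .A + cnt col .C := by
    rw [cnt, cnt, ← Finset.card_union_of_disjoint (Finset.disjoint_filter.2 fun i _ h => by
      simp [h])]
    exact congrArg Finset.card (by ext i; simp [hF])
  have hd : ∀ x ∈ FC3_V col S, Gen col x → (pJ x).card = cnt col .A + cnt col .C :=
    fun x hx hg => by
      rw [FC3_V_pJ col hx fun i hi e => ((hF i).1 hi).resolve_left fun h =>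
        hg i h (by rw [e, FC3_t, if_pos h]), hc]
  obtain ⟨k, hk⟩ := hA
  have hk1 : k ∈ FS col S := (hF k).2 (Or.inl hk)
  have hk2 : col k ≠ .C := by simp [hk]
  refine ⟨fun h => by_contra fun hq => h (FC3_cone col hS' hk1 hk2 fun x hx hg e => absurd
    (e.symm.trans (hd x hx hg)) hq), fun hq h => ?_⟩
  have h1 := FC3_y_On col hS'
  have h2 := FC3_htpy col hk1 h1
  rw [FC3_y_pD, map_zero, add_zero] at h2
  rw [hc, ← hq] at h1
  have h3 := FC3_On_pK col hk2 h1
  obtain ⟨b, hb, h4⟩ := FC3_nec col h (FC3_ofV col hS' h3) (by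
    rw [h2]
    refine (FC3_G_iff col).2 fun x hx i hi => ?_
    rw [Finset.mem_singleton.1 (Finsupp.support_single_subset hx), FC3_y,
      if_pos ((hF i).2 (Or.inl hi))]
    simp)
  have h5 := sub_mem h3 (FC3_On_pD (FC3_V_closed col S) (FC3_toV col hb))
  have h6 := Finsupp.support_eq_empty.1 (Finset.eq_empty_of_forall_notMem fun x hx => by
    obtain ⟨h7, h8⟩ := FC3_On_iff.1 h5 x hx
    have h9 := hd x h7 ((FC3_G_iff col).1 h4 x hx)
    omega)
  rw [sub_eq_zero.1 h6, pD_pD] at h2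
  exact one_ne_zero (Finsupp.single_eq_zero.1 h2.symm)

/- Proof. Call `x ∈ ES col S` special if it is not generic: then present values are `1` on kind A
and `0` on kinds B and O, kind C is absent, and `S` has no element of kind C or O. Generic elements
are stable under deletion. With `gen_ex` in the degrees `q` and `q + 1`: `FEx` holds iff every `c`
on special elements of degree `q + 1` with `filter special (pD c) = 0` is `filter special (pD b)`
for a `b` on special elements of degree `q`. If some `i` of kind B is not in `S`, or `S` meets kind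
A and some `i` of kind A is not in `S`, then `pK i τ` (`τ = 0` or `1`) preserves both special and
generic elements among the deletions of special ones, and `pD_pK` contracts. If `S` is the union of
the kinds A and B there is exactly one special element, of degree `cnt C`. If `S` is the kind B,
the special elements and `y₀` (kinds A and C absent, degree `cnt A + cnt C`) form a full cone
under `pK i 1`, `col i = A`: exact unless `q + 2 = cnt A + cnt C`, where
`single (update y₀ i (some 1)) 1` is a cycle modulo generic elements but not a boundary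
(`pD_pD`). In all other cases there is no special element. -/
theorem small_main (hA : ∃ k, col k = .A) (S : Finset ι) (q : ℕ) :
    ¬ FEx (ES col S) (FS col S) q ↔
      (S = Finset.univ.filter (fun i => col i = .B) ∧ q + 2 = cnt col .A + cnt col .C) ∨
      (S = Finset.univ.filter (fun i => col i = .A ∨ col i = .B) ∧ q + 1 = cnt col .C) := by
  have e : ∀ (p : ι → Prop) [DecidablePred p], S = Finset.univ.filter p ↔ ∀ i, i ∈ S ↔ p i :=
    fun p _ => by simp [Finset.ext_iff]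
  rw [e, e]
  by_cases h1 : ∀ i, i ∈ S ↔ col i = .B
  · obtain ⟨k, hk⟩ := id hA
    have h2 : ¬ ∀ i, i ∈ S ↔ col i = .A ∨ col i = .B := fun h => by
      simpa [hk] using (h1 k).1 ((h k).2 (Or.inl hk))
    rw [FC3_caseB col hA h1]
    exact ⟨fun h => Or.inl ⟨h1, h⟩, fun h => (h.resolve_right fun h' => h2 h'.1).2⟩
  by_cases h2 : ∀ i, i ∈ S ↔ col i = .A ∨ col i = .B
  · rw [FC3_caseAB col hA h2]
    exact ⟨fun h => Or.inr ⟨h2, h⟩, fun h => (h.resolve_left fun h' => h1 h'.1).2⟩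
  refine iff_of_false (not_not.2 ?_) fun h => h.elim (fun h => h1 h.1) fun h => h2 h.1
  by_cases hS : ∀ i ∈ S, col i = .A ∨ col i = .B
  swap
  · exact FC3_empty col fun x hx hg _ => hS (FC3_special col hx hg).2
  by_cases hB : ∀ i, col i = .B → i ∈ S
  · obtain ⟨k, hk, hk'⟩ : ∃ k ∈ S, col k = .A := by
      by_contra h
      exact h1 fun i => ⟨fun hi => (hS i hi).resolve_left fun h' => h ⟨i, hi, h'⟩, hB i⟩
    obtain ⟨i, hi, hi'⟩ : ∃ i, i ∉ S ∧ col i = .A := by
      by_contra h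
      exact h2 fun i => ⟨hS i, fun hi => hi.elim (fun h' => by_contra fun h3 => h ⟨i, h3, h'⟩)
        (hB i)⟩
    refine FC3_cone col hS ((FC3_mem_FS col).2 ⟨hi, by simp [hi']⟩) (by simp [hi'])
      fun x hx hg _ => absurd ?_ (hg k hk')
    rcases hx k with h | h
    · exact absurd hk ((FC3_mem_FS col).1 h.2).1
    · rw [h.1, FC3_t, if_pos hk']
  · simp only [not_forall] at hB
    obtain ⟨i, hi, hi'⟩ := hB
    refine FC3_cone col hS ((FC3_mem_FS col).2 ⟨hi', by simp [hi]⟩) (by simp [hi])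
      fun x _ hg _ k hk => ?_
    rw [update_of_ne (fun h => by simp [h, hi] at hk)]
    exact hg k hk

end Pool.Agent.P.MP_824f38_ag.DB
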