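import Pool.Agent.P.MP_824f38_ag.H.Small

/-! The small cube is the sum of the complexes of admissible colourings. -/

set_option linter.unusedSectionVars false
set_option linter.style.haveILetI false

namespace Pool.Agent.P.MP_824f38_ag.DB

open Function

variable {ι : Type} [Fintype ι] [LinearOrder ι] (col : ι → Col)

/-- the state of a colouring -/
def FC4_st (x : PC ι) : ι → St := fun i => if x i = none then none else some true

theorem FC4_st_none {x : PC ι} {i : ι} : FC4_st x i = none ↔ x i = none := by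
  simp [FC4_st]

theorem FC4_st_false (x : PC ι) (i : ι) : FC4_st x i ≠ some false := by
  simp only [FC4_st]
  split_ifs <;> simp

theorem FC4_zs (x : PC ι) : zs (FC4_st x) = pJ x := by
  ext i
  simp [zs, pJ, FC4_st_none]

theorem FC4_cdeg (x : PC ι) : cdeg (FC4_st x) = (pJ x).card := congrArg Finset.card (FC4_zs x)

theorem FC4_inj {x y : PC ι} (h : FC4_st x = FC4_st y) (h' : pval x = pval y) : x = y := by
  funext i
  have h1 : x i = none ↔ y i = none := by rw [← FC4_st_none, h, FC4_st_none]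
  have h2 := congrFun h' i
  simp only [pval] at h2
  rcases hx : x i with _ | a <;> rcases hy : y i with _ | b <;> simp_all

theorem FC4_ex {t : ι → St} (ht : ∀ j, t j ≠ some false) {μ : ι → ℤ} (h : ∀ j ∈ zs t, μ j = 0) :
    ∃ x : PC ι, FC4_st x = t ∧ pval x = μ := by
  refine ⟨fun i => if t i = none then none else some (μ i), funext fun i => ?_, funext fun i => ?_⟩
  · have := ht i
    rcases hi : t i with _ | _ | _ <;> simp_all [FC4_st]
  · by_cases hi : t i = none
    · simp [pval, hi, h i (by simp [zs, hi])]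
    · simp [pval, hi]

theorem FC4_st_update (x : PC ι) (j : ι) :
    FC4_st (update x j none) = update (FC4_st x) j none := by
  funext i
  by_cases h : i = j
  · subst h
    simp [FC4_st]
  · simp [FC4_st, update_of_ne h]

theorem FC4_pval_update (x : PC ι) (j : ι) : pval (update x j none) = prj {j} (pval x) := by
  funext i
  by_cases h : i = j
  · subst h
    simp [pval, prj]
  · simp [pval, prj, h]

theorem FC4_sg (x : PC ι) (j : ι) : sg (update (FC4_st x) j none) j = psg x j := by
  rw [sg, psg]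
  congr 2
  refine Finset.filter_congr fun i _ => and_congr_right fun hi => ?_
  rw [update_of_ne hi.ne, FC4_st_none]

open Classical in
/-- assembling a cochain -/
noncomputable def FC4_A (S : Finset ι) (t : ι → St) : (PC ι →₀ ℂ) →ₗ[ℂ] Crd ι :=
  Finsupp.lsum ℂ fun x => if FC4_st x = t then Finsupp.lsingle (pval x, S) else 0

open Classical in
theorem FC4_A_single (S : Finset ι) (t : ι → St) (x : PC ι) (a : ℂ) :
    FC4_A S t (Finsupp.single x a) =
      if FC4_st x = t then Finsupp.single (pval x, S) a else 0 := by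
  rw [FC4_A, Finsupp.lsum_single]
  split_ifs <;> simp

theorem FC4_A_sum (S : Finset ι) (t : ι → St) (b : PC ι →₀ ℂ) :
    FC4_A S t b = ∑ x ∈ b.support, FC4_A S t (Finsupp.single x (b x)) := by
  rw [← map_sum]
  exact congrArg _ (Finsupp.sum_single b).symm

theorem FC4_A_ne {S : Finset ι} {t : ι → St} {b : PC ι →₀ ℂ} {y : (ι → ℤ) × Finset ι}
    (h : FC4_A S t b y ≠ 0) : ∃ x ∈ b.support, FC4_st x = t ∧ (pval x, S) = y := by
  rw [FC4_A_sum, Finsupp.finsetSum_apply] at h
  obtain ⟨x, hx, h1⟩ := Finset.exists_ne_zero_of_sum_ne_zero h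
  rw [FC4_A_single] at h1
  split_ifs at h1 with h2
  · exact ⟨x, hx, h2, (Finsupp.single_apply_ne_zero.mp h1).1.symm⟩
  · exact absurd rfl h1

theorem FC4_A_self (S : Finset ι) (b : PC ι →₀ ℂ) (x : PC ι) :
    FC4_A S (FC4_st x) b (pval x, S) = b x := by
  induction b using Finsupp.induction_linear with
  | zero => simp
  | add f g hf hg => rw [map_add, Finsupp.add_apply, Finsupp.add_apply, hf, hg]
  | single y a =>
    rw [FC4_A_single]
    by_cases h : y = x
    · subst h
      simp
    · rw [Finsupp.single_eq_of_ne' h]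
      split_ifs with h1
      · exact Finsupp.single_eq_of_ne' fun e => h (FC4_inj h1 (congrArg Prod.fst e))
      · rfl

theorem FC4_A_eval (S : Finset ι) (b : Finset ι → PC ι →₀ ℂ) (t : ι → St) (μ : ι → ℤ) :
    (∑ S', FC4_A S' t (b S')) (μ, S) = FC4_A S t (b S) (μ, S) := by
  rw [Finsupp.finsetSum_apply]
  refine Finset.sum_eq_single S (fun S' _ h => ?_) fun h => absurd (Finset.mem_univ _) h
  by_contra h1
  obtain ⟨x, -, -, e⟩ := FC4_A_ne h1
  exact h (congrArg Prod.snd e)

/-- extracting a family of colourings -/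
noncomputable def FC4_B (S : Finset ι) (c : (ι → St) → Crd ι) : PC ι →₀ ℂ :=
  Finsupp.ofSupportFinite (fun x => c (FC4_st x) (pval x, S)) (by
    have h : (⋃ s : ι → St, (fun y : (ι → ℤ) × Finset ι => (s, y)) '' (c s).support).Finite :=
      Set.finite_iUnion fun s => (c s).support.finite_toSet.image _
    refine (h.preimage (f := fun x : PC ι => (FC4_st x, (pval x, S))) fun x _ y _ e =>
      FC4_inj (congrArg Prod.fst e) (congrArg (fun z => z.2.1) e)).subset fun x hx => ?_
    exact Set.mem_iUnion.mpr ⟨_, _, Finsupp.mem_support_iff.mpr hx, rfl⟩)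

theorem FC4_B_apply (S : Finset ι) (c : (ι → St) → Crd ι) (x : PC ι) :
    FC4_B S c x = c (FC4_st x) (pval x, S) := rfl

theorem FC4_mem_N {p : ℕ} {s : ι → St} {f : Crd ι} : f ∈ (smallCP col p).N s ↔
    ∀ y, f y ≠ 0 → ((∀ j, s j ≠ some false) ∧ ∀ j ∈ zs s, col j ≠ .O) ∧ y.2.card = p ∧
      Disjoint y.2 (zs s) ∧ (∀ j ∈ zs s, y.1 j = 0) ∧ Gam col (zs s) y.1 y.2 := by
  simp only [smallCP]
  split_ifs with h
  · rw [Submodule.mem_toAddSubgroup, Finsupp.mem_supported]
    exact ⟨fun H y hy => ⟨h, H (Finsupp.mem_support_iff.mpr hy)⟩,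
      fun H y hy => (H y (Finsupp.mem_support_iff.mp hy)).2⟩
  · rw [AddSubgroup.mem_bot]
    refine ⟨fun H y hy => absurd (by rw [H]; rfl) hy, fun H => Finsupp.ext fun y => ?_⟩
    by_contra hy
    exact h (H y hy).1

theorem FC4_mem_FS {S : Finset ι} {i : ι} : i ∈ FS col S ↔ i ∉ S ∧ col i ≠ .O := by simp [FS]

theorem FC4_A_mem {p : ℕ} {S : Finset ι} (hS : S.card = p) {b : PC ι →₀ ℂ}
    (hb : ∀ x ∈ b.support, x ∈ ES col S) (s : ι → St) : FC4_A S s b ∈ (smallCP col p).N s := by
  refine (FC4_mem_N col).mpr fun y hy => ?_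
  obtain ⟨x, hx, rfl, rfl⟩ := FC4_A_ne hy
  obtain ⟨h1, h2⟩ := hb x hx
  rw [FC4_zs]
  refine ⟨⟨FC4_st_false x, fun j hj => ((FC4_mem_FS col).mp (h1 hj)).2⟩, hS,
    Finset.disjoint_right.mpr fun j hj => ((FC4_mem_FS col).mp (h1 hj)).1, fun j hj => ?_, h2⟩
  simp [pval, (Finset.mem_filter.mp hj).2]

theorem FC4_A_deg {q : ℕ} (S : Finset ι) {b : PC ι →₀ ℂ}
    (hb : ∀ x ∈ b.support, (pJ x).card = q) {s : ι → St} (hs : cdeg s ≠ q) : FC4_A S s b = 0 := by
  refine Finsupp.ext fun y => ?_
  by_contra hy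
  obtain ⟨x, hx, rfl, -⟩ := FC4_A_ne hy
  exact hs ((FC4_cdeg x).trans (hb x hx))

theorem FC4_B_mem {p : ℕ} {c : (ι → St) → Crd ι} (hc : ∀ s, c s ∈ (smallCP col p).N s)
    {S : Finset ι} {x : PC ι} (hx : x ∈ (FC4_B S c).support) : x ∈ ES col S ∧ S.card = p := by
  obtain ⟨⟨-, h1⟩, h2, h3, -, h4⟩ :=
    (FC4_mem_N col).mp (hc (FC4_st x)) (pval x, S)
      ((Finsupp.mem_support_iff (f := FC4_B S c)).mp hx)
  rw [FC4_zs] at h1 h3 h4
  exact ⟨⟨fun j hj => (FC4_mem_FS col).mpr ⟨Finset.disjoint_right.mp h3 hj, h1 j hj⟩, h4⟩, h2⟩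

theorem FC4_B_deg {q : ℕ} {c : (ι → St) → Crd ι} (hc : ∀ s, cdeg s ≠ q → c s = 0)
    {S : Finset ι} {x : PC ι} (hx : x ∈ (FC4_B S c).support) : (pJ x).card = q := by
  by_contra h
  refine Finsupp.mem_support_iff.mp hx ?_
  rw [FC4_B_apply, hc _ (by rwa [FC4_cdeg])]
  rfl

theorem FC4_decomp {p : ℕ} {c : (ι → St) → Crd ι} (hc : ∀ s, c s ∈ (smallCP col p).N s)
    (t : ι → St) : ∑ S, FC4_A S t (FC4_B S c) = c t := by
  refine Finsupp.ext fun ⟨μ, S⟩ => ?_
  rw [FC4_A_eval]
  by_cases h : ∃ x : PC ι, FC4_st x = t ∧ pval x = μ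
  · obtain ⟨x, rfl, rfl⟩ := h
    rw [FC4_A_self, FC4_B_apply]
  · have h1 : c t (μ, S) = 0 := by
      by_contra h1
      obtain ⟨⟨h2, -⟩, -, -, h3, -⟩ := (FC4_mem_N col).mp (hc t) _ h1
      exact h (FC4_ex h2 h3)
    rw [h1]
    by_contra h2
    obtain ⟨x, -, h3, h4⟩ := FC4_A_ne h2
    exact h ⟨x, h3, congrArg Prod.fst h4⟩

theorem FC4_d_sum {α : Type} (p : ℕ) (T : Finset α) (c : α → (ι → St) → Crd ι) (t : ι → St) :
    (smallCP col p).d (fun s => ∑ i ∈ T, c i s) t = ∑ i ∈ T, (smallCP col p).d (c i) t := by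
  simp only [CP.d]
  split_ifs with h
  · rw [Finset.sum_comm]
    refine Finset.sum_congr rfl fun θ _ => ?_
    split_ifs
    · rw [← Finset.sum_sub_distrib, map_sum, Finset.smul_sum]
    · simp
  · simp

theorem FC4_d_single (p : ℕ) {S : Finset ι} {x : PC ι} (hx : pJ x ⊆ FS col S) (a : ℂ)
    (t : ι → St) : (smallCP col p).d (fun s => FC4_A S s (Finsupp.single x a)) t =
      FC4_A S t (pD (FS col S) (Finsupp.single x a)) := by
  classical
  have key : ∀ θ, (if (smallCP col p).ok t then if t θ = none then sg t θ • (smallCP col p).r θ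
      (FC4_A S (update t θ (some true)) (Finsupp.single x a) -
        FC4_A S (update t θ (some false)) (Finsupp.single x a)) else 0 else 0) =
      if θ ∈ FS col S then FC4_A S t (if x θ = none then 0 else
        Finsupp.single (update x θ none) ((psg x θ : ℂ) * a)) else 0 := by
    intro θ
    have h0 : FC4_st x ≠ update t θ (some false) := fun e =>
      FC4_st_false x θ (by rw [e, update_self])
    rw [FC4_A_single S (update t θ (some false)), if_neg h0, sub_zero, FC4_A_single]
    by_cases h : x θ ≠ none ∧ update (FC4_st x) θ none = t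
    · obtain ⟨h1, rfl⟩ := h
      have h2 : FC4_st x = update (update (FC4_st x) θ none) θ (some true) := by
        rw [update_idem, eq_comm, update_eq_self_iff]
        simp [FC4_st, h1]
      have h3 : (smallCP col p).ok (update (FC4_st x) θ none) ↔ col θ ≠ .O := by
        refine ⟨fun H => H.2 θ (by simp [zs]), fun H => ⟨fun j => ?_, fun j hj => ?_⟩⟩
        · rw [← FC4_st_update]
          exact FC4_st_false _ j
        · by_cases e : j = θ
          · rwa [e]
          · have h4 := (Finset.mem_filter.mp hj).2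
            rw [update_of_ne e, FC4_st_none] at h4
            exact ((FC4_mem_FS col).mp (hx (by simp [pJ, h4]))).2
      rw [if_pos h2, if_neg h1, FC4_A_single, if_pos (FC4_st_update x θ), update_self, if_pos rfl,
        FC4_sg, FC4_pval_update]
      change (if _ then psg x θ • cmap θ _ else _) = _
      rw [cmap_single]
      simp only [h3, FC4_mem_FS]
      by_cases h4 : col θ = .O <;> by_cases h5 : θ ∈ S <;>
        simp [h4, h5, Finsupp.smul_single]
    · have h1 : FC4_A S t (if x θ = none then 0 else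
          Finsupp.single (update x θ none) ((psg x θ : ℂ) * a)) = 0 := by
        split_ifs with h1
        · exact map_zero _
        · rw [FC4_A_single, FC4_st_update, if_neg fun e => h ⟨h1, e⟩]
      rw [h1, ite_self]
      split_ifs with h2 h3 h4
      · refine absurd ⟨fun e => ?_, ?_⟩ h
        · have := FC4_st_none.mpr e
          rw [h4, update_self] at this
          cases this
        · rw [h4, update_idem, ← h3, update_eq_self]
      · simp
      · rfl
      · rfl
  rw [pD_single, map_sum, ← Finset.univ_inter (FS col S), ← Finset.sum_ite_mem,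
    ← Finset.sum_congr rfl fun θ _ => key θ, CP.d]
  split_ifs
  · rfl
  · simp

theorem FC4_d_A (p : ℕ) {S : Finset ι} {b : PC ι →₀ ℂ} (hb : ∀ x ∈ b.support, x ∈ ES col S)
    (t : ι → St) :
    (smallCP col p).d (fun s => FC4_A S s b) t = FC4_A S t (pD (FS col S) b) := by
  have h : (fun s => FC4_A S s b) =
      fun s => ∑ x ∈ b.support, FC4_A S s (Finsupp.single x (b x)) :=
    funext fun s => FC4_A_sum S s b
  rw [h, FC4_d_sum, Finset.sum_congr rfl fun x hx => FC4_d_single col p (hb x hx).1 (b x) t,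
    ← map_sum, ← map_sum]
  exact congrArg _ (congrArg _ (Finsupp.sum_single b))

theorem FC4_d_B {p : ℕ} {c : (ι → St) → Crd ι} (hc : ∀ s, c s ∈ (smallCP col p).N s)
    (S : Finset ι) (x : PC ι) :
    (smallCP col p).d c (FC4_st x) (pval x, S) = pD (FS col S) (FC4_B S c) x := by
  have h : c = fun s => ∑ S, FC4_A S s (FC4_B S c) := funext fun s => (FC4_decomp col hc s).symm
  conv_lhs => rw [h]
  rw [FC4_d_sum, Finset.sum_congr rfl fun S' _ =>
    FC4_d_A col p (fun y hy => (FC4_B_mem col hc hy).1) _, FC4_A_eval, FC4_A_self]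

/- Proof. To `x : PC ι` attach the state `st x i = if x i = none then none else some true`
(`zs (st x) = pJ x`, `cdeg (st x) = (pJ x).card`). A cochain `c` of the cube and families
`b S : PC ι →₀ ℂ` correspond by `b S x = c (st x) (pval x, S)`; conversely
`c s = ∑ S, ((b S).filter (st · = s)).mapDomain (fun x => (pval x, S))`. Compare the
differentials on `Finsupp.single` (`cmap_single`, `pD_single`,
`pval (update x j none) = prj {j} (pval x)`, `sg (st (update x j none)) j = psg x j`). -/
theorem small_ex_iff (p q : ℕ) :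
    (smallCP col p).Ex q ↔ ∀ S : Finset ι, S.card = p → FEx (ES col S) (FS col S) q := by
  constructor
  · intro H S hS b hb h0
    obtain ⟨c, h1, h2, h3⟩ := H (fun s => FC4_A S s b) (FC4_A_mem col hS fun x hx => (hb x hx).1)
      (fun s hs => FC4_A_deg S (fun x hx => (hb x hx).2) hs)
      fun t => by rw [FC4_d_A col p fun x hx => (hb x hx).1, h0, map_zero]
    refine ⟨FC4_B S c, fun x hx => ⟨(FC4_B_mem col h1 hx).1, FC4_B_deg h2 hx⟩,
      Finsupp.ext fun x => ?_⟩
    rw [← FC4_d_B col h1, h3, FC4_A_self]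
  · intro H c h1 h2 h3
    have h4 : ∀ S : Finset ι, ∃ b : PC ι →₀ ℂ, (S.card ≠ p → b = 0) ∧
        (∀ x ∈ b.support, x ∈ ES col S ∧ (pJ x).card = q) ∧ pD (FS col S) b = FC4_B S c := by
      intro S
      by_cases hS : S.card = p
      · obtain ⟨b, hb⟩ := H S hS (FC4_B S c)
          (fun x hx => ⟨(FC4_B_mem col h1 hx).1, FC4_B_deg h2 hx⟩)
          (Finsupp.ext fun x => by rw [← FC4_d_B col h1, h3]; rfl)
        exact ⟨b, fun h => absurd hS h, hb⟩
      · refine ⟨0, fun _ => rfl, by simp, Finsupp.ext fun x => ?_⟩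
        rw [map_zero, eq_comm]
        by_contra hx
        exact hS (FC4_B_mem col h1 (Finsupp.mem_support_iff.mpr hx)).2
    choose b h5 h6 h7 using h4
    refine ⟨fun s => ∑ S, FC4_A S s (b S), fun s => sum_mem fun S _ => ?_,
      fun s hs => Finset.sum_eq_zero fun S _ => FC4_A_deg S (fun x hx => (h6 S x hx).2) hs,
      fun t => ?_⟩
    · by_cases hS : S.card = p
      · exact FC4_A_mem col hS (fun x hx => (h6 S x hx).1) s
      · rw [h5 S hS, map_zero]
        exact zero_mem _
    · rw [FC4_d_sum, ← FC4_decomp col h1 t]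
      exact Finset.sum_congr rfl fun S _ => by
        rw [FC4_d_A col p fun x hx => (h6 S x hx).1, h7]

end Pool.Agent.P.MP_824f38_ag.DB
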