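import Pool.Agent.P.MP_824f38_ag.H.Small

/-! The pinched toric variety and its diagram of charts. -/

set_option linter.unusedSectionVars false
set_option linter.style.haveILetI false

namespace Pool.Agent.P.MP_824f38_ag.DB

open Function

/-- pinching of `Spec A` along a Noether normalisation of the zero set of `I` -/
structure Pinch (A : Type) [CommRing A] [Algebra ℂ A] (I : Ideal A) where
  /-- dimension of the zero set -/
  d : ℕ
  /-- the pinched ring -/
  R : Subalgebra ℂ A
  /-- restriction to the affine space -/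
  β : R →ₐ[ℂ] MvPolynomial (Fin d) ℂ
  /-- a section -/
  l : MvPolynomial (Fin d) ℂ →ₐ[ℂ] R
  β_l : β.comp l = AlgHom.id ℂ _
  sub_mem : ∀ r : R, (r : A) - (l (β r) : A) ∈ I
  mem_of : ∀ a ∈ I, a ∈ R
  β_I : ∀ r : R, (r : A) ∈ I → β r = 0
  ft : Algebra.FiniteType ℂ R
  integral : ∀ a : A, IsIntegral R a

/-- the directions of the cube -/
inductive Dir (K r : ℕ) (ι : Type) : Type
  | cut (k : Fin K) : Dir K r ι
  | ray (a : Fin r) : Dir K r ι
  | col (j : ι) : Dir K r ι

namespace Dir

variable {K r : ℕ} {ι : Type}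

/-- directions as a sum -/
def toSum : Dir K r ι → Fin K ⊕ₗ (Fin r ⊕ₗ ι)
  | cut k => toLex (Sum.inl k)
  | ray a => toLex (Sum.inr (toLex (Sum.inl a)))
  | col j => toLex (Sum.inr (toLex (Sum.inr j)))

theorem toSum_inj : Injective (toSum : Dir K r ι → _) := by
  intro a b h
  cases a <;> cases b <;> simp_all [toSum]

instance [Finite ι] : Finite (Dir K r ι) :=
  haveI : Finite (Fin r ⊕ₗ ι) := inferInstanceAs (Finite (Fin r ⊕ ι))
  haveI : Finite (Fin K ⊕ₗ (Fin r ⊕ₗ ι)) := inferInstanceAs (Finite (Fin K ⊕ (Fin r ⊕ₗ ι)))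
  Finite.of_injective _ toSum_inj

noncomputable instance [Finite ι] : Fintype (Dir K r ι) := Fintype.ofFinite _

instance [LinearOrder ι] : LinearOrder (Dir K r ι) := LinearOrder.lift' toSum toSum_inj

theorem col_le_col [LinearOrder ι] (i j : ι) : (col i : Dir K r ι) ≤ col j ↔ i ≤ j := by
  change toSum (col i : Dir K r ι) ≤ toSum (col j) ↔ _
  simp [toSum]

/-- the last directions -/
def colEmb [LinearOrder ι] : ι ↪o Dir K r ι :=
  ⟨⟨col, fun _ _ h => by cases h; rfl⟩, fun {a b} => col_le_col a b⟩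

end Dir

variable {ι : Type} [Fintype ι] [LinearOrder ι] {col : ι → Col}

theorem Gam.mem_PM {m : ι → ℤ} (h : Gam col ∅ m ∅) : m ∈ PM col := by
  refine ⟨fun i hi => ?_, fun i k hk => (h.2.2 i k (by simp) (by simp) hk).le⟩
  rcases hi with hi | hi
  · exact (h.1 i (by simp) hi).le
  · simpa using h.2.1 i (by simp) hi

theorem Gam.add {m a : ι → ℤ} (h : Gam col ∅ m ∅) (ha : a ∈ PM col) : Gam col ∅ (a + m) ∅ := by
  refine ⟨fun i hi hc => ?_, fun i hi hc => ?_, fun i k hi hk hc => ?_⟩
  · have := h.1 i hi hc; have := ha.1 i (Or.inl hc); simp only [Pi.add_apply]; omega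
  · have := h.2.1 i hi hc; have := ha.1 i (Or.inr hc); simp only [Pi.add_apply]; omega
  · have := h.2.2 i k hi hk hc
    have := ha.2 i k hc
    have := abs_add_le (a i) (m i)
    simp only [Pi.add_apply, mul_add]; omega

variable (col)

/-- restriction to the subtorus `x_j = 1` -/
noncomputable def sub (j : ι) : MA (PM col) →ₐ[ℂ] AddMonoidAlgebra ℂ (ι → ℤ) :=
  AddMonoidAlgebra.mapDomainAlgHom ℂ ℂ ((prjHom {j}).comp (PM col).subtype)

theorem sub_chi (j : ι) (m : PM col) : sub col j (chi m) = AddMonoidAlgebra.single (prj {j} m) 1 := by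
  simp [sub, chi, prjHom]

/-- the ideal of the toric boundary -/
noncomputable def IB : Ideal (MA (PM col)) := Ideal.span {a | ∃ m : PM col, Gam col ∅ m ∅ ∧ a = chi m}

/-- the ideal of the union of the toric boundary and the closures of the subtori -/
noncomputable def IA : Ideal (MA (PM col)) :=
  IB col ⊓ ⨅ j : {j // col j ≠ .O}, RingHom.ker (sub col j)

theorem mem_IA {a : MA (PM col)} : a ∈ IA col ↔ a ∈ IB col ∧ ∀ j, col j ≠ .O → sub col j a = 0 := by
  simp [IA, RingHom.mem_ker]

variable {col}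

namespace Res

variable (X : Res col)

/-- the directions -/
abbrev D : Type := Dir X.K X.r ι

/-- the chart -/
def eps (s : X.D → St) : Fin X.K → St := fun k => s (.cut k)

/-- the toric stratum -/
def Is (s : X.D → St) : Finset (ι → ℤ) :=
  (Finset.univ.filter fun a => s (.ray a) = none).image X.ray

/-- the subtorus -/
def Js (s : X.D → St) : Finset ι := Finset.univ.filter fun j => s (.col j) = none

theorem mem_Is {s : X.D → St} {v : ι → ℤ} : v ∈ X.Is s ↔ ∃ a, s (.ray a) = none ∧ X.ray a = v := by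
  simp [Is]

theorem mem_Js {s : X.D → St} {j : ι} : j ∈ X.Js s ↔ s (.col j) = none := by simp [Js]

theorem eps_mono {s t : X.D → St} (h : cle s t) : cle (X.eps s) (X.eps t) := fun _ => h _

theorem Is_mono {s t : X.D → St} (h : cle s t) : X.Is s ⊆ X.Is t := fun v hv => by
  obtain ⟨a, ha, rfl⟩ := X.mem_Is.mp hv
  exact X.mem_Is.mpr ⟨a, by rcases h (.ray a) with e | e; exacts [e ▸ ha, e], rfl⟩

theorem Js_mono {s t : X.D → St} (h : cle s t) : X.Js s ⊆ X.Js t := fun j hj => by
  have := X.mem_Js.mp hj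
  exact X.mem_Js.mpr (by rcases h (.col j) with e | e; exacts [e ▸ this, e])

/-- valid states -/
def ix : Ix X.D where
  edge θ := ∀ k, θ ≠ .cut k
  valid s := (∀ a, s (.ray a) ≠ some false) ∧ (∀ j, s (.col j) ≠ some false) ∧
    (∀ j ∈ X.Js s, col j ≠ .O) ∧ Val (X.G (X.eps s)) (X.Is s) (X.Js s)
  valid_edge s θ h hθ := by
    cases θ with
    | cut k => exact absurd rfl (hθ k)
    | ray a => exact h.1 a
    | col j => exact h.2.1 j
  down s t h hst he := by
    refine ⟨fun a => he _ fun k => by simp, fun j => he _ fun k => by simp,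
      fun j hj => h.2.2.1 j (X.Js_mono hst hj), fun v hv => ?_⟩
    have := h.2.2.2 v (X.Is_mono hst hv)
    exact ⟨X.anti _ _ (X.eps_mono hst) this.1, fun j hj => this.2 j (X.Js_mono hst hj)⟩

/-- the monoid of a state -/
abbrev Q (s : X.D → St) : AddSubmonoid (ι → ℤ) := CM (X.G (X.eps s)) (X.Is s) (X.Js s)

theorem cmpP {s : X.D → St} (h : X.ix.valid s) :
    Cmp (PM col) (X.G (X.eps s)) (X.Is s) (X.Js s) :=
  ⟨fun m hm v hv _ => X.nonneg _ v hv m hm, h.2.2.2⟩

theorem cmpQ {s t : X.D → St} (h : X.ix.valid t) (hst : cle s t) :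
    Cmp (X.Q s) (X.G (X.eps t)) (X.Is t) (X.Js t) :=
  cmp_CM (X.anti _ _ (X.eps_mono hst)) (X.Js_mono hst) h.2.2.2

theorem tmap_IA {s : X.D → St} (h : X.ix.valid s) (hb : X.ix.bd s) {a : MA (PM col)}
    (ha : a ∈ IA col) : tmap (X.cmpP h) a = 0 := by
  obtain ⟨h1, h2⟩ := (mem_IA col).mp ha
  by_cases hI : (X.Is s).Nonempty
  · obtain ⟨v, hv⟩ := hI
    have : IB col ≤ RingHom.ker (tmap (X.cmpP h)) := by
      refine Ideal.span_le.mpr ?_
      rintro _ ⟨m, hm, rfl⟩
      refine tmap_chi_neg _ _ fun H => ?_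
      obtain ⟨b, -, rfl⟩ := X.mem_Is.mp hv
      exact (X.pos _ _ (h.2.2.2 _ hv).1 (X.ray_ne b) m hm).ne' (H _ hv)
    exact this h1
  · obtain ⟨θ, hθ, hs⟩ := hb
    cases θ with
    | cut k => exact absurd rfl (hθ k)
    | ray b => exact absurd ⟨_, X.mem_Is.mpr ⟨b, hs, rfl⟩⟩ hI
    | col j =>
      have hj := X.mem_Js.mpr hs
      let e : MA (X.Q s) →ₐ[ℂ] AddMonoidAlgebra ℂ (ι → ℤ) :=
        AddMonoidAlgebra.mapDomainAlgHom ℂ ℂ (X.Q s).subtype
      have he : Injective e := AddMonoidAlgebra.mapDomain_injective Subtype.val_injective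
      have : e.comp (tmap (X.cmpP h)) =
          (AddMonoidAlgebra.mapDomainAlgHom ℂ ℂ (prjHom (X.Js s))).comp (sub col j) := by
        refine ma_ext fun m => ?_
        rw [AlgHom.comp_apply, AlgHom.comp_apply, sub_chi,
          tmap_chi_pos _ _ fun v hv => absurd ⟨v, hv⟩ hI]
        simp [e, chi, prjHom, prj_prj (Finset.singleton_subset_iff.mpr hj)]
      refine he ?_
      rw [map_zero, ← AlgHom.comp_apply, this, AlgHom.comp_apply, h2 j (h.2.2.1 j hj), map_zero]

variable (Pn : Pinch (MA (PM col)) (IA col))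

/-- the algebras of the diagram -/
@[reducible] def oB : Ob X.ix → Type
  | .base => MvPolynomial (Fin Pn.d) ℂ
  | .st s _ => MA (X.Q s)

/-- ring structures -/
@[reducible] noncomputable def oRing : ∀ o, CommRing (X.oB Pn o)
  | .base => inferInstanceAs (CommRing (MvPolynomial (Fin Pn.d) ℂ))
  | .st s _ => inferInstanceAs (CommRing (MA (X.Q s)))

attribute [local instance] oRing

/-- algebra structures -/
@[reducible] noncomputable def oAlg : ∀ o, Algebra ℂ (X.oB Pn o)
  | .base => inferInstanceAs (Algebra ℂ (MvPolynomial (Fin Pn.d) ℂ))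
  | .st s _ => inferInstanceAs (Algebra ℂ (MA (X.Q s)))

attribute [local instance] oAlg

/-- structure maps -/
noncomputable def oAug : ∀ o, Pn.R →ₐ[ℂ] X.oB Pn o
  | .base => Pn.β
  | .st _ h => (tmap (X.cmpP h)).comp Pn.R.val

/-- transition maps -/
noncomputable def oF : ∀ {o o' : Ob X.ix}, o ≤ o' → (X.oB Pn o →ₐ[ℂ] X.oB Pn o')
  | .base, .base, _ => AlgHom.id ℂ _
  | .base, .st _ h, _ => ((tmap (X.cmpP h)).comp Pn.R.val).comp Pn.l
  | .st _ _, .base, h => False.elim h
  | .st _ _, .st _ h, hst => tmap (X.cmpQ h hst)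

/-- the diagram of charts and strata -/
noncomputable def diag (hs : ∀ s, X.ix.valid s → Algebra.Smooth ℂ (MA (X.Q s))) : Diag Pn.R where
  O := Ob X.ix
  B := X.oB Pn
  ring := X.oRing Pn
  alg := X.oAlg Pn
  smooth o := match o with
    | .base => (⟨inferInstance, inferInstance⟩ : Algebra.Smooth ℂ (MvPolynomial (Fin Pn.d) ℂ))
    | .st s h => hs s h
  aug := X.oAug Pn
  f := X.oF Pn
  f_aug {o o'} h := match o, o', h with
    | .base, .base, _ => rfl
    | .base, .st s hv, h => by
      refine AlgHom.ext fun r => ?_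
      have := X.tmap_IA hv h (Pn.sub_mem r)
      rw [map_sub, sub_eq_zero] at this
      exact this.symm
    | .st _ _, .base, h => False.elim h
    | .st s hv, .st t hw, h => by
      change (tmap (X.cmpQ hw h)).comp ((tmap (X.cmpP hv)).comp Pn.R.val) =
        (tmap (X.cmpP hw)).comp Pn.R.val
      rw [← AlgHom.comp_assoc, tmap_comp _ (X.Is_mono h) (X.Js_mono h)]
  f_refl o := match o with
    | .base => rfl
    | .st _ h => tmap_id (X.cmpQ h (cle_refl _))
  f_trans {o o' o''} h h' := match o, o', o'', h, h' with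
    | .base, .base, .base, _, _ => rfl
    | .base, .base, .st _ _, _, _ => rfl
    | .base, .st s hv, .st t hw, _, h' => by
      change (tmap (X.cmpQ hw h')).comp (((tmap (X.cmpP hv)).comp Pn.R.val).comp Pn.l) =
        ((tmap (X.cmpP hw)).comp Pn.R.val).comp Pn.l
      rw [← AlgHom.comp_assoc, ← AlgHom.comp_assoc, tmap_comp _ (X.Is_mono h') (X.Js_mono h')]
    | .st _ _, .st _ hv, .st _ hw, h, h' =>
      tmap_comp (X.cmpQ hv h) (X.Is_mono h') (X.Js_mono h') (X.cmpQ hw h')
        (X.cmpQ hw (cle_trans h h'))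
    | _, .st _ _, .base, _, h' => False.elim h'
    | .st _ _, .base, _, h, _ => False.elim h

/-- the rays that a direction adds to the stratum -/
def dA : X.D → Finset (ι → ℤ)
  | .ray a => {X.ray a}
  | _ => ∅

/-- the coordinates that a direction forgets -/
def dB : X.D → Finset ι
  | .col j => {j}
  | _ => ∅

open Classical in
/-- the cube of forms after the elimination of the rays in `U` -/
noncomputable def CI (p : ℕ) (U : Finset (Fin X.r)) : CP X.D (Amb ι) where
  ok s := X.ix.valid s ∧ ∀ a ∈ U, s (.ray a) = some true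
  N s := if X.ix.valid s ∧ ∀ a ∈ U, s (.ray a) = some true then
    (NF (X.Q s) p ⊓ Finsupp.supported (Lam ι) ℂ {μ | ∀ a ∈ U, X.ray a ∈ X.G (X.eps s) →
      (∀ j ∈ X.Js s, X.ray a j = 0) → μ ⬝ᵥ X.ray a ≠ 0}).toAddSubgroup else ⊥
  r θ := (rho (X.dA θ) (X.dB θ)).toAddMonoidHom

/-- admissible states after the elimination of the rays and of the cuts from `k` on -/
def okK (k : ℕ) (s : X.D → St) : Prop :=
  (∀ a, s (.ray a) = some true) ∧ (∀ j, s (.col j) ≠ some false) ∧ (∀ j ∈ X.Js s, col j ≠ .O) ∧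
    ∀ j : Fin X.K, k ≤ j → s (.cut j) = some true

/-- the maps in coordinates -/
noncomputable def rK : X.D → Crd ι →+ Crd ι
  | .col j => (cmap j).toAddMonoidHom
  | _ => AddMonoidHom.id _

open Classical in
/-- the cube of forms after the elimination of the rays and of the cuts from `k` on -/
noncomputable def CK (p k : ℕ) : CP X.D (Crd ι) where
  ok := X.okK k
  N s := if X.okK k s then
    (Finsupp.supported ℂ ℂ {x : (ι → ℤ) × Finset ι | x.2.card = p ∧ Disjoint x.2 (X.Js s) ∧
      (∀ j ∈ X.Js s, x.1 j = 0) ∧ X.E k (X.eps s) (X.Js s) x.1 x.2}).toAddSubgroup else ⊥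
  r := X.rK

end Res

end Pool.Agent.P.MP_824f38_ag.DB
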