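import Pool.Agent.P.MP_824f38_ag.H.FanMV

/-! The initial cone. -/

set_option linter.unusedSectionVars false
set_option linter.style.haveILetI false

namespace Pool.Agent.P.MP_824f38_ag.DB

open Function

section Gen

variable {κ Γ : Type} [DecidableEq κ] [Fintype κ]
  [AddCommGroup Γ] [LinearOrder Γ] [IsOrderedAddMonoid Γ]

theorem FanInit_zero (G : Finset (κ → ℤ)) : InCone G (fun _ => (0 : Γ)) :=
  ⟨fun _ => 0, fun _ => le_rfl, fun _ => by simp⟩

theorem FanInit_add {G : Finset (κ → ℤ)} {ξ η : κ → Γ} (h1 : InCone G ξ) (h2 : InCone G η) :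
    InCone G (fun a => ξ a + η a) := by
  obtain ⟨c, hc, e⟩ := h1
  obtain ⟨c', hc', e'⟩ := h2
  refine ⟨fun v => c v + c' v, fun v => add_nonneg (hc v) (hc' v), fun a => ?_⟩
  simp only [smul_add, Finset.sum_add_distrib, e a, e' a]

theorem FanInit_ray {G : Finset (κ → ℤ)} {v : κ → ℤ} (hv : v ∈ G) {x : Γ} (hx : 0 ≤ x) :
    InCone G (fun a => v a • x) := by
  refine ⟨fun w => if w = v then x else 0, fun w => by dsimp only; split_ifs <;> simp [hx],
    fun a => ?_⟩
  rw [Finset.sum_eq_single v]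
  · simp
  · intro b _ hb
    simp [hb]
  · intro h
    exact absurd hv h

theorem FanInit_sum {G : Finset (κ → ℤ)} {α : Type} (s : Finset α) (f : α → κ → Γ)
    (h : ∀ i ∈ s, InCone G (f i)) : InCone G (fun a => ∑ i ∈ s, f i a) := by
  classical
  induction s using Finset.induction_on with
  | empty => simpa using FanInit_zero G
  | insert i s hi ih =>
    simp only [Finset.sum_insert hi]
    exact FanInit_add (h i (Finset.mem_insert_self _ _))
      (ih fun j hj => h j (Finset.mem_insert_of_mem hj))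

theorem FanInit_dual {G : Finset (κ → ℤ)} {ξ : κ → ℤ} (h : InCone G ξ) {φ : κ → ℤ}
    (hφ : ∀ v ∈ G, 0 ≤ φ ⬝ᵥ v) : 0 ≤ φ ⬝ᵥ ξ := by
  obtain ⟨c, hc, e⟩ := h
  have : φ ⬝ᵥ ξ = ∑ v ∈ G, (φ ⬝ᵥ v) * c v := by
    simp only [dotProduct, e, smul_eq_mul, Finset.mul_sum, Finset.sum_mul]
    rw [Finset.sum_comm]
    exact Finset.sum_congr rfl fun v _ => Finset.sum_congr rfl fun a _ => by ring
  rw [this]
  exact Finset.sum_nonneg fun v hv => mul_nonneg (hφ v hv) (hc v)

end Gen

variable {ι : Type} [Fintype ι] [LinearOrder ι] (col : ι → Col)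

theorem FanInit_eT : eT ι ∈ gam0 col := Finset.mem_insert_self _ _

theorem FanInit_rp (i : ι) : rp col i ∈ gam0 col :=
  Finset.mem_insert_of_mem (Finset.mem_union_left _ (Finset.mem_image_of_mem _ (Finset.mem_univ i)))

theorem FanInit_rm (i : ι) : rm i ∈ gam0 col :=
  Finset.mem_insert_of_mem
    (Finset.mem_union_right _ (Finset.mem_image_of_mem _ (Finset.mem_univ i)))

theorem FanInit_mem {v : Option ι → ℤ} (hv : v ∈ gam0 col) :
    v = eT ι ∨ (∃ i, v = rp col i) ∨ ∃ i, v = rm i := by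
  simp only [gam0, Finset.mem_insert, Finset.mem_union, Finset.mem_image, Finset.mem_univ,
    true_and] at hv
  rcases hv with h | ⟨i, h⟩ | ⟨i, h⟩
  · exact Or.inl h
  · exact Or.inr (Or.inl ⟨i, h.symm⟩)
  · exact Or.inr (Or.inr ⟨i, h.symm⟩)

theorem FanInit_dot_eT (φ : Option ι → ℤ) : φ ⬝ᵥ eT ι = φ none := by
  simp [dotProduct, Fintype.sum_option, eT]

theorem FanInit_dot_rp (φ : Option ι → ℤ) (i : ι) :
    φ ⬝ᵥ rp col i = (if col i = .B then φ none else 0) + φ (some i) := by
  simp [dotProduct, Fintype.sum_option, rp]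

theorem FanInit_dot_rm (φ : Option ι → ℤ) (i : ι) :
    φ ⬝ᵥ rm i = φ none - φ (some i) := by
  simp [dotProduct, Fintype.sum_option, rm, sub_eq_add_neg]

theorem hgt_gam0 : ∀ v ∈ gam0 col, 0 < hgt ι ⬝ᵥ v := by
  intro v hv
  rcases FanInit_mem col hv with rfl | ⟨i, rfl⟩ | ⟨i, rfl⟩
  · rw [FanInit_dot_eT]
    simp [hgt]
  · rw [FanInit_dot_rp]
    simp only [hgt, Option.elim]
    split_ifs <;> omega
  · rw [FanInit_dot_rm]
    simp [hgt]

/-- the defect of a coordinate -/
def FanInit_D {Γ : Type} [AddCommGroup Γ] [LinearOrder Γ] (c : Col) (x : Γ) : Γ :=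
  if 0 ≤ x then (if c = .B then x else 0) else -x

theorem FanInit_of_le {Γ : Type} [AddCommGroup Γ] [LinearOrder Γ] [IsOrderedAddMonoid Γ]
    (ξ : Option ι → Γ) (h : ∑ i, FanInit_D (col i) (ξ (some i)) ≤ ξ none) :
    InCone (gam0 col) ξ := by
  have h1 := FanInit_ray (FanInit_eT col) (sub_nonneg.2 h)
  have h2 : InCone (gam0 col) (fun a => ∑ i,
      (if 0 ≤ ξ (some i) then rp col i a • ξ (some i) else rm i a • (-ξ (some i)))) := by
    refine FanInit_sum Finset.univ
      (fun i a => if 0 ≤ ξ (some i) then rp col i a • ξ (some i) else rm i a • (-ξ (some i)))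
      fun i _ => ?_
    by_cases hi : 0 ≤ ξ (some i)
    · simpa [hi] using FanInit_ray (FanInit_rp col i) hi
    · have := FanInit_ray (FanInit_rm col i) (neg_nonneg.2 (not_le.1 hi).le)
      simpa only [hi, if_false] using this
  have h3 := FanInit_add h1 h2
  convert h3 using 1
  funext a
  cases a with
  | none =>
    have : ∀ i, (if 0 ≤ ξ (some i) then rp col i none • ξ (some i) else
        rm i none • (-ξ (some i))) = FanInit_D (col i) (ξ (some i)) := by
      intro i
      simp only [FanInit_D, rp, rm, Option.elim]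
      split_ifs <;> simp
    simp only [this, eT, Option.elim, one_smul, sub_add_cancel]
  | some k =>
    rw [show eT ι (some k) = 0 from rfl, zero_smul, zero_add, Finset.sum_eq_single k]
    · simp only [rp, rm, Option.elim, if_true]
      split_ifs <;> simp
    · intro i _ hi
      simp [rp, rm, hi.symm]
    · simp

theorem FanInit_le {ξ : Option ι → ℤ} (h : InCone (gam0 col) ξ) :
    ∑ i, FanInit_D (col i) (ξ (some i)) ≤ ξ none := by
  set φ : Option ι → ℤ := fun a => a.elim 1 fun i =>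
    if 0 ≤ ξ (some i) then (if col i = .B then -1 else 0) else 1 with hφ
  have h1 : 0 ≤ φ ⬝ᵥ ξ := by
    refine FanInit_dual h fun v hv => ?_
    rcases FanInit_mem col hv with rfl | ⟨i, rfl⟩ | ⟨i, rfl⟩
    · rw [FanInit_dot_eT]
      simp [hφ]
    · rw [FanInit_dot_rp]
      simp only [hφ, Option.elim]
      split_ifs <;> omega
    · rw [FanInit_dot_rm]
      simp only [hφ, Option.elim]
      split_ifs <;> omega
  have h2 : φ ⬝ᵥ ξ = ξ none - ∑ i, FanInit_D (col i) (ξ (some i)) := by
    simp only [dotProduct, Fintype.sum_option, hφ, Option.elim, one_mul, sub_eq_add_neg,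
      ← Finset.sum_neg_distrib]
    congr 1
    refine Finset.sum_congr rfl fun i _ => ?_
    simp only [FanInit_D]
    split_ifs <;> simp
  omega

/- A point `ξ` of `Option ι → Γ` lies in the initial cone iff
`∑ i, (if col i = B then |ξ i| else (ξ i)⁻) ≤ ξ none` (coefficients `(ξ i)⁺` at `rp i`, `(ξ i)⁻` at
`rm i`, the slack at `eT`; the rays are pairwise distinct). Test the hypothesis on
`m i = 1` or `2` (kind A, `ξ i ≥ 0` or `< 0`), `-sign` (kind B), `0` or `1` (kinds C, O). -/
theorem inCone_gam0 {Γ : Type} [AddCommGroup Γ] [LinearOrder Γ] [IsOrderedAddMonoid Γ]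
    (ξ : ι → Γ) (h : ∀ m ∈ PM col, 0 ≤ ∑ i, m i • ξ i) :
    InCone (gam0 col) (fun a : Option ι =>
      a.elim (∑ i ∈ Finset.univ.filter (fun i => col i = .A), ξ i) ξ) := by
  apply FanInit_of_le
  set m : ι → ℤ := fun i => (if col i = .A then 1 else 0) +
    if 0 ≤ ξ i then (if col i = .B then -1 else 0) else 1 with hm
  have hPM : m ∈ PM col := by
    refine (mem_PM col).2 ⟨fun i hi => ?_, fun i k hk => ?_⟩
    · simp only [hm]
      rcases hi with hi | hi <;> simp only [hi] <;> split_ifs <;> simp_all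
    · have h1 : 1 ≤ m k := by
        simp only [hm, hk, reduceCtorEq, if_true, if_false]
        split_ifs <;> omega
      have h2 : |m i| ≤ wt col i := by
        simp only [hm, wt]
        split_ifs <;> simp_all
      have h3 : 0 ≤ wt col i := by
        simp only [wt]
        split_ifs <;> omega
      nlinarith
  have h1 := h m hPM
  have h2 : ∑ i, m i • ξ i = (∑ i ∈ Finset.univ.filter (fun i => col i = .A), ξ i) -
      ∑ i, FanInit_D (col i) (ξ i) := by
    rw [Finset.sum_filter, ← Finset.sum_sub_distrib]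
    refine Finset.sum_congr rfl fun i _ => ?_
    simp only [hm, FanInit_D, add_smul]
    split_ifs <;> simp [sub_eq_add_neg]
  rw [h2] at h1
  simpa only [Option.elim] using sub_nonneg.1 h1

theorem FanInit_fwd (J : Finset ι) (m : ι → ℤ) (S : Finset ι)
    (H : Pos (gam0 col) (LJ col J) (hgt ι) (hat m) (hat (gO col S))) : Gam col J m S := by
  have c1 : ∀ v ∈ gam0 col, ∀ n : ℤ, 0 ≤ n → InCone (gam0 col) (n • v) := by
    intro v hv n hn
    have := FanInit_ray hv hn
    convert this using 1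
    funext a
    simp [mul_comm]
  have key : ∀ v ∈ gam0 col, ∀ w ∈ gam0 col, ∀ n k : ℤ, 0 < n → 0 ≤ k →
      n * (psi col ⬝ᵥ v) + k * (psi col ⬝ᵥ w) = 0 →
      (∀ j ∈ J, v (some j) = 0) → (∀ j ∈ J, w (some j) = 0) →
      LexPos (n * (hat m ⬝ᵥ v) + k * (hat m ⬝ᵥ w))
        (n * (hat (gO col S) ⬝ᵥ v) + k * (hat (gO col S) ⬝ᵥ w)) := by
    intro v hv w hw n k hn hk hψ hvJ hwJ
    have e : ∀ φ : Option ι → ℤ, φ ⬝ᵥ (n • v + k • w) = n * (φ ⬝ᵥ v) + k * (φ ⬝ᵥ w) := by
      intro φ
      rw [dotProduct_add, dotProduct_smul, dotProduct_smul, smul_eq_mul, smul_eq_mul]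
    rw [← e, ← e]
    refine H _ (FanInit_add (c1 v hv n hn.le) (c1 w hw k hk)) ((mem_LJ col).2 ⟨?_, ?_⟩) ?_
    · rw [e, hψ]
    · intro j hj
      simp [hvJ j hj, hwJ j hj]
    · rw [e]
      have h1 := hgt_gam0 col v hv
      have h2 := hgt_gam0 col w hw
      positivity
  have jp : ∀ i, i ∉ J → ∀ j ∈ J, rp col i (some j) = 0 := by
    intro i hi j hj
    have : j ≠ i := fun e => hi (e ▸ hj)
    simp [rp, this]
  have jm : ∀ i, i ∉ J → ∀ j ∈ J, rm i (some j) = 0 := by
    intro i hi j hj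
    have : j ≠ i := fun e => hi (e ▸ hj)
    simp [rm, this]
  have hC : ∀ i, i ∉ J → col i = .C → 0 < m i := by
    intro i hi hc
    have := key _ (FanInit_rp col i) _ (FanInit_rp col i) 1 0 one_pos le_rfl
      (by simp [FanInit_dot_rp, psi, hc]) (jp i hi) (jp i hi)
    simpa [FanInit_dot_rp, hat, gO, hc, LexPos] using this
  have hO : ∀ i, i ∉ J → col i = .O → (if i ∈ S then 1 else 0) ≤ m i := by
    intro i hi hc
    have := key _ (FanInit_rp col i) _ (FanInit_rp col i) 1 0 one_pos le_rfl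
      (by simp [FanInit_dot_rp, psi, hc]) (jp i hi) (jp i hi)
    simp only [FanInit_dot_rp, hat, gO, hc, LexPos, Option.elim, true_and] at this
    split_ifs at this ⊢ <;> omega
  have hA : ∀ k, k ∉ J → col k = .A → 0 < m k := by
    intro k hk hc
    have := key _ (FanInit_rp col k) _ (FanInit_eT col) 1 1 one_pos zero_le_one
      (by simp [FanInit_dot_rp, FanInit_dot_eT, psi, hc]) (jp k hk) (fun j _ => by simp [eT])
    simpa [FanInit_dot_rp, FanInit_dot_eT, hat, gO, hc, LexPos] using this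
  refine ⟨hC, hO, fun i k hi hk hc => ?_⟩
  have hk0 := hA k hk hc
  have hup : m i < wt col i * m k := by
    have hw : 0 < wt col i := by
      simp only [wt]
      split_ifs <;> omega
    have := key _ (FanInit_rp col k) _ (FanInit_rm col i) (wt col i) 1 hw zero_le_one
      (by
        simp only [FanInit_dot_rp, FanInit_dot_rm, psi, hc, wt, Option.elim]
        split_ifs <;> simp_all) (jp k hk) (jm i hi)
    simp only [FanInit_dot_rp, FanInit_dot_rm, hat, gO, hc, LexPos, Option.elim] at this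
    split_ifs at this <;> simp_all
  refine abs_lt.2 ⟨?_, hup⟩
  rcases hci : col i with _ | _ | _ | _
  · have := hA i hi hci
    simp only [wt, hci, if_true]
    omega
  · have := key _ (FanInit_rp col k) _ (FanInit_rp col i) 1 1 one_pos zero_le_one
      (by simp [FanInit_dot_rp, psi, hc, hci]) (jp k hk) (jp i hi)
    simp [FanInit_dot_rp, hat, gO, hc, hci, LexPos] at this
    simp [wt, hci]
    omega
  · have := hC i hi hci
    simp [wt, hci]
    omega
  · have := hO i hi hci
    simp [wt, hci]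
    split_ifs at this <;> omega

theorem FanInit_scale {J : Finset ι} {m : ι → ℤ} {S : Finset ι} (H : Gam col J m S) :
    ∃ a : ℤ, 1 ≤ a ∧ ∀ i, i ∉ J → (col i = .A → a ≤ m i ∧ m i ≤ 2 * a - 1) ∧
      (col i ≠ .A → |m i| ≤ a - 1) := by
  by_cases hex : (Finset.univ.filter fun k => k ∉ J ∧ col k = .A).Nonempty
  · obtain ⟨k, hk, hmin⟩ := Finset.exists_min_image _ m hex
    simp only [Finset.mem_filter, Finset.mem_univ, true_and] at hk hmin
    have h0 := H.2.2 k k hk.1 hk.1 hk.2
    simp only [wt, hk.2, if_true] at h0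
    have h1 := abs_nonneg (m k)
    refine ⟨m k, by omega, fun i hi => ⟨fun hc => ⟨hmin i ⟨hi, hc⟩, ?_⟩, fun hc => ?_⟩⟩
    · have h2 := H.2.2 i k hi hk.1 hk.2
      simp only [wt, hc, if_true] at h2
      have := le_abs_self (m i)
      omega
    · have h2 := H.2.2 i k hi hk.1 hk.2
      simp only [wt, hc, if_false] at h2
      omega
  · have hs : 0 ≤ ∑ i, |m i| := Finset.sum_nonneg fun i _ => abs_nonneg _
    refine ⟨1 + ∑ i, |m i|, by omega, fun i hi => ⟨fun hc => ?_, fun _ => ?_⟩⟩
    · exact absurd ⟨i, by simp [hi, hc]⟩ hex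
    · have := Finset.single_le_sum (f := fun i => |m i|) (fun i _ => abs_nonneg _)
        (Finset.mem_univ i)
      omega

theorem FanInit_bwd (J : Finset ι) (m : ι → ℤ) (S : Finset ι) (H : Gam col J m S) :
    Pos (gam0 col) (LJ col J) (hgt ι) (hat m) (hat (gO col S)) := by
  intro ξ hξ hL hh
  obtain ⟨a, ha, hm⟩ := FanInit_scale col H
  obtain ⟨hψ, hJ⟩ := (mem_LJ col).1 hL
  have hD := FanInit_le col hξ
  set x : ι → ℤ := fun i => ξ (some i) with hx
  set P : ι → ℤ := fun i => if col i = .A then x i else 0 with hP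
  set D : ι → ℤ := fun i => FanInit_D (col i) (x i) with hDd
  set E : ι → ℤ := fun i => if (col i = .C ∨ col i = .O) ∧ 0 ≤ x i then m i * x i else 0 with hE
  have hτ : ξ none = ∑ i, P i := by
    simp only [dotProduct, Fintype.sum_option, psi, Option.elim, ite_mul, one_mul, zero_mul] at hψ
    have : ∑ i, P i = ∑ i, if col i = .A then ξ (some i) else 0 := rfl
    omega
  have hf : hat m ⬝ᵥ ξ = ∑ i, m i * x i := by
    simp [dotProduct, Fintype.sum_option, hat, hx]
  have hg : hat (gO col S) ⬝ᵥ ξ = ∑ i, gO col S i * x i := by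
    simp [dotProduct, Fintype.sum_option, hat, hx]
  have hh' : 0 < 2 * ξ none + ∑ i, x i := by
    simpa [dotProduct, Fintype.sum_option, hgt, hx] using hh
  have hmn : ∀ i, i ∉ J → col i = .C ∨ col i = .O → 0 ≤ m i := by
    intro i hi hc
    rcases hc with hc | hc
    · exact (H.1 i hi hc).le
    · have := H.2.1 i hi hc
      split_ifs at this <;> omega
  have hD0 : ∀ i, 0 ≤ D i := by
    intro i
    simp only [hDd, FanInit_D]
    split_ifs <;> omega
  have hE0 : ∀ i, 0 ≤ E i := by
    intro i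
    simp only [hE]
    split_ifs with h1
    · by_cases hi : i ∈ J
      · simp [hx, hJ i hi]
      · exact mul_nonneg (hmn i hi h1.1) h1.2
    · exact le_rfl
  have hterm : ∀ i, a * P i - (a - 1) * D i + E i ≤ m i * x i := by
    intro i
    by_cases hi : i ∈ J
    · have : x i = 0 := hJ i hi
      simp [hP, hDd, hE, this, FanInit_D]
    obtain ⟨h1, h2⟩ := hm i hi
    simp only [hP, hDd, hE, FanInit_D]
    by_cases hc : col i = .A
    · obtain ⟨h3, h4⟩ := h1 hc
      by_cases h0 : 0 ≤ x i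
      · simp [hc, h0]
        nlinarith
      · simp [hc, h0]
        nlinarith
    · obtain ⟨h3, h4⟩ := abs_le.1 (h2 hc)
      by_cases h0 : 0 ≤ x i
      · rcases hci : col i with _ | _ | _ | _
        · exact absurd hci hc
        · simp [h0]
          nlinarith
        · simp [h0]
        · simp [h0]
      · simp [hc, h0]
        nlinarith
  have hsum : a * ∑ i, P i - (a - 1) * ∑ i, D i + ∑ i, E i ≤ ∑ i, m i * x i := by
    rw [Finset.mul_sum, Finset.mul_sum, ← Finset.sum_sub_distrib, ← Finset.sum_add_distrib]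
    exact Finset.sum_le_sum fun i _ => hterm i
  have sD : 0 ≤ ∑ i, D i := Finset.sum_nonneg fun i _ => hD0 i
  have sE : 0 ≤ ∑ i, E i := Finset.sum_nonneg fun i _ => hE0 i
  have hD' : ∑ i, D i ≤ ξ none := hD
  have hlow : ξ none + ∑ i, E i ≤ ∑ i, m i * x i := by
    rw [← hτ] at hsum
    nlinarith
  rw [hf, hg]
  rcases lt_or_ge 0 (∑ i, m i * x i) with h | h
  · exact Or.inl h
  have hτ0 : ξ none = 0 := by omega
  have zD : ∀ i, D i = 0 := fun i =>
    (Finset.sum_eq_zero_iff_of_nonneg fun i _ => hD0 i).1 (by omega) i (Finset.mem_univ i)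
  have zE : ∀ i, E i = 0 := fun i =>
    (Finset.sum_eq_zero_iff_of_nonneg fun i _ => hE0 i).1 (by omega) i (Finset.mem_univ i)
  have hx0 : ∀ i, 0 ≤ x i := by
    intro i
    have := zD i
    simp only [hDd, FanInit_D] at this
    split_ifs at this <;> omega
  have zP : ∀ i, P i = 0 := by
    have hP0 : ∀ i, 0 ≤ P i := by
      intro i
      have := hx0 i
      simp only [hP]
      split_ifs <;> omega
    exact fun i =>
      (Finset.sum_eq_zero_iff_of_nonneg fun i _ => hP0 i).1 (by omega) i (Finset.mem_univ i)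
  refine Or.inr ⟨by omega, ?_⟩
  obtain ⟨o, -, ho⟩ : ∃ o ∈ Finset.univ, 0 < x o := by
    by_contra hcon
    push Not at hcon
    have : ∑ i, x i ≤ 0 := Finset.sum_nonpos hcon
    omega
  have hoJ : o ∉ J := fun hj => by
    have : x o = 0 := hJ o hj
    omega
  have hgo : gO col S o = 1 := by
    have e1 := zP o
    have e2 := zD o
    have e3 := zE o
    simp only [hP, hDd, hE, FanInit_D, ho.le, if_true, and_true] at e1 e2 e3
    rcases hco : col o with _ | _ | _ | _
    · simp only [hco, if_true] at e1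
      omega
    · simp only [hco, if_true] at e2
      omega
    · have := H.1 o hoJ hco
      simp only [hco, true_or, if_true] at e3
      nlinarith
    · have h1 := H.2.1 o hoJ hco
      simp only [hco, or_true, if_true] at e3
      have h2 : m o = 0 := (mul_eq_zero.1 e3).resolve_right ho.ne'
      have h3 : o ∉ S := fun hs => by
        simp only [hs, if_true] at h1
        omega
      simp [gO, hco, h3]
  refine Finset.sum_pos' (fun i _ => mul_nonneg ?_ (hx0 i)) ⟨o, Finset.mem_univ o, ?_⟩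
  · simp only [gO]
    split_ifs <;> omega
  · rw [hgo]
    omega

/- Forward: test on `rp i` (kinds C, O), `rp k + eT`, `2 • rp k + rm i`, `rp k + rm i`,
`rp k + rp i` (kind B). Backward: `τ = ξ none = ∑_A ξ ≥ ∑_B |ξ| + ∑_(not B) ξ⁻`. If all
coordinates of kind A are in `J` then `τ = 0`; else let `a > 0` be the least `m k` over kind A
outside `J`; termwise `m i * ξ i ≥ a * ξ i - (a-1) * ξ⁻` (A), `≥ -(a-1) * |ξ|` (B),
`≥ m i * ξ⁺ - (a-1) * ξ⁻` (C, O), so `m ⬝ ξ ≥ τ + ∑_(C,O) m i * ξ⁺ ≥ 0`. If it vanishes then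
`τ = 0`, `ξ ≥ 0` lives on kind O with `m o * ξ o = 0`; `hgt ⬝ ξ > 0` gives an `o` with `ξ o > 0`,
`m o = 0`, so `o ∉ S`. -/
set_option linter.unusedVariables false in
theorem pos_gam0 (J : Finset ι) (m : ι → ℤ) (S : Finset ι) (hJ : ∀ j ∈ J, col j ≠ .O) :
    Pos (gam0 col) (LJ col J) (hgt ι) (hat m) (hat (gO col S)) ↔ Gam col J m S :=
  ⟨FanInit_fwd col J m S, FanInit_bwd col J m S⟩

end Pool.Agent.P.MP_824f38_ag.DB
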