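import Pool.Agent.P.MP_824f38_ag.H.FanEx
import Pool.Agent.P.MP_824f38_ag.H.FanInit
import Pool.Agent.P.MP_824f38_ag.H.Atom

/-! The resolution data exist. -/

set_option linter.unusedSectionVars false
set_option linter.style.haveILetI false

namespace Pool.Agent.P.MP_824f38_ag.DB

open Function

variable {ι : Type} [Fintype ι] [LinearOrder ι]

section Aux

variable (col : ι → Col) {Γ : Type} [AddCommGroup Γ]

/-- the lift to the hyperplane -/
def FanRes_lift (ξ : ι → Γ) : Option ι → Γ :=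
  fun a => a.elim (∑ i ∈ Finset.univ.filter (fun i => col i = .A), ξ i) ξ

/-- the rays on the hyperplane -/
def FanRes_cut (γ : Finset (Option ι → ℤ)) : Finset (ι → ℤ) :=
  (γ.filter fun v => psi col ⬝ᵥ v = 0).image fun v i => v (some i)

theorem FanRes_psi (ξ : Option ι → Γ) : ∑ a, psi col a • ξ a =
    ∑ i ∈ Finset.univ.filter (fun i => col i = .A), ξ (some i) - ξ none := by
  rw [Fintype.sum_option, Finset.sum_filter, sub_eq_neg_add]
  simp [psi]

theorem FanRes_psi_lift (ξ : ι → Γ) : ∑ a, psi col a • FanRes_lift col ξ a = 0 := by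
  rw [FanRes_psi]
  exact sub_self _

variable {col}

theorem FanRes_lift_eq {v : Option ι → ℤ} (h : psi col ⬝ᵥ v = 0) :
    (FanRes_lift col fun i => v (some i)) = v := by
  funext a
  cases a with
  | none => exact sub_eq_zero.1 ((FanRes_psi col v).symm.trans h)
  | some i => rfl

theorem FanRes_mem {γ : Finset (Option ι → ℤ)} {w : ι → ℤ} :
    w ∈ FanRes_cut col γ ↔ FanRes_lift col w ∈ γ := by
  rw [FanRes_cut, Finset.mem_image]
  refine ⟨?_, fun h => ⟨_, Finset.mem_filter.2 ⟨h, FanRes_psi_lift col w⟩, rfl⟩⟩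
  rintro ⟨v, hv, rfl⟩
  rw [FanRes_lift_eq (Finset.mem_filter.1 hv).2]
  exact (Finset.mem_filter.1 hv).1

theorem FanRes_sum (γ : Finset (Option ι → ℤ)) (F : (Option ι → ℤ) → Γ)
    (h : ∀ v ∈ γ, psi col ⬝ᵥ v ≠ 0 → F v = 0) :
    ∑ w ∈ FanRes_cut col γ, F (FanRes_lift col w) = ∑ v ∈ γ, F v := by
  rw [FanRes_cut, Finset.sum_image, ← Finset.sum_filter_of_ne (p := fun v => psi col ⬝ᵥ v = 0)
    fun v hv h' => by_contra fun h'' => h' (h v hv h'')]
  · exact Finset.sum_congr rfl fun v hv => by rw [FanRes_lift_eq (Finset.mem_filter.1 hv).2]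
  · intro v hv v' hv' e
    rw [← FanRes_lift_eq (Finset.mem_filter.1 hv).2, ← FanRes_lift_eq (Finset.mem_filter.1 hv').2]
    exact congrArg _ e

theorem FanRes_hat (m w : ι → ℤ) : hat m ⬝ᵥ FanRes_lift col w = m ⬝ᵥ w := by
  rw [dotProduct, Fintype.sum_option]
  exact (congrArg (· + _) (zero_mul _)).trans (zero_add _)

theorem FanRes_rp {w : ι → ℤ} {o : ι} (h : FanRes_lift col w = rp col o) : w = Pi.single o 1 :=
  funext fun k => (congrFun h (some k)).trans (Pi.single_apply o (1 : ℤ) k).symm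

theorem FanRes_lex {κ : Type} {G : Finset κ} {a b c : κ → ℤ} (hc : ∀ v, 0 ≤ c v)
    (h : ∀ v ∈ G, c v ≠ 0 → LexPos (a v) (b v)) (h0 : ∃ v ∈ G, c v ≠ 0) :
    LexPos (∑ v ∈ G, a v * c v) (∑ v ∈ G, b v * c v) := by
  have key : ∀ a : κ → ℤ, (∀ v ∈ G, c v ≠ 0 → 0 ≤ a v) → (∃ v ∈ G, c v ≠ 0 ∧ 0 < a v) →
      0 < ∑ v ∈ G, a v * c v := fun a h1 ⟨v, hv, h2, h3⟩ =>
    Finset.sum_pos' (fun v hv => by
      by_cases e : c v = 0
      exacts [by rw [e, mul_zero], mul_nonneg (h1 v hv e) (hc v)])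
      ⟨v, hv, mul_pos h3 ((hc v).lt_of_ne' h2)⟩
  by_cases h1 : ∃ v ∈ G, c v ≠ 0 ∧ 0 < a v
  · exact .inl (key a (fun v hv e => (h v hv e).elim le_of_lt fun h => h.1.ge) h1)
  · have h2 : ∀ v ∈ G, c v ≠ 0 → a v = 0 ∧ 0 < b v := fun v hv e =>
      (h v hv e).resolve_left fun h' => h1 ⟨v, hv, e, h'⟩
    obtain ⟨v, hv, e⟩ := h0
    refine .inr ⟨Finset.sum_eq_zero fun v hv => ?_,
      key b (fun v hv e => (h2 v hv e).2.le) ⟨v, hv, e, (h2 v hv e).2⟩⟩
    by_cases e : c v = 0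
    exacts [by rw [e, mul_zero], by rw [(h2 v hv e).1, zero_mul]]

variable [LinearOrder Γ] [IsOrderedAddMonoid Γ]

theorem FanRes_zero {κ : Type} {G : Finset κ} {a : κ → ℤ} {c : κ → Γ} (hc : ∀ v, 0 ≤ c v)
    (ha : (∀ v ∈ G, 0 ≤ a v) ∨ ∀ v ∈ G, a v ≤ 0) (h : ∑ v ∈ G, a v • c v = 0) {v : κ} (hv : v ∈ G)
    (h0 : a v ≠ 0) : c v = 0 := by
  have key : ∀ a : κ → ℤ, (∀ v ∈ G, 0 ≤ a v) → ∑ v ∈ G, a v • c v = 0 → a v ≠ 0 → c v = 0 :=
    fun a ha h h0 => by
      have := (Finset.sum_eq_zero_iff_of_nonneg fun v hv => zsmul_nonneg (hc v) (ha v hv)).1 h v hv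
      by_contra h1
      exact (zsmul_pos ((hc v).lt_of_ne' h1) ((ha v hv).lt_of_ne' h0)).ne' this
  rcases ha with ha | ha
  · exact key a ha h h0
  · refine key (fun v => -a v) (fun v hv => neg_nonneg.2 (ha v hv)) ?_ (neg_ne_zero.2 h0)
    simp only [neg_smul, Finset.sum_neg_distrib, h, neg_zero]

theorem FanRes_inCone {γ : Finset (Option ι → ℤ)} (h : FinalOK col γ) {ξ : ι → Γ} :
    InCone (FanRes_cut col γ) ξ ↔ InCone γ (FanRes_lift col ξ) := by
  constructor
  · rintro ⟨c, hc, e⟩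
    refine ⟨fun v => if psi col ⬝ᵥ v = 0 then c fun i => v (some i) else 0, fun v => ?_, fun a => ?_⟩
    · beta_reduce
      split_ifs
      exacts [hc _, le_rfl]
    · rw [← FanRes_sum (col := col) γ _ fun v _ h0 => by simp only [if_neg h0, smul_zero]]
      have h1 : ∀ w, psi col ⬝ᵥ FanRes_lift col w = 0 := FanRes_psi_lift col
      simp only [h1, if_true]
      cases a with
      | none =>
        change ∑ i ∈ _, ξ i = ∑ w ∈ _, (∑ i ∈ _, w i) • c w
        simp only [e, Finset.sum_smul]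
        exact Finset.sum_comm
      | some i => exact e i
  · rintro ⟨c, hc, e⟩
    have h1 : ∑ v ∈ γ, (psi col ⬝ᵥ v) • c v = 0 := by
      rw [← FanRes_psi_lift col ξ]
      simp only [e, dotProduct, Finset.sum_smul, Finset.smul_sum, mul_smul]
      exact Finset.sum_comm
    refine ⟨fun w => c (FanRes_lift col w), fun w => hc _, fun i => (e (some i)).trans ?_⟩
    exact (FanRes_sum γ (fun v => v (some i) • c v) fun v hv h0 => by
      rw [FanRes_zero hc h.side h1 hv h0, smul_zero]).symm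

theorem FanRes_top {γ : Finset (Option ι → ℤ)} (h : FinalOK col γ) (h0 : ∀ v ∈ γ, 0 < hgt ι ⬝ᵥ v)
    (J : Finset ι) (f g : ι → ℤ) : Pos γ (LJ col J) (hgt ι) (hat f) (hat g) ↔
      ∀ v ∈ FanRes_cut col γ, (∀ j ∈ J, v j = 0) → LexPos (f ⬝ᵥ v) (g ⬝ᵥ v) := by
  constructor
  · intro H v hv hJ
    rw [FanRes_mem] at hv
    rw [← FanRes_hat (col := col), ← FanRes_hat (col := col)]
    exact H _ (.of_mem hv) ⟨FanRes_psi_lift col v, hJ⟩ (h0 _ hv)
  · intro H ξ h1 h2 h3
    rw [← FanRes_lift_eq h2.1] at h1 h3 ⊢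
    obtain ⟨c, hc, e⟩ := (FanRes_inCone h).2 h1
    have h4 : ∀ f : ι → ℤ, (f ⬝ᵥ fun i => ξ (some i)) =
        ∑ v ∈ FanRes_cut col γ, (f ⬝ᵥ v) * c v := fun f => by
      simp only [e, dotProduct, Finset.sum_mul, Finset.mul_sum, smul_eq_mul, mul_assoc]
      exact Finset.sum_comm
    rw [FanRes_hat, FanRes_hat, h4, h4]
    refine FanRes_lex hc (fun v hv e' => H v hv fun j hj => ?_) ?_
    · by_contra h5
      exact e' (FanRes_zero (a := fun v => v j) hc ((h.sign j).imp
        (fun h v hv => h _ (FanRes_mem.1 hv)) fun h v hv => h _ (FanRes_mem.1 hv))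
        ((e j).symm.trans (h2.2 j hj)) hv h5)
    · by_contra h5
      have h6 : (fun i => ξ (some i)) = 0 := funext fun i => (e i).trans
        (Finset.sum_eq_zero fun v hv => by
          rw [by_contra fun h' : c v ≠ 0 => h5 ⟨v, hv, h'⟩, smul_zero])
      rw [h6, show FanRes_lift col (0 : ι → ℤ) = 0 from FanRes_lift_eq (dotProduct_zero _),
        dotProduct_zero] at h3
      exact h3.false

end Aux

/-- extension of a finite sequence of states -/
def FanRes_ext {K : ℕ} (ε : Fin K → St) (k : ℕ) : St := if h : k < K then ε ⟨k, h⟩ else some true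

theorem FanRes_step {K : ℕ} (γ : Finset (Option ι → ℤ)) (T : ℕ → Step (Option ι))
    (ε : Fin K → St) (k : Fin K) (a : St) :
    gam γ T (FanRes_ext (update ε k a)) (k + 1) = (T k).cut a (gam γ T (FanRes_ext ε) k) := by
  rw [gam, FanRes_ext, dif_pos k.2, Fin.eta, update_self, gam_dep γ T k fun j hj => ?_]
  rw [FanRes_ext, FanRes_ext, dif_pos (hj.trans k.2), dif_pos (hj.trans k.2),
    update_of_ne (Fin.ne_of_val_ne hj.ne)]

/- Proof. Take `K, T` from `exists_fan`; `ext ε k = if h : k < K then ε ⟨k, h⟩ else some true`;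
`G ε` = image under `v ↦ v ∘ some` of the `v ∈ gam (gam0 col) T (ext ε) K` with `psi ⬝ᵥ v = 0`
(the projection is injective on `psi ⬝ᵥ v = 0`, where `v none = ∑_A v`);
`E k ε J m S = Pos (gam .. (ext ε) k) (LJ col J) (hgt ι) (hat m) (hat (gO col S))`;
`ray` enumerates (`Finset.equivFin`) the vectors of `univ.biUnion G` that are not a
`Pi.single o 1` with `col o = O`. `dual`: `u ∘ some + u none • 1_A`. `top`: `exists_top` for the
lift of `inCone_gam0`; by `side` a point with `psi ξ = 0` has zero coefficients off `psi = 0`.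
`E_top`: forward by `InCone.of_mem`, `hgt_pos`; backward by `side`, `sign` (coefficients vanish
off `psi = 0` and off the rays killed by `J`). `pos`: `pos_gam0` with `J = S = ∅`, `inCone_gam`,
`oinv`. `nonneg`: `N • m + m₀` is interior for all `N` (`Gam.add`, `m₀ = 3, 0, 1, 0` on the kinds
A, B, C, O); for `v = Pi.single o 1` directly. -/
theorem exists_res (col : ι → Col) : Nonempty (Res col) := by
  classical
  obtain ⟨K, T, hOK, hF⟩ := exists_fan col
  let G : (Fin K → St) → Finset (ι → ℤ) := fun ε =>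
    FanRes_cut col (gam (gam0 col) T (FanRes_ext ε) K)
  let R := (Finset.univ.biUnion G).filter fun v => ∀ o, col o = .O → v ≠ Pi.single o 1
  have hh := hgt_pos (gam0 col) T K hOK (hgt ι) (hgt_gam0 col)
  have oinv : ∀ ε, ∀ v ∈ G ε, ∀ o, col o = .O → v = Pi.single o 1 ∨ v o ≤ 0 := fun ε v hv o ho =>
    ((hF _).oinv _ (FanRes_mem.1 hv) o ho).imp_left FanRes_rp
  have pos : ∀ ε, ∀ v ∈ G ε, (∀ o, col o = .O → v ≠ Pi.single o 1) → ∀ m, Gam col ∅ m ∅ →
      0 < m ⬝ᵥ v := fun ε v hv h m hm => by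
    have h1 := (pos_gam0 col ∅ m ∅ (by simp)).2 hm _
      (inCone_gam _ T K hOK _ (.of_mem (FanRes_mem.1 hv))) ⟨FanRes_psi_lift col v, by simp⟩
      (hh _ _ (FanRes_mem.1 hv))
    rw [FanRes_hat, FanRes_hat] at h1
    refine h1.resolve_right fun h2 => h2.2.not_ge (Finset.sum_nonpos fun o _ => ?_)
    rw [gO]
    split_ifs with ho
    · rw [one_mul]
      exact (oinv ε v hv o ho.1).resolve_left (h o ho.1)
    · rw [zero_mul]
  refine ⟨{
    K := K
    r := R.card
    G := G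
    ray a := (R.equivFin.symm a).1
    E k ε J m S := Pos (gam (gam0 col) T (FanRes_ext ε) k) (LJ col J) (hgt ι) (hat m)
      (hat (gO col S))
    anti ε ε' h v hv := FanRes_mem.2 (gam_anti _ T K (fun j hj => ?_) (FanRes_mem.1 hv))
    dual ε v hv := ?_
    sign ε i := ((hF _).sign i).imp (fun h v hv => h _ (FanRes_mem.1 hv))
      fun h v hv => h _ (FanRes_mem.1 hv)
    oinv := oinv
    nonneg ε v hv m hm := ?_
    pos := pos
    ray_inj := Subtype.val_injective.comp R.equivFin.symm.injective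
    ray_ne a := (Finset.mem_filter.1 (R.equivFin.symm a).2).2
    ray_surj ε v hv h := ⟨R.equivFin ⟨v, Finset.mem_filter.2
      ⟨Finset.mem_biUnion.2 ⟨ε, Finset.mem_univ _, hv⟩, h⟩⟩, by rw [Equiv.symm_apply_apply]⟩
    top Γ _ _ _ ξ h := ?_
    E_dep k ε ε' J m S h h' := ?_
    E_zero ε J m S _ h := pos_gam0 col J m S h
    E_top ε J m S := FanRes_top (hF _) (hh _) J _ _
    E_mv1 k ε J m S := ?_
    E_mv2 k ε J m S := ?_ }⟩
  · rw [FanRes_ext, FanRes_ext, dif_pos hj, dif_pos hj]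
    exact h _
  · obtain ⟨u, hu⟩ := (hF _).dual _ (FanRes_mem.1 hv)
    refine ⟨fun i => u (some i) + if col i = .A then u none else 0, fun v' hv' => ?_⟩
    have h1 := hu _ (FanRes_mem.1 hv')
    rw [if_congr (Q := v' = v) ⟨fun e => funext fun i => congrFun e (some i), congrArg _⟩ rfl rfl,
      dotProduct, Fintype.sum_option] at h1
    rw [← h1, add_comm]
    simp [dotProduct, FanRes_lift, add_mul, Finset.sum_add_distrib, Finset.mul_sum,
      Finset.sum_filter]
  · by_cases h : ∀ o, col o = .O → v ≠ Pi.single o 1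
    · let m₀ : ι → ℤ := fun i => if col i = .A then 3 else if col i = .C then 1 else 0
      have h0 : Gam col ∅ m₀ ∅ := by
        refine ⟨fun i _ hi => by simp [m₀, hi], fun i _ hi => by simp [m₀, hi],
          fun i k _ _ hk => ?_⟩
        cases hi : col i <;> simp [m₀, wt, hi, hk]
      have h1 := pos ε v hv h _ (h0.add ((PM col).nsmul_mem hm (m₀ ⬝ᵥ v).natAbs))
      rw [add_dotProduct, smul_dotProduct, nsmul_eq_mul] at h1
      by_contra h2
      nlinarith [Int.le_natAbs (a := m₀ ⬝ᵥ v), Int.natCast_nonneg (m₀ ⬝ᵥ v).natAbs]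
    · simp only [not_forall, not_not] at h
      obtain ⟨o, ho, rfl⟩ := h
      rw [dotProduct_single, mul_one]
      exact hm.1 o (.inr ho)
  · obtain ⟨t, ht⟩ := exists_top _ T K hOK _ (inCone_gam0 col ξ h)
    refine ⟨fun k => t k, fun ε => ((FanRes_inCone (hF _)).trans (ht _)).trans
      ⟨fun h k => ?_, fun h k hk => ?_⟩⟩
    · simpa only [FanRes_ext, dif_pos k.2] using h k k.2
    · simpa only [FanRes_ext, dif_pos hk] using h ⟨k, hk⟩
  · rwa [← gam_dep _ T (ε := FanRes_ext ε) k fun j hj => ?_]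
    unfold FanRes_ext
    split_ifs with h1
    exacts [h ⟨j, h1⟩ hj, rfl]
  · simp only [FanRes_step]
    exact pos_mv1 (hOK k k.2 _) _ _ _ _
  · simp only [FanRes_step]
    exact pos_mv2 (hOK k k.2 _) _ _ _ _

end Pool.Agent.P.MP_824f38_ag.DB
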