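import Pool.Agent.P.MP_824f38_ag.H.ObInc

/-! From the incidence complex of a functor to a cube. -/

set_option linter.unusedSectionVars false
set_option linter.style.haveILetI false

namespace Pool.Agent.P.MP_824f38_ag.DB

open Function

variable {Θ : Type} [Fintype Θ] [LinearOrder Θ] {V : Type} [AddCommGroup V]

open Classical in
theorem Bridge_sum {X : Ix Θ} (f : Ob X → V) :
    ∑ o, f o = f .base + ∑ s, if h : X.valid s then f (.st s h) else 0 := by
  rw [Fintype.sum_of_injective Ob.toOpt Ob.toOpt_inj f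
    (fun a => a.elim (f .base) fun s => if h : X.valid s then f (.st s h) else 0) ?_ ?_,
    Fintype.sum_option]
  · rfl
  · rintro (_ | s) ha
    · exact absurd ⟨.base, rfl⟩ ha
    · exact dif_neg fun h => ha ⟨.st s h, rfl⟩
  · rintro (_ | ⟨s, h⟩)
    · rfl
    · exact (dif_pos (t := fun h => f (.st s h)) (e := fun _ => 0) h).symm

theorem Bridge_pd_base {X : Ix Θ} (P : PF (Ob X)) (c : ∀ o, P.F o) :
    P.pd Ob.inc c .base = 0 := by
  refine Finset.sum_eq_zero fun o _ => ?_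
  have h0 : Ob.inc o .base = 0 := by cases o <;> rfl
  split_ifs
  · rw [h0, zero_smul]
  · rfl

theorem Bridge_pd_sub {X : Ix Θ} (P : PF (Ob X)) (b a : ∀ o, P.F o) (t : Ob X) :
    P.pd Ob.inc (fun o => b o - a o) t = P.pd Ob.inc b t - P.pd Ob.inc a t := by
  unfold PF.pd
  rw [← Finset.sum_sub_distrib]
  refine Finset.sum_congr rfl fun o _ => ?_
  split_ifs
  · rw [map_sub, smul_sub]
  · rw [sub_zero]

theorem Bridge_pd_sec {X : Ix Θ} (P : PF (Ob X)) {a : ∀ o, P.F o}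
    (ha : ∀ o o' (h : o ≤ o'), P.R h (a o) = a o') (u : Ob X) :
    P.pd Ob.inc (fun o => if o.deg = 0 then a o else 0) u = 0 := by
  have I := Ob.isInc X
  unfold PF.pd
  beta_reduce
  by_cases hu : u.deg = 1
  · refine Eq.trans (Finset.sum_congr rfl fun o _ => ?_ : _ = ∑ o, Ob.inc o u • a u) ?_
    · by_cases h0 : Ob.inc o u = 0
      · simp [h0]
      · have h1 := I.deg_of o u h0
        rw [dif_pos (I.le_of o u h0), if_pos (by omega), ha]
    · rw [← Finset.sum_smul, I.U1 u hu, zero_smul]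
  · refine Finset.sum_eq_zero fun o _ => ?_
    by_cases h0 : Ob.inc o u = 0
    · simp [h0]
    · have h1 := I.deg_of o u h0
      rw [dif_pos (I.le_of o u h0), if_neg (by omega), map_zero, smul_zero]

theorem Bridge_base {X : Ix Θ} (P : PF (Ob X))
    (sec : ∀ η : P.F .base, ∃ a : ∀ o, P.F o, a .base = η ∧
      ∀ o o' (h : o ≤ o'), P.R h (a o) = a o') {q : ℕ} {b : ∀ o, P.F o}
    (hb : ∀ o, o.deg ≠ q → b o = 0) : ∃ b' : ∀ o, P.F o, b' .base = 0 ∧
      (∀ o, o.deg ≠ q → b' o = 0) ∧ ∀ t, P.pd Ob.inc b' t = P.pd Ob.inc b t := by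
  rcases eq_or_ne q 0 with rfl | hq
  · obtain ⟨a, h1, h2⟩ := sec (b .base)
    refine ⟨fun o => b o - if o.deg = 0 then a o else 0, ?_, fun o ho => ?_, fun t => ?_⟩
    · exact sub_eq_zero.2 (h1.symm.trans (if_pos rfl).symm)
    · simp only [hb o ho, if_neg ho, sub_zero]
    · rw [Bridge_pd_sub, Bridge_pd_sec P h2, sub_zero]
  · exact ⟨b, hb .base hq.symm, hb, fun _ => rfl⟩

open Classical in
/-- the cochain of the cube attached to a cochain of the functor -/
noncomputable def Bridge_T {X : Ix Θ} {P : PF (Ob X)} (Φ : ∀ s (h : X.valid s), P.F (.st s h) →+ V)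
    (c : ∀ o, P.F o) (s : Θ → St) : V := if h : X.valid s then Φ s h (c (.st s h)) else 0

theorem Bridge_T_pos {X : Ix Θ} {P : PF (Ob X)} (Φ : ∀ s (h : X.valid s), P.F (.st s h) →+ V)
    (c : ∀ o, P.F o) {s : Θ → St} (h : X.valid s) : Bridge_T Φ c s = Φ s h (c (.st s h)) :=
  dif_pos h

theorem Bridge_T_neg {X : Ix Θ} {P : PF (Ob X)} (Φ : ∀ s (h : X.valid s), P.F (.st s h) →+ V)
    (c : ∀ o, P.F o) {s : Θ → St} (h : ¬ X.valid s) : Bridge_T Φ c s = 0 := dif_neg h

theorem Bridge_d {X : Ix Θ} {P : PF (Ob X)} {C : CP Θ V}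
    {Φ : ∀ s (h : X.valid s), P.F (.st s h) →+ V}
    (hr : ∀ t (ht : X.valid t) θ (hθ : t θ = none) (b : Bool)
      (hs : X.valid (update t θ (some b))) y,
      Φ t ht (P.R (show Ob.st _ hs ≤ Ob.st t ht from cle_update hθ _) y) = C.r θ (Φ _ hs y))
    {c : ∀ o, P.F o} (h0 : c .base = 0) {t : Θ → St} (ht : X.valid t) (ho : C.ok t) :
    Φ t ht (P.pd Ob.inc c (.st t ht)) = C.d (Bridge_T Φ c) t := by
  classical
  have key : ∀ s, (if h : X.valid s then Φ t ht (if h' : Ob.st s h ≤ Ob.st t ht then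
      Ob.inc (.st s h) (.st t ht) • P.R h' (c (.st s h)) else 0) else 0) =
      ∑ θ, ∑ b : Bool, if t θ = none ∧ s = update t θ (some b) then
        (sg t θ * if b then 1 else -1) • C.r θ (Bridge_T Φ c s) else 0 := fun s => by
    by_cases h : X.valid s
    · rw [dif_pos h, Bridge_T_pos Φ c h]
      by_cases h' : Ob.st s h ≤ Ob.st t ht
      · rw [dif_pos h', map_zsmul, Ob.inc, Finset.sum_smul]
        refine Finset.sum_congr rfl fun θ _ => ?_
        rw [Finset.sum_smul]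
        refine Finset.sum_congr rfl fun b _ => ?_
        by_cases e : t θ = none ∧ s = update t θ (some b)
        · rw [if_pos e, if_pos e]
          obtain ⟨e1, rfl⟩ := e
          rw [hr t ht θ e1 b h]
        · rw [if_neg e, if_neg e, zero_smul]
      · rw [dif_neg h', map_zero]
        refine (Finset.sum_eq_zero fun θ _ => Finset.sum_eq_zero fun b _ => if_neg ?_).symm
        rintro ⟨e1, rfl⟩
        exact h' (cle_update e1 _)
    · simp [h, Bridge_T_neg Φ c h]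
  rw [PF.pd, map_sum, Bridge_sum, Elim_d _ ho, h0]
  simp only [map_zero, smul_zero, dite_eq_ite, ite_self, zero_add]
  rw [Finset.sum_congr rfl fun s _ => key s, Finset.sum_comm]
  refine Finset.sum_congr rfl fun θ _ => ?_
  rw [Finset.sum_comm]
  by_cases e : t θ = none
  · simp [e, sub_eq_add_neg]
  · simp [e]

theorem Bridge_lift {X : Ix Θ} {P : PF (Ob X)} {C : CP Θ V} (hok : ∀ s, C.ok s ↔ X.valid s)
    (hb : ∀ s, ¬ C.ok s → C.N s = ⊥) {Φ : ∀ s (h : X.valid s), P.F (.st s h) →+ V}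
    (inj : ∀ s h, Injective (Φ s h)) (hN : ∀ s h x, x ∈ C.N s ↔ ∃ y, Φ s h y = x)
    {c' : (Θ → St) → V} (hc : ∀ s, c' s ∈ C.N s) {n : ℕ} (hn : ∀ s, cdeg s ≠ n → c' s = 0) :
    ∃ c : ∀ o, P.F o, c .base = 0 ∧ (∀ o, o.deg ≠ n → c o = 0) ∧ Bridge_T Φ c = c' := by
  choose y hy using fun s (h : X.valid s) => (hN s h (c' s)).1 (hc s)
  refine ⟨fun o => Ob.rec (motive := P.F) 0 y o, rfl, ?_, funext fun s => ?_⟩
  · rintro (_ | ⟨s, h⟩) ho
    · rfl
    · exact inj s h ((hy s h).trans ((hn s ho).trans (map_zero _).symm))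
  · by_cases h : X.valid s
    · exact (Bridge_T_pos Φ _ h).trans (hy s h)
    · have h1 := hc s
      rw [hb s (mt (hok s).1 h), AddSubgroup.mem_bot] at h1
      rw [Bridge_T_neg Φ _ h, h1]

theorem Bridge_T_mem {X : Ix Θ} {P : PF (Ob X)} {C : CP Θ V}
    {Φ : ∀ s (h : X.valid s), P.F (.st s h) →+ V} (hN : ∀ s h x, x ∈ C.N s ↔ ∃ y, Φ s h y = x)
    (c : ∀ o, P.F o) (s : Θ → St) : Bridge_T Φ c s ∈ C.N s := by
  by_cases h : X.valid s
  · exact (hN s h _).2 ⟨_, (Bridge_T_pos Φ c h).symm⟩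
  · rw [Bridge_T_neg Φ c h]
    exact zero_mem _

theorem Bridge_T_deg {X : Ix Θ} {P : PF (Ob X)} (Φ : ∀ s (h : X.valid s), P.F (.st s h) →+ V)
    {c : ∀ o, P.F o} {n : ℕ} (hn : ∀ o, o.deg ≠ n → c o = 0) (s : Θ → St) (hs : cdeg s ≠ n) :
    Bridge_T Φ c s = 0 := by
  by_cases h : X.valid s
  · rw [Bridge_T_pos Φ c h, hn (.st s h) hs, map_zero]
  · exact Bridge_T_neg Φ c h

/- Proof. For `c : ∀ o, P.F o` put `T c s = if h : X.valid s then Φ s h (c (st s h)) else 0`.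
Then `Φ t _ (P.pd inc c (st t _)) = C.d (T c) t + inc base (st t _) • Φ t _ (P.R _ (c base))`
(last term only for boundary `t`), and `P.pd inc c base = 0`. From the cube to `P`: cochains of
degree `q + 1` vanish at `base`; lift `b` through `Φ` with value zero at `base`. From `P` to the
cube: a primitive `b` may have `b base ≠ 0` when `q = 0`; subtract the degree-zero part of the
section `a` given by `sec (b base)`, which is a cocycle by `(Ob.isInc X).U1`. -/
theorem pex_iff_ex (X : Ix Θ) (P : PF (Ob X)) (C : CP Θ V) (hok : ∀ s, C.ok s ↔ X.valid s)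
    (hb : ∀ s, ¬ C.ok s → C.N s = ⊥)
    (Φ : ∀ s (h : X.valid s), P.F (.st s h) →+ V) (inj : ∀ s h, Injective (Φ s h))
    (hN : ∀ s h x, x ∈ C.N s ↔ ∃ y, Φ s h y = x)
    (hr : ∀ t (ht : X.valid t) θ (hθ : t θ = none) (b : Bool)
      (hs : X.valid (update t θ (some b))) y,
      Φ t ht (P.R (show Ob.st _ hs ≤ Ob.st t ht from cle_update hθ _) y) = C.r θ (Φ _ hs y))
    (sec : ∀ η : P.F .base, ∃ a : ∀ o, P.F o, a .base = η ∧
      ∀ o o' (h : o ≤ o'), P.R h (a o) = a o') (q : ℕ) :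
    P.PEx Ob.deg Ob.inc q ↔ C.Ex q := by
  constructor
  · intro H c' hc hn hd
    obtain ⟨c, h0, h1, rfl⟩ := Bridge_lift hok hb inj hN hc hn
    obtain ⟨b, h2, h3⟩ := H c h1 (by
      rintro (_ | ⟨t, ht⟩)
      · exact Bridge_pd_base P c
      · exact inj t ht (by rw [Bridge_d hr h0 ht ((hok t).2 ht), hd, map_zero]))
    obtain ⟨b', h4, h5, h6⟩ := Bridge_base P sec h2
    refine ⟨Bridge_T Φ b', Bridge_T_mem hN b', Bridge_T_deg Φ h5, fun t => ?_⟩
    by_cases ht : X.valid t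
    · rw [← Bridge_d hr h4 ht ((hok t).2 ht), h6, h3, Bridge_T_pos Φ c ht]
    · rw [Elim_d_not _ (mt (hok t).1 ht), Bridge_T_neg Φ c ht]
  · intro H c h1 hd
    have h0 : c .base = 0 := h1 .base (Nat.succ_ne_zero q).symm
    obtain ⟨b', h2, h3, h4⟩ := H (Bridge_T Φ c) (Bridge_T_mem hN c) (Bridge_T_deg Φ h1) fun t => by
      by_cases ht : X.valid t
      · rw [← Bridge_d hr h0 ht ((hok t).2 ht), hd, map_zero]
      · exact Elim_d_not _ (mt (hok t).1 ht)
    obtain ⟨b, h5, h6, rfl⟩ := Bridge_lift hok hb inj hN h2 h3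
    refine ⟨b, h6, ?_⟩
    rintro (_ | ⟨t, ht⟩)
    · rw [Bridge_pd_base, h0]
    · exact inj t ht (by rw [Bridge_d hr h5 ht ((hok t).2 ht), h4, Bridge_T_pos Φ c ht])

end Pool.Agent.P.MP_824f38_ag.DB
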