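import Pool.Agent.P.MP_824f38_ag.H.PhiEx

/-! Forms on smooth toric charts embed into logarithmic forms. -/

set_option linter.unusedSectionVars false
set_option linter.style.haveILetI false

namespace Pool.Agent.P.MP_824f38_ag.DB

open Function

variable {ι : Type} [Fintype ι] [LinearOrder ι] {Q : AddSubmonoid (ι → ℤ)}

theorem PhiInj_coeff {Φ} (hΦ : IsPhi Q Φ) {p : ℕ} (v : Fin p → Q) (c : MA Q) (μ : ι → ℤ) :
    Φ (c • wd fun i => chi (v i)) μ =
      Finsupp.mapDomain (fun m : Q => (m : ι → ℤ) + ∑ i, (v i : ι → ℤ)) c.coeff μ •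
        wz fun i => (v i : ι → ℤ) := by
  classical
  induction c using AddMonoidAlgebra.induction_linear with
  | zero => simp
  | add x y hx hy =>
    rw [add_smul, map_add, Finsupp.add_apply, hx, hy, AddMonoidAlgebra.coeff_add,
      Finsupp.mapDomain_add, Finsupp.add_apply, add_smul]
  | single m r =>
    have e : (AddMonoidAlgebra.single m r : MA Q) = r • chi m := by
      simp [chi, AddMonoidAlgebra.smul_single]
    rw [AddMonoidAlgebra.coeff_single, Finsupp.mapDomain_single, e, smul_assoc, map_smul,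
      hΦ p m v, Finsupp.smul_apply, Finsupp.single_apply, Finsupp.single_apply]
    split_ifs <;> simp

theorem PhiInj_gen {I : Type} [Fintype I] [LinearOrder I] (b : I → Q)
    (hli : LinearIndependent ℤ fun x => (b x : ι → ℤ))
    (hsp : Submodule.span (MA Q)
      (Set.range fun x => KaehlerDifferential.D ℂ (MA Q) (chi (b x))) = ⊤)
    {Φ} (hΦ : IsPhi Q Φ) {p : ℕ} {ω : DR (MA Q)}
    (hω : ω ∈ Forms (MA Q) p) (h : Φ ω = 0) : ω = 0 := by
  classical
  have hs := exteriorPower.ιMulti_family_span_fixedDegree_of_span (MA Q) (n := p) hsp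
  have hω' : ω ∈ Submodule.span (MA Q) (Set.range (ExteriorAlgebra.ιMulti_family (MA Q) p
      fun x => KaehlerDifferential.D ℂ (MA Q) (chi (b x)))) := by rw [hs]; exact hω
  obtain ⟨c, rfl⟩ := (Finsupp.mem_span_range_iff_exists_finsupp).mp hω'
  have hC : LinearIndependent ℂ fun x => (fun k => ((b x : ι → ℤ) k : ℂ)) :=
    (linearIndependent_algebraMap_comp_iff (R := ℤ) (S := ℂ)).mpr hli
  have hW := (exteriorPower.ιMulti_family_linearIndependent_field p hC).map'
    (Submodule.subtype _) (Submodule.ker_subtype _)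
  let en : Set.powersetCard I p → Fin p → Q :=
    fun S i => b (Set.powersetCard.ofFinEmbEquiv.symm S i)
  have hW' : LinearIndependent ℂ fun S : Set.powersetCard I p =>
      wz fun i => (en S i : ι → ℤ) := hW
  have hfam : ∀ S, ExteriorAlgebra.ιMulti_family (MA Q) p
      (fun x => KaehlerDifferential.D ℂ (MA Q) (chi (b x))) S = wd fun i => chi (en S i) :=
    fun _ => rfl
  suffices hc : c = 0 by rw [hc]; simp
  ext S m
  by_cases hS : S ∈ c.support
  swap
  · simp [Finsupp.notMem_support_iff.mp hS]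
  have h1 := congrArg (fun f : Amb ι => f ((m : ι → ℤ) + ∑ i, (en S i : ι → ℤ))) h
  simp only [Finsupp.sum, map_sum, Finsupp.finsetSum_apply, hfam, PhiInj_coeff hΦ,
    Finsupp.zero_apply] at h1
  have h2 := linearIndependent_iff'.mp hW' c.support _ h1 S hS
  rw [Finsupp.mapDomain_apply
    (f := fun m : Q => (m : ι → ℤ) + ∑ i, (en S i : ι → ℤ))
    (fun x y hxy => Subtype.ext (add_right_cancel hxy))] at h2
  simpa using h2

/-- exponents whose monomial has its differential in a given submodule -/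
def PhiInj_mon (N : Submodule (MA Q) (KaehlerDifferential ℂ (MA Q))) : AddSubmonoid (ι → ℤ) where
  carrier := {m | ∃ hm : m ∈ Q, KaehlerDifferential.D ℂ (MA Q) (chi ⟨m, hm⟩) ∈ N}
  zero_mem' := ⟨Q.zero_mem, by
    have : chi (⟨0, Q.zero_mem⟩ : Q) = 1 := chi_zero
    rw [this, Derivation.map_one_eq_zero]; exact N.zero_mem⟩
  add_mem' := by
    rintro x y ⟨hx, hx'⟩ ⟨hy, hy'⟩
    refine ⟨Q.add_mem hx hy, ?_⟩
    have : chi (⟨x + y, Q.add_mem hx hy⟩ : Q) = chi ⟨x, hx⟩ * chi ⟨y, hy⟩ := chi_add ⟨x, hx⟩ ⟨y, hy⟩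
    rw [this, Derivation.leibniz]
    exact N.add_mem (N.smul_mem _ hy') (N.smul_mem _ hx')

theorem PhiInj_neg (N : Submodule (MA Q) (KaehlerDifferential ℂ (MA Q))) {x : ι → ℤ}
    (hx : x ∈ PhiInj_mon N) (hn : -x ∈ Q) : -x ∈ PhiInj_mon N := by
  obtain ⟨hx, hx'⟩ := hx
  refine ⟨hn, ?_⟩
  have e : chi (⟨-x, hn⟩ : Q) * chi ⟨x, hx⟩ = 1 := by
    rw [← chi_add, ← chi_zero]
    exact congrArg chi (Subtype.ext (neg_add_cancel x))
  have h := congrArg (KaehlerDifferential.D ℂ (MA Q)) e
  rw [Derivation.leibniz, Derivation.map_one_eq_zero] at h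
  have h2 := congrArg (fun y => chi (⟨-x, hn⟩ : Q) • y) h
  simp only [smul_add, smul_smul, e, one_smul, smul_zero] at h2
  rw [eq_neg_of_add_eq_zero_right h2]
  exact N.neg_mem (N.smul_mem _ hx')

theorem PhiInj_mem_u (F : Frame Q) (i : Fin F.a) : F.u i ∈ Q := by
  classical
  refine (F.mem _).mpr ⟨Pi.single i 1, 0, ?_⟩
  simp [Pi.single_apply, ite_smul]

theorem PhiInj_mem_k (F : Frame Q) (i : Fin F.e) (n : ℤ) : n • F.k i ∈ Q := by
  classical
  refine (F.mem _).mpr ⟨0, Pi.single i n, ?_⟩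
  simp [Pi.single_apply, ite_smul]

theorem PhiInj_mem (F : Frame Q) (x : Fin F.a ⊕ Fin F.e) : Sum.elim F.u F.k x ∈ Q := by
  rcases x with i | i
  · exact PhiInj_mem_u F i
  · simpa using PhiInj_mem_k F i 1

theorem PhiInj_span (F : Frame Q) (N : Submodule (MA Q) (KaehlerDifferential ℂ (MA Q)))
    (hN : ∀ x, KaehlerDifferential.D ℂ (MA Q) (chi ⟨Sum.elim F.u F.k x, PhiInj_mem F x⟩) ∈ N) :
    N = ⊤ := by
  have hall : ∀ m : Q, KaehlerDifferential.D ℂ (MA Q) (chi m) ∈ N := by
    rintro ⟨m, hm⟩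
    suffices H : m ∈ PhiInj_mon N from H.2
    obtain ⟨c, d, rfl⟩ := (F.mem m).mp hm
    have h0 : ∀ i, F.u i ∈ PhiInj_mon N := fun i => ⟨_, hN (Sum.inl i)⟩
    refine add_mem (sum_mem fun i _ => nsmul_mem (h0 i) _) (sum_mem fun i _ => ?_)
    have h1 : F.k i ∈ PhiInj_mon N := ⟨_, hN (Sum.inr i)⟩
    obtain ⟨n, hn | hn⟩ := Int.eq_nat_or_neg (d i)
    · rw [hn, natCast_zsmul]; exact nsmul_mem h1 _
    · rw [hn, neg_smul, natCast_zsmul]
      refine PhiInj_neg N (nsmul_mem h1 _) ?_
      have := PhiInj_mem_k F i (-(n : ℤ))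
      rwa [neg_smul, natCast_zsmul] at this
  rw [eq_top_iff, ← KaehlerDifferential.span_range_derivation, Submodule.span_le]
  rintro _ ⟨a, rfl⟩
  change KaehlerDifferential.D ℂ (MA Q) a ∈ N
  induction a using AddMonoidAlgebra.induction_linear with
  | zero => simp
  | add x y hx hy => rw [map_add]; exact N.add_mem hx hy
  | single m r =>
    have e : (AddMonoidAlgebra.single m r : MA Q) = r • chi m := by
      simp [chi, AddMonoidAlgebra.smul_single]
    rw [e, Derivation.map_smul]
    exact N.smul_of_tower_mem r (hall m)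

/- Proof. Index the generators by `Fin (a + e)` (or `Fin a ⊕ₗ Fin e`): `b x ∈ Q`. The module of
differentials is spanned over `MA Q` by the `D (chi (b x))`: the set of `m` with `D (chi m)` in the
span is closed under addition (Leibniz) and contains `u i`, `k i` and `-k i`
(`chi (k) * chi (-k) = 1`). So `Forms p` is spanned over `MA Q` by the ordered wedges
(`exteriorPower.ιMulti_family_span_fixedDegree_of_span`), and over `ℂ` by
`g (m, S) = chi m • wd (chi ∘ b ∘ enumeration of S)`. `Φ (g (m, S)) = single (m + ∑_S b) (wz b_S)`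
is a linearly independent family: the complexified `b x` are independent
(`linearIndependent_algebraMap_comp_iff`), so the `wz b_S` are
(`exteriorPower.ιMulti_family_linearIndependent_field`), and `m ↦ m + ∑_S b` is injective.
A linear map whose composite with a spanning family is independent is injective on the span. -/
theorem phi_inj (F : Frame Q) {Φ} (hΦ : IsPhi Q Φ) {p : ℕ} {ω : DR (MA Q)}
    (hω : ω ∈ Forms (MA Q) p) (h : Φ ω = 0) : ω = 0 := by
  let s : Fin (F.a + F.e) → Fin F.a ⊕ Fin F.e := finSumFinEquiv.symm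
  refine PhiInj_gen (fun x => (⟨Sum.elim F.u F.k (s x), PhiInj_mem F _⟩ : Q))
    (F.li.comp s finSumFinEquiv.symm.injective) (PhiInj_span F _ fun x => ?_) hΦ hω h
  obtain ⟨y, rfl⟩ := finSumFinEquiv.symm.surjective x
  exact Submodule.subset_span ⟨y, rfl⟩

end Pool.Agent.P.MP_824f38_ag.DB
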