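import Pool.Agent.P.MP_824f38_ag.H.PhiEx

/-! The image of the forms of a smooth toric chart. -/

set_option linter.unusedSectionVars false
set_option linter.style.haveILetI false

namespace Pool.Agent.P.MP_824f38_ag.DB

open Function

variable {ι : Type} [Fintype ι] [LinearOrder ι] {Q : AddSubmonoid (ι → ℤ)}

theorem PhiRange_mem (F : Frame Q) (m : ι → ℤ) : m ∈ Q ↔ ∃ t : Fin F.a ⊕ Fin F.e → ℤ,
    (∀ j, 0 ≤ t (.inl j)) ∧ m = ∑ y, t y • Sum.elim F.u F.k y := by
  rw [F.mem]
  constructor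
  · rintro ⟨c, d, rfl⟩
    refine ⟨Sum.elim (fun j => (c j : ℤ)) d, fun j => by simp, ?_⟩
    simp [Fintype.sum_sum_type]
  · rintro ⟨t, ht, rfl⟩
    refine ⟨fun j => (t (.inl j)).toNat, fun j => t (.inr j), ?_⟩
    rw [Fintype.sum_sum_type]
    congr 1
    refine Finset.sum_congr rfl fun j _ => ?_
    rw [← natCast_zsmul, Int.toNat_of_nonneg (ht j)]
    rfl

theorem PhiRange_basis (F : Frame Q) (y : Fin F.a ⊕ Fin F.e) : Sum.elim F.u F.k y ∈ Q := by
  refine (PhiRange_mem F _).2 ⟨fun z => if y = z then 1 else 0, fun j => ?_, ?_⟩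
  · beta_reduce
    split_ifs <;> simp
  · simp only [ite_smul, one_smul, zero_smul, Finset.sum_ite_eq, Finset.mem_univ, if_true]

theorem PhiRange_lat (F : Frame Q) {c : Fin F.a ⊕ Fin F.e → ℤ} {w : ι → ℤ}
    (hw : w ∈ Lat Q (∑ y, c y • Sum.elim F.u F.k y)) : ∃ t : Fin F.a ⊕ Fin F.e → ℤ,
    (∀ j, c (.inl j) = 0 → t (.inl j) = 0) ∧ w = ∑ y, t y • Sum.elim F.u F.k y := by
  obtain ⟨N, h1, h2⟩ := hw
  obtain ⟨c1, p1, e1⟩ := (PhiRange_mem F _).1 h1
  obtain ⟨c2, p2, e2⟩ := (PhiRange_mem F _).1 h2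
  have e0 : N • ∑ y, c y • Sum.elim F.u F.k y = ∑ y, (N * c y) • Sum.elim F.u F.k y := by
    rw [Finset.smul_sum]
    exact Finset.sum_congr rfl fun y _ => by rw [mul_smul, natCast_zsmul]
  rw [e0] at e1 e2
  have key := Fintype.linearIndependent_iff.1 F.li (fun y => N * c y + N * c y - c1 y - c2 y) (by
    simp only [sub_smul, add_smul, Finset.sum_sub_distrib, Finset.sum_add_distrib]
    rw [← e1, ← e2]
    abel)
  refine ⟨fun y => c1 y - N * c y, fun j hj => ?_, ?_⟩
  · have h3 := key (.inl j)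
    have h4 := p1 j
    have h5 := p2 j
    simp only [hj, mul_zero] at h3 ⊢
    omega
  · simp only [sub_smul, Finset.sum_sub_distrib]
    rw [← e1]
    abel

theorem PhiRange_sub (F : Frame Q) {c : Fin F.a ⊕ Fin F.e → ℤ} (hc : ∀ j, 0 ≤ c (.inl j)) {p : ℕ}
    {x : Fin p → Fin F.a ⊕ Fin F.e} (hx : Injective x)
    (hg : ∀ i j, x i = .inl j → c (.inl j) ≠ 0) :
    ∑ y, c y • Sum.elim F.u F.k y - ∑ i, Sum.elim F.u F.k (x i) ∈ Q := by
  refine (PhiRange_mem F _).2 ⟨fun y => c y - ∑ i, if x i = y then 1 else 0, fun j => ?_, ?_⟩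
  · beta_reduce
    by_cases h : ∃ i, x i = .inl j
    · obtain ⟨i, hi⟩ := h
      rw [Finset.sum_eq_single i (fun i' _ hn => if_neg fun h' => hn (hx (Eq.trans h' hi.symm)))
        (by simp), if_pos hi]
      have h1 := hc j
      have h2 := hg i j hi
      omega
    · rw [Finset.sum_eq_zero fun i _ => if_neg fun h' => h ⟨i, h'⟩, sub_zero]
      exact hc j
  · simp only [sub_smul, Finset.sum_sub_distrib, Finset.sum_smul]
    rw [Finset.sum_comm]
    simp only [ite_smul, one_smul, zero_smul, Finset.sum_ite_eq, Finset.mem_univ, if_true]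

theorem PhiRange_expand {S : Type} [Fintype S] (b : S → ι → ℤ) {p : ℕ} (t : Fin p → S → ℤ) :
    wz (fun i => ∑ y, t i y • b y) =
      ∑ x : Fin p → S, (∏ i, (t i (x i) : ℂ)) • wz fun i => b (x i) := by
  classical
  have e : (fun (i : Fin p) (k : ι) => (((∑ y, t i y • b y) k : ℤ) : ℂ)) =
      fun i => ∑ y, (t i y : ℂ) • fun k => (b y k : ℂ) := by
    funext i k
    simp [Finset.sum_apply]
  rw [wz, e]
  have h := (ExteriorAlgebra.ιMulti ℂ p (M := ι → ℂ)).toMultilinearMap.map_sum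
    fun i y => (t i y : ℂ) • fun k => (b y k : ℂ)
  refine h.trans (Finset.sum_congr rfl fun x _ => ?_)
  exact (ExteriorAlgebra.ιMulti ℂ p (M := ι → ℂ)).toMultilinearMap.map_smul_univ _ _

theorem PhiRange_single (F : Frame Q) {Φ} (hΦ : IsPhi Q Φ) {p : ℕ} {μ : ι → ℤ} (hμ : μ ∈ Q)
    {w : Fin p → ι → ℤ} (hw : ∀ i, w i ∈ Lat Q μ) :
    Finsupp.single μ (wz w) ∈ ((Forms (MA Q) p).restrictScalars ℂ).map Φ := by
  obtain ⟨c, hc, rfl⟩ := (PhiRange_mem F _).1 hμ
  choose t ht hw' using fun i => PhiRange_lat F (hw i)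
  rw [funext hw', PhiRange_expand, Finsupp.single_finsetSum]
  refine Submodule.sum_mem _ fun x _ => ?_
  by_cases h0 : ∃ i, t i (x i) = 0
  · obtain ⟨i, hi⟩ := h0
    rw [Finset.prod_eq_zero (Finset.mem_univ i) (by rw [hi, Int.cast_zero]), zero_smul,
      Finsupp.single_zero]
    exact zero_mem _
  rw [← Finsupp.smul_single]
  refine Submodule.smul_mem _ _ ?_
  by_cases hx : Injective x
  · have h1 := PhiRange_sub F hc hx fun i j hij h => h0 ⟨i, by rw [hij]; exact ht i j h⟩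
    refine ⟨chi ⟨_, h1⟩ • wd fun i => chi ⟨_, PhiRange_basis F (x i)⟩,
      Submodule.smul_mem (Forms (MA Q) p) _ (wd_mem _), ?_⟩
    rw [hΦ p ⟨_, h1⟩ fun i => ⟨_, PhiRange_basis F (x i)⟩]
    simp only [sub_add_cancel]
  · have h1 : wz (fun i => Sum.elim F.u F.k (x i)) = 0 := by
      refine AlternatingMap.map_eq_zero_of_not_injective _ _ fun h => hx fun i j hij => h ?_
      simp only [hij]
    rw [h1, Finsupp.single_zero]
    exact zero_mem _

/- Backward: `forms_mem_span`; for `μ = m + ∑ v i` both `μ + v i` and `μ - v i` are in `Q`.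
Forward: it is enough to treat `single μ (wz w)` with `μ = ∑ c i • u i + ∑ d i • k i ∈ Q` and all
`w i ∈ Lat Q μ`. Each `w i` is an integral combination of the `k j` and of the `u j` with
`c j ≠ 0` (write `N • μ ± w` in the frame, use `li`). Expand `wz` multilinearly
(`MultilinearMap.map_sum`, or induction slot by slot over `Submodule.span`): one is left with
`wz (b ∘ x)`, `x : Fin p → Fin a ⊕ Fin e`; it is zero if `x` is not injective
(`AlternatingMap.map_eq_zero_of_not_injective`), and otherwise `μ - ∑ b (x i) ∈ Q`, so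
`single μ (wz (b ∘ x)) = Φ (chi (μ - ∑ ..) • wd ..)`. -/
theorem phi_range (F : Frame Q) {Φ} (hΦ : IsPhi Q Φ) (p : ℕ) (f : Amb ι) :
    f ∈ NF Q p ↔ ∃ ω ∈ Forms (MA Q) p, Φ ω = f := by
  classical
  constructor
  · intro hf
    change f ∈ ((Forms (MA Q) p).restrictScalars ℂ).map Φ
    rw [← f.sum_single]
    refine Submodule.sum_mem _ fun μ _ => ?_
    by_cases hμ : μ ∈ Q
    · have h1 : Wedge p (Lat Q μ) ≤ (((Forms (MA Q) p).restrictScalars ℂ).map Φ).comap
          (Finsupp.lsingle μ) := by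
        refine Submodule.span_le.2 ?_
        rintro _ ⟨w, hw, rfl⟩
        exact PhiRange_single F hΦ hμ hw
      exact h1 (hf μ).2
    · rw [(hf μ).1 hμ, Finsupp.single_zero]
      exact zero_mem _
  · rintro ⟨ω, hω, rfl⟩
    have h1 : Submodule.span ℂ {ω | ∃ (m : Q) (v : Fin p → Q), ω = chi m • wd fun i => chi (v i)} ≤
        (NF Q p).comap Φ := by
      refine Submodule.span_le.2 ?_
      rintro _ ⟨m, v, rfl⟩
      change Φ _ ∈ NF Q p
      rw [hΦ p m v]
      intro μ
      have hs : (m : ι → ℤ) + ∑ i, (v i : ι → ℤ) ∈ Q :=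
        add_mem m.2 (sum_mem fun i _ => (v i).2)
      by_cases h : (m : ι → ℤ) + ∑ i, (v i : ι → ℤ) = μ
      · subst h
        refine ⟨fun h => absurd hs h, ?_⟩
        rw [Finsupp.single_eq_same]
        refine Submodule.subset_span ⟨_, fun i => ⟨1, ?_, ?_⟩, rfl⟩
        · rw [one_smul]
          exact add_mem hs (v i).2
        · rw [one_smul, ← Finset.add_sum_erase _ _ (Finset.mem_univ i), add_left_comm,
            add_sub_cancel_left]
          exact add_mem m.2 (sum_mem fun j _ => (v j).2)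
      · rw [Finsupp.single_apply, if_neg h]
        exact ⟨fun _ => rfl, zero_mem _⟩
    exact h1 (forms_mem_span hω)

end Pool.Agent.P.MP_824f38_ag.DB
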