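import Pool.Agent.P.MP_824f38_ag.H.Atom
import Pool.Agent.P.MP_824f38_ag.H.Bridge
import Pool.Agent.P.MP_824f38_ag.H.FrameCM
import Pool.Agent.P.MP_824f38_ag.H.PhiInj
import Pool.Agent.P.MP_824f38_ag.H.PhiRange
import Pool.Agent.P.MP_824f38_ag.H.WedgeC

/-! The forms of the diagram as a cube of logarithmic forms. -/

set_option linter.unusedSectionVars false
set_option linter.style.haveILetI false

namespace Pool.Agent.P.MP_824f38_ag.DB

open Function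

variable {ι : Type} [Fintype ι] [LinearOrder ι] {col : ι → Col}

theorem FormsBr_dA (X : Res col) {θ : X.D} {v : ι → ℤ} :
    v ∈ X.dA θ ↔ ∃ a, θ = .ray a ∧ X.ray a = v := by
  cases θ <;> simp [Res.dA, eq_comm]

theorem FormsBr_dB (X : Res col) {θ : X.D} {j : ι} : j ∈ X.dB θ ↔ θ = .col j := by
  cases θ <;> simp [Res.dB, eq_comm]

theorem FormsBr_Is (X : Res col) {t : X.D → St} {θ : X.D} (hθ : t θ = none) :
    X.dA θ ⊆ X.Is t := fun v hv => by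
  obtain ⟨a, rfl, rfl⟩ := (FormsBr_dA X).1 hv
  exact X.mem_Is.2 ⟨a, hθ, rfl⟩

theorem FormsBr_Js (X : Res col) {t : X.D → St} {θ : X.D} (hθ : t θ = none) :
    X.dB θ ⊆ X.Js t := fun j hj => by
  obtain rfl := (FormsBr_dB X).1 hj
  exact X.mem_Js.2 hθ

theorem FormsBr_sec {R : Type} [CommRing R] [Algebra ℂ R] (D : Diag R) (p : ℕ) (o₀ : D.O)
    (l : D.B o₀ →ₐ[ℂ] R) (hl : (D.aug o₀).comp l = AlgHom.id ℂ _) (η : (D.formsPF p).F o₀) :
    ∃ a : ∀ o, (D.formsPF p).F o, a o₀ = η ∧ ∀ o o' (h : o ≤ o'), (D.formsPF p).R h (a o) = a o' := by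
  refine ⟨fun o => ⟨pull ((D.aug o).comp l) η.1, pull_mem _ η.2⟩, Subtype.ext ?_,
    fun o o' h => Subtype.ext ?_⟩
  · change pull ((D.aug o₀).comp l) η.1 = η.1
    rw [hl, pull_id]
  · refine (pull_pull _ (D.f h) _).trans ?_
    rw [← AlgHom.comp_assoc, D.f_aug]

theorem FormsBr_ok (X : Res col) (p : ℕ) (s : X.D → St) : (X.CI p ∅).ok s ↔ X.ix.valid s :=
  and_iff_left (by simp)

theorem FormsBr_bot (X : Res col) (p : ℕ) (s : X.D → St) (h : ¬ (X.CI p ∅).ok s) :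
    (X.CI p ∅).N s = ⊥ := if_neg h

theorem FormsBr_mem (X : Res col) (p : ℕ) {s : X.D → St} (h : X.ix.valid s) {Φ}
    (hΦ : IsPhi (X.Q s) Φ) (x : Amb ι) :
    x ∈ (X.CI p ∅).N s ↔ ∃ ω ∈ Forms (MA (X.Q s)) p, Φ ω = x := by
  obtain ⟨F⟩ := frame_CM (X.dual (X.eps s)) h.2.2.2
  rw [← phi_range F hΦ]
  simp [Res.CI, h]

theorem FormsBr_phi (X : Res col) {t : X.D → St} (ht : X.ix.valid t) {θ : X.D} (hθ : t θ = none)
    (a : St) {Φ Φ'} (hΦ : IsPhi (X.Q (update t θ a)) Φ) (hΦ' : IsPhi (X.Q t) Φ') {p : ℕ}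
    {ω : DR (MA (X.Q (update t θ a)))} (hω : ω ∈ Forms _ p) :
    Φ' (pull (tmap (X.cmpQ ht (cle_update hθ a))) ω) = rho (X.dA θ) (X.dB θ) (Φ ω) := by
  refine phi_tmap _ hΦ hΦ' _ _ (fun m hm => ⟨fun h v hv => h v (FormsBr_Is X hθ hv),
    fun h v hv => ?_⟩) (fun m hm => funext fun i => ?_) hω
  · obtain ⟨b, hb, rfl⟩ := X.mem_Is.1 hv
    by_cases e : Dir.ray b = θ
    · exact h _ ((FormsBr_dA X).2 ⟨b, e.symm, rfl⟩)
    · exact hm.2.2 _ (X.mem_Is.2 ⟨b, (update_of_ne e _ _).trans hb, rfl⟩)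
  · by_cases h1 : i ∈ X.dB θ
    · simp only [prj, if_pos h1, if_pos (FormsBr_Js X hθ h1)]
    · simp only [prj, if_neg h1]
      split_ifs with h2
      · refine (hm.1 i (X.mem_Js.2 ((update_of_ne (fun e => h1 ?_) _ _).trans
          (X.mem_Js.1 h2)))).symm
        exact (FormsBr_dB X).2 e.symm
      · rfl

/- For valid `t` with `t θ = none` and `s = update t θ (some b)` valid, `phi_tmap` applies with
`a = X.dA θ`, `b = X.dB θ` (three cases for `θ`; elements of `X.Q s` vanish on `X.Is s` and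
`X.Js s`; `ray_inj`). `mem`: `phi_range`, `phi_tmap`, `pull_mem`. `conv`: `down` and `valid_edge`
(if `w θ = some false` on an edge then `u θ = some false`). `comm`: `rho_comm` and `Val`. -/
theorem Res.CI_good (X : Res col) (p : ℕ) : (X.CI p ∅).Good := by
  choose Φ hΦ using fun s => exists_phi (X.Q s)
  refine ⟨FormsBr_bot X p, fun t θ b x ht hθ hx => ?_, fun u w t h1 h2 hu ht => ?_,
    fun t θ θ' x ht hθ hθ' => ?_⟩
  · by_cases h : (X.CI p ∅).ok (update t θ (some b))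
    · obtain ⟨ω, hω, rfl⟩ := (FormsBr_mem X p h.1 (hΦ _) x).1 hx
      exact (FormsBr_mem X p ht.1 (hΦ _) _).2
        ⟨_, pull_mem _ hω, FormsBr_phi X ht.1 hθ _ (hΦ _) (hΦ _) hω⟩
    · rw [FormsBr_bot X p _ h, AddSubgroup.mem_bot] at hx
      rw [hx, map_zero]
      exact zero_mem _
  · refine (FormsBr_ok X p w).2 (X.ix.down w t ht.1 h2 fun θ he e => ?_)
    rcases h1 θ with h | h
    · exact X.ix.valid_edge u θ hu.1 he (h.trans e)
    · exact absurd (e.symm.trans h) (by simp)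
  · exact rho_comm _ _ _ _
      (fun v hv j hj => (ht.1.2.2.2 v (FormsBr_Is X hθ hv)).2 j (FormsBr_Js X hθ' hj))
      (fun v hv j hj => (ht.1.2.2.2 v (FormsBr_Is X hθ' hv)).2 j (FormsBr_Js X hθ hj)) x

/- `pex_iff_ex` with `Φ s h` the restriction to `Forms` of a choice of `exists_phi (X.Q s)`;
the section of `η` is `o ↦ pull ((X.oAug Pn o).comp Pn.l) η` (`f_aug`, `β_l`, `pull_pull`). -/
theorem Res.pex_iff (X : Res col) (Pn : Pinch (MA (PM col)) (IA col))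
    (hs : ∀ s, X.ix.valid s → Algebra.Smooth ℂ (MA (X.Q s))) (p q : ℕ) :
    PF.PEx (O := Ob X.ix) ((X.diag Pn hs).formsPF p) Ob.deg Ob.inc q ↔ (X.CI p ∅).Ex q := by
  choose Φ hΦ using fun s => exists_phi (X.Q s)
  let Ψ : ∀ s, Forms (MA (X.Q s)) p →+ Amb ι := fun s =>
    (Φ s).toAddMonoidHom.comp (Forms (MA (X.Q s)) p).subtype.toAddMonoidHom
  have inj : ∀ s, X.ix.valid s → Injective (Ψ s) := fun s h =>
    (injective_iff_map_eq_zero _).2 fun y hy => by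
      obtain ⟨F⟩ := frame_CM (X.dual (X.eps s)) h.2.2.2
      exact Subtype.ext (phi_inj F (hΦ s) y.2 hy)
  refine pex_iff_ex X.ix ((X.diag Pn hs).formsPF p) (X.CI p ∅) (FormsBr_ok X p) (FormsBr_bot X p)
    (fun s _ => Ψ s) inj (fun s h x => ?_)
    (fun t ht θ hθ b _ y => FormsBr_phi X ht hθ _ (hΦ _) (hΦ _) y.2)
    (FormsBr_sec (X.diag Pn hs) p Ob.base Pn.l Pn.β_l) q
  rw [FormsBr_mem X p h (hΦ s)]
  exact ⟨fun ⟨ω, h1, h2⟩ => ⟨⟨ω, h1⟩, h2⟩, fun ⟨y, h⟩ => ⟨y.1, y.2, h⟩⟩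

end Pool.Agent.P.MP_824f38_ag.DB
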