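import Pool.Agent.P.MP_824f38_ag.H.Zigzag

/-! The nerve complex and the incidence complex of a functor are exact together. -/

set_option linter.unusedSectionVars false
set_option linter.style.haveILetI false

namespace Pool.Agent.P.MP_824f38_ag.DB

open Function

section
variable {O : Type} [Preorder O]

theorem IncCmp_congr (P : PF O) {k : ℕ} (ω : P.NC k) {u : O} {c1 c2 : Ch O k} (e : c1 = c2)
    (h1 : c1 (Fin.last k) ≤ u) (h2 : c2 (Fin.last k) ≤ u) :
    P.R h1 (ω c1) = P.R h2 (ω c2) := by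
  subst e; rfl

theorem IncCmp_ff {k : ℕ} (c : Ch O (k + 2)) (i : Fin (k + 3)) (j : Fin (k + 2)) :
    face (face c (i.succAbove j)) (j.predAbove i) = face (face c i) j := by
  ext a
  simp only [face_apply]
  rw [Fin.succAbove_succAbove_succAbove_predAbove]

theorem IncCmp_nd_nd (P : PF O) (k : ℕ) (ω : P.NC k) (c : Ch O (k + 2)) :
    P.nd (k + 1) (P.nd k ω) c = 0 := by
  unfold PF.nd
  simp only [map_sum, map_zsmul, Finset.smul_sum, P.R_trans, smul_smul, ← pow_add]
  rw [← Finset.sum_product']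
  refine Finset.sum_involution (fun p _ => (p.1.succAbove p.2, p.2.predAbove p.1)) ?_ ?_ ?_ ?_
  · rintro ⟨i, j⟩ _
    simp only
    rw [Fin.neg_one_pow_succAbove_add_predAbove, neg_smul,
      IncCmp_congr P ω (IncCmp_ff c i j) _ ((face_le (face c i) j).trans (face_le c i))]
    exact add_neg_cancel _
  · rintro ⟨i, j⟩ _ _ e
    exact Fin.succAbove_ne i j (congrArg Prod.fst e)
  · intro p _
    simp
  · rintro ⟨i, j⟩ _
    simp only [Fin.succAbove_succAbove_predAbove, Fin.predAbove_predAbove_succAbove]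

theorem IncCmp_le_face {k : ℕ} (c : Ch O (k + 1)) (i : Fin (k + 2)) : c 0 ≤ face c i 0 :=
  c.monotone (Fin.zero_le _)

theorem IncCmp_le_last {k : ℕ} (c : Ch O k) : c 0 ≤ c (Fin.last k) :=
  c.monotone (Fin.zero_le _)

theorem IncCmp_nd_congr (P : PF O) {k : ℕ} {ω ω' : P.NC k} (c : Ch O (k + 1))
    (e : ∀ c' : Ch O k, c 0 ≤ c' 0 → ω c' = ω' c') : P.nd k ω c = P.nd k ω' c := by
  unfold PF.nd
  exact Finset.sum_congr rfl fun i _ => by rw [e _ (IncCmp_le_face c i)]

/-- the nerve differential as a homomorphism -/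
def IncCmp_nd (P : PF O) (k : ℕ) : P.NC k →+ P.NC (k + 1) :=
  AddMonoidHom.mk' (P.nd k) fun a b => by
    funext c
    simp only [PF.nd, Pi.add_apply, map_add, smul_add, Finset.sum_add_distrib]

theorem IncCmp_nd_zero (P : PF O) (k : ℕ) : P.nd k 0 = 0 := (IncCmp_nd P k).map_zero

theorem IncCmp_nd_add (P : PF O) (k : ℕ) (a b : P.NC k) :
    P.nd k (a + b) = P.nd k a + P.nd k b := (IncCmp_nd P k).map_add a b

/-- prepend an element to a chain -/
def IncCmp_cons {k : ℕ} (s : O) (c : Ch O k) (h : s ≤ c 0) : Ch O (k + 1) :=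
  ⟨Matrix.vecCons s c, monotone_vecCons.2 ⟨h, c.monotone⟩⟩

theorem IncCmp_cons_zero {k : ℕ} (s : O) (c : Ch O k) (h : s ≤ c 0) :
    IncCmp_cons s c h 0 = s := rfl

theorem IncCmp_cons_succ {k : ℕ} (s : O) (c : Ch O k) (h : s ≤ c 0) (i : Fin (k + 1)) :
    IncCmp_cons s c h i.succ = c i := by
  change Matrix.vecCons s c i.succ = c i
  simp

theorem IncCmp_cons_last {k : ℕ} (s : O) (c : Ch O k) (h : s ≤ c 0) :
    IncCmp_cons s c h (Fin.last (k + 1)) ≤ c (Fin.last k) := by
  rw [← Fin.succ_last, IncCmp_cons_succ]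

theorem IncCmp_face_zero {k : ℕ} (s : O) (c : Ch O k) (h : s ≤ c 0) :
    face (IncCmp_cons s c h) 0 = c := by
  ext a
  rw [face_apply, Fin.succAbove_zero, IncCmp_cons_succ]

theorem IncCmp_face_succ {k : ℕ} (s : O) (c : Ch O (k + 1)) (h : s ≤ c 0) (i : Fin (k + 2)) :
    face (IncCmp_cons s c h) i.succ =
      IncCmp_cons s (face c i) (h.trans (IncCmp_le_face c i)) := by
  ext a
  rw [face_apply]
  refine Fin.cases ?_ (fun a => ?_) a
  · rw [Fin.succ_succAbove_zero]; rfl
  · rw [Fin.succ_succAbove_succ, IncCmp_cons_succ, IncCmp_cons_succ, face_apply]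

/-- the constant chain -/
def IncCmp_pt (s : O) : Ch O 0 := OrderHom.const _ s

theorem IncCmp_face_one (s : O) (c : Ch O 0) (h : s ≤ c 0) :
    face (IncCmp_cons s c h) 1 = IncCmp_pt s := by
  ext a
  obtain rfl : a = 0 := Subsingleton.elim (α := Fin 1) _ _
  rfl

/-- cochains of the incidence complex -/
def IncCmp_A (P : PF O) (deg : O → ℕ) (i : ℕ) : AddSubgroup (∀ s, P.F s) where
  carrier := {a | ∀ s, deg s ≠ i → a s = 0}
  zero_mem' := fun _ _ => rfl
  add_mem' := fun {a b} ha hb s hs => by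
    change a s + b s = 0
    rw [ha s hs, hb s hs, add_zero]
  neg_mem' := fun {a} ha s hs => by
    change -a s = 0
    rw [ha s hs, neg_zero]

/-- the double complex -/
def IncCmp_D (P : PF O) (deg : O → ℕ) (i j : ℕ) : AddSubgroup (O → P.NC j) where
  carrier := {x | ∀ s c, ¬ (deg s = i ∧ s ≤ c 0) → x s c = 0}
  zero_mem' := fun _ _ _ => rfl
  add_mem' := fun {a b} ha hb s c hs => by
    change a s c + b s c = 0
    rw [ha s c hs, hb s c hs, add_zero]
  neg_mem' := fun {a} ha s c hs => by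
    change -a s c = 0
    rw [ha s c hs, neg_zero]

variable [Fintype O] (P : PF O) {deg : O → ℕ} {inc : O → O → ℤ}

open Classical

/-- incidence differential -/
noncomputable def IncCmp_dA (h : IsInc deg inc) (i : ℕ) :
    IncCmp_A P deg i →+ IncCmp_A P deg (i + 1) :=
  AddMonoidHom.mk' (fun a => ⟨P.pd inc a.1, fun t ht => by
    unfold PF.pd
    refine Finset.sum_eq_zero fun s _ => ?_
    split_ifs with hs
    · by_cases h0 : inc s t = 0
      · rw [h0, zero_smul]
      · rw [a.2 s (fun e => ht (by rw [h.deg_of s t h0, e])), map_zero, smul_zero]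
    · rfl⟩) fun a b => by
    apply Subtype.ext
    funext t
    change P.pd inc (a.1 + b.1) t = P.pd inc a.1 t + P.pd inc b.1 t
    unfold PF.pd
    rw [← Finset.sum_add_distrib]
    refine Finset.sum_congr rfl fun s _ => ?_
    split_ifs with hs
    · rw [Pi.add_apply, map_add, smul_add]
    · rw [add_zero]

/-- horizontal differential -/
noncomputable def IncCmp_h (h : IsInc deg inc) (i j : ℕ) :
    IncCmp_D P deg i j →+ IncCmp_D P deg (i + 1) j :=
  AddMonoidHom.mk' (fun x => ⟨fun t c => if t ≤ c 0 then ∑ s, inc s t • x.1 s c else 0,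
    fun t c ht => by
      change (if t ≤ c 0 then ∑ s, inc s t • x.1 s c else 0) = 0
      split_ifs with htc
      · refine Finset.sum_eq_zero fun s _ => ?_
        by_cases h0 : inc s t = 0
        · rw [h0, zero_smul]
        · rw [x.2 s c (fun e => ht ⟨by rw [h.deg_of s t h0, e.1], htc⟩), smul_zero]
      · rfl⟩) fun a b => by
    apply Subtype.ext
    funext t c
    change (if t ≤ c 0 then ∑ s, inc s t • (a.1 s c + b.1 s c) else 0) =
      (if t ≤ c 0 then ∑ s, inc s t • a.1 s c else 0) +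
        (if t ≤ c 0 then ∑ s, inc s t • b.1 s c else 0)
    split_ifs
    · simp only [smul_add, Finset.sum_add_distrib]
    · rw [add_zero]

theorem IncCmp_h_apply (h : IsInc deg inc) (i j : ℕ) (x : IncCmp_D P deg i j) (t : O)
    (c : Ch O j) : (IncCmp_h P h i j x).1 t c =
      if t ≤ c 0 then ∑ s, inc s t • x.1 s c else 0 := rfl

/-- vertical differential -/
noncomputable def IncCmp_v (deg : O → ℕ) (i j : ℕ) :
    IncCmp_D P deg i j →+ IncCmp_D P deg i (j + 1) :=
  AddMonoidHom.mk' (fun x => ⟨fun s c => if s ≤ c 0 then P.nd j (x.1 s) c else 0,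
    fun s c hs => by
      change (if s ≤ c 0 then P.nd j (x.1 s) c else 0) = 0
      split_ifs with hsc
      · have : x.1 s = 0 := funext fun c' => x.2 s c' fun e => hs ⟨e.1, hsc⟩
        rw [this, IncCmp_nd_zero]; rfl
      · rfl⟩) fun a b => by
    apply Subtype.ext
    funext s c
    change (if s ≤ c 0 then P.nd j (a.1 s + b.1 s) c else 0) =
      (if s ≤ c 0 then P.nd j (a.1 s) c else 0) + (if s ≤ c 0 then P.nd j (b.1 s) c else 0)
    split_ifs
    · rw [IncCmp_nd_add]; rfl
    · rw [add_zero]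

theorem IncCmp_v_apply (deg : O → ℕ) (i j : ℕ) (x : IncCmp_D P deg i j) (s : O)
    (c : Ch O (j + 1)) : (IncCmp_v P deg i j x).1 s c =
      if s ≤ c 0 then P.nd j (x.1 s) c else 0 := rfl

/-- augmentation of the columns -/
noncomputable def IncCmp_al (deg : O → ℕ) (i : ℕ) : IncCmp_A P deg i →+ IncCmp_D P deg i 0 :=
  AddMonoidHom.mk' (fun a => ⟨fun s c =>
      if h : s ≤ c 0 then P.R (h.trans (IncCmp_le_last c)) (a.1 s) else 0,
    fun s c hs => by
      change (if h : s ≤ c 0 then P.R (h.trans (IncCmp_le_last c)) (a.1 s) else 0) = 0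
      split_ifs with hsc
      · rw [a.2 s fun e => hs ⟨e, hsc⟩, map_zero]
      · rfl⟩) fun a b => by
    apply Subtype.ext
    funext s c
    change (if h : s ≤ c 0 then P.R (h.trans (IncCmp_le_last c)) (a.1 s + b.1 s) else 0) =
      (if h : s ≤ c 0 then P.R (h.trans (IncCmp_le_last c)) (a.1 s) else 0) +
        (if h : s ≤ c 0 then P.R (h.trans (IncCmp_le_last c)) (b.1 s) else 0)
    split_ifs
    · rw [map_add]
    · rw [add_zero]

theorem IncCmp_al_apply (deg : O → ℕ) (i : ℕ) (a : IncCmp_A P deg i) (s : O) (c : Ch O 0) :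
    (IncCmp_al P deg i a).1 s c =
      if h : s ≤ c 0 then P.R (h.trans (IncCmp_le_last c)) (a.1 s) else 0 := rfl

/-- augmentation of the rows -/
noncomputable def IncCmp_be (deg : O → ℕ) (j : ℕ) : P.NC j →+ IncCmp_D P deg 0 j :=
  AddMonoidHom.mk' (fun b => ⟨fun s c => if deg s = 0 ∧ s ≤ c 0 then b c else 0,
    fun s c hs => if_neg hs⟩) fun a b => by
    apply Subtype.ext
    funext s c
    change (if deg s = 0 ∧ s ≤ c 0 then a c + b c else 0) =
      (if deg s = 0 ∧ s ≤ c 0 then a c else 0) + (if deg s = 0 ∧ s ≤ c 0 then b c else 0)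
    split_ifs
    · rfl
    · rw [add_zero]

theorem IncCmp_be_apply (deg : O → ℕ) (j : ℕ) (b : P.NC j) (s : O) (c : Ch O j) :
    (IncCmp_be P deg j b).1 s c = if deg s = 0 ∧ s ≤ c 0 then b c else 0 := rfl

theorem IncCmp_hv (h : IsInc deg inc) (i j : ℕ) (x : IncCmp_D P deg i j) :
    IncCmp_h P h i (j + 1) (IncCmp_v P deg i j x) =
      IncCmp_v P deg (i + 1) j (IncCmp_h P h i j x) := by
  apply Subtype.ext
  funext t c
  rw [IncCmp_h_apply, IncCmp_v_apply]
  split_ifs with ht
  · rw [IncCmp_nd_congr P (ω' := ∑ s, inc s t • x.1 s) c (fun c' hc' => by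
      rw [IncCmp_h_apply, if_pos (ht.trans hc'), Finset.sum_apply]; rfl)]
    change _ = IncCmp_nd P j _ c
    rw [map_sum, Finset.sum_apply]
    refine Finset.sum_congr rfl fun s _ => ?_
    rw [map_zsmul, IncCmp_v_apply]
    by_cases h0 : inc s t = 0
    · rw [h0, zero_smul, zero_smul]; rfl
    · rw [if_pos ((h.le_of s t h0).trans ht)]; rfl
  · rfl

theorem IncCmp_hh (h : IsInc deg inc) (i j : ℕ) (x : IncCmp_D P deg i j) :
    IncCmp_h P h (i + 1) j (IncCmp_h P h i j x) = 0 := by
  apply Subtype.ext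
  funext u c
  rw [IncCmp_h_apply]
  change _ = 0
  split_ifs with hu
  · have : ∀ t, inc t u • (IncCmp_h P h i j x).1 t c = ∑ s, (inc s t * inc t u) • x.1 s c := by
      intro t
      by_cases h0 : inc t u = 0
      · simp only [h0, zero_smul, mul_zero, Finset.sum_const_zero]
      · rw [IncCmp_h_apply, if_pos ((h.le_of t u h0).trans hu), Finset.smul_sum]
        exact Finset.sum_congr rfl fun s _ => by rw [smul_smul, mul_comm]
    simp only [this]
    rw [Finset.sum_comm]
    refine Finset.sum_eq_zero fun s _ => ?_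
    rw [← Finset.sum_smul, h.sq, zero_smul]
  · rfl

theorem IncCmp_vv (deg : O → ℕ) (i j : ℕ) (x : IncCmp_D P deg i j) :
    IncCmp_v P deg i (j + 1) (IncCmp_v P deg i j x) = 0 := by
  apply Subtype.ext
  funext s c
  rw [IncCmp_v_apply]
  change _ = 0
  split_ifs with hs
  · rw [IncCmp_nd_congr P (ω' := P.nd j (x.1 s)) c (fun c' hc' => by
      rw [IncCmp_v_apply, if_pos (hs.trans hc')])]
    exact IncCmp_nd_nd P j _ c
  · rfl

theorem IncCmp_hal (h : IsInc deg inc) (i : ℕ) (a : IncCmp_A P deg i) :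
    IncCmp_h P h i 0 (IncCmp_al P deg i a) = IncCmp_al P deg (i + 1) (IncCmp_dA P h i a) := by
  apply Subtype.ext
  funext t c
  rw [IncCmp_h_apply, IncCmp_al_apply]
  split_ifs with ht
  · change _ = P.R _ (P.pd inc a.1 t)
    unfold PF.pd
    rw [map_sum]
    refine Finset.sum_congr rfl fun s _ => ?_
    by_cases h0 : inc s t = 0
    · rw [h0, zero_smul]
      split_ifs
      · rw [zero_smul, map_zero]
      · rw [map_zero]
    · rw [IncCmp_al_apply, dif_pos ((h.le_of s t h0).trans ht), dif_pos (h.le_of s t h0),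
        map_zsmul, P.R_trans]
  · rfl

theorem IncCmp_vbe (deg : O → ℕ) (j : ℕ) (b : P.NC j) :
    IncCmp_v P deg 0 j (IncCmp_be P deg j b) = IncCmp_be P deg (j + 1) (IncCmp_nd P j b) := by
  apply Subtype.ext
  funext s c
  rw [IncCmp_v_apply, IncCmp_be_apply]
  by_cases hs : s ≤ c 0
  · rw [if_pos hs]
    by_cases hd : deg s = 0
    · rw [if_pos ⟨hd, hs⟩]
      exact IncCmp_nd_congr P c fun c' hc' => by
        rw [IncCmp_be_apply, if_pos ⟨hd, hs.trans hc'⟩]
    · rw [if_neg fun e => hd e.1, IncCmp_nd_congr P (ω' := 0) c (fun c' _ => by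
        rw [IncCmp_be_apply, if_neg fun e => hd e.1]; rfl), IncCmp_nd_zero]
      rfl
  · rw [if_neg hs, if_neg fun e => hs e.2]

theorem IncCmp_alinj (deg : O → ℕ) (i : ℕ) : Injective (IncCmp_al P deg i) := by
  rw [injective_iff_map_eq_zero]
  intro a ha
  apply Subtype.ext
  funext s
  have := congrArg (fun x : IncCmp_D P deg i 0 => x.1 s (IncCmp_pt s)) ha
  simp only [IncCmp_al_apply] at this
  rw [dif_pos (show s ≤ IncCmp_pt s 0 from le_refl s)] at this
  exact (P.R_refl s (a.1 s)).symm.trans this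

theorem IncCmp_beinj (h : IsInc deg inc) (j : ℕ) : Injective (IncCmp_be P deg j) := by
  rw [injective_iff_map_eq_zero]
  intro b hb
  funext c
  obtain ⟨s, hs, hd⟩ := h.U0 (c 0)
  have := congrArg (fun x : IncCmp_D P deg 0 j => x.1 s c) hb
  simp only [IncCmp_be_apply] at this
  rw [if_pos ⟨hd, hs⟩] at this
  exact this

theorem IncCmp_alex (deg : O → ℕ) (i : ℕ) (x : IncCmp_D P deg i 0) :
    IncCmp_v P deg i 0 x = 0 ↔ ∃ a, IncCmp_al P deg i a = x := by
  constructor
  · intro hx
    refine ⟨⟨fun s => x.1 s (IncCmp_pt s), fun s hs => x.2 s _ fun e => hs e.1⟩, ?_⟩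
    apply Subtype.ext
    funext s c
    rw [IncCmp_al_apply]
    split_ifs with hs
    · have := congrArg (fun x : IncCmp_D P deg i 1 => x.1 s (IncCmp_cons s c hs)) hx
      simp only [IncCmp_v_apply] at this
      rw [if_pos (show s ≤ IncCmp_cons s c hs 0 from le_refl s)] at this
      have h2 := congrArg (P.R (IncCmp_cons_last s c hs)) this
      change P.R _ (P.nd 0 (x.1 s) (IncCmp_cons s c hs)) = P.R _ 0 at h2
      unfold PF.nd at h2
      rw [map_zero, Fin.sum_univ_two, map_add, map_zsmul, map_zsmul, P.R_trans, P.R_trans,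
        IncCmp_congr P (x.1 s) (IncCmp_face_zero s c hs) _ (le_refl _),
        IncCmp_congr P (x.1 s) (IncCmp_face_one s c hs) _ (hs.trans (IncCmp_le_last c)),
        P.R_refl] at h2
      simp only [Fin.val_zero, pow_zero, one_smul, Fin.val_one, pow_one, neg_smul] at h2
      exact (add_neg_eq_zero.1 h2).symm
    · exact (x.2 s c fun e => hs e.2).symm
  · rintro ⟨a, rfl⟩
    apply Subtype.ext
    funext s c
    rw [IncCmp_v_apply]
    change _ = 0
    split_ifs with hs
    · unfold PF.nd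
      rw [Fin.sum_univ_two, IncCmp_al_apply, IncCmp_al_apply,
        dif_pos (hs.trans (IncCmp_le_face c 0)), dif_pos (hs.trans (IncCmp_le_face c 1)),
        P.R_trans, P.R_trans]
      simp only [Fin.val_zero, pow_zero, one_smul, Fin.val_one, pow_one, neg_smul]
      exact add_neg_cancel _
    · rfl

theorem IncCmp_beex (h : IsInc deg inc) (j : ℕ) (x : IncCmp_D P deg 0 j) :
    IncCmp_h P h 0 j x = 0 ↔ ∃ b, IncCmp_be P deg j b = x := by
  constructor
  · intro hx
    have key : ∀ c : Ch O j, ∃ g, ∀ s, s ≤ c 0 → deg s = 0 → x.1 s c = g := fun c =>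
      h.U2 _ (c 0) (fun s => x.1 s c) (fun s hs => x.2 s c fun e => hs e.1) fun u hu => by
        have := congrArg (fun x : IncCmp_D P deg 1 j => x.1 u c) hx
        simp only [IncCmp_h_apply] at this
        rw [if_pos hu] at this
        exact this
    choose b hb using key
    refine ⟨b, ?_⟩
    apply Subtype.ext
    funext s c
    rw [IncCmp_be_apply]
    split_ifs with hs
    · exact (hb c s hs.2 hs.1).symm
    · exact (x.2 s c hs).symm
  · rintro ⟨b, rfl⟩
    apply Subtype.ext
    funext t c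
    change _ = 0
    by_cases ht : deg t = 0 + 1 ∧ t ≤ c 0
    · rw [IncCmp_h_apply, if_pos ht.2]
      have : ∀ s, inc s t • (IncCmp_be P deg j b).1 s c = inc s t • b c := by
        intro s
        by_cases h0 : inc s t = 0
        · rw [h0, zero_smul, zero_smul]
        · have := h.deg_of s t h0
          rw [IncCmp_be_apply, if_pos ⟨by omega, (h.le_of s t h0).trans ht.2⟩]
      simp only [this]
      rw [← Finset.sum_smul, h.U1 t ht.1, zero_smul]
    · exact (IncCmp_h P h 0 j (IncCmp_be P deg j b)).2 t c ht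

theorem IncCmp_vex (deg : O → ℕ) (i j : ℕ) (x : IncCmp_D P deg i (j + 1))
    (hx : IncCmp_v P deg i (j + 1) x = 0) : ∃ y, IncCmp_v P deg i j y = x := by
  refine ⟨⟨fun s c => if hs : s ≤ c 0 then
    P.R (IncCmp_cons_last s c hs) (x.1 s (IncCmp_cons s c hs)) else 0, fun s c hs => ?_⟩, ?_⟩
  · change (if hs : s ≤ c 0 then
      P.R (IncCmp_cons_last s c hs) (x.1 s (IncCmp_cons s c hs)) else 0) = 0
    split_ifs with hsc
    · rw [x.2 s _ fun e => hs ⟨e.1, hsc⟩, map_zero]
    · rfl
  · apply Subtype.ext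
    funext s c
    rw [IncCmp_v_apply]
    split_ifs with hs
    · have := congrArg (fun x : IncCmp_D P deg i (j + 2) => x.1 s (IncCmp_cons s c hs)) hx
      simp only [IncCmp_v_apply] at this
      rw [if_pos (show s ≤ IncCmp_cons s c hs 0 from le_refl s)] at this
      have h2 := congrArg (P.R (IncCmp_cons_last s c hs)) this
      change P.R _ (P.nd (j + 1) (x.1 s) (IncCmp_cons s c hs)) = P.R _ 0 at h2
      unfold PF.nd at h2
      rw [map_zero, Fin.sum_univ_succ, map_add, map_zsmul, P.R_trans,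
        IncCmp_congr P (x.1 s) (IncCmp_face_zero s c hs) _ (le_refl _), P.R_refl, map_sum] at h2
      simp only [Fin.val_zero, pow_zero, one_smul] at h2
      rw [eq_neg_of_add_eq_zero_left h2, ← Finset.sum_neg_distrib]
      unfold PF.nd
      refine Finset.sum_congr rfl fun k _ => ?_
      simp only []
      rw [dif_pos (hs.trans (IncCmp_le_face c k)), P.R_trans, map_zsmul, P.R_trans,
        IncCmp_congr P (x.1 s) (IncCmp_face_succ s c hs k) _
          ((IncCmp_cons_last s _ _).trans (face_le c k)), Fin.val_succ, pow_succ, mul_neg_one,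
        neg_smul, neg_neg]
    · exact (x.2 s c fun e => hs e.2).symm

theorem IncCmp_hex (h : IsInc deg inc) (i j : ℕ) (x : IncCmp_D P deg (i + 1) j)
    (hx : IncCmp_h P h (i + 1) j x = 0) : ∃ y, IncCmp_h P h i j y = x := by
  have key : ∀ c : Ch O j, ∃ y : O → P.F (c (Fin.last j)), (∀ s, deg s ≠ i → y s = 0) ∧
      ∀ u, u ≤ c 0 → ∑ s, inc s u • y s = x.1 u c := fun c =>
    h.U3 _ (c 0) i (fun s => x.1 s c) (fun s hs => x.2 s c fun e => hs e.1) fun u hu => by
      have := congrArg (fun x : IncCmp_D P deg (i + 1 + 1) j => x.1 u c) hx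
      simp only [IncCmp_h_apply] at this
      rw [if_pos hu] at this
      exact this
  choose y hy1 hy2 using key
  refine ⟨⟨fun s c => if s ≤ c 0 then y c s else 0, fun s c hs => ?_⟩, ?_⟩
  · change (if s ≤ c 0 then y c s else 0) = 0
    split_ifs with hsc
    · exact hy1 c s fun e => hs ⟨e, hsc⟩
    · rfl
  · apply Subtype.ext
    funext u c
    rw [IncCmp_h_apply]
    split_ifs with hu
    · rw [← hy2 c u hu]
      refine Finset.sum_congr rfl fun s _ => ?_
      by_cases h0 : inc s u = 0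
      · rw [h0, zero_smul, zero_smul]
      · change inc s u • (if s ≤ c 0 then y c s else 0) = _
        rw [if_pos ((h.le_of s u h0).trans hu)]
    · exact (x.2 u c fun e => hu e.2).symm

end

/- Proof. Apply `zigzag` with `A i` the subgroup of `∀ s, P.F s` supported in degree `i`,
`dA = pd`, `B j = P.NC j`, `dB = nd`, and `D i j` the subgroup of `O → P.NC j` of the `x` with
`x s c = 0` unless `deg s = i ∧ s ≤ c 0`;
`h x t c = if t ≤ c 0 then ∑ s, inc s t • x s c else 0`,
`v x s c = if s ≤ c 0 then P.nd j (x s) c else 0`,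
`α a s c = if s ≤ c 0 then P.R _ (a s) else 0` (note `c 0 = c (last 0)`),
`β b s c = if deg s = 0 ∧ s ≤ c 0 then b c else 0`. Rows: `U0 .. U3`, `sq` with the group
`P.F (c (last j))` and `t = c 0` (cut the `y` of `U3` off outside `s ≤ t`). Columns: the contraction
`x ↦ fun s c => x s (cons s c)` for `s ≤ c 0`, where `cons s c` is the chain `Fin.cons s c`:
`face (cons s c) 0 = c`, `face (cons s c) i.succ = cons s (face c i)`; for `αex` use the constant
chain `![s]`. `nd (nd x) = 0` by `face_face` and `Finset.sum_involution` or the usual bijection. -/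
theorem PF.nex_iff_pex {O : Type} [Preorder O] [Fintype O] (P : PF O) {deg : O → ℕ}
    {inc : O → O → ℤ} (h : IsInc deg inc) (q : ℕ) : P.NEx q ↔ P.PEx deg inc q := by
  have z := zigzag (D := fun i j => IncCmp_D P deg i j) (A := fun i => IncCmp_A P deg i)
    (B := fun j => P.NC j) (IncCmp_h P h) (IncCmp_v P deg) (IncCmp_dA P h) (IncCmp_nd P)
    (IncCmp_al P deg) (IncCmp_be P deg) (IncCmp_hv P h) (IncCmp_hh P h) (IncCmp_vv P deg)
    (IncCmp_hal P h) (IncCmp_vbe P deg) (IncCmp_alinj P deg) (IncCmp_beinj P h)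
    (IncCmp_alex P deg) (IncCmp_beex P h) (IncCmp_vex P deg) (IncCmp_hex P h) q
  constructor
  · intro hN c hc h0
    obtain ⟨a, ha⟩ := z.2 hN ⟨c, hc⟩ (Subtype.ext (funext h0))
    exact ⟨a.1, a.2, fun t => congrFun (congrArg Subtype.val ha) t⟩
  · intro hP
    refine z.1 fun a ha => ?_
    obtain ⟨b, hb, hb'⟩ := hP a.1 a.2 fun t => congrFun (congrArg Subtype.val ha) t
    exact ⟨⟨b, hb⟩, Subtype.ext (funext hb')⟩

end Pool.Agent.P.MP_824f38_ag.DB
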