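import Pool.Agent.P.MP_824f38_ag.H.Atom

/-! Existence of pinchings; dimension of integral extensions and products. -/

set_option linter.unusedSectionVars false
set_option linter.style.haveILetI false

namespace Pool.Agent.P.MP_824f38_ag.DB

open Function

/- Proof. `exists_finite_inj_algHom_of_fg ℂ (A ⧸ I)` gives `g`; `R = g.range.comap (mkₐ I)`;
`β = (AlgEquiv.ofInjective g _).symm ∘ restriction`; `l = aeval` of chosen lifts of `g (X i)`.
`A` is integral over `R`: lift a monic equation of `mk a` over `ℂ[y]` by `l`; its value at `a`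
lies in `I ⊆ R`, subtract it from the constant term. `fg_of_fg_of_fg` (Artin-Tate) gives `ft`
(see `finiteType_R` in `Cohom`). -/
theorem exists_pinch (A : Type) [CommRing A] [Algebra ℂ A] [Algebra.FiniteType ℂ A] (I : Ideal A)
    (hI : I ≠ ⊤) : Nonempty (Pinch A I) := by
  haveI : Nontrivial (A ⧸ I) := Ideal.Quotient.nontrivial_iff.2 hI
  obtain ⟨d, g, hg, hint⟩ := exists_integral_inj_algHom_of_fg ℂ (A ⧸ I)
  choose y hy using fun i : Fin d => Ideal.Quotient.mk_surjective (g (MvPolynomial.X i))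
  let π : A →ₐ[ℂ] A ⧸ I := Ideal.Quotient.mkₐ ℂ I
  have hπ : ∀ a, π a = 0 ↔ a ∈ I := fun a => Ideal.Quotient.eq_zero_iff_mem
  let L : MvPolynomial (Fin d) ℂ →ₐ[ℂ] A := MvPolynomial.aeval y
  have hL : π.comp L = g := MvPolynomial.algHom_ext fun i => by
    rw [AlgHom.comp_apply, MvPolynomial.aeval_X]
    exact hy i
  have hL' : ∀ p, π (L p) = g p := fun p => by rw [← hL, AlgHom.comp_apply]
  let R : Subalgebra ℂ A := g.range.comap π
  let β : R →ₐ[ℂ] MvPolynomial (Fin d) ℂ := (AlgEquiv.ofInjective g hg).symm.toAlgHom.comp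
    ((π.comp R.val).codRestrict g.range fun r => r.2)
  have hβ : ∀ r : R, g (β r) = π r := fun r =>
    congrArg Subtype.val ((AlgEquiv.ofInjective g hg).apply_symm_apply ⟨π r, r.2⟩)
  let l : MvPolynomial (Fin d) ℂ →ₐ[ℂ] R := L.codRestrict R fun p => ⟨p, (hL' p).symm⟩
  have hmem : ∀ a ∈ I, a ∈ R := fun a ha => ⟨0, (map_zero g).trans ((hπ a).2 ha).symm⟩
  have hi : ∀ a : A, IsIntegral R a := fun a => by
    obtain ⟨p, hp, hp'⟩ := hint (π a)
    have hq : (p.map l.toRingHom).Monic := hp.map _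
    have hc : Polynomial.aeval a (p.map l.toRingHom) ∈ I := by
      rw [← hπ, Polynomial.aeval_def, Polynomial.eval₂_map, ← hp', ← AlgHom.coe_toRingHom π,
        Polynomial.hom_eval₂]
      congr 1
      exact RingHom.ext fun q => hL' q
    refine IsIntegral.of_aeval_monic hq (fun h => hI ?_)
      (isIntegral_algebraMap (x := (⟨_, hmem _ hc⟩ : R)))
    rw [hq.natDegree_eq_zero.1 h, map_one] at hc
    exact (Ideal.eq_top_iff_one I).2 hc
  haveI : Algebra.IsIntegral R A := ⟨hi⟩
  haveI : Algebra.FiniteType R A := Algebra.FiniteType.of_restrictScalars_finiteType ℂ R A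
  haveI : Module.Finite R A := Algebra.IsIntegral.finite
  exact ⟨{
    d := d
    R := R
    β := β
    l := l
    β_l := AlgHom.ext fun p => hg ((hβ _).trans (hL' p))
    sub_mem := fun r => (hπ _).1 (by
      rw [map_sub, ← hβ r]
      exact sub_eq_zero.2 (hL' _).symm)
    mem_of := hmem
    β_I := fun r hr => hg ((hβ r).trans (((hπ _).2 hr).trans (map_zero g).symm))
    ft := ⟨fg_of_fg_of_fg ℂ R A Algebra.FiniteType.out Module.Finite.fg_top Subtype.val_injective⟩
    integral := hi }⟩

/- `≥`: `Order.krullDim_le_of_strictMono` with `Ideal.IsIntegral.comap_lt_comap` (see `dim_le` in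
`Cohom`); `≤`: lying over and `exists_ltSeries_of_hasGoingUp`. -/
theorem dim_eq_of_integral (R A : Type) [CommRing R] [CommRing A] [Algebra R A]
    [Algebra.IsIntegral R A] (h : Injective (algebraMap R A)) :
    ringKrullDim R = ringKrullDim A := by
  refine le_antisymm (iSup_le fun l => ?_) ?_
  · haveI : FaithfulSMul R A := (faithfulSMul_iff_algebraMap_injective R A).2 h
    obtain ⟨⟨P, hP, hP'⟩⟩ := l.head.asIdeal.nonempty_primesOver (S := A)
    obtain ⟨L, hL, -⟩ := Ideal.exists_ltSeries_of_hasGoingUp l P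
    rw [← hL]
    exact Order.LTSeries.length_le_krullDim L
  · refine Order.krullDim_le_of_strictMono
      (fun I : PrimeSpectrum A => PrimeSpectrum.comap (algebraMap R A) I) fun I J hIJ => ?_
    exact Ideal.IsIntegral.comap_lt_comap (R := R) (I := I.asIdeal) (J := J.asIdeal) hIJ

/- Noether normalisation, `dim_eq_of_integral`, `MvPolynomial.ringKrullDim_of_isNoetherianRing`,
and the invariance of the cardinality of transcendence bases. -/
theorem dim_eq_of_basis {A ι : Type} [CommRing A] [IsDomain A] [Algebra ℂ A]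
    [Algebra.FiniteType ℂ A] [Fintype ι] (x : ι → A) (h : IsTranscendenceBasis ℂ x) :
    ringKrullDim A = Fintype.card ι := by
  obtain ⟨s, g, hg, hint⟩ := exists_integral_inj_algHom_of_fg ℂ A
  letI : Algebra (MvPolynomial (Fin s) ℂ) A := g.toRingHom.toAlgebra
  haveI : Algebra.IsIntegral (MvPolynomial (Fin s) ℂ) A := ⟨hint⟩
  haveI : IsScalarTower ℂ (MvPolynomial (Fin s) ℂ) A :=
    IsScalarTower.of_algebraMap_eq fun c => (g.commutes c).symm
  haveI : FaithfulSMul (MvPolynomial (Fin s) ℂ) A :=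
    (faithfulSMul_iff_algebraMap_injective _ A).2 hg
  have h1 := ((IsTranscendenceBasis.mvPolynomial (Fin s) ℂ).algebraMap_comp (A := A)).cardinalMk_eq h
  rw [Cardinal.mk_fintype, Cardinal.mk_fintype, Nat.cast_inj] at h1
  rw [← dim_eq_of_integral (MvPolynomial (Fin s) ℂ) A hg,
    MvPolynomial.ringKrullDim_of_isNoetherianRing, ringKrullDim_eq_zero_of_field, zero_add,
    Nat.card_eq_fintype_card, h1]

/- A prime of the product contains the kernel of a projection; so a minimal prime is such a kernel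
and the quotient is `R a`. A chain of primes contains the kernel contained in its first member. -/
theorem pi_dim {α : Type} [Finite α] [Nonempty α] (R : α → Type) [∀ a, CommRing (R a)]
    [∀ a, IsDomain (R a)] (n : ℕ) (h : ∀ a, ringKrullDim (R a) = n) :
    ringKrullDim (∀ a, R a) = n ∧
      ∀ P ∈ minimalPrimes (∀ a, R a), ringKrullDim ((∀ a, R a) ⧸ P) = n := by
  have hs : ∀ a, Surjective (Pi.evalRingHom R a) := fun a => Function.surjective_eval a
  have hq : ∀ a, ringKrullDim ((∀ a, R a) ⧸ RingHom.ker (Pi.evalRingHom R a)) = n := fun a =>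
    (ringKrullDim_eq_of_ringEquiv (RingHom.quotientKerEquivOfSurjective (hs a))).trans (h a)
  have hk : ∀ p : PrimeSpectrum (∀ a, R a), ∃ a, RingHom.ker (Pi.evalRingHom R a) ≤ p.asIdeal := by
    intro p
    obtain ⟨a, q, rfl⟩ := PrimeSpectrum.exists_comap_evalRingHom_eq p
    exact ⟨a, Ideal.ker_le_comap _⟩
  refine ⟨le_antisymm (iSup_le fun l => ?_) ?_, fun P hP => ?_⟩
  · obtain ⟨a, ha⟩ := hk l.head
    rw [← hq a, ringKrullDim_quotient]
    exact Order.LTSeries.length_le_krullDim
      (α := PrimeSpectrum.zeroLocus (R := ∀ a, R a) (RingHom.ker (Pi.evalRingHom R a)))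
      ⟨l.length, fun i => ⟨l i, ha.trans (l.head_le i)⟩, fun i => l.step i⟩
  · obtain ⟨a⟩ := ‹Nonempty α›
    rw [← h a]
    exact ringKrullDim_le_of_surjective _ (hs a)
  · obtain ⟨a, ha⟩ := hk ⟨P, hP.1.1⟩
    rw [le_antisymm (hP.2 ⟨RingHom.ker_isPrime _, bot_le⟩ ha) ha]
    exact hq a

end Pool.Agent.P.MP_824f38_ag.DB
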