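import Pool.Agent.P.MP_824f38_ag.H.NerveH
import Pool.Agent.P.MP_824f38_ag.H.IncCmp
import Pool.Agent.P.MP_824f38_ag.H.FanRes
import Pool.Agent.P.MP_824f38_ag.H.PinchEx
import Pool.Agent.P.MP_824f38_ag.H.DescT
import Pool.Agent.P.MP_824f38_ag.H.DescB
import Pool.Agent.P.MP_824f38_ag.H.FormsBr
import Pool.Agent.P.MP_824f38_ag.H.ElimI
import Pool.Agent.P.MP_824f38_ag.H.ElimK
import Pool.Agent.P.MP_824f38_ag.H.FC3
import Pool.Agent.P.MP_824f38_ag.H.FC4
import Pool.Agent.P.MP_824f38_ag.H.HyperPi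

/-! The atoms and their unions. -/

set_option linter.unusedSectionVars false
set_option linter.style.haveILetI false

namespace Pool.Agent.P.MP_824f38_ag.DB

open Function

theorem cnt_AB {ι : Type} [Fintype ι] [LinearOrder ι] (col : ι → Col) :
    (Finset.univ.filter (fun i => col i = .A ∨ col i = .B)).card = cnt col .A + cnt col .B := by
  rw [Finset.filter_or, Finset.card_union_of_disjoint]
  · rfl
  · exact Finset.disjoint_filter.mpr fun i _ h h' => by rw [h] at h'; cases h'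

theorem exists_atom_col {ι : Type} [Fintype ι] [LinearOrder ι] (col : ι → Col)
    (hA : ∃ k, col k = .A) :
    ∃ (R : Type) (_ : CommRing R) (_ : Algebra ℂ R), IsDomain R ∧ Algebra.FiniteType ℂ R ∧
      ringKrullDim R = Fintype.card ι ∧ ∃ X : Hyper R, X.Descent ∧ ∀ p q, X.HNonzero p (q + 1) ↔
        (p = cnt col .B ∧ q + 2 = cnt col .A + cnt col .C) ∨
        (p = cnt col .A + cnt col .B ∧ q + 1 = cnt col .C) := by
  obtain ⟨X⟩ := exists_res col
  haveI := PM_ft col hA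
  haveI := PM_domain col
  obtain ⟨Pn⟩ := exists_pinch (MA (PM col)) (IA col) (IA_ne_top col hA)
  have hs : ∀ s, X.ix.valid s → Algebra.Smooth ℂ (MA (X.Q s)) := fun s h =>
    (frame_CM (X.dual _) h.2.2.2).some.smooth
  obtain ⟨b, hb⟩ := PM_basis col
  haveI : Algebra.IsIntegral Pn.R (MA (PM col)) := ⟨Pn.integral⟩
  refine ⟨Pn.R, inferInstance, inferInstance, inferInstance, Pn.ft,
    (dim_eq_of_integral Pn.R (MA (PM col)) Subtype.val_injective).trans (dim_eq_of_basis b hb),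
    (X.diag Pn hs).toHyper, Diag.descent_of _ fun V _ _ _ _ x => ?_, fun p q => ?_⟩
  · by_cases hx : ∀ g : Pn.R, (g : MA (PM col)) ∈ IA col → x g = 0
    · exact X.acyc_bd Pn hs x hx
    · push Not at hx
      obtain ⟨g, hg, hx⟩ := hx
      exact X.acyc_torus Pn hs x g hg hx
  · have h1 := PF.nex_iff_pex (O := Ob X.ix) ((X.diag Pn hs).formsPF p) (Ob.isInc X.ix) q
    obtain ⟨g2, h2⟩ := X.elim_rays p (X.CI_good p) Finset.univ
    obtain ⟨g3, h3⟩ := X.to_coord p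
    rw [Diag.hnonzero_iff]
    refine (not_congr (h1.trans ((X.pex_iff Pn hs p q).trans ((h2 q).trans ((h3 q).trans
      ((X.elim_cuts p (g3 g2) q).trans (small_ex_iff col p q))))))).trans ?_
    push Not
    simp only [small_main col hA]
    constructor
    · rintro ⟨S, hS, ⟨rfl, h⟩ | ⟨rfl, h⟩⟩
      · exact Or.inl ⟨hS.symm, h⟩
      · exact Or.inr ⟨by rw [← hS, cnt_AB], h⟩
    · rintro (⟨rfl, h⟩ | ⟨rfl, h⟩)
      · exact ⟨_, rfl, Or.inl ⟨rfl, h⟩⟩
      · exact ⟨_, cnt_AB col, Or.inr ⟨rfl, h⟩⟩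

theorem exists_atom (a b c o : ℕ) :
    ∃ (R : Type) (_ : CommRing R) (_ : Algebra ℂ R), IsDomain R ∧ Algebra.FiniteType ℂ R ∧
      ringKrullDim R = (a + 1 + b + c + o : ℕ) ∧ ∃ X : Hyper R, X.Descent ∧
        ∀ p q, X.HNonzero p (q + 1) ↔
          (p = b ∧ q + 1 = a + c) ∨ (p = a + 1 + b ∧ q + 1 = c) := by
  classical
  let τ := Fin (a + 1) ⊕ Fin b ⊕ Fin c ⊕ Fin o
  let colτ : τ → Col := Sum.elim (fun _ => .A) (Sum.elim (fun _ => .B)
    (Sum.elim (fun _ => .C) fun _ => .O))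
  letI : LinearOrder τ := LinearOrder.lift' (Fintype.equivFin τ) (Fintype.equivFin τ).injective
  have hc : ∀ x, cnt colτ x = (if x = .A then a + 1 else 0) + ((if x = .B then b else 0) +
      ((if x = .C then c else 0) + if x = .O then o else 0)) := by
    intro x
    rw [cnt, Finset.card_filter, Fintype.sum_sum_type, Fintype.sum_sum_type, Fintype.sum_sum_type]
    cases x <;> simp [colτ]
  obtain ⟨R, i1, i2, h1, h2, h3, X, h4, h5⟩ := exists_atom_col colτ ⟨Sum.inl 0, rfl⟩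
  refine ⟨R, i1, i2, h1, h2, ?_, X, h4, fun p q => ?_⟩
  · rw [h3]
    simp only [τ, Fintype.card_sum, Fintype.card_fin]
    congr 1
    omega
  · rw [h5, hc, hc, hc]
    simp only [reduceCtorEq, if_true, if_false]
    omega

theorem pi_props {α : Type} [Finite α] (R : α → Type) [∀ a, CommRing (R a)]
    [∀ a, Algebra ℂ (R a)] (h1 : ∀ a, IsDomain (R a)) (h2 : ∀ a, Algebra.FiniteType ℂ (R a)) :
    Algebra.FiniteType ℂ (∀ a, R a) ∧ IsReduced (∀ a, R a) := by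
  haveI : ∀ a, Algebra.FinitePresentation ℂ (R a) := fun a =>
    Algebra.FinitePresentation.of_finiteType.mp (h2 a)
  exact ⟨inferInstance, inferInstance⟩

theorem exists_entry (n : ℕ) (T : ℕ → ℕ → Prop) (h1 : ∀ p q, T p q → p + q + 1 ≤ n)
    (h2 : ∀ p q, T p q → p + q + 1 = n → ∃ p' q', p' < p ∧ p' + q' + 2 = n ∧ T p' q')
    (p q : ℕ) (hT : T p q) :
    ∃ (R : Type) (_ : CommRing R) (_ : Algebra ℂ R), IsDomain R ∧ Algebra.FiniteType ℂ R ∧
      ringKrullDim R = n ∧ ∃ X : Hyper R, X.Descent ∧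
        (∀ p q, X.HNonzero p (q + 1) → T p q) ∧ X.HNonzero p (q + 1) := by
  have hle := h1 _ _ hT
  by_cases hn : p + q + 1 = n
  · obtain ⟨p', q', hp, hq, hT'⟩ := h2 _ _ hT hn
    obtain ⟨R, i1, i2, k1, k2, k3, X, k4, k5⟩ := exists_atom (p - p' - 1) p' (q + 1) 0
    have e : p - p' - 1 + 1 + p' + (q + 1) + 0 = n := by omega
    rw [e] at k3
    refine ⟨R, i1, i2, k1, k2, k3, X, k4, fun p0 q0 hh => ?_,
      (k5 _ _).mpr (Or.inr ⟨by omega, rfl⟩)⟩
    rcases (k5 p0 q0).mp hh with ⟨e1, e2⟩ | ⟨e1, e2⟩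
    · rwa [e1, show q0 = q' by omega]
    · rwa [show p0 = p by omega, show q0 = q by omega]
  · obtain ⟨R, i1, i2, k1, k2, k3, X, k4, k5⟩ := exists_atom (q + 1) p 0 (n - (p + q + 2))
    have e : q + 1 + 1 + p + 0 + (n - (p + q + 2)) = n := by omega
    rw [e] at k3
    refine ⟨R, i1, i2, k1, k2, k3, X, k4, fun p0 q0 hh => ?_, (k5 _ _).mpr (Or.inl ⟨rfl, rfl⟩)⟩
    rcases (k5 p0 q0).mp hh with ⟨e1, e2⟩ | ⟨e1, e2⟩
    · rwa [e1, show q0 = q by omega]
    · omega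

theorem exists_union {α : Type} [Finite α] [Nonempty α] (n : ℕ) (H : α → ℕ → ℕ → Prop)
    (key : ∀ a : α, ∃ (R : Type) (_ : CommRing R) (_ : Algebra ℂ R), IsDomain R ∧
      Algebra.FiniteType ℂ R ∧ ringKrullDim R = n ∧ ∃ X : Hyper R, X.Descent ∧
        ∀ p q, X.HNonzero p q ↔ H a p q) :
    ∃ (R : Type) (_ : CommRing R) (_ : Algebra ℂ R), Algebra.FiniteType ℂ R ∧ IsReduced R ∧
      ringKrullDim R = n ∧ (∀ P ∈ minimalPrimes R, ringKrullDim (R ⧸ P) = n) ∧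
      ∃ X : Hyper R, X.Descent ∧ ∀ p q, X.HNonzero p q ↔ ∃ a, H a p q := by
  choose R i1 i2 k1 k2 k3 X k4 k5 using key
  obtain ⟨Y, hY, hY'⟩ := exists_pi X
  obtain ⟨d1, d2⟩ := pi_dim R n k3
  obtain ⟨e1, e2⟩ := pi_props R k1 k2
  exact ⟨∀ a, R a, Pi.commRing, Pi.algebra _ _, e1, e2, d1, d2, Y, hY k4,
    fun p q => (hY' p q).trans (exists_congr fun a => k5 a p q)⟩

theorem exists_table (n : ℕ) (T : ℕ → ℕ → Prop) (h1 : ∀ p q, T p q → p + q + 1 ≤ n)
    (h2 : ∀ p q, T p q → p + q + 1 = n → ∃ p' q', p' < p ∧ p' + q' + 2 = n ∧ T p' q') :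
    ∃ (R : Type) (_ : CommRing R) (_ : Algebra ℂ R), Algebra.FiniteType ℂ R ∧ IsReduced R ∧
      ringKrullDim R = n ∧ (∀ P ∈ minimalPrimes R, ringKrullDim (R ⧸ P) = n) ∧
      ∃ X : Hyper R, X.Descent ∧ (∀ p ≤ n, X.HNonzero p 0) ∧
        ∀ p q, X.HNonzero p (q + 1) ↔ T p q := by
  have key : ∀ x : Option {x : Fin n × Fin n // T x.1 x.2}, ∃ H : ℕ → ℕ → Prop,
      (∃ (R : Type) (_ : CommRing R) (_ : Algebra ℂ R), IsDomain R ∧ Algebra.FiniteType ℂ R ∧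
      ringKrullDim R = n ∧ ∃ X : Hyper R, X.Descent ∧ ∀ p q, X.HNonzero p q ↔ H p q) ∧
        (x = none → ∀ p ≤ n, H p 0) ∧ (∀ p q, H p (q + 1) → T p q) ∧
        ∀ y, x = some y → H y.1.1 (y.1.2 + 1) := by
    rintro (_ | x)
    · obtain ⟨X, hX, h0, h⟩ := exists_affine n
      refine ⟨X.HNonzero, ⟨MvPolynomial (Fin n) ℂ, inferInstance, inferInstance, inferInstance,
        inferInstance, ?_, X, hX, fun _ _ => Iff.rfl⟩, fun _ => h0,
        fun p q hh => absurd hh (h p q), fun _ hy => by cases hy⟩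
      rw [MvPolynomial.ringKrullDim_of_isNoetherianRing, ringKrullDim_eq_zero_of_field, zero_add]
      simp
    · obtain ⟨R, i1, i2, k1, k2, k3, X, k4, k5, k6⟩ := exists_entry n T h1 h2 _ _ x.2
      exact ⟨X.HNonzero, ⟨R, i1, i2, k1, k2, k3, X, k4, fun _ _ => Iff.rfl⟩,
        (fun hy => by cases hy), k5, fun y hy => by cases hy; exact k6⟩
  choose H k1 k2 k3 k4 using key
  obtain ⟨R, i1, i2, e1, e2, e3, e4, X, e5, e6⟩ := exists_union n H k1
  refine ⟨R, i1, i2, e1, e2, e3, e4, X, e5, fun p hp => (e6 p 0).mpr ⟨none, k2 none rfl p hp⟩,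
    fun p q => (e6 p (q + 1)).trans ⟨fun ⟨a, ha⟩ => k3 a p q ha, fun h => ?_⟩⟩
  have := h1 p q h
  exact ⟨some ⟨(⟨p, by omega⟩, ⟨q, by omega⟩), h⟩, k4 _ _ rfl⟩

end Pool.Agent.P.MP_824f38_ag.DB
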