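import Pool.Agent.P.MP_824f38_ag.H.Fan

/-! Toric charts, the maps between them, and weight decompositions of their forms. -/

set_option linter.unusedSectionVars false

namespace Pool.Agent.P.MP_824f38_ag.DB

open Function

variable {ι : Type} [Fintype ι] [LinearOrder ι]

/-- monoid algebras -/
abbrev MA (Q : AddSubmonoid (ι → ℤ)) : Type := AddMonoidAlgebra ℂ Q

/-- monomials -/
noncomputable def chi {Q : AddSubmonoid (ι → ℤ)} (m : Q) : MA Q := AddMonoidAlgebra.single m 1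

theorem chi_add {Q : AddSubmonoid (ι → ℤ)} (m m' : Q) : chi (m + m') = chi m * chi m' := by
  simp [chi, AddMonoidAlgebra.single_mul_single]

theorem chi_zero {Q : AddSubmonoid (ι → ℤ)} : chi (0 : Q) = 1 := rfl

theorem ma_ext {Q : AddSubmonoid (ι → ℤ)} {B : Type} [Semiring B] [Algebra ℂ B]
    {φ ψ : MA Q →ₐ[ℂ] B} (h : ∀ m, φ (chi m) = ψ (chi m)) : φ = ψ :=
  AddMonoidAlgebra.algHom_ext h (Subsingleton.elim _ _)

/-- forgetting the coordinates in `J` -/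
def prj (J : Finset ι) (m : ι → ℤ) : ι → ℤ := fun i => if i ∈ J then 0 else m i

theorem prj_add (J : Finset ι) (a b : ι → ℤ) : prj J (a + b) = prj J a + prj J b := by
  funext i; by_cases h : i ∈ J <;> simp [prj, h]

theorem prj_zero (J : Finset ι) : prj J (0 : ι → ℤ) = 0 := by
  funext i; simp [prj]

theorem prj_dot {J : Finset ι} (m : ι → ℤ) {v : ι → ℤ} (hv : ∀ j ∈ J, v j = 0) :
    prj J m ⬝ᵥ v = m ⬝ᵥ v := by
  refine Finset.sum_congr rfl fun i _ => ?_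
  by_cases h : i ∈ J <;> simp [prj, h, hv]

theorem prj_prj {J J' : Finset ι} (h : J ⊆ J') (m : ι → ℤ) : prj J' (prj J m) = prj J' m := by
  funext i
  by_cases h1 : i ∈ J'
  · simp [prj, h1]
  · simp [prj, h1, show i ∉ J from fun e => h1 (h e)]

/-- forgetting coordinates as an additive map -/
def prjHom (J : Finset ι) : (ι → ℤ) →+ (ι → ℤ) where
  toFun := prj J
  map_zero' := prj_zero J
  map_add' := prj_add J

/-- the monoid of a stratum of a chart -/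
def CM (G I : Finset (ι → ℤ)) (J : Finset ι) : AddSubmonoid (ι → ℤ) where
  carrier := {m | (∀ j ∈ J, m j = 0) ∧ (∀ v ∈ G, (∀ j ∈ J, v j = 0) → 0 ≤ m ⬝ᵥ v) ∧
    ∀ v ∈ I, m ⬝ᵥ v = 0}
  zero_mem' := ⟨fun _ _ => rfl, fun _ _ _ => by simp, fun _ _ => by simp⟩
  add_mem' := by
    rintro a b ⟨h1, h2, h3⟩ ⟨k1, k2, k3⟩
    refine ⟨fun j hj => by simp [h1 j hj, k1 j hj], fun v hv hv' => ?_, fun v hv => ?_⟩
    · rw [add_dotProduct]; exact add_nonneg (h2 v hv hv') (k2 v hv hv')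
    · rw [add_dotProduct, h3 v hv, k3 v hv, add_zero]

theorem mem_CM {G I : Finset (ι → ℤ)} {J : Finset ι} {m : ι → ℤ} : m ∈ CM G I J ↔
    (∀ j ∈ J, m j = 0) ∧ (∀ v ∈ G, (∀ j ∈ J, v j = 0) → 0 ≤ m ⬝ᵥ v) ∧ ∀ v ∈ I, m ⬝ᵥ v = 0 :=
  Iff.rfl

/-- the stratum is not empty -/
def Val (G I : Finset (ι → ℤ)) (J : Finset ι) : Prop := ∀ v ∈ I, v ∈ G ∧ ∀ j ∈ J, v j = 0

/-- the stratum maps to the toric variety of `Q` -/
def Cmp (Q : AddSubmonoid (ι → ℤ)) (G I : Finset (ι → ℤ)) (J : Finset ι) : Prop :=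
  (∀ m ∈ Q, ∀ v ∈ G, (∀ j ∈ J, v j = 0) → 0 ≤ m ⬝ᵥ v) ∧ Val G I J

variable {Q : AddSubmonoid (ι → ℤ)} {G I : Finset (ι → ℤ)} {J : Finset ι}

theorem Cmp.prj_mem (h : Cmp Q G I J) (m : Q) (hm : ∀ v ∈ I, (m : ι → ℤ) ⬝ᵥ v = 0) :
    prj J m ∈ CM G I J :=
  ⟨fun j hj => by simp [prj, hj], fun v hv hv' => by rw [prj_dot _ hv']; exact h.1 m m.2 v hv hv',
    fun v hv => by rw [prj_dot _ (h.2 v hv).2]; exact hm v hv⟩

theorem Cmp.add_iff (h : Cmp Q G I J) (a b : Q) : (∀ v ∈ I, ((a + b : Q) : ι → ℤ) ⬝ᵥ v = 0) ↔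
    (∀ v ∈ I, (a : ι → ℤ) ⬝ᵥ v = 0) ∧ ∀ v ∈ I, (b : ι → ℤ) ⬝ᵥ v = 0 := by
  have ha := fun v hv => h.1 a a.2 v (h.2 v hv).1 (h.2 v hv).2
  have hb := fun v hv => h.1 b b.2 v (h.2 v hv).1 (h.2 v hv).2
  simp only [AddSubmonoid.coe_add, add_dotProduct]
  refine ⟨fun H => ⟨fun v hv => ?_, fun v hv => ?_⟩, fun H v hv => by rw [H.1 v hv, H.2 v hv]; rfl⟩
  · have := H v hv; have := ha v hv; have := hb v hv; omega
  · have := H v hv; have := ha v hv; have := hb v hv; omega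

open Classical in
/-- the monoid map behind `tmap` -/
noncomputable def tmon (h : Cmp Q G I J) : Multiplicative Q →* MA (CM G I J) where
  toFun m := if hm : ∀ v ∈ I, ((Multiplicative.toAdd m : Q) : ι → ℤ) ⬝ᵥ v = 0 then
    chi ⟨prj J (Multiplicative.toAdd m : Q), h.prj_mem _ hm⟩ else 0
  map_one' := by
    rw [dif_pos (by simp), ← chi_zero]
    exact congrArg chi (Subtype.ext (prj_zero J))
  map_mul' a b := by
    rw [toAdd_mul]
    by_cases hab : ∀ v ∈ I, ((Multiplicative.toAdd a + Multiplicative.toAdd b : Q) : ι → ℤ) ⬝ᵥ v = 0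
    · obtain ⟨ha, hb⟩ := (h.add_iff _ _).mp hab
      rw [dif_pos hab, dif_pos ha, dif_pos hb, ← chi_add]
      exact congrArg chi (Subtype.ext (prj_add J _ _))
    · rw [dif_neg hab]
      by_cases ha : ∀ v ∈ I, ((Multiplicative.toAdd a : Q) : ι → ℤ) ⬝ᵥ v = 0
      · rw [dif_neg (fun hb => hab ((h.add_iff _ _).mpr ⟨ha, hb⟩)), mul_zero]
      · rw [dif_neg ha, zero_mul]

/-- restriction of functions to a stratum of a chart -/
noncomputable def tmap (h : Cmp Q G I J) : MA Q →ₐ[ℂ] MA (CM G I J) :=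
  AddMonoidAlgebra.lift ℂ (MA (CM G I J)) Q (tmon h)

theorem tmap_chi_pos (h : Cmp Q G I J) (m : Q) (hm : ∀ v ∈ I, (m : ι → ℤ) ⬝ᵥ v = 0) :
    tmap h (chi m) = chi ⟨prj J m, h.prj_mem _ hm⟩ := by
  simp only [tmap, chi, AddMonoidAlgebra.lift_single, one_smul]
  exact dif_pos hm

theorem tmap_chi_neg (h : Cmp Q G I J) (m : Q) (hm : ¬ ∀ v ∈ I, (m : ι → ℤ) ⬝ᵥ v = 0) :
    tmap h (chi m) = 0 := by
  simp only [tmap, chi, AddMonoidAlgebra.lift_single, one_smul]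
  exact dif_neg hm

theorem cmp_CM {G' I' : Finset (ι → ℤ)} {J' : Finset ι} (hG : G' ⊆ G) (hJ : J ⊆ J')
    (hv : Val G' I' J') : Cmp (CM G I J) G' I' J' :=
  ⟨fun _ hm v hv' h0 => hm.2.1 v (hG hv') fun j hj => h0 j (hJ hj), hv⟩

theorem tmap_comp (h : Cmp Q G I J) {G' I' : Finset (ι → ℤ)} {J' : Finset ι} (hI : I ⊆ I')
    (hJ : J ⊆ J') (h1 : Cmp (CM G I J) G' I' J') (h2 : Cmp Q G' I' J') :
    (tmap h1).comp (tmap h) = tmap h2 := by
  refine ma_ext fun m => ?_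
  rw [AlgHom.comp_apply]
  by_cases hm : ∀ v ∈ I', (m : ι → ℤ) ⬝ᵥ v = 0
  · rw [tmap_chi_pos h m fun v hv => hm v (hI hv), tmap_chi_pos h2 m hm, tmap_chi_pos h1 _ (fun v hv => by
      change prj J m ⬝ᵥ v = 0
      rw [prj_dot _ fun j hj => (h2.2 v hv).2 j (hJ hj)]; exact hm v hv)]
    exact congrArg chi (Subtype.ext (prj_prj hJ _))
  · rw [tmap_chi_neg h2 m hm]
    by_cases hm' : ∀ v ∈ I, (m : ι → ℤ) ⬝ᵥ v = 0
    · rw [tmap_chi_pos h m hm', tmap_chi_neg h1]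
      intro H
      refine hm fun v hv => ?_
      have := H v hv
      change prj J m ⬝ᵥ v = 0 at this
      rwa [prj_dot _ fun j hj => (h2.2 v hv).2 j (hJ hj)] at this
    · rw [tmap_chi_neg h m hm', map_zero]

theorem tmap_id (h : Cmp (CM G I J) G I J) : tmap h = AlgHom.id ℂ _ := by
  refine ma_ext fun m => ?_
  rw [tmap_chi_pos h m m.2.2.2]
  refine congrArg chi (Subtype.ext (funext fun i => ?_))
  by_cases hi : i ∈ J
  · simp [prj, hi, m.2.1 i hi]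
  · simp [prj, hi]

/-- a splitting of a monoid as a product of a free monoid and a lattice -/
structure Frame (Q : AddSubmonoid (ι → ℤ)) where
  /-- rank of the free monoid -/
  a : ℕ
  /-- rank of the group of units -/
  e : ℕ
  /-- generators of the free monoid -/
  u : Fin a → (ι → ℤ)
  /-- basis of the units -/
  k : Fin e → (ι → ℤ)
  li : LinearIndependent ℤ (Sum.elim u k)
  mem : ∀ m, m ∈ Q ↔ ∃ (c : Fin a → ℕ) (d : Fin e → ℤ), m = ∑ i, c i • u i + ∑ i, d i • k i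

/-- the exterior algebra of the complexified lattice -/
abbrev Lam (ι : Type) : Type := ExteriorAlgebra ℂ (ι → ℂ)

/-- logarithmic forms on the torus, by weights -/
abbrev Amb (ι : Type) : Type := (ι → ℤ) →₀ Lam ι

/-- the wedge of integral vectors -/
noncomputable def wz {p : ℕ} (w : Fin p → (ι → ℤ)) : Lam ι :=
  ExteriorAlgebra.ιMulti ℂ p fun i k => (w i k : ℂ)

/-- the span of the wedges of `p` vectors of `L` -/
noncomputable def Wedge (p : ℕ) (L : Set (ι → ℤ)) : Submodule ℂ (Lam ι) :=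
  Submodule.span ℂ {ω | ∃ w : Fin p → (ι → ℤ), (∀ i, w i ∈ L) ∧ ω = wz w}

/-- the group generated by the face of `Q` through `μ` -/
def Lat (Q : AddSubmonoid (ι → ℤ)) (μ : ι → ℤ) : Set (ι → ℤ) :=
  {w | ∃ N : ℕ, N • μ + w ∈ Q ∧ N • μ - w ∈ Q}

/-- the weight spaces of the `p`-forms -/
noncomputable def NF (Q : AddSubmonoid (ι → ℤ)) (p : ℕ) : Submodule ℂ (Amb ι) where
  carrier := {f | ∀ μ, (μ ∉ Q → f μ = 0) ∧ f μ ∈ Wedge p (Lat Q μ)}
  zero_mem' := fun _ => ⟨fun _ => rfl, zero_mem _⟩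
  add_mem' := fun ha hb μ => ⟨fun h => by simp [(ha μ).1 h, (hb μ).1 h], add_mem (ha μ).2 (hb μ).2⟩
  smul_mem' := fun c _ ha μ =>
    ⟨fun h => by simp [(ha μ).1 h], Submodule.smul_mem _ c (ha μ).2⟩

theorem mem_NF {p : ℕ} {f : Amb ι} :
    f ∈ NF Q p ↔ ∀ μ, (μ ∉ Q → f μ = 0) ∧ f μ ∈ Wedge p (Lat Q μ) := Iff.rfl

/-- `Φ` writes forms on the toric variety of `Q` as logarithmic forms on the torus -/
def IsPhi (Q : AddSubmonoid (ι → ℤ)) (Φ : DR (MA Q) →ₗ[ℂ] Amb ι) : Prop :=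
  ∀ (p : ℕ) (m : Q) (v : Fin p → Q), Φ (chi m • wd fun i => chi (v i)) =
    Finsupp.single ((m : ι → ℤ) + ∑ i, (v i : ι → ℤ)) (wz fun i => (v i : ι → ℤ))

/-- forgetting coordinates, complex version -/
noncomputable def prjC (J : Finset ι) : (ι → ℂ) →ₗ[ℂ] (ι → ℂ) :=
  LinearMap.pi fun i => if i ∈ J then 0 else LinearMap.proj i

theorem prjC_apply (J : Finset ι) (x : ι → ℂ) (i : ι) :
    prjC J x i = if i ∈ J then 0 else x i := by
  by_cases h : i ∈ J <;> simp [prjC, h]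

open Classical in
/-- restriction of logarithmic forms to a stratum -/
noncomputable def rho (a : Finset (ι → ℤ)) (b : Finset ι) : Amb ι →ₗ[ℂ] Amb ι :=
  Finsupp.lsum ℂ fun μ => if ∀ v ∈ a, μ ⬝ᵥ v = 0 then
    (Finsupp.lsingle (prj b μ)).comp (ExteriorAlgebra.map (prjC b)).toLinearMap else 0

open Classical in
theorem rho_single (a : Finset (ι → ℤ)) (b : Finset ι) (μ : ι → ℤ) (ω : Lam ι) :
    rho a b (Finsupp.single μ ω) = if ∀ v ∈ a, μ ⬝ᵥ v = 0 then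
      Finsupp.single (prj b μ) (ExteriorAlgebra.map (prjC b) ω) else 0 := by
  rw [rho, Finsupp.lsum_single]
  split_ifs <;> simp

/-- logarithmic forms in coordinates -/
abbrev Crd (ι : Type) : Type := ((ι → ℤ) × Finset ι) →₀ ℂ

/-- the standard basis of the exterior algebra -/
noncomputable def lamB (ι : Type) [Fintype ι] [LinearOrder ι] : Module.Basis (Finset ι) ℂ (Lam ι) :=
  (Pi.basisFun ℂ ι).ExteriorAlgebra

/-- passage to coordinates -/
noncomputable def crd (ι : Type) [Fintype ι] [LinearOrder ι] : Amb ι ≃ₗ[ℂ] Crd ι :=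
  (Finsupp.mapRange.linearEquiv (lamB ι).repr).trans (Finsupp.curryLinearEquiv ℂ).symm

theorem crd_apply (f : Amb ι) (μ : ι → ℤ) (S : Finset ι) :
    crd ι f (μ, S) = (lamB ι).repr (f μ) S := by
  simp [crd]

/-- forgetting a coordinate, in coordinates -/
noncomputable def cmap (j : ι) : Crd ι →ₗ[ℂ] Crd ι :=
  Finsupp.lsum ℂ fun x => if j ∈ x.2 then 0 else Finsupp.lsingle (prj {j} x.1, x.2)

theorem cmap_single (j : ι) (x : (ι → ℤ) × Finset ι) (c : ℂ) :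
    cmap j (Finsupp.single x c) = if j ∈ x.2 then 0 else Finsupp.single (prj {j} x.1, x.2) c := by
  rw [cmap, Finsupp.lsum_single]
  split_ifs <;> simp

end Pool.Agent.P.MP_824f38_ag.DB
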