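import Pool.Agent.P.MP_824f38_ag.H.Nerve

/-! Cubes of states, their total complexes, and the poset of valid states with a base object. -/

set_option linter.unusedSectionVars false

namespace Pool.Agent.P.MP_824f38_ag.DB

open Function

/-- states: `none` is zero, `some true` is plus, `some false` is minus -/
abbrev St : Type := Option Bool

/-- the order on families of states -/
def cle {Θ : Type} (s t : Θ → St) : Prop := ∀ θ, s θ = t θ ∨ t θ = none

theorem cle_refl {Θ : Type} (s : Θ → St) : cle s s := fun _ => Or.inl rfl

theorem cle_trans {Θ : Type} {s t u : Θ → St} (h : cle s t) (h' : cle t u) : cle s u := fun θ => by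
  rcases h' θ with e | e
  · rw [← e]; exact h θ
  · exact Or.inr e

theorem cle_update {Θ : Type} [DecidableEq Θ] {t : Θ → St} {θ : Θ} (h : t θ = none) (a : St) :
    cle (update t θ a) t := fun θ' => by
  by_cases e : θ' = θ
  · subst e; exact Or.inr h
  · left; rw [update_of_ne e]

variable {Θ : Type} [Fintype Θ] [LinearOrder Θ]

/-- the number of zeros -/
def cdeg (s : Θ → St) : ℕ := (Finset.univ.filter fun θ => s θ = none).card

/-- the Koszul sign -/
def sg (t : Θ → St) (θ : Θ) : ℤ :=
  (-1) ^ (Finset.univ.filter fun θ' => θ' < θ ∧ t θ' = none).card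

/-- data of a cube of subgroups of an ambient group -/
structure CP (Θ V : Type) [AddCommGroup V] where
  /-- admissible states -/
  ok : (Θ → St) → Prop
  /-- the subgroups -/
  N : (Θ → St) → AddSubgroup V
  /-- the maps -/
  r : Θ → V →+ V

namespace CP

variable {V : Type} [AddCommGroup V] (C : CP Θ V)

open Classical in
/-- the total differential -/
noncomputable def d (c : (Θ → St) → V) (t : Θ → St) : V :=
  if C.ok t then ∑ θ, if t θ = none then
    sg t θ • C.r θ (c (update t θ (some true)) - c (update t θ (some false))) else 0 else 0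

/-- the axioms that make the total differential a differential -/
structure Good : Prop where
  bot : ∀ s, ¬ C.ok s → C.N s = ⊥
  mem : ∀ t θ b x, C.ok t → t θ = none → x ∈ C.N (update t θ (some b)) → C.r θ x ∈ C.N t
  conv : ∀ u w t, cle u w → cle w t → C.ok u → C.ok t → C.ok w
  comm : ∀ t θ θ' x, C.ok t → t θ = none → t θ' = none → C.r θ (C.r θ' x) = C.r θ' (C.r θ x)

/-- the total complex is exact in degree `q + 1` -/
def Ex (q : ℕ) : Prop :=
  ∀ c : (Θ → St) → V, (∀ s, c s ∈ C.N s) → (∀ s, cdeg s ≠ q + 1 → c s = 0) → (∀ t, C.d c t = 0) →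
    ∃ b : (Θ → St) → V, (∀ s, b s ∈ C.N s) ∧ (∀ s, cdeg s ≠ q → b s = 0) ∧ ∀ t, C.d b t = c t

end CP

/-- edge directions and valid states -/
structure Ix (Θ : Type) where
  /-- directions without a minus state -/
  edge : Θ → Prop
  /-- valid states -/
  valid : (Θ → St) → Prop
  valid_edge : ∀ s θ, valid s → edge θ → s θ ≠ some false
  down : ∀ s t, valid t → cle s t → (∀ θ, edge θ → s θ ≠ some false) → valid s

/-- boundary states -/
def Ix.bd (X : Ix Θ) (s : Θ → St) : Prop := ∃ θ, X.edge θ ∧ s θ = none

/-- valid states together with a base object -/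
inductive Ob (X : Ix Θ) : Type
  | base : Ob X
  | st (s : Θ → St) (h : X.valid s) : Ob X

namespace Ob

variable {X : Ix Θ}

/-- the order -/
def le : Ob X → Ob X → Prop
  | base, base => True
  | base, st t _ => X.bd t
  | st _ _, base => False
  | st s _, st t _ => cle s t

instance : Preorder (Ob X) where
  le := le
  le_refl s := by cases s <;> simp [le, cle_refl]
  le_trans s t u := by
    cases s <;> cases t <;> cases u <;> simp only [le, imp_self, implies_true, IsEmpty.forall_iff]
    · rintro ⟨θ, hθ, e⟩ h
      refine ⟨θ, hθ, ?_⟩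
      rcases h θ with e' | e'
      · rw [← e', e]
      · exact e'
    · exact cle_trans

@[simp] theorem base_le_base : (base : Ob X) ≤ base := trivial
@[simp] theorem base_le_st (t : Θ → St) (h : X.valid t) : (base : Ob X) ≤ st t h ↔ X.bd t := Iff.rfl
@[simp] theorem st_le_base (t : Θ → St) (h : X.valid t) : ¬ (st t h : Ob X) ≤ base := id
@[simp] theorem st_le_st (s t : Θ → St) (h : X.valid s) (h' : X.valid t) :
    (st s h : Ob X) ≤ st t h' ↔ cle s t := Iff.rfl

/-- forgetting validity -/
def toOpt : Ob X → Option (Θ → St)
  | base => none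
  | st s _ => some s

theorem toOpt_inj : Injective (toOpt : Ob X → _) := by
  intro a b h
  cases a <;> cases b <;> simp_all [toOpt]

instance : Finite (Ob X) := Finite.of_injective _ toOpt_inj

noncomputable instance : Fintype (Ob X) := Fintype.ofFinite _

/-- the degree -/
def deg : Ob X → ℕ
  | base => 0
  | st s _ => cdeg s

open Classical in
/-- the incidence numbers -/
noncomputable def inc : Ob X → Ob X → ℤ
  | base, st t _ => if cdeg t = 1 ∧ X.bd t then -1 else 0
  | st s _, st t _ => ∑ θ, ∑ b : Bool,
      if t θ = none ∧ s = update t θ (some b) then sg t θ * (if b then 1 else -1) else 0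
  | _, base => 0

end Ob

end Pool.Agent.P.MP_824f38_ag.DB
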