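import Pool.Agent.P.MP_824f38_ag.Defs

/-!
Hypercoverings of affine complex varieties by smooth affine varieties, with descent tested on
valuation rings, and the complexes of differential forms that they carry.
-/

namespace Pool.Agent.P.MP_824f38_ag

/-- An augmented semi-simplicial affine scheme `X_k = Spec (B k)` over `Spec R`, all `X_k` smooth
over the complex numbers. -/
structure Hyper (R : Type) [CommRing R] [Algebra ℂ R] where
  /-- the coordinate ring of the `k`-th term -/
  B : ℕ → Type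
  [ring : ∀ k, CommRing (B k)]
  [alg : ∀ k, Algebra ℂ (B k)]
  smooth : ∀ k, Algebra.Smooth ℂ (B k)
  /-- the augmentation `X_0 → Spec R` -/
  aug : R →ₐ[ℂ] B 0
  /-- the face maps `X_(k+1) → X_k` -/
  d : ∀ k, Fin (k + 2) → (B k →ₐ[ℂ] B (k + 1))
  d_aug : (d 0 0).comp aug = (d 0 1).comp aug
  d_d : ∀ (k : ℕ) (i j : Fin (k + 2)), i ≤ j →
    (d (k + 1) j.succ).comp (d k i) = (d (k + 1) i.castSucc).comp (d k j)

attribute [instance] Hyper.ring Hyper.alg

namespace Hyper

variable {R : Type} [CommRing R] [Algebra ℂ R] (X : Hyper R)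

/-- The structure map `X_k → Spec R`. -/
def str : ∀ k, R →ₐ[ℂ] X.B k
  | 0 => X.aug
  | k + 1 => (X.d k 0).comp (str k)

/-- The simplicial coboundary of a rational function on the `V`-points of `X_k`. -/
def cob {V : Type} [CommRing V] [Algebra ℂ V] (k : ℕ) (h : (X.B k →ₐ[ℂ] V) → ℚ)
    (y : X.B (k + 1) →ₐ[ℂ] V) : ℚ :=
  ∑ i : Fin (k + 2), (-1) ^ (i : ℕ) * h (y.comp (X.d k i))

/-- Descent, read on the stalks of the h-topology: for every valuation ring `V` over the complex
numbers and every `V`-point `x` of `Spec R`, the semi-simplicial set of the `V`-points of the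
`X_k` over `x` has the rational cohomology of a point. -/
def Descent : Prop :=
  ∀ (V : Type) [CommRing V] [IsDomain V] [ValuationRing V] [Algebra ℂ V] (x : R →ₐ[ℂ] V),
    (∃ y : X.B 0 →ₐ[ℂ] V, y.comp (X.str 0) = x) ∧
    (∀ h : (X.B 0 →ₐ[ℂ] V) → ℚ, (∀ y, y.comp (X.str 1) = x → X.cob 0 h y = 0) →
      ∃ c : ℚ, ∀ y, y.comp (X.str 0) = x → h y = c) ∧
    ∀ (k : ℕ) (h : (X.B (k + 1) →ₐ[ℂ] V) → ℚ),
      (∀ y, y.comp (X.str (k + 2)) = x → X.cob (k + 1) h y = 0) →
      ∃ g : (X.B k →ₐ[ℂ] V) → ℚ, ∀ y, y.comp (X.str (k + 1)) = x → h y = X.cob k g y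

/-- The differential of the complex of forms: the alternating sum of the pull-backs. -/
noncomputable def delta (k : ℕ) : DR (X.B k) → DR (X.B (k + 1)) := altSum (X.d k)

/-- The `q`-th cohomology of the complex `Ω^p(X_0) → Ω^p(X_1) → ⋯` is not zero. -/
def HNonzero (p : ℕ) : ℕ → Prop
  | 0 => KerNonzero (X.delta 0) p
  | q + 1 => NotExact (X.delta q) (X.delta (q + 1)) p

end Hyper

end Pool.Agent.P.MP_824f38_ag
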