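import Pool.Agent.P.MP_824f38_ag.H.Chart

/-! Points of a chart that lie on a stratum. -/

set_option linter.unusedSectionVars false
set_option linter.style.haveILetI false

namespace Pool.Agent.P.MP_824f38_ag.DB

open Function

variable {ι : Type} [Fintype ι] [LinearOrder ι] {G I : Finset (ι → ℤ)} {J : Finset ι}
  {V : Type} [CommRing V] [IsDomain V] [Algebra ℂ V]

/-- the point `z` of the chart lies on the divisor of the ray `v` -/
def OnRay (z : MA (CM G ∅ ∅) →ₐ[ℂ] V) (v : ι → ℤ) : Prop :=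
  v ∈ G ∧ ∀ m : CM G ∅ ∅, 0 < (m : ι → ℤ) ⬝ᵥ v → z (chi m) = 0

/-- the point `z` of the chart lies on the closure of the subtorus `x_j = 1` -/
def OnCol (z : MA (CM G ∅ ∅) →ₐ[ℂ] V) (j : ι) : Prop :=
  ∃ m m' : CM G ∅ ∅, (m' : ι → ℤ) = (m : ι → ℤ) + Pi.single j 1 ∧
     z (chi m') = z (chi m) ∧ z (chi m) ≠ 0

theorem DescS_mem {m : ι → ℤ} : m ∈ CM G ∅ ∅ ↔ ∀ v ∈ G, 0 ≤ m ⬝ᵥ v := by
  simp [mem_CM]

theorem DescS_sign (hsg : ∀ i, (∀ v ∈ G, 0 ≤ v i) ∨ (∀ v ∈ G, v i ≤ 0)) :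
    ∃ σ : ι → ℤ, (∀ j, σ j = 1 ∨ σ j = -1) ∧ ∀ j, ∀ v ∈ G, σ j * v j = |v j| := by
  have : ∀ j, ∃ c : ℤ, (c = 1 ∨ c = -1) ∧ ∀ v ∈ G, c * v j = |v j| := fun j =>
    (hsg j).elim (fun h => ⟨1, .inl rfl, fun v hv => by rw [one_mul, abs_of_nonneg (h v hv)]⟩)
      fun h => ⟨-1, .inr rfl, fun v hv => by rw [neg_one_mul, abs_of_nonpos (h v hv)]⟩
  choose σ h1 h2 using this
  exact ⟨σ, h1, h2⟩

theorem DescS_prj (m : ι → ℤ) : prj ∅ m = m := by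
  funext i
  simp [prj]

theorem DescS_chi_sum {Q : AddSubmonoid (ι → ℤ)} {α : Type} (s : Finset α) (n : α → ℕ)
    (f : α → Q) : chi (∑ a ∈ s, n a • f a) = ∏ a ∈ s, chi (f a) ^ n a := by
  classical
  have h : ∀ (k : ℕ) (m : Q), chi (k • m) = chi m ^ k := fun k m => by
    induction k with
    | zero => rw [zero_nsmul, pow_zero, chi_zero]
    | succ k ih => rw [succ_nsmul, chi_add, ih, pow_succ]
  induction s using Finset.induction_on with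
  | empty => rw [Finset.sum_empty, Finset.prod_empty, chi_zero]
  | insert a s ha ih => rw [Finset.sum_insert ha, Finset.prod_insert ha, chi_add, h, ih]

theorem DescS_col {z : MA (CM G ∅ ∅) →ₐ[ℂ] V} {j : ι} (hj : OnCol z j) {c : ℤ}
    (hc : c = 1 ∨ c = -1) {s : CM G ∅ ∅} (hs : (s : ι → ℤ) = Pi.single j c) : z (chi s) = 1 := by
  obtain ⟨m, m', h1, h2, h3⟩ := hj
  refine mul_left_cancel₀ h3 ?_
  rcases hc with rfl | rfl
  · rw [← map_mul, ← chi_add, mul_one, ← h2]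
    exact congrArg (fun x => z (chi x)) (Subtype.ext (by rw [h1, ← hs]; rfl))
  · rw [mul_one]
    conv_lhs => rw [← h2]
    rw [← map_mul, ← chi_add]
    refine congrArg (fun x => z (chi x)) (Subtype.ext ?_)
    rw [AddSubmonoid.coe_add, h1, hs, add_assoc, ← Pi.single_add, add_neg_cancel, Pi.single_zero,
      add_zero]

theorem DescS_unit (z : MA (CM G ∅ ∅) →ₐ[ℂ] V) (k : CM G ∅ ∅)
    (hk : ∀ v ∈ G, (k : ι → ℤ) ⬝ᵥ v = 0) : z (chi k) ≠ 0 := by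
  have h1 : -(k : ι → ℤ) ∈ CM G ∅ ∅ := DescS_mem.2 fun v hv => by
    rw [neg_dotProduct, hk v hv, neg_zero]
  refine left_ne_zero_of_mul_eq_one (b := z (chi ⟨_, h1⟩)) ?_
  rw [← map_mul, ← chi_add, show k + ⟨_, h1⟩ = 0 from Subtype.ext (add_neg_cancel _), chi_zero,
    map_one]

theorem DescS_ray {z : MA (CM G ∅ ∅) →ₐ[ℂ] V} {v : ι → ℤ} (hv : v ∈ G) {u : CM G ∅ ∅}
    (hu : ∀ v' ∈ G, (u : ι → ℤ) ⬝ᵥ v' = if v' = v then 1 else 0) (h0 : z (chi u) = 0) :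
    OnRay z v := by
  refine ⟨hv, fun m hm => ?_⟩
  have h1 : (m : ι → ℤ) - u ∈ CM G ∅ ∅ := DescS_mem.2 fun v' hv' => by
    have := DescS_mem.1 m.2 v' hv'
    rw [sub_dotProduct, hu v' hv']
    split_ifs with h
    · subst h
      omega
    · omega
  rw [show m = u + ⟨_, h1⟩ from Subtype.ext (add_sub_cancel _ _).symm, chi_add, map_mul, h0,
    zero_mul]

theorem DescS_single (h : Cmp (CM G ∅ ∅) G I J) {j : ι} (hj : j ∈ J) {c : ℤ} {s : CM G ∅ ∅}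
    (hs : (s : ι → ℤ) = Pi.single j c) : tmap h (chi s) = 1 := by
  rw [tmap_chi_pos h s fun v hv => by rw [hs, single_dotProduct, (h.2 v hv).2 j hj, mul_zero],
    ← chi_zero]
  refine congrArg chi (Subtype.ext (funext fun i => ?_))
  change prj J s i = 0
  rw [hs, prj]
  split_ifs with hi
  · rfl
  · exact Pi.single_eq_of_ne (M := fun _ => ℤ) (fun e : i = j => hi (e ▸ hj)) c

theorem DescS_indep (hsg : ∀ i, (∀ v ∈ G, 0 ≤ v i) ∨ (∀ v ∈ G, v i ≤ 0))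
    {z : MA (CM G ∅ ∅) →ₐ[ℂ] V} (hJ : ∀ j ∈ J, OnCol z j) {a b : CM G ∅ ∅}
    (h : prj J a = prj J b) : z (chi a) = z (chi b) := by
  obtain ⟨σ, h1, h2⟩ := DescS_sign hsg
  let s : ι → CM G ∅ ∅ := fun j => ⟨Pi.single j (σ j), DescS_mem.2 fun v hv => by
    rw [single_dotProduct, h2 j v hv]
    exact abs_nonneg _⟩
  have h3 : ∀ (a : CM G ∅ ∅) (n : ι → ℕ), z (chi (a + ∑ j ∈ J, n j • s j)) = z (chi a) := by
    intro a n
    rw [chi_add, map_mul, DescS_chi_sum, map_prod, Finset.prod_eq_one fun j hj => by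
      rw [map_pow, DescS_col (hJ j hj) (h1 j) rfl, one_pow], mul_one]
  have h4 : ∀ (n : ι → ℕ) i, ((∑ j ∈ J, n j • s j : CM G ∅ ∅) : ι → ℤ) i =
      if i ∈ J then n i * σ i else 0 := fun n i => by
    simp [s, Finset.sum_apply, Pi.single_apply]
  rw [← h3 a fun j => (σ j * (b.1 j - a.1 j)).toNat, ← h3 b fun j => (σ j * (a.1 j - b.1 j)).toNat]
  refine congrArg (fun x => z (chi x)) (Subtype.ext (funext fun i => ?_))
  rw [AddSubmonoid.coe_add, AddSubmonoid.coe_add, Pi.add_apply, Pi.add_apply, h4, h4]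
  split_ifs with hi
  · rcases h1 i with e | e <;> rw [e] <;> omega
  · have := congrFun h i
    simp only [prj, if_neg hi] at this
    rw [this]

/- By `sign`, `σ j • e j ∈ CM G ∅ ∅` for a sign `σ j`, and every `v ∈ G` with `v j ≠ 0` pairs
positively with it; so `m + N • ∑ j ∈ J, σ j • e j` lifts `m ∈ CM G I J` for large `N`. -/
theorem exists_lift (hsg : ∀ i, (∀ v ∈ G, 0 ≤ v i) ∨ (∀ v ∈ G, v i ≤ 0)) (m : CM G I J) :
    ∃ m' : CM G ∅ ∅, prj J m' = m := by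
  obtain ⟨σ, -, h2⟩ := DescS_sign hsg
  let w : ι → ℤ := fun i => if i ∈ J then σ i else 0
  have hw : ∀ v ∈ G, ∀ i, w i * v i = if i ∈ J then |v i| else 0 := fun v hv i => by
    simp only [w, ite_mul, zero_mul, h2 i v hv]
  have hw0 : ∀ v ∈ G, ∀ i ∈ Finset.univ, 0 ≤ w i * v i := fun v hv i _ => by
    rw [hw v hv]
    split_ifs
    exacts [abs_nonneg _, le_rfl]
  have hN : 0 ≤ ∑ v ∈ G, |(m : ι → ℤ) ⬝ᵥ v| := Finset.sum_nonneg fun _ _ => abs_nonneg _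
  refine ⟨⟨m + (∑ v ∈ G, |(m : ι → ℤ) ⬝ᵥ v|) • w, DescS_mem.2 fun v hv => ?_⟩, funext fun i => ?_⟩
  · rw [add_dotProduct, smul_dotProduct, smul_eq_mul]
    by_cases h : ∀ j ∈ J, v j = 0
    · exact add_nonneg (m.2.2.1 v hv h) (mul_nonneg hN (Finset.sum_nonneg (hw0 v hv)))
    · simp only [not_forall] at h
      obtain ⟨j, hj, h⟩ := h
      have h3 : w j * v j ≤ w ⬝ᵥ v := Finset.single_le_sum (hw0 v hv) (Finset.mem_univ j)
      rw [hw v hv, if_pos hj] at h3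
      have h4 : |(m : ι → ℤ) ⬝ᵥ v| ≤ ∑ v ∈ G, |(m : ι → ℤ) ⬝ᵥ v| :=
        Finset.single_le_sum (f := fun v => |(m : ι → ℤ) ⬝ᵥ v|) (fun _ _ => abs_nonneg _) hv
      have h5 := le_mul_of_one_le_right hN ((Int.one_le_abs h).trans h3)
      linarith [neg_abs_le ((m : ι → ℤ) ⬝ᵥ v)]
  · by_cases hi : i ∈ J
    · simp [prj, hi, m.2.1 i hi]
    · simp [prj, hi, w]

theorem tmap_surj (hsg : ∀ i, (∀ v ∈ G, 0 ≤ v i) ∨ (∀ v ∈ G, v i ≤ 0))
    (h : Cmp (CM G ∅ ∅) G I J) : Surjective (tmap h) := by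
  intro f
  induction f using AddMonoidAlgebra.induction_on with
  | of m =>
    obtain ⟨m', hm⟩ := exists_lift hsg m
    refine ⟨chi m', ?_⟩
    rw [tmap_chi_pos h m' fun v hv => by rw [← prj_dot _ (h.2 v hv).2, hm]; exact m.2.2.2 v hv]
    exact congrArg chi (Subtype.ext hm)
  | add f g hf hg =>
    obtain ⟨a, rfl⟩ := hf
    obtain ⟨b, rfl⟩ := hg
    exact ⟨a + b, map_add _ _ _⟩
  | smul c f hf =>
    obtain ⟨a, rfl⟩ := hf
    exact ⟨c • a, map_smul _ _ _⟩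

/- `OnCol z j` gives `z (chi (σ j • e j)) = 1`. -/
theorem OnCol.val (hsg : ∀ i, (∀ v ∈ G, 0 ≤ v i) ∨ (∀ v ∈ G, v i ≤ 0))
    {z : MA (CM G ∅ ∅) →ₐ[ℂ] V} {j : ι} (hj : OnCol z j) {v : ι → ℤ} (hv : OnRay z v) :
    v j = 0 := by
  obtain ⟨σ, h1, h2⟩ := DescS_sign hsg
  have h3 : Pi.single j (σ j) ∈ CM G ∅ ∅ := DescS_mem.2 fun v hv => by
    rw [single_dotProduct, h2 j v hv]
    exact abs_nonneg _
  by_contra h
  refine one_ne_zero ((DescS_col hj (h1 j) (s := ⟨_, h3⟩) rfl).symm.trans (hv.2 _ ?_))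
  change 0 < Pi.single j (σ j) ⬝ᵥ v
  rw [single_dotProduct, h2 j v hv.1]
  exact abs_pos.2 h

/- Define `y (chi m) = z (chi m')` for any lift `m'`; two lifts differ by an integral combination
of the `e j`, `j ∈ J`, so they agree after adding natural multiples of the `σ j • e j`. -/
theorem point_factor (hsg : ∀ i, (∀ v ∈ G, 0 ≤ v i) ∨ (∀ v ∈ G, v i ≤ 0))
    (h : Cmp (CM G ∅ ∅) G I J) (z : MA (CM G ∅ ∅) →ₐ[ℂ] V) (hI : ∀ v ∈ I, OnRay z v)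
    (hJ : ∀ j ∈ J, OnCol z j) : ∃ y : MA (CM G I J) →ₐ[ℂ] V, y.comp (tmap h) = z := by
  choose l hl using exists_lift (I := I) (J := J) hsg
  let φ : Multiplicative (CM G I J) →* V :=
    { toFun m := z (chi (l m.toAdd))
      map_one' := (DescS_indep hsg hJ (b := 0) ((hl _).trans (prj_zero J).symm)).trans (map_one z)
      map_mul' a b := by
        rw [← map_mul, ← chi_add]
        refine DescS_indep hsg hJ ?_
        rw [AddSubmonoid.coe_add, prj_add, hl, hl, hl]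
        rfl }
  refine ⟨AddMonoidAlgebra.lift ℂ V _ φ, ma_ext fun m => ?_⟩
  rw [AlgHom.comp_apply]
  by_cases hm : ∀ v ∈ I, (m : ι → ℤ) ⬝ᵥ v = 0
  · rw [tmap_chi_pos h m hm, chi, AddMonoidAlgebra.lift_single, one_smul]
    exact DescS_indep hsg hJ (hl _)
  · rw [tmap_chi_neg h m hm, map_zero]
    simp only [not_forall] at hm
    obtain ⟨v, hv, hm⟩ := hm
    exact ((hI v hv).2 m ((DescS_mem.1 m.2 v (hI v hv).1).lt_of_ne' hm)).symm

theorem onRay_of_factor (h : Cmp (CM G ∅ ∅) G I J) (y : MA (CM G I J) →ₐ[ℂ] V) {v : ι → ℤ}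
    (hv : v ∈ I) : OnRay (y.comp (tmap h)) v := by
  refine ⟨(h.2 v hv).1, fun m hm => ?_⟩
  rw [AlgHom.comp_apply, tmap_chi_neg h m fun H => hm.ne' (H v hv), map_zero]

theorem onCol_of_factor (hsg : ∀ i, (∀ v ∈ G, 0 ≤ v i) ∨ (∀ v ∈ G, v i ≤ 0))
    (h : Cmp (CM G ∅ ∅) G I J) (y : MA (CM G I J) →ₐ[ℂ] V) {j : ι} (hj : j ∈ J) :
    OnCol (y.comp (tmap h)) j := by
  have h0 : (y.comp (tmap h)) (chi 0) = 1 := by rw [chi_zero, map_one]
  rcases hsg j with hs | hs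
  · have h1 : Pi.single j 1 ∈ CM G ∅ ∅ := DescS_mem.2 fun v hv => by
      rw [single_dotProduct, one_mul]
      exact hs v hv
    refine ⟨0, ⟨_, h1⟩, (zero_add _).symm, ?_, h0 ▸ one_ne_zero⟩
    rw [h0, AlgHom.comp_apply, DescS_single h hj rfl, map_one]
  · have h1 : Pi.single j (-1) ∈ CM G ∅ ∅ := DescS_mem.2 fun v hv => by
      rw [single_dotProduct, neg_one_mul]
      exact neg_nonneg.2 (hs v hv)
    have h2 : (y.comp (tmap h)) (chi ⟨_, h1⟩) = 1 := by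
      rw [AlgHom.comp_apply, DescS_single h hj rfl, map_one]
    refine ⟨⟨_, h1⟩, 0, ?_, h0.trans h2.symm, h2 ▸ one_ne_zero⟩
    change 0 = Pi.single j (-1) + Pi.single j 1
    rw [← Pi.single_add, neg_add_cancel, Pi.single_zero]

/- Let `u` be dual to `v` in `G`. If `v ∉ G'` then `± u ∈ CM G' ∅ ∅`, so `z (chi u)` is a unit.
Else `m = u + (m - u)` in `CM G' ∅ ∅`. -/
theorem OnRay.mono {G' : Finset (ι → ℤ)} (hd : HasDual G) (hG : G' ⊆ G)
    (h : Cmp (CM G ∅ ∅) G' ∅ ∅) (z : MA (CM G' ∅ ∅) →ₐ[ℂ] V) {v : ι → ℤ}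
    (hv : OnRay (z.comp (tmap h)) v) : OnRay z v := by
  obtain ⟨u, hu⟩ := hd v hv.1
  have h1 : u ∈ CM G ∅ ∅ := DescS_mem.2 fun v' hv' => by
    rw [hu v' hv']
    split_ifs
    exacts [zero_le_one, le_rfl]
  have h2 := hv.2 ⟨u, h1⟩ (by
    change 0 < u ⬝ᵥ v
    rw [hu v hv.1, if_pos rfl]
    exact one_pos)
  rw [AlgHom.comp_apply, tmap_chi_pos h _ (by simp)] at h2
  have h3 : ∀ v' ∈ G', prj ∅ u ⬝ᵥ v' = if v' = v then 1 else 0 := fun v' hv' => by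
    rw [DescS_prj, hu v' (hG hv')]
  refine DescS_ray ?_ h3 h2
  by_contra h4
  exact DescS_unit z _ (fun v' hv' => (h3 v' hv').trans (if_neg fun e : v' = v => h4 (e ▸ hv'))) h2

theorem OnCol.mono {G' : Finset (ι → ℤ)} (h : Cmp (CM G ∅ ∅) G' ∅ ∅)
    (z : MA (CM G' ∅ ∅) →ₐ[ℂ] V) {j : ι} (hj : OnCol (z.comp (tmap h)) j) : OnCol z j := by
  obtain ⟨m, m', h1, h2, h3⟩ := hj
  rw [AlgHom.comp_apply, tmap_chi_pos h _ (by simp)] at h3
  rw [AlgHom.comp_apply, AlgHom.comp_apply, tmap_chi_pos h _ (by simp),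
    tmap_chi_pos h _ (by simp)] at h2
  refine ⟨_, _, ?_, h2, h3⟩
  change prj ∅ m'.1 = prj ∅ m.1 + _
  rw [DescS_prj, DescS_prj, h1]

/- `m = ∑ (m ⬝ᵥ v) • u v + k` with `± k` in the monoid, so some `z (chi (u v))` vanishes. -/
theorem exists_onRay (hd : HasDual G) (z : MA (CM G ∅ ∅) →ₐ[ℂ] V) (m : CM G ∅ ∅)
    (hm : z (chi m) = 0) : ∃ v, OnRay z v ∧ 0 < (m : ι → ℤ) ⬝ᵥ v := by
  choose u hu using fun v : G => hd v.1 v.2
  let U : G → CM G ∅ ∅ := fun v => ⟨u v, DescS_mem.2 fun v' hv' => by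
    rw [hu v v' hv']
    split_ifs
    exacts [zero_le_one, le_rfl]⟩
  let t : CM G ∅ ∅ := ∑ v : G, ((m : ι → ℤ) ⬝ᵥ v.1).toNat • U v
  have h1 : ∀ v ∈ G, ((m : ι → ℤ) - (t : ι → ℤ)) ⬝ᵥ v = 0 := fun v hv => by
    have := DescS_mem.1 m.2 v hv
    rw [sub_dotProduct, sub_eq_zero, AddSubmonoid.coe_finsetSum, sum_dotProduct,
      Finset.sum_eq_single ⟨v, hv⟩ (fun v' _ hn => ?_) (by simp)]
    · change _ = (_ • u _) ⬝ᵥ v
      rw [smul_dotProduct, hu _ v hv, if_pos rfl, nsmul_eq_mul, mul_one, Int.toNat_of_nonneg this]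
    · change (_ • u _) ⬝ᵥ v = 0
      rw [smul_dotProduct, hu _ v hv, if_neg fun e => hn (Subtype.ext e.symm), smul_zero]
  have h2 : (m : ι → ℤ) - t ∈ CM G ∅ ∅ := DescS_mem.2 fun v hv => (h1 v hv).ge
  rw [show m = t + ⟨_, h2⟩ from Subtype.ext (add_sub_cancel _ _).symm, chi_add, map_mul] at hm
  have h3 := (mul_eq_zero.1 hm).resolve_right (DescS_unit z _ h1)
  rw [DescS_chi_sum, map_prod, Finset.prod_eq_zero_iff] at h3
  obtain ⟨v, -, h4⟩ := h3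
  rw [map_pow, pow_eq_zero_iff'] at h4
  exact ⟨v, DescS_ray v.2 (hu v) h4.1, by omega⟩

end Pool.Agent.P.MP_824f38_ag.DB
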