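import Pool.Agent.P.MP_824f38_ag.H.PMAlg

/-! Points with values in a field or a valuation ring near the torus. -/

set_option linter.unusedSectionVars false
set_option linter.style.haveILetI false

namespace Pool.Agent.P.MP_824f38_ag.DB

open Function

variable {ι : Type} [Fintype ι] [LinearOrder ι] {col : ι → Col}

theorem DescV_chi_nsmul {Q : AddSubmonoid (ι → ℤ)} (n : ℕ) (m : Q) :
    chi (n • m) = chi m ^ n := by
  induction n with
  | zero => simp [chi_zero]
  | succ n ih => rw [succ_nsmul, chi_add, ih, pow_succ]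

theorem DescV_chi_sum {Q : AddSubmonoid (ι → ℤ)} {α : Type} (s : Finset α) (f : α → Q) :
    chi (∑ a ∈ s, f a) = ∏ a ∈ s, chi (f a) := by
  classical
  induction s using Finset.induction_on with
  | empty => simp [chi_zero]
  | insert a s ha ih => rw [Finset.sum_insert ha, Finset.prod_insert ha, chi_add, ih]

theorem DescV_ns (n : ℕ) (f : ι → ℤ) (i : ι) : (n • f) i = n * f i := by simp

theorem DescV_wt (i : ι) : wt col i = 1 ∨ wt col i = 2 := by
  unfold wt; split_ifs <;> simp

theorem DescV_wtO {i : ι} (h : col i = .O) : wt col i = 1 := by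
  unfold wt; simp [h]

/-- an interior weight without coordinates of the last kind -/
theorem DescV_trim {K : Type} [Field K] [Algebra ℂ K] (z : MA (PM col) →ₐ[ℂ] K) (m₁ : PM col)
    (hm : Gam col ∅ m₁ ∅) (hz : z (chi m₁) ≠ 0) :
    ∃ m : PM col, Gam col ∅ m ∅ ∧ (∀ o, col o = .O → (m : ι → ℤ) o = 0) ∧ z (chi m) ≠ 0 := by
  obtain ⟨h1, h2, h3⟩ := hm
  simp only [Finset.notMem_empty, not_false_eq_true, forall_const, if_false] at h1 h2 h3
  let a : ι → ℤ := fun i => if col i = .O then 0 else (m₁ : ι → ℤ) i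
  have haO : ∀ o, col o = .O → a o = 0 := fun o ho => by simp [a, ho]
  have haN : ∀ o, col o ≠ .O → a o = (m₁ : ι → ℤ) o := fun o ho => by simp [a, ho]
  have hg : Gam col ∅ a ∅ := by
    refine ⟨fun i _ hi => ?_, fun i _ hi => ?_, fun i k _ _ hk => ?_⟩
    · rw [haN i (by simp [hi])]; exact h1 i hi
    · simp [haO i hi]
    · rw [haN k (by simp [hk])]
      have := h3 i k hk
      by_cases hi : col i = .O
      · rw [haO i hi, abs_zero]; exact lt_of_le_of_lt (abs_nonneg _) this
      · rw [haN i hi]; exact this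
  let N : ℕ := ∑ k, ((m₁ : ι → ℤ) k).natAbs
  have hN : ∀ k, (m₁ : ι → ℤ) k ≤ N := fun k => by
    have : ((m₁ : ι → ℤ) k).natAbs ≤ N :=
      Finset.single_le_sum (f := fun k => ((m₁ : ι → ℤ) k).natAbs) (fun _ _ => Nat.zero_le _)
        (Finset.mem_univ k)
    omega
  have hN0 : (0 : ℤ) ≤ N := Int.natCast_nonneg N
  have hb : (N + 1) • (m₁ : ι → ℤ) - a ∈ PM col := by
    refine ⟨fun i hi => ?_, fun i k hk => ?_⟩
    · simp only [Pi.sub_apply, DescV_ns, Nat.cast_add, Nat.cast_one]
      rcases hi with hi | hi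
      · rw [haN i (by simp [hi])]
        have := h1 i hi
        nlinarith
      · rw [haO i hi]
        have := h2 i hi
        nlinarith
    · simp only [Pi.sub_apply, DescV_ns, Nat.cast_add, Nat.cast_one]
      rw [haN k (by simp [hk])]
      have h := h3 i k hk
      by_cases hi : col i = .O
      · rw [haO i hi, DescV_wtO hi] at *
        have h0 := h2 i hi
        rw [abs_of_nonneg h0] at h
        rw [abs_of_nonneg (by nlinarith)]
        have := hN k
        nlinarith
      · rw [haN i hi]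
        have e1 : ((N : ℤ) + 1) * (m₁ : ι → ℤ) i - (m₁ : ι → ℤ) i = N * (m₁ : ι → ℤ) i := by ring
        have e2 : ((N : ℤ) + 1) * (m₁ : ι → ℤ) k - (m₁ : ι → ℤ) k = N * (m₁ : ι → ℤ) k := by ring
        rw [e1, e2, abs_mul, abs_of_nonneg hN0]
        nlinarith
  refine ⟨⟨a, hg.mem_PM⟩, hg, haO, fun h0 => hz ?_⟩
  have e : (N + 1) • m₁ = (⟨_, hb⟩ : PM col) + ⟨a, hg.mem_PM⟩ := by
    apply Subtype.ext
    simp
  have := congrArg (fun m => z (chi m)) e
  simp only [DescV_chi_nsmul, chi_add, map_pow, map_mul, h0, mul_zero] at this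
  exact eq_zero_of_pow_eq_zero this

theorem DescV_three {m : ι → ℤ} (hm : Gam col ∅ m ∅) : Gam col ∅ (3 • m) ∅ := by
  have e : 3 • m = (m + m) + m := by rw [succ_nsmul, two_nsmul]
  rw [e]
  exact hm.add (add_mem hm.mem_PM hm.mem_PM)

theorem DescV_plus {m : ι → ℤ} (hm : Gam col ∅ m ∅) (i : ι) :
    3 • m + Pi.single i 1 ∈ PM col := by
  obtain ⟨h1, h2, h3⟩ := hm
  simp only [Finset.notMem_empty, not_false_eq_true, forall_const, if_false] at h1 h2 h3
  have hs : ∀ j, (Pi.single i 1 : ι → ℤ) j = 0 ∨ (Pi.single i 1 : ι → ℤ) j = 1 := fun j => by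
    by_cases h : j = i <;> simp [h]
  refine ⟨fun j hj => ?_, fun j k hk => ?_⟩
  · simp only [Pi.add_apply, DescV_ns, Nat.cast_ofNat]
    have := hs j
    rcases hj with hj | hj
    · have := h1 j hj; omega
    · have := h2 j hj; omega
  · simp only [Pi.add_apply, DescV_ns, Nat.cast_ofNat]
    have := hs j
    have := hs k
    have h := h3 j k hk
    rcases DescV_wt (col := col) j with e | e <;> rw [e] at h ⊢ <;> rw [abs_lt] at h <;>
      rw [abs_le] <;> omega

theorem DescV_minus {m : ι → ℤ} (hm : Gam col ∅ m ∅) (i : ι) (hi : col i ≠ .O) :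
    3 • m - Pi.single i 1 ∈ PM col := by
  obtain ⟨h1, h2, h3⟩ := hm
  simp only [Finset.notMem_empty, not_false_eq_true, forall_const, if_false] at h1 h2 h3
  have hs : ∀ j, (Pi.single i 1 : ι → ℤ) j = 0 ∨ (Pi.single i 1 : ι → ℤ) j = 1 := fun j => by
    by_cases h : j = i <;> simp [h]
  refine ⟨fun j hj => ?_, fun j k hk => ?_⟩
  · simp only [Pi.sub_apply, DescV_ns, Nat.cast_ofNat]
    have := hs j
    rcases hj with hj | hj
    · have := h1 j hj; omega
    · have := h2 j hj
      have hji : j ≠ i := fun e => hi (e ▸ hj)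
      rw [Pi.single_eq_of_ne hji]; omega
  · simp only [Pi.sub_apply, DescV_ns, Nat.cast_ofNat]
    have := hs j
    have := hs k
    have h := h3 j k hk
    rcases DescV_wt (col := col) j with e | e <;> rw [e] at h ⊢ <;> rw [abs_lt] at h <;>
      rw [abs_le] <;> omega

/- Proof. Let `m₁'` be `m₁` with the coordinates of kind O replaced by zero; it is interior, and
`N • m₁ - m₁' ∈ PM col` for large `N` (`N ≥ m₁ k` for all `k` of kind A), so
`z (chi m₁') ≠ 0`. Put `m' = 3 • m₁'`; then `m' + e i ∈ PM col` for all `i` and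
`m' - e i ∈ PM col` for `i` not of kind O. Put `t i = z (chi (m' + e i)) / z (chi m')`.
For `m ∈ Q` compare the two sides of
`m + ∑ (m i)⁻ • (m' + e i) + (∑ (m i)⁺) • m' = ∑ (m i)⁺ • (m' + e i) + (∑ (m i)⁻) • m'` under the
monoid map `y ∘ chi`. -/
theorem torus_param {K : Type} [Field K] [Algebra ℂ K] (z : MA (PM col) →ₐ[ℂ] K) (m₁ : PM col)
    (hm : Gam col ∅ m₁ ∅) (hz : z (chi m₁) ≠ 0) :
    ∃ (t : ι → K) (m' : PM col), Gam col ∅ m' ∅ ∧ (∀ o, col o = .O → (m' : ι → ℤ) o = 0) ∧
      z (chi m') ≠ 0 ∧ (∀ i, col i ≠ .O → t i ≠ 0) ∧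
      ∀ (Q : AddSubmonoid (ι → ℤ)) (hQ : PM col ≤ Q) (y : MA Q →ₐ[ℂ] K),
        (∀ m : PM col, y (chi ⟨m, hQ m.2⟩) = z (chi m)) → ∀ m : Q,
          y (chi m) * ∏ i, t i ^ (-(m : ι → ℤ) i).toNat = ∏ i, t i ^ ((m : ι → ℤ) i).toNat := by
  obtain ⟨a, ha, haO, hza⟩ := DescV_trim z m₁ hm hz
  have hb : z (chi (3 • a)) ≠ 0 := by
    rw [DescV_chi_nsmul, map_pow]; exact pow_ne_zero _ hza
  let w : ι → PM col := fun i => ⟨3 • (a : ι → ℤ) + Pi.single i 1, DescV_plus ha i⟩
  refine ⟨fun i => z (chi (w i)) / z (chi (3 • a)), 3 • a, DescV_three ha, fun o ho => ?_, hb,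
    fun i hi => div_ne_zero (fun h0 => ?_) hb, fun Q hQ y hy m => ?_⟩
  · simp [haO o ho]
  · have e : (3 • a) + (3 • a) = w i + ⟨_, DescV_minus ha i hi⟩ := by
      apply Subtype.ext
      simp [w]
    have := congrArg (fun m => z (chi m)) e
    simp only [chi_add, map_mul, h0, zero_mul] at this
    exact hb (mul_self_eq_zero.mp this)
  · let b : Q := ⟨((3 • a : PM col) : ι → ℤ), hQ (3 • a).2⟩
    let w' : ι → Q := fun i => ⟨w i, hQ (w i).2⟩
    have hyb : y (chi b) = z (chi (3 • a)) := hy _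
    have hyw : ∀ i, y (chi (w' i)) = z (chi (w i)) := fun i => hy _
    have e : m + ∑ i, (-(m : ι → ℤ) i).toNat • w' i + ∑ i, ((m : ι → ℤ) i).toNat • b =
        ∑ i, ((m : ι → ℤ) i).toNat • w' i + ∑ i, (-(m : ι → ℤ) i).toNat • b := by
      apply Subtype.ext
      funext j
      simp only [AddSubmonoid.coe_add, AddSubmonoid.coe_finsetSum, AddSubmonoidClass.coe_nsmul,
        Pi.add_apply, Finset.sum_apply, DescV_ns, w', w, b, mul_add, Finset.sum_add_distrib,
        Pi.single_apply, mul_ite, mul_zero, mul_one, Finset.sum_ite_eq, Finset.mem_univ, if_true]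
      have := Int.toNat_sub_toNat_neg ((m : ι → ℤ) j)
      linarith
    have h := congrArg (fun m => y (chi m)) e
    simp only [chi_add, DescV_chi_sum, DescV_chi_nsmul, map_mul, map_prod, map_pow, hyb,
      hyw] at h
    simp only [div_pow, Finset.prod_div_distrib]
    rw [← map_pow, ← DescV_chi_nsmul] at h
    have p1 : ∏ i, z (chi (3 • a)) ^ (-(m : ι → ℤ) i).toNat ≠ 0 :=
      Finset.prod_ne_zero_iff.mpr fun i _ => pow_ne_zero _ hb
    have p2 : ∏ i, z (chi (3 • a)) ^ ((m : ι → ℤ) i).toNat ≠ 0 :=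
      Finset.prod_ne_zero_iff.mpr fun i _ => pow_ne_zero _ hb
    rw [← mul_div_assoc, div_eq_div_iff p1 p2]
    exact h

/- Proof. `Γ = ℤ ×ₗ (Additive (ValuationRing.ValueGroup V K)ˣ)ᵒᵈ` (or any model of the value
group, such as `Additive (Kˣ ⧸ units of V)`), `ξ i = (1, 0)` if `t i = 0`, else
`(0, valuation of t i)`, `lam` the first coordinate; `ValuationRing.mem_integer_iff`. -/
theorem exists_value_group {V K : Type} [CommRing V] [IsDomain V] [ValuationRing V] [Field K]
    [Algebra V K] [IsFractionRing V K] (t : ι → K) :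
    ∃ (Γ : Type) (_ : AddCommGroup Γ) (_ : LinearOrder Γ) (_ : IsOrderedAddMonoid Γ) (ξ : ι → Γ)
      (lam : Γ →+ ℤ), Monotone lam ∧ (∀ i, t i = 0 → lam (ξ i) = 1) ∧
      (∀ i, t i ≠ 0 → lam (ξ i) = 0) ∧
      ∀ m : ι → ℤ, (∀ i, t i = 0 → 0 ≤ m i) →
        (0 ≤ ∑ i, m i • ξ i ↔ ∃ v : V, algebraMap V K v = ∏ i, t i ^ m i) := by
  classical
  let val := ValuationRing.valuation V K
  let u : ι → (ValuationRing.ValueGroup V K)ˣ := fun i =>
    if h : t i = 0 then 1 else Units.mk0 (val (t i)) (by simpa using h)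
  let c : ι → ℤ := fun i => if t i = 0 then 1 else 0
  let Γ : Type := ℤ ×ₗ (Additive (ValuationRing.ValueGroup V K)ˣ)ᵒᵈ
  let ξ : ι → Γ := fun i => toLex (c i, OrderDual.toDual (Additive.ofMul (u i)))
  let lam : Γ →+ ℤ :=
    { toFun := fun x => (ofLex x).1
      map_zero' := rfl
      map_add' := fun _ _ => rfl }
  let mu : Γ →+ Additive (ValuationRing.ValueGroup V K)ˣ :=
    { toFun := fun x => OrderDual.ofDual (ofLex x).2
      map_zero' := rfl
      map_add' := fun _ _ => rfl }
  have hle : ∀ x : Γ, 0 ≤ x ↔ 0 < lam x ∨ (0 = lam x ∧ mu x ≤ 0) := fun x =>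
    Prod.Lex.le_iff
  refine ⟨Γ, inferInstance, inferInstance, inferInstance, ξ, lam,
    fun x y h => Prod.Lex.monotone_fst x y h, fun i hi => (if_pos hi : c i = 1),
    fun i hi => (if_neg hi : c i = 0), fun m hm => ?_⟩
  have e1 : lam (∑ i, m i • ξ i) = ∑ i, m i * c i := by
    rw [map_sum]
    refine Finset.sum_congr rfl fun i _ => ?_
    rw [map_zsmul]; rfl
  have e2 : mu (∑ i, m i • ξ i) = Additive.ofMul (∏ i, u i ^ m i) := by
    rw [map_sum, ofMul_prod]
    refine Finset.sum_congr rfl fun i _ => ?_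
    rw [map_zsmul, ofMul_zpow]; rfl
  rw [hle, e1, e2]
  have hnn : ∀ i, 0 ≤ m i * c i := fun i => by
    by_cases h : t i = 0
    · simpa [c, h] using hm i h
    · simp [c, h]
  by_cases H : ∃ i, t i = 0 ∧ m i ≠ 0
  · obtain ⟨i, hi, hmi⟩ := H
    have p : 0 < ∑ i, m i * c i := by
      refine Finset.sum_pos' (fun j _ => hnn j) ⟨i, Finset.mem_univ i, ?_⟩
      have := hm i hi
      simp only [c, hi, if_true, mul_one]
      omega
    have q : ∏ i, t i ^ m i = 0 :=
      Finset.prod_eq_zero (Finset.mem_univ i) (by rw [hi, zero_zpow _ hmi])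
    exact iff_of_true (Or.inl p) ⟨0, by rw [q, map_zero]⟩
  · push Not at H
    have p : ∑ i, m i * c i = 0 := Finset.sum_eq_zero fun i _ => by
      by_cases h : t i = 0
      · simp [H i h]
      · simp [c, h]
    have q : ((∏ i, u i ^ m i : (ValuationRing.ValueGroup V K)ˣ) : ValuationRing.ValueGroup V K) =
        val (∏ i, t i ^ m i) := by
      rw [map_prod, Units.coe_prod]
      refine Finset.prod_congr rfl fun i _ => ?_
      by_cases h : t i = 0
      · simp [H i h]
      · simp [u, h]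
    rw [p, ← ValuationRing.mem_integer_iff, Valuation.mem_integer_iff]
    change _ ↔ val _ ≤ 1
    rw [← q]
    simp only [lt_irrefl, true_and, false_or]
    change (∏ i, u i ^ m i) ≤ 1 ↔ _
    rw [← Units.val_le_val, Units.val_one]

/- A point `x` of the pinched ring that does not kill `I` extends: `a ↦ x (g a) / x g` is an
algebra map to the fraction field (`g a * g b = g * g a b` in `R`), with values integral over `V`
(`Pn.integral`), and a valuation ring is integrally closed. Uniqueness by cancelling `x g`. -/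
theorem Pinch.extend {A : Type} [CommRing A] [Algebra ℂ A] {I : Ideal A} (Pn : Pinch A I)
    {V : Type} [CommRing V] [IsDomain V] [ValuationRing V] [Algebra ℂ V] (x : Pn.R →ₐ[ℂ] V)
    (g : Pn.R) (hg : (g : A) ∈ I) (hx : x g ≠ 0) :
    ∃! z : A →ₐ[ℂ] V, z.comp Pn.R.val = x := by
  let K := FractionRing V
  let φ : V →+* K := algebraMap V K
  have hφ : Injective φ := IsFractionRing.injective V K
  have hφg : φ (x g) ≠ 0 := fun h => hx (hφ (by rw [h, map_zero]))
  let μ : A → Pn.R := fun a => ⟨g * a, Pn.mem_of _ (I.mul_mem_right a hg)⟩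
  have hμ : ∀ r : Pn.R, μ r = g * r := fun r => rfl
  let w : A →+* K :=
    { toFun := fun a => φ (x (μ a)) / φ (x g)
      map_one' := by
        have : μ 1 = g := Subtype.ext (mul_one _)
        rw [this, div_self hφg]
      map_mul' := fun a b => by
        have : μ (a * b) * g = μ a * μ b := Subtype.ext (by simp [μ]; ring)
        have := congrArg (fun r => φ (x r)) this
        simp only [map_mul] at this
        rw [div_mul_div_comm, div_eq_div_iff hφg (mul_ne_zero hφg hφg), ← this]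
        ring
      map_zero' := by
        have : μ 0 = 0 := Subtype.ext (mul_zero _)
        rw [this, map_zero, map_zero, zero_div]
      map_add' := fun a b => by
        have : μ (a + b) = μ a + μ b := Subtype.ext (mul_add _ _ _)
        rw [this, map_add, map_add, add_div] }
  have hw : ∀ r : Pn.R, w r = φ (x r) := fun r => by
    change φ (x (μ r)) / φ (x g) = _
    rw [hμ, map_mul, map_mul, mul_div_cancel_left₀ _ hφg]
  have hint : ∀ a, ∃ v, φ v = w a := fun a => by
    refine IsIntegrallyClosed.isIntegral_iff.mp ?_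
    obtain ⟨p, hp, hp0⟩ := Pn.integral a
    refine ⟨p.map (x : Pn.R →+* V), hp.map _, ?_⟩
    rw [Polynomial.eval₂_map]
    have e : (algebraMap V K).comp (x : Pn.R →+* V) = w.comp (algebraMap Pn.R A) :=
      RingHom.ext fun r => (hw r).symm
    rw [e, ← Polynomial.hom_eval₂, hp0, map_zero]
  choose z hz using hint
  let z' : A →+* V :=
    { toFun := z
      map_one' := hφ (by rw [hz, map_one, map_one])
      map_mul' := fun a b => hφ (by rw [map_mul, hz, hz, hz, map_mul])
      map_zero' := hφ (by rw [hz, map_zero, map_zero])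
      map_add' := fun a b => hφ (by rw [map_add, hz, hz, hz, map_add]) }
  have hz' : ∀ r : Pn.R, z' r = x r := fun r => hφ ((hz r).trans (hw r))
  have key : ∀ y : A →ₐ[ℂ] V, y.comp Pn.R.val = x → ∀ a, x g * y a = x (μ a) := fun y hy a => by
    rw [← hy]
    exact (map_mul y _ _).symm
  let z'' : A →ₐ[ℂ] V :=
    { z' with
      commutes' := fun c => (hz' (algebraMap ℂ Pn.R c)).trans (x.commutes c) }
  have hz'' : z''.comp Pn.R.val = x := AlgHom.ext fun r => hz' r
  refine ⟨z'', hz'', fun y hy => AlgHom.ext fun a => mul_left_cancel₀ hx ?_⟩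
  rw [key y hy, key z'' hz'']

end Pool.Agent.P.MP_824f38_ag.DB
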