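import Pool.Agent.P.MP_824f38_ag.H.Small

/-! Cones, links and resets in complexes of incomplete colourings. -/

set_option linter.unusedSectionVars false
set_option linter.style.haveILetI false

namespace Pool.Agent.P.MP_824f38_ag.DB

open Function

variable {ι : Type} [Fintype ι] [LinearOrder ι] {E : Set (PC ι)} {F : Finset ι} {q : ℕ}

/-- the cone operator -/
noncomputable def pK (i : ι) (τ : ℤ) : (PC ι →₀ ℂ) →ₗ[ℂ] (PC ι →₀ ℂ) :=
  Finsupp.lsum ℂ fun x =>
    if x i = none then (psg x i : ℂ) • Finsupp.lsingle (update x i (some τ)) else 0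

theorem pK_single (i : ι) (τ : ℤ) (x : PC ι) (c : ℂ) : pK i τ (Finsupp.single x c) =
    if x i = none then Finsupp.single (update x i (some τ)) ((psg x i : ℂ) * c) else 0 := by
  rw [pK, Finsupp.lsum_single]
  split_ifs <;> simp

theorem FC1_map (T : (PC ι →₀ ℂ) →ₗ[ℂ] (PC ι →₀ ℂ)) (c : PC ι →₀ ℂ) :
    T c = ∑ x ∈ c.support, T (Finsupp.single x (c x)) := by
  conv_lhs => rw [← c.sum_single, Finsupp.sum, map_sum]

theorem FC1_ext {T T' : (PC ι →₀ ℂ) →ₗ[ℂ] (PC ι →₀ ℂ)} {c : PC ι →₀ ℂ}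
    (h : ∀ x ∈ c.support, ∀ a, T (Finsupp.single x a) = T' (Finsupp.single x a)) : T c = T' c := by
  rw [FC1_map T, FC1_map T']
  exact Finset.sum_congr rfl fun x hx => h x hx _

theorem FC1_single {x y : PC ι} {a : ℂ} (h : y ∈ (Finsupp.single x a).support) : y = x :=
  Finset.mem_singleton.1 (Finsupp.support_single_subset h)

theorem FC1_mem {S : Set (PC ι)} {c : PC ι →₀ ℂ} :
    c ∈ Finsupp.supported ℂ ℂ S ↔ ∀ x ∈ c.support, x ∈ S := Finsupp.mem_supported ℂ c

theorem FC1_upd {x : PC ι} {i : ι} {a : Option ℤ} (h : x i = a) (b : Option ℤ) :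
    update (update x i b) i a = x := by
  rw [update_idem, ← h, update_eq_self]

theorem FC1_sg_some {x : PC ι} {i : ι} (h : x i = none) (t : ℤ) (j : ι) :
    psg (update x i (some t)) j = if i < j then -psg x j else psg x j := by
  unfold psg
  split_ifs with h1
  · have e : (Finset.univ.filter fun k => k < j ∧ x k = none) =
        insert i (Finset.univ.filter fun k => k < j ∧ update x i (some t) k = none) := by
      ext k
      by_cases hk : k = i
      · simp [hk, h, h1]
      · simp [hk]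
    rw [e, Finset.card_insert_of_notMem (by simp), pow_succ]
    ring
  · congr 2
    ext k
    by_cases hk : k = i
    · simp [hk, h1]
    · simp [hk]

theorem FC1_sg_none {x : PC ι} {i : ι} (h : x i ≠ none) (j : ι) :
    psg (update x i none) j = if i < j then -psg x j else psg x j := by
  obtain ⟨t, ht⟩ := Option.ne_none_iff_exists'.1 h
  have := FC1_sg_some (update_self i none x) t j
  rw [FC1_upd ht] at this
  rw [this]
  split_ifs <;> simp

theorem FC1_sg_self (x : PC ι) (i : ι) (a : Option ℤ) : psg (update x i a) i = psg x i := by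
  unfold psg
  congr 2
  ext k
  by_cases hk : k = i
  · simp [hk]
  · simp [hk]

theorem FC1_sg_sq (x : PC ι) (i : ι) (a : ℂ) : (psg x i : ℂ) * ((psg x i : ℂ) * a) = a := by
  rw [← mul_assoc, ← Int.cast_mul, psg, ← mul_pow]
  simp

theorem pD_support {c : PC ι →₀ ℂ} {y : PC ι} (hy : y ∈ (pD F c).support) :
    ∃ x ∈ c.support, ∃ j ∈ F, x j ≠ none ∧ y = update x j none := by
  rw [FC1_map] at hy
  obtain ⟨x, hx, hy⟩ := Finsupp.mem_support_finsetSum _ hy
  rw [pD_single] at hy
  obtain ⟨j, hj, hy⟩ := Finsupp.mem_support_finsetSum _ hy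
  split_ifs at hy with h
  · simp at hy
  · exact ⟨x, hx, j, hj, h, FC1_single hy⟩

theorem pK_support {i : ι} {τ : ℤ} {c : PC ι →₀ ℂ} {y : PC ι} (hy : y ∈ (pK i τ c).support) :
    ∃ x ∈ c.support, x i = none ∧ y = update x i (some τ) := by
  rw [FC1_map] at hy
  obtain ⟨x, hx, hy⟩ := Finsupp.mem_support_finsetSum _ hy
  rw [pK_single] at hy
  split_ifs at hy with h
  · exact ⟨x, hx, h, FC1_single hy⟩
  · simp at hy

theorem card_pJ_none {x : PC ι} {j : ι} (h : x j ≠ none) :
    (pJ (update x j none)).card = (pJ x).card + 1 := by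
  rw [← Finset.card_insert_of_notMem (a := j) (by simpa [pJ] using h)]
  congr 1
  ext k
  by_cases hk : k = j
  · simp [pJ, hk]
  · simp [pJ, hk]

theorem card_pJ_some {x : PC ι} {j : ι} (h : x j = none) (t : ℤ) :
    (pJ (update x j (some t))).card + 1 = (pJ x).card := by
  rw [← card_pJ_none (j := j) (by simp), FC1_upd h]

theorem pD_pD (F : Finset ι) (c : PC ι →₀ ℂ) : pD F (pD F c) = 0 := by
  refine FC1_ext (T := pD F ∘ₗ pD F) (T' := 0) fun x _ a => ?_
  obtain ⟨A, hA⟩ : ∃ A : ι × ι → PC ι →₀ ℂ, A = fun p =>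
      if x p.1 ≠ none ∧ x p.2 ≠ none ∧ p.1 ≠ p.2 then
        Finsupp.single (update (update x p.1 none) p.2 none)
          (((if p.1 < p.2 then -psg x p.2 else psg x p.2 : ℤ) : ℂ) * ((psg x p.1 : ℂ) * a))
      else 0 := ⟨_, rfl⟩
  have h1 : pD F (pD F (Finsupp.single x a)) = ∑ p ∈ F ×ˢ F, A p := by
    rw [pD_single, map_sum, Finset.sum_product]
    refine Finset.sum_congr rfl fun j _ => ?_
    by_cases h : x j = none
    · simp [hA, h]
    · rw [if_neg h, pD_single]
      refine Finset.sum_congr rfl fun k _ => ?_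
      by_cases e : k = j
      · simp [hA, e]
      · rw [update_of_ne e, FC1_sg_none h, hA]
        by_cases h' : x k = none
        · simp [h']
        · rw [if_neg h']
          exact (if_pos ⟨h, h', Ne.symm e⟩).symm
  refine h1.trans (Finset.sum_involution (fun p _ => p.swap) (fun p _ => ?_) (fun p _ h e => h ?_)
    (fun p hp => Finset.mem_product.2 (Finset.mem_product.1 hp).symm) fun _ _ => rfl)
  · obtain ⟨j, k⟩ := p
    simp only [hA, Prod.swap_prod_mk]
    by_cases h : x j ≠ none ∧ x k ≠ none ∧ j ≠ k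
    · rw [if_pos h, if_pos (show x k ≠ none ∧ x j ≠ none ∧ k ≠ j from ⟨h.2.1, h.1, h.2.2.symm⟩),
        update_comm h.2.2, ← Finsupp.single_add]
      refine Finsupp.single_eq_zero.2 ?_
      rcases lt_or_gt_of_ne h.2.2 with e | e
      · rw [if_pos e, if_neg e.not_gt]
        push_cast
        ring
      · rw [if_pos e, if_neg e.not_gt]
        push_cast
        ring
    · rw [if_neg h, if_neg fun h' => h ⟨h'.2.1, h'.1, h'.2.2.symm⟩, add_zero]
  · rw [hA]
    exact if_neg fun h' => h'.2.2 (congrArg Prod.snd e)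

theorem pD_pK {i : ι} (hi : i ∈ F) (τ : ℤ) (c : PC ι →₀ ℂ)
    (hc : ∀ x ∈ c.support, x i = none ∨ x i = some τ) : pD F (pK i τ c) + pK i τ (pD F c) = c := by
  refine FC1_ext (T := pD F ∘ₗ pK i τ + pK i τ ∘ₗ pD F) (T' := LinearMap.id) fun x hx a => ?_
  change pD F (pK i τ _) + pK i τ (pD F _) = Finsupp.single x a
  rw [pK_single, pD_single, map_sum]
  rcases hc x hx with h | h
  · rw [if_pos h, pD_single, ← Finset.sum_add_distrib, Finset.sum_eq_single_of_mem i hi]
    · rw [if_pos h, map_zero, add_zero, if_neg (by simp), FC1_upd h, FC1_sg_self, FC1_sg_sq]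
    · intro j _ hj
      rw [update_of_ne hj]
      split_ifs with h1
      · rw [map_zero, add_zero]
      · rw [pK_single, if_pos (by rwa [update_of_ne hj.symm]), update_comm hj, ← Finsupp.single_add,
          FC1_sg_some h, FC1_sg_none h1]
        refine Finsupp.single_eq_zero.2 ?_
        rcases lt_or_gt_of_ne hj with e | e
        · rw [if_pos e, if_neg e.not_gt]
          push_cast
          ring
        · rw [if_pos e, if_neg e.not_gt]
          push_cast
          ring
  · have h' : x i ≠ none := by simp [h]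
    rw [if_neg h', map_zero, zero_add, Finset.sum_eq_single_of_mem i hi]
    · rw [if_neg h', pK_single, if_pos (update_self _ _ _), FC1_upd h, FC1_sg_self, FC1_sg_sq]
    · intro j _ hj
      split_ifs
      · exact map_zero _
      · rw [pK_single, if_neg (by rwa [update_of_ne hj.symm])]

theorem FC1_pD_mem (hE : Closed E F) {b : PC ι →₀ ℂ}
    (hb : b ∈ Finsupp.supported ℂ ℂ {x | x ∈ E ∧ (pJ x).card = q}) :
    pD F b ∈ Finsupp.supported ℂ ℂ {x | x ∈ E ∧ (pJ x).card = q + 1} := by
  refine FC1_mem.2 fun y hy => ?_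
  obtain ⟨x, hx, j, hj, h1, rfl⟩ := pD_support hy
  obtain ⟨h2, h3⟩ := FC1_mem.1 hb x hx
  exact ⟨hE x h2 j hj, by rw [card_pJ_none h1, h3]⟩

theorem FC1_filter (P : PC ι → Prop) [DecidablePred P]
    (hP : ∀ x, ∀ j ∈ F, P (update x j none) ↔ P x) (c : PC ι →₀ ℂ) :
    pD F (c.filter P) = (pD F c).filter P := by
  induction c using Finsupp.induction_linear with
  | zero => simp only [Finsupp.filter_zero, map_zero]
  | add f g hf hg => rw [Finsupp.filter_add, map_add, map_add, Finsupp.filter_add, hf, hg]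
  | single x a =>
    by_cases hx : P x
    · rw [Finsupp.filter_single_of_pos _ hx, eq_comm, Finsupp.filter_eq_self_iff]
      intro y hy
      obtain ⟨x', h1, j, hj, -, rfl⟩ := pD_support (Finsupp.mem_support_iff.2 hy)
      rw [FC1_single h1]
      exact (hP x j hj).2 hx
    · rw [Finsupp.filter_single_of_neg _ hx, map_zero, eq_comm, Finsupp.filter_eq_zero_iff]
      intro y hy
      by_contra h
      obtain ⟨x', h1, j, hj, -, rfl⟩ := pD_support (Finsupp.mem_support_iff.2 h)
      rw [FC1_single h1] at hy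
      exact hx ((hP x j hj).1 hy)

theorem FC1_fib {κ : Type} [DecidableEq κ] (φ : PC ι → κ) (c : PC ι →₀ ℂ) :
    ∑ k ∈ c.support.image φ, c.filter (fun x => φ x = k) = c := by
  ext x
  simp only [Finsupp.coe_finsetSum, Finset.sum_apply, Finsupp.filter_apply, Finset.sum_ite_eq]
  exact ite_eq_left_iff.2 fun h => by
    by_contra h1
    exact h (Finset.mem_image_of_mem φ (Finsupp.mem_support_iff.2 (Ne.symm h1)))

theorem FC1_erase {i : ι} (hi : i ∈ F) (c : PC ι →₀ ℂ) :
    pD F c = pD (F.erase i) c + pD {i} c := by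
  refine FC1_ext (T' := pD (F.erase i) + pD {i}) fun x _ a => ?_
  rw [LinearMap.add_apply, pD_single, pD_single, pD_single, Finset.sum_singleton,
    Finset.sum_erase_add _ _ hi]

theorem FC1_one {i : ι} {c : PC ι →₀ ℂ} {y : PC ι} (hy : y ∈ (pD {i} c).support) : y i = none := by
  obtain ⟨x, -, j, hj, -, rfl⟩ := pD_support hy
  rw [Finset.mem_singleton.1 hj, update_self]

/-- the part of a cycle with a given value is a boundary in the link -/
theorem FC1_link {i : ι} (hi : i ∈ F) {t : ℤ} (h : FEx (E ∩ {x | x i = some t}) (F.erase i) q)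
    {z : PC ι →₀ ℂ} (hz : ∀ x ∈ z.support, x ∈ E ∧ (pJ x).card = q + 1) (h0 : pD F z = 0) :
    ∃ b : PC ι →₀ ℂ, (∀ x ∈ b.support, (x ∈ E ∧ x i = some t) ∧ (pJ x).card = q) ∧
      pD (F.erase i) b = z.filter fun x => x i = some t := by
  refine h _ (fun x hx => ?_) ?_
  · rw [Finsupp.support_filter, Finset.mem_filter] at hx
    exact ⟨⟨(hz x hx.1).1, hx.2⟩, (hz x hx.1).2⟩
  · have h1 : (pD {i} z).filter (fun x => x i = some t) = 0 :=
      (Finsupp.filter_eq_zero_iff _ _).2 fun y hy => by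
        by_contra h2
        simp [FC1_one (Finsupp.mem_support_iff.2 h2)] at hy
    have h2 := congrArg (Finsupp.filter fun x : PC ι => x i = some t) ((FC1_erase hi z).symm.trans h0)
    rw [Finsupp.filter_add, h1, add_zero, Finsupp.filter_zero] at h2
    rw [FC1_filter _ fun x j hj => by rw [update_of_ne (Finset.ne_of_mem_erase hj).symm], h2]

/- `pD F` preserves the values outside `F`: it commutes with `Finsupp.filter` on a fibre. -/
theorem fex_split (h : ∀ fr : PC ι, FEx (E ∩ {x | ∀ i, i ∉ F → x i = fr i}) F q) : FEx E F q := by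
  intro c hc h0
  have key : ∀ fr : PC ι, ∃ b ∈ Finsupp.supported ℂ ℂ {x | x ∈ E ∧ (pJ x).card = q},
      pD F b = c.filter fun x => (fun i => if i ∈ F then none else x i) = fr := fun fr => by
    obtain ⟨b, h1, h2⟩ := h fr (c.filter fun x => (fun i => if i ∈ F then none else x i) = fr)
      (fun x hx => by
        rw [Finsupp.support_filter, Finset.mem_filter] at hx
        exact ⟨⟨(hc x hx.1).1, fun i hi => by rw [← hx.2]; exact (if_neg hi).symm⟩, (hc x hx.1).2⟩)
      (by
        rw [FC1_filter _ fun x j hj => ?_, h0, Finsupp.filter_zero]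
        refine iff_of_eq (congrArg (· = fr) (funext fun i => ?_))
        split_ifs with hi
        · rfl
        · exact update_of_ne (fun e : i = j => hi (by rw [e]; exact hj)) _ _)
    exact ⟨b, FC1_mem.2 fun x hx => ⟨(h1 x hx).1.1, (h1 x hx).2⟩, h2⟩
  choose b h1 h2 using key
  refine ⟨∑ k ∈ c.support.image (fun x i => if i ∈ F then none else x i), b k,
    FC1_mem.1 (Submodule.sum_mem _ fun k _ => h1 k), ?_⟩
  rw [map_sum, Finset.sum_congr rfl fun k _ => h2 k, FC1_fib]

/- For a cycle `z`, the part `z t` with `x i = some t` is a cycle for `pD (F.erase i)`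
(`pD F = pD (F.erase i) + pD {i}`); with `z t = pD (F.erase i) (b t)`, the cycle
`z - pD F (∑ t, b t)` lives on `x i = none`; apply `pD_pK`. -/
theorem fex_step (hE : Closed E F) {i : ι} (hi : i ∈ F) (τ : ℤ)
    (hc : ∀ x ∈ E, x i = none → update x i (some τ) ∈ E)
    (h : ∀ t, FEx (E ∩ {x | x i = some t}) (F.erase i) q) : FEx E F q := by
  intro z hz h0
  have key : ∀ k : Option ℤ, ∃ b ∈ Finsupp.supported ℂ ℂ {x | x ∈ E ∧ (pJ x).card = q},
      (z.filter fun x => x i = k) - pD F b ∈ Finsupp.supported ℂ ℂ {x : PC ι | x i = none} := by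
    rintro (_ | t)
    · refine ⟨0, zero_mem _, FC1_mem.2 fun x hx => ?_⟩
      rw [map_zero, sub_zero, Finsupp.support_filter, Finset.mem_filter] at hx
      exact hx.2
    · obtain ⟨b, h1, h2⟩ := FC1_link hi (h t) hz h0
      refine ⟨b, FC1_mem.2 fun x hx => ⟨(h1 x hx).1.1, (h1 x hx).2⟩, ?_⟩
      rw [FC1_erase hi, h2, sub_add_cancel_left]
      exact neg_mem (FC1_mem.2 fun x hx => FC1_one hx)
  choose b h1 h2 using key
  obtain ⟨B, hB⟩ : ∃ B, B = ∑ k ∈ z.support.image (fun x => x i), b k := ⟨_, rfl⟩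
  have h3 : B ∈ Finsupp.supported ℂ ℂ {x | x ∈ E ∧ (pJ x).card = q} :=
    hB ▸ Submodule.sum_mem _ fun k _ => h1 k
  have h4 := FC1_mem.1 (sub_mem (FC1_mem.2 hz) (FC1_pD_mem hE h3))
  have h5 := Submodule.sum_mem _ fun k (_ : k ∈ z.support.image fun x => x i) => h2 k
  rw [Finset.sum_sub_distrib, FC1_fib, ← map_sum, ← hB, FC1_mem] at h5
  have h6 := pD_pK hi τ _ fun x hx => .inl (h5 x hx)
  rw [map_sub (pD F) z, h0, pD_pD, sub_zero, map_zero, add_zero] at h6
  refine ⟨pK i τ (z - pD F B) + B, FC1_mem.1 (add_mem (FC1_mem.2 fun y hy => ?_) h3), ?_⟩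
  · obtain ⟨x, hx, h7, rfl⟩ := pK_support hy
    exact ⟨hc x (h4 x hx).1 h7, Nat.succ_injective ((card_pJ_some h7 τ).trans (h4 x hx).2)⟩
  · rw [map_add, h6, sub_add_cancel]

/- Induction on `F`, for all `E`. -/
theorem fex_cone (hE : Closed E F) (hn : ∀ x ∈ E, pJ x ⊆ F) (τ : ι → ℤ)
    (hc : ∀ i ∈ F, ∀ x ∈ E, x i = none → update x i (some (τ i)) ∈ E) : FEx E F q := by
  induction F using Finset.induction_on generalizing E with
  | empty =>
    intro c h1 _
    refine ⟨0, by simp, (map_zero _).trans (Finsupp.support_eq_empty.1 ?_).symm⟩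
    refine Finset.eq_empty_of_forall_notMem fun x hx => ?_
    have h2 := (h1 x hx).2
    rw [Finset.subset_empty.1 (hn x (h1 x hx).1)] at h2
    simp at h2
  | insert i F hi ih =>
    refine fex_step hE (Finset.mem_insert_self _ _) (τ i) (hc i (Finset.mem_insert_self _ _))
      fun t => ?_
    have ne : ∀ j ∈ F, i ≠ j := fun j hj e => hi (e ▸ hj)
    rw [Finset.erase_insert hi]
    refine ih (fun x hx j hj => ⟨hE x hx.1 j (Finset.mem_insert_of_mem hj), ?_⟩)
      (fun x hx j hj => (Finset.mem_insert.1 (hn x hx.1 hj)).resolve_left fun e => ?_)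
      fun j hj x hx h => ⟨hc j (Finset.mem_insert_of_mem hj) x hx.1 h, ?_⟩
    · exact (update_of_ne (ne j hj) _ _).trans hx.2
    · have h1 : x i = some t := hx.2
      simp [pJ, e, h1] at hj
    · exact (update_of_ne (ne j hj) _ _).trans hx.2

/- With `z t = pD (F.erase i) b` and `b'` the image of `b` under `x ↦ update x i (some t')`,
`pD {i} b = pD {i} b'`, so `z - pD F (b - b') = z - z t + (z t)'` avoids the value `t`. -/
theorem fex_reset (hE : Closed E F) {i : ι} (hi : i ∈ F) {t t' : ℤ} (htt : t ≠ t')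
    (hl : FEx (E ∩ {x | x i = some t}) (F.erase i) q)
    (hm : ∀ x ∈ E, x i = some t → update x i (some t') ∈ E)
    (h : FEx (E ∩ {x | x i ≠ some t}) F q) : FEx E F q := by
  intro z hz h0
  obtain ⟨b, h1, h2⟩ := FC1_link hi hl hz h0
  obtain ⟨b', hb'⟩ : ∃ b', b' = Finsupp.lmapDomain ℂ ℂ (fun x : PC ι => update x i (some t')) b :=
    ⟨_, rfl⟩
  have h3 : ∀ y ∈ b'.support, (y ∈ E ∧ (pJ y).card = q) ∧ y i = some t' := fun y hy => by
    rw [hb'] at hy
    obtain ⟨x, hx, rfl⟩ := Finset.mem_image.1 (Finsupp.mapDomain_support hy)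
    obtain ⟨⟨h3, h4⟩, h5⟩ := h1 x hx
    refine ⟨⟨hm x h3 h4, Nat.succ_injective ?_⟩, update_self _ _ _⟩
    rw [← h5]
    exact (card_pJ_none (j := i) (by simp)).symm.trans
      (by rw [update_idem]; exact card_pJ_none (by simp [h4]))
  have h4 : pD {i} b = pD {i} b' := by
    rw [hb']
    refine FC1_ext (T' := pD {i} ∘ₗ Finsupp.lmapDomain ℂ ℂ _) fun x hx a => ?_
    rw [LinearMap.comp_apply, Finsupp.lmapDomain_apply, Finsupp.mapDomain_single, pD_single,
      pD_single, Finset.sum_singleton, Finset.sum_singleton, if_neg (by simp [(h1 x hx).1.2]),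
      if_neg (by simp), update_idem, FC1_sg_self]
  have h5 : b - b' ∈ Finsupp.supported ℂ ℂ {x | x ∈ E ∧ (pJ x).card = q} :=
    sub_mem (FC1_mem.2 fun x hx => ⟨(h1 x hx).1.1, (h1 x hx).2⟩) (FC1_mem.2 fun x hx => (h3 x hx).1)
  have h6 := FC1_mem.1 (sub_mem (FC1_mem.2 hz) (FC1_pD_mem hE h5))
  have h7 : z - pD F (b - b') = (z.filter fun x => ¬ x i = some t) + pD (F.erase i) b' := by
    rw [map_sub, FC1_erase hi b, FC1_erase hi b', h4, h2]
    nth_rewrite 1 [← Finsupp.filter_add_filter_not z fun x => x i = some t]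
    abel
  have h8 : z - pD F (b - b') ∈ Finsupp.supported ℂ ℂ {x : PC ι | x i ≠ some t} := by
    rw [h7]
    refine add_mem (FC1_mem.2 fun x hx => ?_) (FC1_mem.2 fun y hy => ?_)
    · rw [Finsupp.support_filter, Finset.mem_filter] at hx
      exact hx.2
    · obtain ⟨x, hx, j, hj, -, rfl⟩ := pD_support hy
      change update x j none i ≠ some t
      rw [update_of_ne (Finset.ne_of_mem_erase hj).symm, (h3 x hx).2]
      exact fun e => htt (Option.some_injective _ e).symm
  obtain ⟨c, h9, h10⟩ := h _ (fun x hx => ⟨⟨(h6 x hx).1, FC1_mem.1 h8 x hx⟩, (h6 x hx).2⟩)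
    (by rw [map_sub (pD F) z, h0, pD_pD, sub_zero])
  exact ⟨c + (b - b'), FC1_mem.1 (add_mem (FC1_mem.2 fun x hx => ⟨(h9 x hx).1.1, (h9 x hx).2⟩) h5),
    by rw [map_add, h10, sub_add_cancel]⟩

theorem fex_union (En : ℕ → Set (PC ι)) (hmono : Monotone En) (hU : ∀ x ∈ E, ∃ n, x ∈ En n)
    (hs : ∀ n, En n ⊆ E) (h : ∀ n, FEx (En n) F q) : FEx E F q := by
  intro c hc h0
  have key : ∀ x, ∃ n, x ∈ E → x ∈ En n := fun x =>
    (em (x ∈ E)).elim (fun hx => (hU x hx).imp fun _ h _ => h) fun hx => ⟨0, fun h => absurd h hx⟩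
  choose f hf using key
  obtain ⟨b, h1, h2⟩ := h (c.support.sup f) c
    (fun x hx => ⟨hmono (Finset.le_sup hx) (hf x (hc x hx).1), (hc x hx).2⟩) h0
  exact ⟨b, fun x hx => ⟨hs _ (h1 x hx).1, (h1 x hx).2⟩, h2⟩

end Pool.Agent.P.MP_824f38_ag.DB
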