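import Pool.Agent.P.MP_824f38_ag.H.FC1

/-! The generic colourings form an exact complex in positive degrees. -/

set_option linter.unusedSectionVars false
set_option linter.style.haveILetI false

namespace Pool.Agent.P.MP_824f38_ag.DB

open Function

variable {ι : Type} [Fintype ι] [LinearOrder ι] (col : ι → Col)

/-- admissible generic colourings, in terms of the values -/
def FC2_G (S : Finset ι) (x : PC ι) : Prop :=
  (∀ i a, x i = some a → col i = .C → 0 < a) ∧
  (∀ i a, x i = some a → col i = .O → (if i ∈ S then 1 else 0) ≤ a) ∧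
  (∀ i k a b, x i = some a → x k = some b → col k = .A → |a| < wt col i * b) ∧
  ∀ k, col k = .A → x k ≠ some 1

/-- the fibre with prescribed values outside `F` -/
def FC2_E (S F : Finset ι) (fr : PC ι) : Set (PC ι) :=
  {x | (∀ i, i ∉ F → x i = fr i ∧ x i ≠ none) ∧ FC2_G col S x}

variable {col} {S F : Finset ι} {x fr : PC ι}

theorem FC2_nm {i : ι} : i ∉ pJ x ↔ x i = some (pval x i) := by
  unfold pJ pval
  cases h : x i <;> simp [h]

theorem FC2_val {i : ι} {a : ℤ} (h : x i = some a) : i ∉ pJ x ∧ pval x i = a := by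
  unfold pJ pval
  simp [h]

theorem FC2_iff : (Gam col (pJ x) (pval x) S ∧ Gen col x) ↔ FC2_G col S x := by
  constructor
  · rintro ⟨⟨h1, h2, h3⟩, h4⟩
    refine ⟨fun i a h hc => ?_, fun i a h hc => ?_, fun i k a b h h' hc => ?_, h4⟩
    · exact (FC2_val h).2 ▸ h1 i (FC2_val h).1 hc
    · exact (FC2_val h).2 ▸ h2 i (FC2_val h).1 hc
    · exact (FC2_val h).2 ▸ (FC2_val h').2 ▸ h3 i k (FC2_val h).1 (FC2_val h').1 hc
  · rintro ⟨h1, h2, h3, h4⟩
    exact ⟨⟨fun i h hc => h1 i _ (FC2_nm.1 h) hc, fun i h hc => h2 i _ (FC2_nm.1 h) hc,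
      fun i k h h' hc => h3 i k _ _ (FC2_nm.1 h) (FC2_nm.1 h') hc⟩, h4⟩

theorem FC2_wtA {i : ι} (h : col i = .A) : wt col i = 2 := if_pos h

theorem FC2_wtN {i : ι} (h : col i ≠ .A) : wt col i = 1 := if_neg h

theorem FC2_two (h : FC2_G col S x) {k : ι} {b : ℤ} (hk : col k = .A) (hb : x k = some b) :
    2 ≤ b := by
  have h1 := h.2.2.1 k k b b hb hb hk
  have h2 : b ≠ 1 := fun e => h.2.2.2 k hk (e ▸ hb)
  rw [FC2_wtA hk, abs_lt] at h1
  omega

theorem FC2_AA (h : FC2_G col S x) {i k : ι} {a b : ℤ} (hi : col i = .A) (hk : col k = .A)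
    (ha : x i = some a) (hb : x k = some b) : a < 2 * b := by
  have h1 := h.2.2.1 i k a b ha hb hk
  rw [FC2_wtA hi, abs_lt] at h1
  exact h1.2

theorem FC2_del (h : FC2_G col S x) (j : ι) : FC2_G col S (update x j none) := by
  have e : ∀ i a, update x j none i = some a → x i = some a := fun i a hi => by
    by_cases hij : i = j
    · subst hij
      simp at hi
    · rwa [update_of_ne hij] at hi
  exact ⟨fun i a hi => h.1 i a (e i a hi), fun i a hi => h.2.1 i a (e i a hi),
    fun i k a b hi hk => h.2.2.1 i k a b (e i a hi) (e k b hk),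
    fun k hk hx => h.2.2.2 k hk (e k 1 hx)⟩

theorem FC2_fill (h : FC2_G col S x) {i : ι} {t : ℤ} (hC : col i = .C → 0 < t) (hO : col i ≠ .O)
    (h1 : ∀ k b, k ≠ i → x k = some b → col k = .A → |t| < wt col i * b)
    (h2 : col i = .A → 2 ≤ t ∧ ∀ j a, j ≠ i → x j = some a → |a| < wt col j * t) :
    FC2_G col S (update x i (some t)) := by
  have e : ∀ j a, update x i (some t) j = some a → (j = i ∧ a = t) ∨ (j ≠ i ∧ x j = some a) :=
    fun j a hj => by
      by_cases hij : j = i
      · subst hij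
        rw [update_self] at hj
        exact Or.inl ⟨rfl, (Option.some.inj hj).symm⟩
      · rw [update_of_ne hij] at hj
        exact Or.inr ⟨hij, hj⟩
  refine ⟨fun j a hj hc => ?_, fun j a hj hc => ?_, fun j k a b hj hk hc => ?_, fun k hc hk => ?_⟩
  · rcases e j a hj with ⟨rfl, rfl⟩ | ⟨_, hj⟩
    exacts [hC hc, h.1 j a hj hc]
  · rcases e j a hj with ⟨rfl, rfl⟩ | ⟨_, hj⟩
    exacts [absurd hc hO, h.2.1 j a hj hc]
  · rcases e j a hj with ⟨e1, e2⟩ | ⟨n1, hj⟩ <;> rcases e k b hk with ⟨e3, e4⟩ | ⟨n2, hk⟩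
    · have := (h2 (e3 ▸ hc)).1
      rw [e1, e2, e4, FC2_wtA (e3 ▸ hc), abs_lt]
      omega
    · rw [e1, e2]
      exact h1 k b n2 hk hc
    · rw [e4]
      exact (h2 (e3 ▸ hc)).2 j a n1 hj
    · exact h.2.2.1 j k a b hj hk hc
  · rcases e k 1 hk with ⟨e1, e2⟩ | ⟨_, hk⟩
    · have := (h2 (e1 ▸ hc)).1
      omega
    · exact h.2.2.2 k hc hk

theorem FC2_fillB (h : FC2_G col S x) {i : ι} (hi : col i = .B) :
    FC2_G col S (update x i (some 0)) := by
  refine FC2_fill h (by simp [hi]) (by simp [hi]) (fun k b _ hb hk => ?_) (by simp [hi])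
  have := FC2_two h hk hb
  rw [FC2_wtN (by simp [hi]), abs_zero]
  omega

theorem FC2_fillC (h : FC2_G col S x) {i : ι} (hi : col i = .C) :
    FC2_G col S (update x i (some 1)) := by
  refine FC2_fill h (by simp) (by simp [hi]) (fun k b _ hb hk => ?_) (by simp [hi])
  have := FC2_two h hk hb
  rw [FC2_wtN (by simp [hi]), abs_one]
  omega

theorem FC2_fillA (h : FC2_G col S x) {i : ι} (hi : col i = .A) {t : ℤ} (ht : 2 ≤ t)
    (h1 : ∀ j a, x j = some a → col j ≠ .A → |a| < t)
    (h2 : ∀ k b, k ≠ i → x k = some b → col k = .A → t < 2 * b ∧ b < 2 * t) :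
    FC2_G col S (update x i (some t)) := by
  refine FC2_fill h (by simp [hi]) (by simp [hi]) (fun k b hk hb hc => ?_)
    fun _ => ⟨ht, fun j a hj ha => ?_⟩
  · have := (h2 k b hk hb hc).1
    rw [FC2_wtA hi, abs_lt]
    omega
  · by_cases hc : col j = .A
    · have := (h2 j a hj ha hc).2
      have := FC2_two h hc ha
      rw [FC2_wtA hc, abs_lt]
      omega
    · rw [FC2_wtN hc, one_mul]
      exact h1 j a ha hc

theorem FC2_upd (h : x ∈ FC2_E col S F fr) {i : ι} (hi : i ∈ F) {v : Option ℤ}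
    (hv : FC2_G col S (update x i v)) : update x i v ∈ FC2_E col S F fr :=
  ⟨fun j hj => by
    rw [update_of_ne fun e : j = i => hj (e ▸ hi)]
    exact h.1 j hj, hv⟩

theorem FC2_closed : Closed (FC2_E col S F fr) F := fun _ h j hj => FC2_upd h hj (FC2_del h.2 j)

theorem FC2_pJ (h : x ∈ FC2_E col S F fr) : pJ x ⊆ F := fun i hi => by
  by_contra hn
  exact (h.1 i hn).2 (Finset.mem_filter.1 hi).2

variable (col) in
/-- the bounded part of a fibre -/
def FC2_U (S F : Finset ι) (fr : PC ι) (H : ℤ) (W : Finset ι) : Set (PC ι) :=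
  FC2_E col S F fr ∩ {x | ∀ k ∈ F, ∀ a, x k = some a → a ≤ H + 1 ∧ (k ∉ W → a ≤ H)}

theorem FC2_updU {H : ℤ} {W : Finset ι} (h : x ∈ FC2_U col S F fr H W) {i : ι} (hi : i ∈ F)
    {v : Option ℤ} (hv : FC2_G col S (update x i v)) (hH : ∀ a, v = some a → a ≤ H) :
    update x i v ∈ FC2_U col S F fr H W := by
  refine ⟨FC2_upd h.1 hi hv, fun k hk a ha => ?_⟩
  by_cases hki : k = i
  · subst hki
    rw [update_self] at ha
    have := hH a ha
    exact ⟨by omega, fun _ => this⟩
  · rw [update_of_ne hki] at ha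
    exact h.2 k hk a ha

theorem FC2_closedU {H : ℤ} {W : Finset ι} : Closed (FC2_U col S F fr H W) F :=
  fun _ h j hj => FC2_updU h hj (FC2_del h.1.2 j) (by simp)

section Top

variable (hF : ∀ i, i ∈ F ↔ col i = .A) {H : ℤ} (h2 : 2 ≤ H)
  (hH : ∀ i a, i ∉ F → fr i = some a → |a| < H) (q : ℕ)

include hF h2 hH

theorem FC2_fillH {W : Finset ι} (h : x ∈ FC2_U col S F fr H W) {i : ι} (hi : i ∈ F)
    (hb : ∀ k b, k ≠ i → x k = some b → col k = .A → H < 2 * b) :
    update x i (some H) ∈ FC2_U col S F fr H W := by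
  refine FC2_updU h hi (FC2_fillA h.1.2 ((hF i).1 hi) h2 (fun j a ha hc => ?_)
    fun k b hk hx hc => ⟨hb k b hk hx hc, ?_⟩) fun a ha => (Option.some.inj ha).ge
  · have hj : j ∉ F := fun hj => hc ((hF j).1 hj)
    exact hH j a hj ((h.1.1 j hj).1 ▸ ha)
  · have := (h.2 k ((hF k).2 hc) b hx).1
    omega

theorem FC2_stepW (h0 : FEx (FC2_U col S F fr H ∅) F q) (W : Finset ι) (hW : W ⊆ F) :
    FEx (FC2_U col S F fr H W) F q := by
  induction W using Finset.induction_on with
  | empty => exact h0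
  | insert i W hi ih =>
    have hiF : i ∈ F := hW (Finset.mem_insert_self _ _)
    have hiA := (hF i).1 hiF
    refine fex_reset FC2_closedU hiF (t := H + 1) (t' := H) (by omega) ?_ (fun x hx hxi => ?_) ?_
    · refine fex_cone (fun x hx j hj => ?_) (fun x hx j hj => ?_) (fun _ => H)
        fun j hj x hx hxj => ?_
      · refine ⟨FC2_closedU x hx.1 j (Finset.mem_of_mem_erase hj), ?_⟩
        change update x j none i = _
        rw [update_of_ne (Finset.ne_of_mem_erase hj).symm]
        exact hx.2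
      · refine Finset.mem_erase.2 ⟨?_, FC2_pJ hx.1.1 hj⟩
        rintro rfl
        exact (FC2_val hx.2).1 hj
      · refine ⟨FC2_fillH hF h2 hH hx.1 (Finset.mem_of_mem_erase hj) fun k b _ hb hc => ?_, ?_⟩
        · have := FC2_AA hx.1.1.2 hiA hc hx.2 hb
          omega
        · change update x j (some H) i = _
          rw [update_of_ne (Finset.ne_of_mem_erase hj).symm]
          exact hx.2
    · refine FC2_fillH hF h2 hH hx hiF fun k b _ hb hc => ?_
      have := FC2_AA hx.1.2 hiA hc hxi hb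
      omega
    · have e : FC2_U col S F fr H (insert i W) ∩ {x | x i ≠ some (H + 1)} =
          FC2_U col S F fr H W := by
        ext x
        constructor
        · rintro ⟨⟨h1, h3⟩, h4⟩
          refine ⟨h1, fun k hk a ha => ⟨(h3 k hk a ha).1, fun hkW => ?_⟩⟩
          by_cases hki : k = i
          · subst hki
            have e1 := (h3 k hk a ha).1
            have e2 : a ≠ H + 1 := fun e => h4 (e ▸ ha)
            omega
          · exact (h3 k hk a ha).2 (by simp [hki, hkW])
        · rintro ⟨h1, h3⟩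
          refine ⟨⟨h1, fun k hk a ha => ⟨(h3 k hk a ha).1, fun hkW => (h3 k hk a ha).2
            fun h => hkW (Finset.mem_insert_of_mem h)⟩⟩, fun h => ?_⟩
          have := (h3 i hiF _ h).2 hi
          omega
      rw [e]
      exact ih ((Finset.subset_insert _ _).trans hW)

end Top

theorem FC2_top (hF : ∀ i, i ∈ F ↔ col i = .A) (q : ℕ) : FEx (FC2_E col S F fr) F q := by
  obtain ⟨lo, h2, hH, hlo⟩ : ∃ lo : ℤ, 2 ≤ lo ∧ (∀ i a, i ∉ F → fr i = some a → |a| < lo) ∧
      ∀ b : ℤ, 2 ≤ b → (∀ i a, i ∉ F → fr i = some a → |a| < b) → lo ≤ b := by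
    classical
    obtain ⟨lo, h1, h3⟩ := Int.exists_least_of_bdd
      (P := fun b => 2 ≤ b ∧ ∀ i a, i ∉ F → fr i = some a → |a| < b) ⟨2, fun _ h => h.1⟩
      ⟨2 + ∑ i, |pval fr i|, by
        have : 0 ≤ ∑ i, |pval fr i| := Finset.sum_nonneg fun i _ => abs_nonneg _
        omega, fun i a _ ha => by
        have := Finset.single_le_sum (f := fun i => |pval fr i|) (fun i _ => abs_nonneg _)
          (Finset.mem_univ i)
        rw [(FC2_val ha).2] at this
        omega⟩
    exact ⟨lo, h1.1, h1.2, fun b hb hb' => h3 b ⟨hb, hb'⟩⟩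
  refine fex_union (fun n => FC2_U col S F fr (lo + n) ∅) (fun m n hmn x hx => ?_)
    (fun x hx => ?_) (fun n x hx => hx.1) fun n => ?_
  · refine ⟨hx.1, fun k hk a ha => ?_⟩
    have := (hx.2 k hk a ha).2 (Finset.notMem_empty _)
    exact ⟨by omega, fun _ => by omega⟩
  · refine ⟨∑ i, (pval x i).natAbs, hx, fun k _ a ha => ?_⟩
    have := Finset.single_le_sum (f := fun i => (pval x i).natAbs) (fun i _ => Nat.zero_le _)
      (Finset.mem_univ k)
    rw [(FC2_val ha).2] at this
    exact ⟨by omega, fun _ => by omega⟩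
  · induction n with
    | zero =>
      rw [Nat.cast_zero, add_zero]
      refine fex_cone FC2_closedU (fun x hx => FC2_pJ hx.1) (fun _ => lo) fun j hj x hx _ => ?_
      refine FC2_fillH hF h2 hH hx hj fun k b _ hb hc => ?_
      have := hlo b (FC2_two hx.1.2 hc hb) fun i a hi ha => by
        have := hx.1.2.2.2.1 i k a b ((hx.1.1 i hi).1 ▸ ha) hb hc
        rwa [FC2_wtN fun h => hi ((hF i).2 h), one_mul] at this
      omega
    | succ n ih =>
      have e : FC2_U col S F fr (lo + (n + 1 : ℕ)) ∅ = FC2_U col S F fr (lo + n) F := by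
        ext x
        refine and_congr_right fun _ => forall₂_congr fun k hk => forall₂_congr fun a _ => ?_
        simp only [Finset.notMem_empty, not_false_eq_true, forall_true_left, hk, not_true_eq_false,
          false_imp_iff, and_true]
        omega
      rw [e]
      exact FC2_stepW hF (by omega) (fun i a hi ha => by have := hH i a hi ha; omega) q ih F
        subset_rfl

theorem FC2_main (q : ℕ) (F : Finset ι) (hO : ∀ i ∈ F, col i ≠ .O) (fr : PC ι) :
    FEx (FC2_E col S F fr) F q := by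
  induction F using Finset.strongInduction generalizing fr with
  | H F ih =>
    by_cases h1 : ∃ k, k ∉ F ∧ col k = .A
    · obtain ⟨k, hk, hA⟩ := h1
      refine fex_cone FC2_closed (fun x hx => FC2_pJ hx)
        (fun i => if col i = .A then pval fr k else if col i = .B then 0 else 1)
        fun i hi x hx _ => FC2_upd hx hi ?_
      have hxk : x k = some (pval fr k) := by
        obtain ⟨e1, e2⟩ := hx.1 k hk
        obtain ⟨a, ha⟩ := Option.ne_none_iff_exists'.1 e2
        rw [ha, (FC2_val (e1 ▸ ha)).2]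
      cases hc : col i
      · rw [if_pos rfl]
        refine FC2_fillA hx.2 hc (FC2_two hx.2 hA hxk) (fun j a ha hj => ?_) fun j b _ hb hj =>
          ⟨FC2_AA hx.2 hA hj hxk hb, FC2_AA hx.2 hj hA hb hxk⟩
        have := hx.2.2.2.1 j k a _ ha hxk hA
        rwa [FC2_wtN hj, one_mul] at this
      · rw [if_neg (by simp), if_pos rfl]
        exact FC2_fillB hx.2 hc
      · rw [if_neg (by simp), if_neg (by simp)]
        exact FC2_fillC hx.2 hc
      · exact absurd hc (hO i hi)
    by_cases h2 : ∃ i ∈ F, col i ≠ .A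
    · obtain ⟨i, hi, hA⟩ := h2
      refine fex_step FC2_closed hi (if col i = .B then 0 else 1)
        (fun x hx _ => FC2_upd hx hi ?_) fun t => ?_
      · cases hc : col i
        · exact absurd hc hA
        · rw [if_pos rfl]
          exact FC2_fillB hx.2 hc
        · rw [if_neg (by simp)]
          exact FC2_fillC hx.2 hc
        · exact absurd hc (hO i hi)
      · have e : FC2_E col S F fr ∩ {x | x i = some t} =
            FC2_E col S (F.erase i) (update fr i (some t)) := by
          ext x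
          constructor
          · rintro ⟨⟨h3, h4⟩, h5⟩
            refine ⟨fun j hj => ?_, h4⟩
            by_cases hji : j = i
            · subst hji
              rw [update_self, show x j = some t from h5]
              simp
            · rw [update_of_ne hji]
              exact h3 j fun h => hj (Finset.mem_erase.2 ⟨hji, h⟩)
          · rintro ⟨h3, h4⟩
            refine ⟨⟨fun j hj => ?_, h4⟩, ?_⟩
            · have := h3 j fun h => hj (Finset.mem_of_mem_erase h)
              rwa [update_of_ne fun e : j = i => hj (e ▸ hi)] at this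
            · have := (h3 i (Finset.notMem_erase _ _)).1
              rwa [update_self] at this
        rw [e]
        exact ih _ (Finset.erase_ssubset hi) (fun j hj => hO j (Finset.mem_of_mem_erase hj)) _
    · push Not at h1 h2
      exact FC2_top (fun i => ⟨h2 i, fun h => by_contra fun hn => h1 i hn h⟩) q

variable (col)

theorem gen_ex (S : Finset ι) (q : ℕ) : FEx (ES col S ∩ {x | Gen col x}) (FS col S) q := by
  refine fex_split fun fr => ?_
  have e : ES col S ∩ {x | Gen col x} ∩ {x | ∀ i, i ∉ FS col S → x i = fr i} =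
      FC2_E col S (FS col S) fr := by
    ext x
    constructor
    · rintro ⟨⟨⟨h1, h2⟩, h3⟩, h4⟩
      exact ⟨fun i hi => ⟨h4 i hi, fun h => hi (h1 (Finset.mem_filter.2 ⟨Finset.mem_univ _, h⟩))⟩,
        FC2_iff.1 ⟨h2, h3⟩⟩
    · intro h
      exact ⟨⟨⟨FC2_pJ h, (FC2_iff.2 h.2).1⟩, (FC2_iff.2 h.2).2⟩, fun i hi => (h.1 i hi).1⟩
  rw [e]
  exact FC2_main q _ (fun i hi => (Finset.mem_filter.1 hi).2.2) fr

end Pool.Agent.P.MP_824f38_ag.DB
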