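import Pool.Agent.P.MP_824f38_ag.H.Cube

/-! Colours, the toric monoid, cones and their binary subdivisions. -/

set_option linter.unusedSectionVars false

namespace Pool.Agent.P.MP_824f38_ag.DB

open Function

/-- the four kinds of coordinates -/
inductive Col : Type
  | A | B | C | O
  deriving DecidableEq

/-- `ξ` is a combination of the vectors of `G` with nonnegative coefficients in `Γ` -/
def InCone {κ Γ : Type} [AddCommGroup Γ] [LinearOrder Γ] (G : Finset (κ → ℤ)) (ξ : κ → Γ) : Prop :=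
  ∃ c : (κ → ℤ) → Γ, (∀ v, 0 ≤ c v) ∧ ∀ i, ξ i = ∑ v ∈ G, v i • c v

/-- lexicographic positivity -/
def LexPos (a b : ℤ) : Prop := 0 < a ∨ (a = 0 ∧ 0 < b)

/-- the vectors of `G` have dual vectors -/
def HasDual {κ : Type} [Fintype κ] [DecidableEq κ] (G : Finset (κ → ℤ)) : Prop :=
  ∀ v ∈ G, ∃ u : κ → ℤ, ∀ v' ∈ G, u ⬝ᵥ v' = if v' = v then 1 else 0

section Sub

variable {κ : Type} [Fintype κ] [DecidableEq κ]

/-- a subdivision step -/
structure Step (κ : Type) where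
  /-- the vector kept on the plus side -/
  r : κ → ℤ
  /-- the vector kept on the minus side -/
  w : κ → ℤ
  /-- the vector on the wall -/
  z : κ → ℤ

/-- the two halves and the wall of a cone -/
def Step.cut (T : Step κ) (a : St) (γ : Finset (κ → ℤ)) : Finset (κ → ℤ) :=
  (γ.filter fun v => (v = T.r → a = some true) ∧ (v = T.w → a = some false)) ∪
    (if T.r ∈ γ ∧ T.w ∈ γ then {T.z} else ∅)

/-- the step is a subdivision of the cone by a hyperplane -/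
def Step.OK (T : Step κ) (γ : Finset (κ → ℤ)) : Prop :=
  T.r ≠ T.w ∧
  (∃ φ : κ → ℤ, ∀ v ∈ γ, φ ⬝ᵥ v = (if v = T.r then 1 else 0) - (if v = T.w then 1 else 0)) ∧
  (T.r ∈ γ → T.w ∈ γ → T.r + T.w = T.z ∨ (T.z ∈ γ ∧ ∃ c : ℕ, 0 < c ∧ T.r + T.w = c • T.z))

/-- iterated subdivision -/
def gam (γ : Finset (κ → ℤ)) (T : ℕ → Step κ) (ε : ℕ → St) : ℕ → Finset (κ → ℤ)
  | 0 => γ
  | k + 1 => (T k).cut (ε k) (gam γ T ε k)

/-- the pair `(f, g)` is lexicographically positive on the nonzero points of the cone in `L` -/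
def Pos (γ : Finset (κ → ℤ)) (L : AddSubgroup (κ → ℤ)) (h f g : κ → ℤ) : Prop :=
  ∀ ξ : κ → ℤ, InCone γ ξ → ξ ∈ L → 0 < h ⬝ᵥ ξ → LexPos (f ⬝ᵥ ξ) (g ⬝ᵥ ξ)

end Sub

variable {ι : Type} [Fintype ι] [LinearOrder ι] (col : ι → Col)

/-- two for the first kind, one otherwise -/
def wt (i : ι) : ℤ := if col i = .A then 2 else 1

/-- the toric monoid -/
def PM : AddSubmonoid (ι → ℤ) where
  carrier := {m | (∀ i, col i = .C ∨ col i = .O → 0 ≤ m i) ∧
    ∀ i k, col k = .A → |m i| ≤ wt col i * m k}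
  zero_mem' := ⟨fun _ _ => le_rfl, fun _ _ _ => by simp⟩
  add_mem' := by
    rintro a b ⟨ha, ha'⟩ ⟨hb, hb'⟩
    refine ⟨fun i hi => add_nonneg (ha i hi) (hb i hi), fun i k hk => ?_⟩
    have h1 := ha' i k hk
    have h2 := hb' i k hk
    have h3 := abs_add_le (a i) (b i)
    simp only [Pi.add_apply, mul_add]
    omega

theorem mem_PM {m : ι → ℤ} : m ∈ PM col ↔ (∀ i, col i = .C ∨ col i = .O → 0 ≤ m i) ∧
    ∀ i k, col k = .A → |m i| ≤ wt col i * m k := Iff.rfl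

/-- interior weights after forgetting the coordinates in `J` -/
def Gam (J : Finset ι) (m : ι → ℤ) (S : Finset ι) : Prop :=
  (∀ i, i ∉ J → col i = .C → 0 < m i) ∧
  (∀ i, i ∉ J → col i = .O → (if i ∈ S then 1 else 0) ≤ m i) ∧
  ∀ i k, i ∉ J → k ∉ J → col k = .A → |m i| < wt col i * m k

/-- the indicator of the coordinates of the last kind outside `S` -/
def gO (S : Finset ι) : ι → ℤ := fun o => if col o = .O ∧ o ∉ S then 1 else 0

/-- the combinatorial data of a resolution by binary subdivisions -/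
structure Res where
  /-- number of steps -/
  K : ℕ
  /-- number of boundary rays -/
  r : ℕ
  /-- the final cones -/
  G : (Fin K → St) → Finset (ι → ℤ)
  /-- the boundary rays -/
  ray : Fin r → (ι → ℤ)
  /-- positivity at the intermediate stages -/
  E : ℕ → (Fin K → St) → Finset ι → (ι → ℤ) → Finset ι → Prop
  anti : ∀ ε ε', cle ε ε' → G ε' ⊆ G ε
  dual : ∀ ε, HasDual (G ε)
  sign : ∀ ε i, (∀ v ∈ G ε, 0 ≤ v i) ∨ (∀ v ∈ G ε, v i ≤ 0)
  oinv : ∀ ε, ∀ v ∈ G ε, ∀ o, col o = .O → v = Pi.single o 1 ∨ v o ≤ 0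
  nonneg : ∀ ε, ∀ v ∈ G ε, ∀ m ∈ PM col, 0 ≤ m ⬝ᵥ v
  pos : ∀ ε, ∀ v ∈ G ε, (∀ o, col o = .O → v ≠ Pi.single o 1) → ∀ m, Gam col ∅ m ∅ → 0 < m ⬝ᵥ v
  ray_inj : Injective ray
  ray_ne : ∀ a o, col o = .O → ray a ≠ Pi.single o 1
  ray_surj : ∀ ε, ∀ v ∈ G ε, (∀ o, col o = .O → v ≠ Pi.single o 1) → ∃ a, ray a = v
  top : ∀ (Γ : Type) [AddCommGroup Γ] [LinearOrder Γ] [IsOrderedAddMonoid Γ] (ξ : ι → Γ),
    (∀ m ∈ PM col, 0 ≤ ∑ i, m i • ξ i) → ∃ t, ∀ ε, InCone (G ε) ξ ↔ cle ε t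
  E_dep : ∀ k ε ε' J m S, (∀ j : Fin K, (j : ℕ) < k → ε j = ε' j) → E k ε J m S → E k ε' J m S
  E_zero : ∀ ε J m S, (∀ j ∈ J, m j = 0) → (∀ j ∈ J, col j ≠ .O) → (E 0 ε J m S ↔ Gam col J m S)
  E_top : ∀ ε J m S, E K ε J m S ↔
    ∀ v ∈ G ε, (∀ j ∈ J, v j = 0) → LexPos (m ⬝ᵥ v) (gO col S ⬝ᵥ v)
  E_mv1 : ∀ (k : Fin K) ε J m S, E k ε J m S ↔
    E (k + 1) (update ε k (some true)) J m S ∧ E (k + 1) (update ε k (some false)) J m S
  E_mv2 : ∀ (k : Fin K) ε J m S, E (k + 1) (update ε k none) J m S →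
    E (k + 1) (update ε k (some true)) J m S ∨ E (k + 1) (update ε k (some false)) J m S

/-- the vector of the extra coordinate -/
def eT (ι : Type) : Option ι → ℤ := fun a => a.elim 1 fun _ => 0

/-- positive initial rays -/
def rp (i : ι) : Option ι → ℤ :=
  fun a => a.elim (if col i = .B then 1 else 0) fun k => if k = i then 1 else 0

/-- negative initial rays -/
def rm (i : ι) : Option ι → ℤ := fun a => a.elim 1 fun k => if k = i then -1 else 0

/-- the initial cone -/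
def gam0 : Finset (Option ι → ℤ) :=
  insert (eT ι) (Finset.univ.image (rp col) ∪ Finset.univ.image rm)

/-- the equation of the hyperplane -/
def psi : Option ι → ℤ := fun a => a.elim (-1) fun i => if col i = .A then 1 else 0

/-- a height function -/
def hgt (ι : Type) : Option ι → ℤ := fun a => a.elim 2 fun _ => 1

/-- extension by zero -/
def hat (m : ι → ℤ) : Option ι → ℤ := fun a => a.elim 0 m

/-- points of the hyperplane with vanishing coordinates in `J` -/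
def LJ (J : Finset ι) : AddSubgroup (Option ι → ℤ) where
  carrier := {ξ | psi col ⬝ᵥ ξ = 0 ∧ ∀ j ∈ J, ξ (some j) = 0}
  zero_mem' := ⟨by simp, fun _ _ => rfl⟩
  add_mem' := by
    rintro a b ⟨ha, ha'⟩ ⟨hb, hb'⟩
    exact ⟨by rw [dotProduct_add, ha, hb, add_zero], fun j hj => by simp [ha' j hj, hb' j hj]⟩
  neg_mem' := by
    rintro a ⟨ha, ha'⟩
    exact ⟨by rw [dotProduct_neg, ha, neg_zero], fun j hj => by simp [ha' j hj]⟩

theorem mem_LJ {J : Finset ι} {ξ : Option ι → ℤ} :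
    ξ ∈ LJ col J ↔ psi col ⬝ᵥ ξ = 0 ∧ ∀ j ∈ J, ξ (some j) = 0 := Iff.rfl

/-- the properties of the final cones -/
structure FinalOK (γ : Finset (Option ι → ℤ)) : Prop where
  dual : HasDual γ
  side : (∀ v ∈ γ, 0 ≤ psi col ⬝ᵥ v) ∨ (∀ v ∈ γ, psi col ⬝ᵥ v ≤ 0)
  sign : ∀ i : ι, (∀ v ∈ γ, 0 ≤ v (some i)) ∨ (∀ v ∈ γ, v (some i) ≤ 0)
  oinv : ∀ v ∈ γ, ∀ o, col o = .O → v = rp col o ∨ v (some o) ≤ 0

end Pool.Agent.P.MP_824f38_ag.DB
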