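import Pool.Agent.P.MP_824f38_ag.H.Fan

/-! Existence of a smooth subdivision compatible with the hyperplane. -/

set_option linter.unusedSectionVars false
set_option linter.style.haveILetI false

namespace Pool.Agent.P.MP_824f38_ag.DB

open Function

variable {ι : Type} [Fintype ι] [LinearOrder ι]

section Gen

variable {κ : Type} [Fintype κ] [DecidableEq κ]

theorem FanEx_mem {T : Step κ} {a : St} {γ : Finset (κ → ℤ)} {v : κ → ℤ} : v ∈ T.cut a γ ↔
    (v ∈ γ ∧ (v = T.r → a = some true) ∧ (v = T.w → a = some false)) ∨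
      (T.r ∈ γ ∧ T.w ∈ γ ∧ v = T.z) := by
  unfold Step.cut
  rw [Finset.mem_union, Finset.mem_filter]
  refine or_congr_right ?_
  split_ifs with h
  · simp [h.1, h.2]
  · simp only [Finset.notMem_empty, false_iff]
    exact fun k => h ⟨k.1, k.2.1⟩

theorem FanEx_both {T : Step κ} {a : St} {γ : Finset (κ → ℤ)} (h1 : T.r ≠ T.z) (h2 : T.w ≠ T.z) :
    ¬ (T.r ∈ T.cut a γ ∧ T.w ∈ T.cut a γ) := by
  rintro ⟨k1, k2⟩
  rcases FanEx_mem.1 k1 with k1 | k1
  · rcases FanEx_mem.1 k2 with k2 | k2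
    · have := (k1.2.1 rfl).symm.trans (k2.2.2 rfl)
      simp at this
    · exact h2 k2.2.2
  · exact h1 k1.2.2

/-- a sequence of steps leads from `Q` to `Q'` -/
def FanEx_Works (Q Q' : Finset (κ → ℤ) → Prop) : Prop :=
  ∃ (K : ℕ) (T : ℕ → Step κ), ∀ γ, Q γ → ∀ ε, (∀ k < K, (T k).OK (gam γ T ε k)) ∧ Q' (gam γ T ε K)

theorem FanEx_imp {Q Q' : Finset (κ → ℤ) → Prop} (h : ∀ γ, Q γ → Q' γ) : FanEx_Works Q Q' :=
  ⟨0, fun _ => ⟨0, 0, 0⟩, fun γ hγ _ => ⟨fun _ hk => absurd hk (Nat.not_lt_zero _), h γ hγ⟩⟩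

theorem FanEx_one {Q Q' : Finset (κ → ℤ) → Prop} (T : Step κ)
    (h : ∀ γ, Q γ → T.OK γ ∧ ∀ a, Q' (T.cut a γ)) : FanEx_Works Q Q' :=
  ⟨1, fun _ => T, fun γ hγ ε => ⟨fun k hk => by
    obtain rfl : k = 0 := by omega
    exact (h γ hγ).1, (h γ hγ).2 _⟩⟩

theorem FanEx_trans {Q Q' Q'' : Finset (κ → ℤ) → Prop} (h : FanEx_Works Q Q')
    (h' : FanEx_Works Q' Q'') : FanEx_Works Q Q'' := by
  obtain ⟨K₁, T₁, h⟩ := h
  obtain ⟨K₂, T₂, h'⟩ := h'
  obtain ⟨T, hT⟩ : ∃ T : ℕ → Step κ, ∀ k, T k = if k < K₁ then T₁ k else T₂ (k - K₁) :=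
    ⟨_, fun _ => rfl⟩
  have e1 : ∀ γ ε k, k ≤ K₁ → gam γ T ε k = gam γ T₁ ε k := by
    intro γ ε k hk
    induction k with
    | zero => rfl
    | succ k ih => rw [gam, gam, ih (by omega), hT, if_pos (by omega)]
  have e2 : ∀ γ ε k, gam γ T ε (K₁ + k) = gam (gam γ T₁ ε K₁) T₂ (fun j => ε (K₁ + j)) k := by
    intro γ ε k
    induction k with
    | zero => exact e1 γ ε K₁ le_rfl
    | succ k ih => rw [← add_assoc, gam, gam, ih, hT, if_neg (by omega), Nat.add_sub_cancel_left]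
  refine ⟨K₁ + K₂, T, fun γ hγ ε => ⟨fun k hk => ?_, ?_⟩⟩
  · by_cases h1 : k < K₁
    · rw [e1 γ ε k h1.le, hT, if_pos h1]
      exact (h γ hγ ε).1 k h1
    · obtain ⟨j, rfl⟩ := Nat.exists_eq_add_of_le (not_lt.1 h1)
      rw [e2, hT, if_neg h1, Nat.add_sub_cancel_left]
      exact (h' _ (h γ hγ ε).2 _).1 j (by omega)
  · rw [e2]
    exact (h' _ (h γ hγ ε).2 _).2

theorem FanEx_ind {α : Type} (Q R : Finset (κ → ℤ) → Prop) (P : α → Finset (κ → ℤ) → Prop)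
    (h0 : ∀ γ, Q γ → R γ) (h : ∀ a, ∀ W : α → Prop,
      FanEx_Works (fun γ => R γ ∧ ∀ b, W b → P b γ) fun γ => R γ ∧ P a γ ∧ ∀ b, W b → P b γ)
    (W : Finset α) : FanEx_Works Q fun γ => R γ ∧ ∀ b ∈ W, P b γ := by
  classical
  induction W using Finset.induction_on with
  | empty => exact FanEx_imp fun γ hγ => ⟨h0 γ hγ, fun _ hb => absurd hb (Finset.notMem_empty _)⟩
  | insert a W _ ih =>
    exact FanEx_trans ih (FanEx_trans (h a (· ∈ W)) (FanEx_imp fun γ hγ =>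
      ⟨hγ.1, Finset.forall_mem_insert .. |>.2 hγ.2⟩))

theorem FanEx_dual {γ : Finset (κ → ℤ)} (h : HasDual γ) (r : κ → ℤ) :
    ∃ u : κ → ℤ, ∀ v ∈ γ, u ⬝ᵥ v = if v = r then 1 else 0 := by
  by_cases hr : r ∈ γ
  · exact h r hr
  · exact ⟨0, fun v hv => by rw [zero_dotProduct, if_neg fun e : v = r => hr (e ▸ hv)]⟩

theorem FanEx_dual_add {γ γ' : Finset (κ → ℤ)} (h : HasDual γ) {r w : κ → ℤ} (hr : r ∈ γ)
    (hw : w ∈ γ) (hn : r ≠ w) (hs : ∀ v ∈ γ', (v ∈ γ ∧ v ≠ w) ∨ v = r + w) : HasDual γ' := by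
  obtain ⟨uw, h1⟩ := h w hw
  have e1 : uw ⬝ᵥ (r + w) = 1 := by
    rw [dotProduct_add, h1 r hr, h1 w hw, if_neg hn, if_pos rfl, zero_add]
  have hz : ∀ v ∈ γ, v ≠ w → v ≠ r + w := by
    rintro v hv h2 rfl
    rw [h1 _ hv, if_neg h2] at e1
    exact zero_ne_one e1
  intro v hv
  rcases hs v hv with ⟨h2, h3⟩ | rfl
  · obtain ⟨u, h4⟩ := h v h2
    refine ⟨u - (u ⬝ᵥ r) • uw, fun v' hv' => ?_⟩
    rw [sub_dotProduct, smul_dotProduct, smul_eq_mul]
    rcases hs v' hv' with ⟨h5, h6⟩ | rfl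
    · rw [h4 v' h5, h1 v' h5, if_neg h6, mul_zero, sub_zero]
    · rw [e1, dotProduct_add, h4 w hw, if_neg h3.symm, if_neg (hz v h2 h3).symm]
      ring
  · refine ⟨uw, fun v' hv' => ?_⟩
    rcases hs v' hv' with ⟨h5, h6⟩ | rfl
    · rw [h1 v' h5, if_neg h6, if_neg (hz v' h5 h6)]
    · rw [e1, if_pos rfl]

theorem FanEx_edge {γ : Finset (κ → ℤ)} (h : HasDual γ) {r w : κ → ℤ} (hn : r ≠ w) :
    (Step.mk r w (r + w)).OK γ ∧ ∀ a, HasDual ((Step.mk r w (r + w)).cut a γ) := by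
  obtain ⟨u, h1⟩ := FanEx_dual h r
  obtain ⟨u', h2⟩ := FanEx_dual h w
  refine ⟨⟨hn, ⟨u - u', fun v hv => by rw [sub_dotProduct, h1 v hv, h2 v hv]⟩,
    fun _ _ => .inl rfl⟩, fun a => ?_⟩
  by_cases hb : r ∈ γ ∧ w ∈ γ
  · by_cases ha : a = some false
    · refine FanEx_dual_add h hb.2 hb.1 hn.symm fun v hv => ?_
      rcases FanEx_mem.1 hv with k | k
      · exact .inl ⟨k.1, fun e => by simpa [ha] using k.2.1 e⟩
      · exact .inr (k.2.2.trans (add_comm _ _))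
    · refine FanEx_dual_add h hb.1 hb.2 hn fun v hv => ?_
      rcases FanEx_mem.1 hv with k | k
      · exact .inl ⟨k.1, fun e => ha (k.2.2 e)⟩
      · exact .inr k.2.2
  · have hs : ∀ v ∈ (Step.mk r w (r + w)).cut a γ, v ∈ γ := fun v hv =>
      (FanEx_mem.1 hv).elim (fun k => k.1) fun k => absurd ⟨k.1, k.2.1⟩ hb
    exact fun v hv => (h v (hs v hv)).imp fun u hu v' hv' => hu v' (hs v' hv')

end Gen

variable {col : ι → Col}

theorem FanEx_gam0 {v : Option ι → ℤ} :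
    v ∈ gam0 col ↔ v = eT ι ∨ (∃ i, rp col i = v) ∨ ∃ i, rm i = v := by
  simp [gam0]

theorem FanEx_dot (u v : Option ι → ℤ) :
    u ⬝ᵥ v = u none * v none + ∑ i, u (some i) * v (some i) := Fintype.sum_option _

theorem FanEx_dot_eT (u : Option ι → ℤ) : u ⬝ᵥ eT ι = u none := by simp [FanEx_dot, eT]

theorem FanEx_dot_rp (u : Option ι → ℤ) (i : ι) :
    u ⬝ᵥ rp col i = (if col i = .B then u none else 0) + u (some i) := by
  simp [FanEx_dot, rp]

theorem FanEx_dot_rm (u : Option ι → ℤ) (i : ι) : u ⬝ᵥ rm i = u none - u (some i) := by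
  simp [FanEx_dot, rm, sub_eq_add_neg]

theorem FanEx_pp {i k : ι} : rp col k = rp col i ↔ k = i :=
  ⟨fun e => by
    by_contra h
    simpa [rp, h] using congrFun e (some k), fun e => e ▸ rfl⟩

theorem FanEx_mm {i k : ι} : (rm k : Option ι → ℤ) = rm i ↔ k = i :=
  ⟨fun e => by
    by_contra h
    simpa [rm, h] using congrFun e (some k), fun e => e ▸ rfl⟩

theorem FanEx_pm {i k : ι} : rp col k ≠ rm i := fun e => by
  have := congrFun e (some k)
  simp only [rp, rm, Option.elim, if_true] at this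
  split_ifs at this
  omega

theorem FanEx_pe {k : ι} : rp col k ≠ eT ι := fun e => by simpa [rp, eT] using congrFun e (some k)

theorem FanEx_me {k : ι} : rm k ≠ eT ι := fun e => by simpa [rm, eT] using congrFun e (some k)

theorem FanEx_coord {v : Option ι → ℤ} (hv : v ∈ gam0 col) (i : ι) :
    v (some i) = (if v = rp col i then 1 else 0) - if v = rm i then 1 else 0 := by
  rcases FanEx_gam0.1 hv with rfl | ⟨k, rfl⟩ | ⟨k, rfl⟩
  · rw [if_neg FanEx_pe.symm, if_neg FanEx_me.symm]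
    rfl
  · simp only [FanEx_pp, if_neg FanEx_pm, sub_zero]
    simp [rp, eq_comm]
  · simp only [FanEx_mm, if_neg FanEx_pm.symm, zero_sub]
    by_cases h : k = i <;> simp [rm, h, eq_comm]

theorem FanEx_phase0 (col : ι → Col) : FanEx_Works (fun γ => γ = gam0 col) fun γ =>
    (γ ⊆ gam0 col ∧ eT ι ∈ γ) ∧ ∀ i ∈ Finset.univ, ¬ (rp col i ∈ γ ∧ rm i ∈ γ) := by
  refine FanEx_ind _ _ _ (by
    rintro _ rfl
    exact ⟨subset_rfl, FanEx_gam0.2 (.inl rfl)⟩) (fun i W => ?_) _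
  refine FanEx_one ⟨rp col i, rm i, eT ι⟩ fun γ ⟨⟨h1, h2⟩, h3⟩ => ⟨⟨FanEx_pm,
    ⟨Pi.single (some i) 1, fun v hv => ?_⟩, fun _ _ => ?_⟩, fun a => ⟨⟨fun v hv => ?_, ?_⟩,
      FanEx_both FanEx_pe FanEx_me, fun j hj k => h3 j hj ⟨?_, ?_⟩⟩⟩
  · rw [single_dotProduct, one_mul]
    exact FanEx_coord (h1 hv) i
  · by_cases h : col i = .B
    · refine .inr ⟨h2, 2, two_pos, funext fun a => ?_⟩
      cases a with
      | none => simp [rp, rm, eT, h]
      | some k => by_cases e : k = i <;> simp [rp, rm, eT, e]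
    · refine .inl (funext fun a => ?_)
      cases a with
      | none => simp [rp, rm, eT, h]
      | some k => by_cases e : k = i <;> simp [rp, rm, eT, e]
  · rcases FanEx_mem.1 hv with k | k
    · exact h1 k.1
    · exact FanEx_gam0.2 (.inl k.2.2)
  · exact FanEx_mem.2 (.inl ⟨h2, fun e => absurd e FanEx_pe.symm, fun e => absurd e FanEx_me.symm⟩)
  · exact (FanEx_mem.1 k.1).elim (fun k => k.1) fun k => absurd k.2.2 FanEx_pe
  · exact (FanEx_mem.1 k.2).elim (fun k => k.1) fun k => absurd k.2.2 FanEx_me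

theorem FanEx_psi_p {i : ι} (h : col i = .A) : psi col ⬝ᵥ rp col i = 1 := by
  simp [FanEx_dot_rp, psi, h]

theorem FanEx_psi_m {i : ι} (h : col i = .A) : psi col ⬝ᵥ rm i = -2 := by
  simp [FanEx_dot_rm, psi, h]

/-- the invariant of the edge subdivisions -/
structure FanEx_Inv (col : ι → Col) (U : Finset (Option ι → ℤ)) (γ : Finset (Option ι → ℤ)) :
    Prop where
  dual : HasDual γ
  sign : ∀ i : ι, (∀ v ∈ γ, 0 ≤ v (some i)) ∨ (∀ v ∈ γ, v (some i) ≤ 0)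
  oinv : ∀ v ∈ γ, ∀ o, col o = .O → v = rp col o ∨ v (some o) ≤ 0
  pos : ∀ v ∈ γ, 0 < psi col ⬝ᵥ v → ∃ i, col i = .A ∧ v = rp col i
  neg : ∀ v ∈ γ, psi col ⬝ᵥ v < 0 → (v ∈ U ∧ psi col ⬝ᵥ v = -1) ∨ ∃ j, col j = .A ∧ v = rm j

theorem FanEx_start {U γ : Finset (Option ι → ℤ)} (hU : gam0 col ⊆ U) (h1 : γ ⊆ gam0 col)
    (h2 : ∀ i, ¬ (rp col i ∈ γ ∧ rm i ∈ γ)) : FanEx_Inv col U γ := by
  refine ⟨fun v hv => ?_, fun i => ?_, fun v hv o _ => ?_, fun v hv h => ?_, fun v hv h => ?_⟩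
  · rcases FanEx_gam0.1 (h1 hv) with rfl | ⟨i, rfl⟩ | ⟨i, rfl⟩
    · refine ⟨fun a => a.elim 1 fun k => if rm k ∈ γ then 1 else if col k = .B then -1 else 0,
        fun v' hv' => ?_⟩
      rcases FanEx_gam0.1 (h1 hv') with rfl | ⟨k, rfl⟩ | ⟨k, rfl⟩
      · simp [FanEx_dot_eT]
      · have : rm k ∉ γ := fun e => h2 k ⟨hv', e⟩
        rw [FanEx_dot_rp, if_neg FanEx_pe]
        by_cases e : col k = .B <;> simp [this, e]
      · rw [FanEx_dot_rm, if_neg FanEx_me]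
        simp [hv']
    · refine ⟨Pi.single (some i) 1, fun v' hv' => ?_⟩
      rw [single_dotProduct, one_mul, FanEx_coord (h1 hv') i,
        if_neg (c := v' = rm i) fun e => h2 i ⟨hv, e ▸ hv'⟩, sub_zero]
    · refine ⟨Pi.single (some i) (-1), fun v' hv' => ?_⟩
      rw [single_dotProduct, FanEx_coord (h1 hv') i,
        if_neg (c := v' = rp col i) fun e => h2 i ⟨e ▸ hv', hv⟩]
      ring
  · by_cases h : rp col i ∈ γ
    · refine .inl fun v hv => ?_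
      rw [FanEx_coord (h1 hv) i, if_neg (c := v = rm i) fun e => h2 i ⟨h, e ▸ hv⟩]
      split_ifs <;> omega
    · refine .inr fun v hv => ?_
      rw [FanEx_coord (h1 hv) i, if_neg (c := v = rp col i) fun e => h (e ▸ hv)]
      split_ifs <;> omega
  · by_cases e : v = rp col o
    · exact .inl e
    · rw [FanEx_coord (h1 hv) o, if_neg e]
      exact .inr (by split_ifs <;> omega)
  · rcases FanEx_gam0.1 (h1 hv) with rfl | ⟨i, rfl⟩ | ⟨i, rfl⟩
    · simp [FanEx_dot_eT, psi] at h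
    · refine ⟨i, ?_, rfl⟩
      by_contra e
      simp only [FanEx_dot_rp, psi, Option.elim, if_neg e] at h
      split_ifs at h <;> omega
    · simp only [FanEx_dot_rm, psi, Option.elim] at h
      split_ifs at h <;> omega
  · rcases FanEx_gam0.1 (h1 hv) with rfl | ⟨i, rfl⟩ | ⟨i, rfl⟩
    · exact .inl ⟨hU (h1 hv), FanEx_dot_eT _⟩
    · refine .inl ⟨hU (h1 hv), ?_⟩
      simp only [FanEx_dot_rp, psi, Option.elim] at h ⊢
      split_ifs at h ⊢ <;> omega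
    · by_cases e : col i = .A
      · exact .inr ⟨i, e, rfl⟩
      · exact .inl ⟨hU (h1 hv), by simp [FanEx_dot_rm, psi, e]⟩

theorem FanEx_step {U γ : Finset (Option ι → ℤ)} (h : FanEx_Inv col U γ) {i : ι} (hi : col i = .A)
    {w : Option ι → ℤ} (hw : psi col ⬝ᵥ w = -1 ∨ (psi col ⬝ᵥ w = -2 ∧ rp col i + w ∈ U)) :
    (Step.mk (rp col i) w (rp col i + w)).OK γ ∧
      ∀ a, FanEx_Inv col U ((Step.mk (rp col i) w (rp col i + w)).cut a γ) := by
  have e1 := FanEx_psi_p hi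
  have e2 : psi col ⬝ᵥ (rp col i + w) = 1 + psi col ⬝ᵥ w := by rw [dotProduct_add, e1]
  obtain ⟨k1, k2⟩ := FanEx_edge h.dual (r := rp col i) (w := w) (by
    rintro rfl
    omega)
  refine ⟨k1, fun a => ⟨k2 a, fun j => (h.sign j).imp (fun k v hv => ?_) fun k v hv => ?_,
    fun v hv o ho => ?_, fun v hv k => ?_, fun v hv k => ?_⟩⟩ <;>
    rcases FanEx_mem.1 hv with k' | ⟨k3, k4, rfl⟩
  · exact k v k'.1
  · exact add_nonneg (k _ k3) (k _ k4)
  · exact k v k'.1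
  · exact add_nonpos (k _ k3) (k _ k4)
  · exact h.oinv v k'.1 o ho
  · have n : o ≠ i := by
      rintro rfl
      simp [hi] at ho
    rcases h.oinv w k4 o ho with rfl | k5
    · simp [FanEx_dot_rp, psi, ho] at hw
    · exact .inr (by simpa [rp, n] using k5)
  · exact h.pos v k'.1 k
  · simp only at k
    omega
  · exact h.neg v k'.1 k
  · simp only at k ⊢
    exact .inl ⟨(hw.resolve_left (by omega)).2, by omega⟩

theorem FanEx_old {γ : Finset (Option ι → ℤ)} {r w v : Option ι → ℤ} {a : St}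
    (hv : v ∈ (Step.mk r w (r + w)).cut a γ) (hn : psi col ⬝ᵥ v ≠ psi col ⬝ᵥ r + psi col ⬝ᵥ w) :
    v ∈ γ :=
  (FanEx_mem.1 hv).elim (fun k => k.1) fun k => absurd (by rw [k.2.2, dotProduct_add]) hn

theorem FanEx_new {γ : Finset (Option ι → ℤ)} {r w : Option ι → ℤ} {a : St}
    (h1 : psi col ⬝ᵥ r ≠ 0) (h2 : psi col ⬝ᵥ w ≠ 0) :
    ¬ (r ∈ (Step.mk r w (r + w)).cut a γ ∧ w ∈ (Step.mk r w (r + w)).cut a γ) :=
  FanEx_both (T := Step.mk r w (r + w))
    (fun e => h2 (by rw [(left_eq_add.1 e : w = 0), dotProduct_zero]))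
    fun e => h1 (by rw [(right_eq_add.1 e : r = 0), dotProduct_zero])

/- Proof. Say `Works Q Q'` if there are `K, T` such that for every `γ` with `Q γ` and every `ε`
all steps `k < K` are `OK` and `Q' (gam γ T ε K)`. `Works` is reflexive and transitive
(`T k = if k < K₁ then T₁ k else T₂ (k - K₁)`,
`gam γ T ε (K₁ + k) = gam (gam γ T ε K₁) T₂ (fun j => ε (K₁ + j)) k`), and one step gives one
instance. Phase 0 (induction over a finset `W` of `ι`): steps `⟨rp i, rm i, eT⟩` with `φ` the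
coordinate `some i`, invariant `γ ⊆ gam0 ∧ eT ∈ γ ∧ ∀ i ∈ W, ¬ (rp i ∈ γ ∧ rm i ∈ γ)`;
`rp i + rm i = eT` or `2 • eT`. At the end `γ` has dual vectors (`± e_i`, and
`e_τ + ∑ c_i e_i`), definite signs and `oinv`. Edge steps `⟨r, w, r + w⟩` with `r = rp i`,
`col i = A`, `psi ⬝ᵥ w < 0` are `OK` (`φ` = difference of dual vectors) and preserve
`Inv γ`: `HasDual` (dual of `z` is `u_w`, of `r` is `u_r - u_w`; symmetric), `sign`, `oinv`, and
every `v ∈ γ` with `0 < psi ⬝ᵥ v` is some `rp i`, `col i = A` (`psi ⬝ᵥ rp i = 1`).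
Phase 1: all pairs `(rp i, rm j)` with `col i = col j = A` (`psi = -2`); invariant: `γ ⊆ U₁`
(`gam0` and the sums `rp i + rm j`), processed pairs do not lie together in `γ`. Phase 2: all
pairs `(rp i, w)`, `w ∈ U₁`, `psi ⬝ᵥ w = -1`; invariant: every `v ∈ γ` with `psi ⬝ᵥ v < 0` is in
`U₁`, and processed pairs of both phases are absent (a new `z` has `psi = -1` in phase 1 and
`psi = 0` in phase 2, so it is not a member of a processed pair). Then `side` holds. -/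
theorem exists_fan (col : ι → Col) : ∃ (K : ℕ) (T : ℕ → Step (Option ι)),
    (∀ k < K, ∀ ε, (T k).OK (gam (gam0 col) T ε k)) ∧
      ∀ ε, FinalOK col (gam (gam0 col) T ε K) := by
  obtain ⟨U, hU, hU'⟩ : ∃ U : Finset (Option ι → ℤ), gam0 col ⊆ U ∧
      ∀ i j, rp col i + rm j ∈ U :=
    ⟨gam0 col ∪ Finset.univ.image fun p : ι × ι => rp col p.1 + rm p.2, Finset.subset_union_left,
      fun i j => Finset.mem_union_right _ (Finset.mem_image_of_mem _ (Finset.mem_univ (i, j)))⟩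
  have h1 := FanEx_trans (FanEx_phase0 col) (FanEx_ind _ (FanEx_Inv col U)
    (fun (p : ι × ι) γ => col p.1 = .A → col p.2 = .A → ¬ (rp col p.1 ∈ γ ∧ rm p.2 ∈ γ))
    (fun γ k => FanEx_start hU k.1.1 fun i => k.2 i (Finset.mem_univ i)) (fun p W => by
      by_cases hp : col p.1 = .A ∧ col p.2 = .A
      · have e1 := FanEx_psi_p hp.1
        have e2 := FanEx_psi_m hp.2
        refine FanEx_one ⟨rp col p.1, rm p.2, rp col p.1 + rm p.2⟩ fun γ ⟨k1, k2⟩ => ?_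
        obtain ⟨k3, k4⟩ := FanEx_step k1 hp.1 (.inr ⟨e2, hU' _ _⟩)
        refine ⟨k3, fun a => ⟨k4 a, fun _ _ => FanEx_new (col := col) (by omega) (by omega),
          fun b hb b1 b2 k => k2 b hb b1 b2 ⟨FanEx_old (col := col) k.1 ?_,
            FanEx_old (col := col) k.2 ?_⟩⟩⟩
        · rw [FanEx_psi_p b1]
          omega
        · rw [FanEx_psi_m b2]
          omega
      · exact FanEx_imp fun γ k => ⟨k.1, fun a b => absurd ⟨a, b⟩ hp, k.2⟩) Finset.univ)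
  have h2 := FanEx_trans h1 (FanEx_ind _ (fun γ => FanEx_Inv col U γ ∧
      ∀ p ∈ (Finset.univ : Finset (ι × ι)),
      col p.1 = .A → col p.2 = .A → ¬ (rp col p.1 ∈ γ ∧ rm p.2 ∈ γ))
    (fun (p : ι × (Option ι → ℤ)) γ => col p.1 = .A → psi col ⬝ᵥ p.2 = -1 →
      ¬ (rp col p.1 ∈ γ ∧ p.2 ∈ γ)) (fun _ k => k) (fun p W => by
      by_cases hp : col p.1 = .A ∧ psi col ⬝ᵥ p.2 = -1
      · have e1 := FanEx_psi_p hp.1
        have e2 := hp.2
        refine FanEx_one ⟨rp col p.1, p.2, rp col p.1 + p.2⟩ fun γ ⟨⟨k1, k0⟩, k2⟩ => ?_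
        obtain ⟨k3, k4⟩ := FanEx_step k1 hp.1 (.inl e2)
        refine ⟨k3, fun a => ⟨⟨k4 a, fun b hb b1 b2 k => k0 b hb b1 b2
          ⟨FanEx_old (col := col) k.1 ?_, FanEx_old (col := col) k.2 ?_⟩⟩,
          fun _ _ => FanEx_new (col := col) (by omega) (by omega),
          fun b hb b1 b2 k => k2 b hb b1 b2 ⟨FanEx_old (col := col) k.1 ?_,
            FanEx_old (col := col) k.2 ?_⟩⟩⟩
        · rw [FanEx_psi_p b1]
          omega
        · rw [FanEx_psi_m b2]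
          omega
        · rw [FanEx_psi_p b1]
          omega
        · omega
      · exact FanEx_imp fun γ k => ⟨k.1, fun a b => absurd ⟨a, b⟩ hp, k.2⟩) (Finset.univ ×ˢ U))
  obtain ⟨K, T, h⟩ := h2
  refine ⟨K, T, fun k hk ε => (h _ rfl ε).1 k hk, fun ε => ?_⟩
  obtain ⟨⟨k1, k2⟩, k3⟩ := (h _ rfl ε).2
  refine ⟨k1.dual, ?_, k1.sign, k1.oinv⟩
  by_contra hn
  simp only [not_or, not_forall, not_le] at hn
  obtain ⟨⟨w, hw, a1⟩, v, hv, a2⟩ := hn
  obtain ⟨i, hi, rfl⟩ := k1.pos v hv a2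
  rcases k1.neg w hw a1 with ⟨a3, a4⟩ | ⟨j, hj, rfl⟩
  · exact k3 (i, w) (Finset.mem_product.2 ⟨Finset.mem_univ _, a3⟩) hi a4 ⟨hv, hw⟩
  · exact k2 (i, j) (Finset.mem_univ _) hi hj ⟨hv, hw⟩

end Pool.Agent.P.MP_824f38_ag.DB
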