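import Pool.Agent.P.MP_824f38_ag.H.Fan

/-! Mayer-Vietoris properties of binary subdivisions. -/

set_option linter.unusedSectionVars false
set_option linter.style.haveILetI false

namespace Pool.Agent.P.MP_824f38_ag.DB

open Function

variable {κ : Type} [Fintype κ] [DecidableEq κ]
  {Γ : Type} [AddCommGroup Γ] [LinearOrder Γ] [IsOrderedAddMonoid Γ]

theorem FanMV_zero (G : Finset (κ → ℤ)) : InCone G (0 : κ → Γ) :=
  ⟨fun _ => 0, fun _ => le_rfl, fun i => by simp⟩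

theorem FanMV_add {G : Finset (κ → ℤ)} {ξ η : κ → Γ} (h₁ : InCone G ξ) (h₂ : InCone G η) :
    InCone G (ξ + η) := by
  obtain ⟨c, hc, hξ⟩ := h₁
  obtain ⟨d, hd, hη⟩ := h₂
  refine ⟨fun v => c v + d v, fun v => add_nonneg (hc v) (hd v), fun i => ?_⟩
  simp only [Pi.add_apply, hξ i, hη i, smul_add, Finset.sum_add_distrib]

theorem FanMV_single {G : Finset (κ → ℤ)} {v : κ → ℤ} (hv : v ∈ G) {c : Γ} (hc : 0 ≤ c) :
    InCone G (fun i => v i • c) := by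
  refine ⟨fun u => if u = v then c else 0, fun u => ?_, fun i => ?_⟩
  · show 0 ≤ (if u = v then c else 0)
    split_ifs
    · exact hc
    · exact le_rfl
  · rw [Finset.sum_eq_single v]
    · simp
    · intro u _ hu
      simp [hu]
    · intro h
      exact absurd hv h

theorem FanMV_sum {G G' : Finset (κ → ℤ)} (c : (κ → ℤ) → Γ)
    (h : ∀ v ∈ G, InCone G' (fun i => v i • c v)) :
    InCone G' (fun i => ∑ v ∈ G, v i • c v) := by
  induction G using Finset.induction_on with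
  | empty => exact ⟨fun _ => 0, fun _ => le_rfl, fun i => by simp⟩
  | insert a s ha ih =>
    have h1 := FanMV_add (h a (Finset.mem_insert_self _ _))
      (ih fun v hv => h v (Finset.mem_insert_of_mem hv))
    have e : (fun i => ∑ v ∈ insert a s, v i • c v) =
        (fun i => a i • c a) + fun i => ∑ v ∈ s, v i • c v := by
      funext i
      rw [Finset.sum_insert ha]
      rfl
    rw [e]
    exact h1

theorem FanMV_trans {G G' : Finset (κ → ℤ)} {ξ : κ → Γ} (hξ : InCone G ξ)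
    (h : ∀ v ∈ G, ∀ c : Γ, 0 ≤ c → InCone G' (fun i => v i • c)) : InCone G' ξ := by
  obtain ⟨c, hc, hξ⟩ := hξ
  have e : ξ = fun i => ∑ v ∈ G, v i • c v := funext hξ
  rw [e]
  exact FanMV_sum c fun v hv => h v hv _ (hc v)

theorem FanMV_smul {G : Finset (κ → ℤ)} {ξ : κ → Γ} (h : InCone G ξ) {n : ℤ} (hn : 0 ≤ n) :
    InCone G (n • ξ) := by
  obtain ⟨c, hc, hξ⟩ := h
  refine ⟨fun v => n • c v, fun v => zsmul_nonneg (hc v) hn, fun i => ?_⟩
  rw [Pi.smul_apply, hξ i, Finset.smul_sum]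
  exact Finset.sum_congr rfl fun v _ => smul_comm _ _ _

theorem FanMV_mem_cut {T : Step κ} {a : St} {γ : Finset (κ → ℤ)} {v : κ → ℤ} :
    v ∈ T.cut a γ ↔ (v ∈ γ ∧ (v = T.r → a = some true) ∧ (v = T.w → a = some false)) ∨
      (T.r ∈ γ ∧ T.w ∈ γ ∧ v = T.z) := by
  unfold Step.cut
  rw [Finset.mem_union, Finset.mem_filter]
  by_cases h : T.r ∈ γ ∧ T.w ∈ γ
  · rw [if_pos h, Finset.mem_singleton]
    exact or_congr Iff.rfl ⟨fun e => ⟨h.1, h.2, e⟩, fun e => e.2.2⟩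
  · rw [if_neg h]
    exact or_congr Iff.rfl ⟨fun e => absurd e (Finset.notMem_empty _),
      fun e => absurd ⟨e.1, e.2.1⟩ h⟩

/-- the value of a linear form on a point with coordinates in `Γ` -/
def FanMV_ev (φ : κ → ℤ) (ξ : κ → Γ) : Γ := ∑ i, φ i • ξ i

theorem FanMV_ev_eq (φ : κ → ℤ) {G : Finset (κ → ℤ)} {ξ : κ → Γ} {c : (κ → ℤ) → Γ}
    (hξ : ∀ i, ξ i = ∑ v ∈ G, v i • c v) : FanMV_ev φ ξ = ∑ v ∈ G, (φ ⬝ᵥ v) • c v := by
  unfold FanMV_ev
  simp only [hξ, Finset.smul_sum, dotProduct, Finset.sum_smul, mul_smul]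
  exact Finset.sum_comm

theorem FanMV_ev_neg (φ : κ → ℤ) (ξ : κ → Γ) : FanMV_ev (-φ) ξ = -FanMV_ev φ ξ := by
  unfold FanMV_ev
  simp only [Pi.neg_apply, neg_smul, Finset.sum_neg_distrib]

theorem FanMV_ev_int (φ ξ : κ → ℤ) : FanMV_ev φ ξ = φ ⬝ᵥ ξ := by
  simp [FanMV_ev, dotProduct]

theorem FanMV_ev_nonneg {φ : κ → ℤ} {G : Finset (κ → ℤ)} {ξ : κ → Γ} (hξ : InCone G ξ)
    (h : ∀ v ∈ G, 0 ≤ φ ⬝ᵥ v) : 0 ≤ FanMV_ev φ ξ := by
  obtain ⟨c, hc, hξ⟩ := hξ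
  rw [FanMV_ev_eq φ hξ]
  exact Finset.sum_nonneg fun v hv => zsmul_nonneg (hc v) (h v hv)

theorem FanMV_face {φ : κ → ℤ} {G G' : Finset (κ → ℤ)} {ξ : κ → Γ} (hξ : InCone G ξ)
    (h : ∀ v ∈ G, 0 ≤ φ ⬝ᵥ v) (h' : ∀ v ∈ G, v ∈ G' ∨ 0 < φ ⬝ᵥ v) (h0 : FanMV_ev φ ξ ≤ 0) :
    InCone G' ξ := by
  obtain ⟨c, hc, hξ⟩ := hξ
  rw [FanMV_ev_eq φ hξ] at h0
  have hn : ∀ v ∈ G, 0 ≤ (φ ⬝ᵥ v) • c v := fun v hv => zsmul_nonneg (hc v) (h v hv)
  have hz := (Finset.sum_eq_zero_iff_of_nonneg hn).1 (le_antisymm h0 (Finset.sum_nonneg hn))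
  have e : ξ = fun i => ∑ v ∈ G, v i • c v := funext hξ
  rw [e]
  refine FanMV_sum c fun v hv => ?_
  rcases h' v hv with hv' | hpos
  · exact FanMV_single hv' (hc v)
  · have hcv : c v = 0 := by
      rcases (hc v).eq_or_lt with h1 | h1
      · exact h1.symm
      · exact absurd (hz v hv) (zsmul_pos h1 hpos).ne'
    rw [hcv]
    exact ⟨fun _ => 0, fun _ => le_rfl, fun i => by simp⟩

theorem FanMV_phi_z {T : Step κ} {γ : Finset (κ → ℤ)} (hT : T.OK γ) {φ : κ → ℤ}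
    (hφ : ∀ v ∈ γ, φ ⬝ᵥ v = (if v = T.r then 1 else 0) - (if v = T.w then 1 else 0))
    (hr : T.r ∈ γ) (hw : T.w ∈ γ) : φ ⬝ᵥ T.z = 0 := by
  have h1 := hφ _ hr
  have h2 := hφ _ hw
  rw [if_pos rfl, if_neg hT.1] at h1
  rw [if_neg hT.1.symm, if_pos rfl] at h2
  have h3 : φ ⬝ᵥ (T.r + T.w) = 0 := by rw [dotProduct_add, h1, h2]; norm_num
  rcases hT.2.2 hr hw with h | ⟨_, c, hc, h⟩
  · rwa [h] at h3
  · rw [h, dotProduct_smul, nsmul_eq_mul] at h3
    rcases mul_eq_zero.1 h3 with h4 | h4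
    · exact absurd (Nat.cast_eq_zero.1 h4) hc.ne'
    · exact h4

theorem FanMV_plus {T : Step κ} {γ : Finset (κ → ℤ)} (hT : T.OK γ) {φ : κ → ℤ}
    (hφ : ∀ v ∈ γ, φ ⬝ᵥ v = (if v = T.r then 1 else 0) - (if v = T.w then 1 else 0)) :
    ∀ v ∈ T.cut (some true) γ, (v ∈ T.cut none γ ∧ φ ⬝ᵥ v = 0) ∨ 0 < φ ⬝ᵥ v := by
  intro v hv
  rcases FanMV_mem_cut.1 hv with ⟨hv, -, hw⟩ | ⟨hr, hw, rfl⟩
  · have hw' : v ≠ T.w := fun e => by simpa using hw e
    by_cases hr : v = T.r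
    · right
      rw [hφ v hv, if_pos hr, if_neg hw']
      norm_num
    · left
      refine ⟨FanMV_mem_cut.2 (Or.inl ⟨hv, fun e => absurd e hr, fun e => absurd e hw'⟩), ?_⟩
      rw [hφ v hv, if_neg hr, if_neg hw']
      norm_num
  · exact Or.inl ⟨FanMV_mem_cut.2 (Or.inr ⟨hr, hw, rfl⟩), FanMV_phi_z hT hφ hr hw⟩

theorem FanMV_minus {T : Step κ} {γ : Finset (κ → ℤ)} (hT : T.OK γ) {φ : κ → ℤ}
    (hφ : ∀ v ∈ γ, φ ⬝ᵥ v = (if v = T.r then 1 else 0) - (if v = T.w then 1 else 0)) :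
    ∀ v ∈ T.cut (some false) γ, (v ∈ T.cut none γ ∧ (-φ) ⬝ᵥ v = 0) ∨ 0 < (-φ) ⬝ᵥ v := by
  intro v hv
  rw [neg_dotProduct]
  rcases FanMV_mem_cut.1 hv with ⟨hv, hr, -⟩ | ⟨hr, hw, rfl⟩
  · have hr' : v ≠ T.r := fun e => by simpa using hr e
    by_cases hw : v = T.w
    · right
      rw [hφ v hv, if_neg hr', if_pos hw]
      norm_num
    · left
      refine ⟨FanMV_mem_cut.2 (Or.inl ⟨hv, fun e => absurd e hr', fun e => absurd e hw⟩), ?_⟩
      rw [hφ v hv, if_neg hr', if_neg hw]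
      norm_num
  · refine Or.inl ⟨FanMV_mem_cut.2 (Or.inr ⟨hr, hw, rfl⟩), ?_⟩
    rw [FanMV_phi_z hT hφ hr hw, neg_zero]

theorem FanMV_plus_nonneg {T : Step κ} {γ : Finset (κ → ℤ)} (hT : T.OK γ) {φ : κ → ℤ}
    (hφ : ∀ v ∈ γ, φ ⬝ᵥ v = (if v = T.r then 1 else 0) - (if v = T.w then 1 else 0))
    {ξ : κ → Γ} (h : InCone (T.cut (some true) γ) ξ) : 0 ≤ FanMV_ev φ ξ :=
  FanMV_ev_nonneg h fun v hv => (FanMV_plus hT hφ v hv).elim (fun e => e.2.ge) le_of_lt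

theorem FanMV_minus_nonpos {T : Step κ} {γ : Finset (κ → ℤ)} (hT : T.OK γ) {φ : κ → ℤ}
    (hφ : ∀ v ∈ γ, φ ⬝ᵥ v = (if v = T.r then 1 else 0) - (if v = T.w then 1 else 0))
    {ξ : κ → Γ} (h : InCone (T.cut (some false) γ) ξ) : FanMV_ev φ ξ ≤ 0 := by
  have h1 : 0 ≤ FanMV_ev (-φ) ξ :=
    FanMV_ev_nonneg h fun v hv => (FanMV_minus hT hφ v hv).elim (fun e => e.2.ge) le_of_lt
  rw [FanMV_ev_neg] at h1
  exact neg_nonneg.1 h1

theorem FanMV_plus_wall {T : Step κ} {γ : Finset (κ → ℤ)} (hT : T.OK γ) {φ : κ → ℤ}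
    (hφ : ∀ v ∈ γ, φ ⬝ᵥ v = (if v = T.r then 1 else 0) - (if v = T.w then 1 else 0))
    {ξ : κ → Γ} (h : InCone (T.cut (some true) γ) ξ) (h0 : FanMV_ev φ ξ ≤ 0) :
    InCone (T.cut none γ) ξ :=
  FanMV_face h (fun v hv => (FanMV_plus hT hφ v hv).elim (fun e => e.2.ge) le_of_lt)
    (fun v hv => (FanMV_plus hT hφ v hv).imp_left And.left) h0

theorem FanMV_minus_wall {T : Step κ} {γ : Finset (κ → ℤ)} (hT : T.OK γ) {φ : κ → ℤ}
    (hφ : ∀ v ∈ γ, φ ⬝ᵥ v = (if v = T.r then 1 else 0) - (if v = T.w then 1 else 0))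
    {ξ : κ → Γ} (h : InCone (T.cut (some false) γ) ξ) (h0 : 0 ≤ FanMV_ev φ ξ) :
    InCone (T.cut none γ) ξ :=
  FanMV_face (φ := -φ) h
    (fun v hv => (FanMV_minus hT hφ v hv).elim (fun e => e.2.ge) le_of_lt)
    (fun v hv => (FanMV_minus hT hφ v hv).imp_left And.left)
    (by rw [FanMV_ev_neg]; exact neg_nonpos.2 h0)

theorem InCone.mono {G G' : Finset (κ → ℤ)} {ξ : κ → Γ} (h : G ⊆ G') (hξ : InCone G ξ) :
    InCone G' ξ := by
  exact FanMV_trans hξ fun v hv c hc => FanMV_single (h hv) hc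

theorem InCone.of_mem {G : Finset (κ → ℤ)} {v : κ → ℤ} (h : v ∈ G) : InCone G v := by
  simpa using FanMV_single (Γ := ℤ) h zero_le_one

theorem cut_mono (T : Step κ) {a a' : St} (ha : a = a' ∨ a' = none) {γ γ' : Finset (κ → ℤ)}
    (h : γ' ⊆ γ) : T.cut a' γ' ⊆ T.cut a γ := by
  intro v hv
  rcases FanMV_mem_cut.1 hv with ⟨hv, hr, hw⟩ | ⟨hr, hw, e⟩
  · refine FanMV_mem_cut.2 (Or.inl ⟨h hv, fun e => ?_, fun e => ?_⟩)
    · rcases ha with ha | ha
      · rw [ha]; exact hr e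
      · rw [ha] at hr; simpa using hr e
    · rcases ha with ha | ha
      · rw [ha]; exact hw e
      · rw [ha] at hw; simpa using hw e
  · exact FanMV_mem_cut.2 (Or.inr ⟨h hr, h hw, e⟩)

theorem gam_anti (γ : Finset (κ → ℤ)) (T : ℕ → Step κ) {ε ε' : ℕ → St} (k : ℕ)
    (h : ∀ j < k, ε j = ε' j ∨ ε' j = none) : gam γ T ε' k ⊆ gam γ T ε k := by
  induction k with
  | zero => exact subset_rfl
  | succ k ih =>
    exact cut_mono (T k) (h k (Nat.lt_succ_self k))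
      (ih fun j hj => h j (Nat.lt_succ_of_lt hj))

theorem gam_dep (γ : Finset (κ → ℤ)) (T : ℕ → Step κ) {ε ε' : ℕ → St} (k : ℕ)
    (h : ∀ j < k, ε j = ε' j) : gam γ T ε k = gam γ T ε' k := by
  exact subset_antisymm (gam_anti γ T k fun j hj => Or.inl (h j hj).symm)
    (gam_anti γ T k fun j hj => Or.inl (h j hj))

/- If `z ∉ γ` is new then `z = r + w`: move its coefficient to `r` and `w`. -/
theorem inCone_cut {T : Step κ} {γ : Finset (κ → ℤ)} (hT : T.OK γ) (a : St) {ξ : κ → Γ}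
    (h : InCone (T.cut a γ) ξ) : InCone γ ξ := by
  refine FanMV_trans h fun v hv c hc => ?_
  rcases FanMV_mem_cut.1 hv with ⟨hv, -, -⟩ | ⟨hr, hw, rfl⟩
  · exact FanMV_single hv hc
  · rcases hT.2.2 hr hw with e | ⟨hz, -⟩
    · have h1 := FanMV_add (FanMV_single hr hc) (FanMV_single hw hc)
      have e' : (fun i => T.z i • c) = (fun i => T.r i • c) + fun i => T.w i • c := by
        funext i
        rw [← e, Pi.add_apply, add_smul]
        rfl
      rw [e']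
      exact h1
    · exact FanMV_single hz hc

/- If both `r, w ∈ γ` and `c w ≤ c r`, use `c r - c w` at `r` and add `n • c w` at `z`
(`r + w = n • z`; `φ` shows `z ≠ r, w`, and `z ∉ γ` or `z ∈ γ` are both possible). -/
theorem mv1 {T : Step κ} {γ : Finset (κ → ℤ)} (hT : T.OK γ) {ξ : κ → Γ} (h : InCone γ ξ) :
    InCone (T.cut (some true) γ) ξ ∨ InCone (T.cut (some false) γ) ξ := by
  by_cases hw : T.w ∈ γ
  swap
  · exact Or.inl (h.mono fun v hv => FanMV_mem_cut.2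
      (Or.inl ⟨hv, fun _ => rfl, fun e => absurd (e ▸ hv) hw⟩))
  by_cases hr : T.r ∈ γ
  swap
  · exact Or.inr (h.mono fun v hv => FanMV_mem_cut.2
      (Or.inl ⟨hv, fun e => absurd (e ▸ hv) hr, fun _ => rfl⟩))
  obtain ⟨c, hc, hξ⟩ := h
  have hn : ∃ n : ℕ, T.r + T.w = n • T.z := by
    rcases hT.2.2 hr hw with e | ⟨-, n, -, e⟩
    · exact ⟨1, by rw [one_smul, e]⟩
    · exact ⟨n, e⟩
  obtain ⟨n, hn⟩ := hn
  have hz : ∀ (a : St) (d : Γ), 0 ≤ d → InCone (T.cut a γ) (fun i => (T.r i + T.w i) • d) := by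
    intro a d hd
    have h1 : InCone (T.cut a γ) (fun i => T.z i • (n • d)) :=
      FanMV_single (FanMV_mem_cut.2 (Or.inr ⟨hr, hw, rfl⟩)) (nsmul_nonneg hd n)
    have e : (fun i => (T.r i + T.w i) • d) = fun i => T.z i • (n • d) := by
      funext i
      have := congrFun hn i
      rw [Pi.add_apply, Pi.smul_apply] at this
      rw [this, smul_assoc, smul_comm]
    rw [e]
    exact h1
  have hrest : ∀ a : St, InCone (T.cut a γ)
      (fun i => ∑ v ∈ (γ.erase T.r).erase T.w, v i • c v) := by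
    intro a
    refine FanMV_sum c fun v hv => FanMV_single (FanMV_mem_cut.2 (Or.inl ?_)) (hc v)
    simp only [Finset.mem_erase] at hv
    exact ⟨hv.2.2, fun e => absurd e hv.2.1, fun e => absurd e hv.1⟩
  have hsplit : ∀ i, ξ i =
      T.r i • c T.r + (T.w i • c T.w + ∑ v ∈ (γ.erase T.r).erase T.w, v i • c v) := by
    intro i
    rw [hξ i, ← Finset.add_sum_erase γ _ hr,
      ← Finset.add_sum_erase (γ.erase T.r) _ (Finset.mem_erase.2 ⟨hT.1.symm, hw⟩)]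
  rcases le_total (c T.w) (c T.r) with hle | hle
  · left
    have h1 : InCone (T.cut (some true) γ) (fun i => T.r i • (c T.r - c T.w)) :=
      FanMV_single (FanMV_mem_cut.2 (Or.inl ⟨hr, fun _ => rfl, fun e => absurd e hT.1⟩))
        (sub_nonneg.2 hle)
    have h2 := FanMV_add (FanMV_add h1 (hz _ _ (hc T.w))) (hrest _)
    convert h2 using 1
    funext i
    simp only [Pi.add_apply, hsplit i, smul_sub, add_smul]
    abel
  · right
    have h1 : InCone (T.cut (some false) γ) (fun i => T.w i • (c T.w - c T.r)) :=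
      FanMV_single (FanMV_mem_cut.2 (Or.inl ⟨hw, fun e => absurd e hT.1.symm, fun _ => rfl⟩))
        (sub_nonneg.2 hle)
    have h2 := FanMV_add (FanMV_add h1 (hz _ _ (hc T.r))) (hrest _)
    convert h2 using 1
    funext i
    simp only [Pi.add_apply, hsplit i, smul_sub, add_smul]
    abel

/- With `φ` from `OK` and `φ ξ = ∑ i, φ i • ξ i`: on the plus half `φ ξ` is the coefficient of
`r` (zero if `r ∉ γ`), so it is `≥ 0`, and if it vanishes `ξ` lies on the wall; dually on the minus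
half. Induction on `K`: let `t` work for `K`; extend it by `none` if `ξ` lies on the wall of
`gam t K`, else by the sign of the half given by `mv1`. If `ξ` lies in `cut a (gam ε K)` then
`ε ≤ t` so `gam t K ⊆ gam ε K`, and the `φ` of `gam ε K` also works for `gam t K`. -/
theorem exists_top (γ : Finset (κ → ℤ)) (T : ℕ → Step κ) (K : ℕ)
    (hOK : ∀ k < K, ∀ ε, (T k).OK (gam γ T ε k)) (ξ : κ → Γ) (hξ : InCone γ ξ) :
    ∃ t : ℕ → St, ∀ ε, InCone (gam γ T ε K) ξ ↔ ∀ k < K, ε k = t k ∨ t k = none := by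
  induction K with
  | zero => exact ⟨fun _ => none, fun ε => ⟨fun _ _ hk => absurd hk (Nat.not_lt_zero _), fun _ => hξ⟩⟩
  | succ K ih =>
    obtain ⟨t, ht⟩ := ih fun k hk => hOK k (Nat.lt_succ_of_lt hk)
    have hδ : InCone (gam γ T t K) ξ := (ht t).2 fun _ _ => Or.inl rfl
    have hOKt := hOK K (Nat.lt_succ_self K) t
    have hex : ∃ a : St, InCone ((T K).cut a (gam γ T t K)) ξ ∧
        (a = none ∨ ¬ InCone ((T K).cut none (gam γ T t K)) ξ) := by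
      by_cases h0 : InCone ((T K).cut none (gam γ T t K)) ξ
      · exact ⟨none, h0, Or.inl rfl⟩
      · rcases mv1 hOKt hδ with h1 | h1
        · exact ⟨_, h1, Or.inr h0⟩
        · exact ⟨_, h1, Or.inr h0⟩
    obtain ⟨a, ha, ha'⟩ := hex
    refine ⟨update t K a, fun ε => ⟨fun h => ?_, fun h => ?_⟩⟩
    · have hOKε := hOK K (Nat.lt_succ_self K) ε
      have h' : InCone ((T K).cut (ε K) (gam γ T ε K)) ξ := h
      have hle := (ht ε).1 (inCone_cut hOKε _ h')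
      have hsub : gam γ T t K ⊆ gam γ T ε K := gam_anti γ T K hle
      intro k hk
      rcases (Nat.lt_succ_iff.1 hk).eq_or_lt with rfl | hk'
      · rw [update_self]
        rcases ha' with ha' | ha'
        · exact Or.inr ha'
        obtain ⟨φ, hφ⟩ := hOKε.2.1
        have hφt := fun v hv => hφ v (hsub hv)
        by_contra hcon
        rw [not_or] at hcon
        obtain ⟨h1, h2⟩ := hcon
        rcases a with _ | _ | _
        · exact h2 rfl
        · refine ha' (FanMV_minus_wall hOKt hφt ha (FanMV_plus_nonneg hOKε hφ ?_))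
          refine h'.mono (cut_mono _ ?_ subset_rfl)
          rcases hε : ε k with _ | _ | _
          · exact Or.inr rfl
          · exact absurd hε h1
          · exact Or.inl rfl
        · refine ha' (FanMV_plus_wall hOKt hφt ha (FanMV_minus_nonpos hOKε hφ ?_))
          refine h'.mono (cut_mono _ ?_ subset_rfl)
          rcases hε : ε k with _ | _ | _
          · exact Or.inr rfl
          · exact Or.inl rfl
          · exact absurd hε h1
      · rw [update_of_ne hk'.ne]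
        exact hle k hk'
    · have hK := h K (Nat.lt_succ_self K)
      rw [update_self] at hK
      refine ha.mono (cut_mono (T K) hK (gam_anti γ T K fun j hj => ?_))
      have hj' := h j (Nat.lt_succ_of_lt hj)
      rwa [update_of_ne hj.ne] at hj'

theorem inCone_gam (γ : Finset (κ → ℤ)) (T : ℕ → Step κ) (K : ℕ)
    (hOK : ∀ k < K, ∀ ε, (T k).OK (gam γ T ε k)) (ε : ℕ → St) {ξ : κ → Γ}
    (h : InCone (gam γ T ε K) ξ) : InCone γ ξ := by
  induction K with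
  | zero => exact h
  | succ K ih =>
    exact ih (fun k hk => hOK k (Nat.lt_succ_of_lt hk))
      (inCone_cut (hOK K (Nat.lt_succ_self K) ε) _ h)

theorem hgt_pos (γ : Finset (κ → ℤ)) (T : ℕ → Step κ) (K : ℕ)
    (hOK : ∀ k < K, ∀ ε, (T k).OK (gam γ T ε k)) (h : κ → ℤ) (h0 : ∀ v ∈ γ, 0 < h ⬝ᵥ v)
    (ε : ℕ → St) : ∀ v ∈ gam γ T ε K, 0 < h ⬝ᵥ v := by
  induction K with
  | zero => exact h0
  | succ K ih =>
    have ih' := ih fun k hk => hOK k (Nat.lt_succ_of_lt hk)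
    intro v hv
    rcases FanMV_mem_cut.1 hv with ⟨hv, -, -⟩ | ⟨hr, hw, rfl⟩
    · exact ih' v hv
    · rcases (hOK K (Nat.lt_succ_self K) ε).2.2 hr hw with e | ⟨hz, -⟩
      · rw [← e, dotProduct_add]
        exact add_pos (ih' _ hr) (ih' _ hw)
      · exact ih' _ hz

theorem pos_mv1 {T : Step κ} {γ : Finset (κ → ℤ)} (hT : T.OK γ) (L : AddSubgroup (κ → ℤ))
    (h f g : κ → ℤ) : Pos γ L h f g ↔
      Pos (T.cut (some true) γ) L h f g ∧ Pos (T.cut (some false) γ) L h f g := by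
  refine ⟨fun H => ⟨fun ξ hξ => H ξ (inCone_cut hT _ hξ), fun ξ hξ => H ξ (inCone_cut hT _ hξ)⟩,
    fun H ξ hξ => ?_⟩
  rcases mv1 hT hξ with h1 | h1
  · exact H.1 ξ h1
  · exact H.2 ξ h1

/- If `ξ₁`, `ξ₂` are counterexamples on the two halves then `φ ξ₁ ≥ 0 ≥ φ ξ₂`; if both vanish
`ξ₁` lies on the wall, else `(-φ ξ₂) • ξ₁ + (φ ξ₁) • ξ₂` is a counterexample on the wall. -/
theorem pos_mv2 {T : Step κ} {γ : Finset (κ → ℤ)} (hT : T.OK γ) (L : AddSubgroup (κ → ℤ))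
    (h f g : κ → ℤ) (H : Pos (T.cut none γ) L h f g) :
    Pos (T.cut (some true) γ) L h f g ∨ Pos (T.cut (some false) γ) L h f g := by
  by_contra hcon
  rw [not_or] at hcon
  obtain ⟨h1, h2⟩ := hcon
  simp only [Pos, not_forall] at h1 h2
  obtain ⟨ξ₁, hc₁, hL₁, hh₁, hn₁⟩ := h1
  obtain ⟨ξ₂, hc₂, hL₂, hh₂, hn₂⟩ := h2
  obtain ⟨φ, hφ⟩ := hT.2.1
  have ha := FanMV_plus_nonneg hT hφ hc₁
  have hb := FanMV_minus_nonpos hT hφ hc₂
  rcases ha.eq_or_lt with ha | ha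
  · exact hn₁ (H ξ₁ (FanMV_plus_wall hT hφ hc₁ ha.ge) hL₁ hh₁)
  rcases hb.eq_or_lt with hb | hb
  · exact hn₂ (H ξ₂ (FanMV_minus_wall hT hφ hc₂ hb.ge) hL₂ hh₂)
  rw [FanMV_ev_int] at ha hb
  obtain ⟨a, hae⟩ : ∃ a, φ ⬝ᵥ ξ₁ = a := ⟨_, rfl⟩
  obtain ⟨b, hbe⟩ : ∃ b, -(φ ⬝ᵥ ξ₂) = b := ⟨_, rfl⟩
  have ha' : 0 < a := hae ▸ ha
  have hb' : 0 < b := hbe ▸ neg_pos.2 hb
  have hη : InCone γ (b • ξ₁ + a • ξ₂) :=
    FanMV_add (FanMV_smul (inCone_cut hT _ hc₁) hb'.le) (FanMV_smul (inCone_cut hT _ hc₂) ha'.le)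
  have hη0 : FanMV_ev φ (b • ξ₁ + a • ξ₂) = 0 := by
    rw [FanMV_ev_int, dotProduct_add, dotProduct_smul, dotProduct_smul, hae, ← hbe,
      smul_eq_mul, smul_eq_mul]
    ring
  have hwall : InCone (T.cut none γ) (b • ξ₁ + a • ξ₂) := by
    rcases mv1 hT hη with h1 | h1
    · exact FanMV_plus_wall hT hφ h1 hη0.le
    · exact FanMV_minus_wall hT hφ h1 hη0.ge
  have hlex := H _ hwall (L.add_mem (L.zsmul_mem hL₁ b) (L.zsmul_mem hL₂ a)) (by
    rw [dotProduct_add, dotProduct_smul, dotProduct_smul, smul_eq_mul, smul_eq_mul]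
    exact add_pos (mul_pos hb' hh₁) (mul_pos ha' hh₂))
  simp only [LexPos, dotProduct_add, dotProduct_smul, smul_eq_mul, not_or, not_and, not_lt]
    at hlex hn₁ hn₂
  obtain ⟨hx₁, hy₁⟩ := hn₁
  obtain ⟨hx₂, hy₂⟩ := hn₂
  have p₁ : b * (f ⬝ᵥ ξ₁) ≤ 0 := mul_nonpos_of_nonneg_of_nonpos hb'.le hx₁
  have p₂ : a * (f ⬝ᵥ ξ₂) ≤ 0 := mul_nonpos_of_nonneg_of_nonpos ha'.le hx₂
  rcases hlex with hl | ⟨hl, hl'⟩
  · linarith
  · have e₁ : f ⬝ᵥ ξ₁ = 0 :=
      (mul_eq_zero.1 (show b * (f ⬝ᵥ ξ₁) = 0 by linarith)).resolve_left hb'.ne'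
    have e₂ : f ⬝ᵥ ξ₂ = 0 :=
      (mul_eq_zero.1 (show a * (f ⬝ᵥ ξ₂) = 0 by linarith)).resolve_left ha'.ne'
    have q₁ : b * (g ⬝ᵥ ξ₁) ≤ 0 := mul_nonpos_of_nonneg_of_nonpos hb'.le (hy₁ e₁)
    have q₂ : a * (g ⬝ᵥ ξ₂) ≤ 0 := mul_nonpos_of_nonneg_of_nonpos ha'.le (hy₂ e₂)
    linarith

end Pool.Agent.P.MP_824f38_ag.DB
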