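import Pool.Agent.P.MP_824f38_ag.H.Defs
import Pool.Agent.P.MP_824f38_ag.DRBasic

/-! Chains in a preorder, functors on a preorder, nerve and incidence complexes, diagrams. -/

set_option linter.style.haveILetI false
set_option linter.unusedSectionVars false

namespace Pool.Agent.P.MP_824f38_ag.DB

/-- weak chains `c 0 ≤ ⋯ ≤ c k` -/
abbrev Ch (O : Type) [Preorder O] (k : ℕ) : Type := Fin (k + 1) →o O

/-- the `i`-th face of a chain -/
def face {O : Type} [Preorder O] {k : ℕ} (c : Ch O (k + 1)) (i : Fin (k + 2)) : Ch O k :=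
  c.comp (Fin.succAboveOrderEmb i).toOrderHom

@[simp] theorem face_apply {O : Type} [Preorder O] {k : ℕ} (c : Ch O (k + 1)) (i : Fin (k + 2))
    (j : Fin (k + 1)) : face c i j = c (i.succAbove j) := rfl

theorem face_le {O : Type} [Preorder O] {k : ℕ} (c : Ch O (k + 1)) (i : Fin (k + 2)) :
    face c i (Fin.last k) ≤ c (Fin.last (k + 1)) := c.monotone (Fin.le_last _)

theorem face_face {O : Type} [Preorder O] {k : ℕ} (c : Ch O (k + 2)) (i j : Fin (k + 2))
    (h : i ≤ j) : face (face c j.succ) i = face (face c i.castSucc) j := by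
  ext a
  simp only [face_apply]
  congr 1
  apply Fin.ext
  simp only [Fin.succAbove, Fin.lt_def, Fin.le_def] at h ⊢
  split_ifs <;> simp_all <;> omega

instance {O : Type} [Preorder O] [Finite O] (k : ℕ) : Finite (Ch O k) :=
  Finite.of_injective (fun c : Ch O k => (c : Fin (k + 1) → O)) DFunLike.coe_injective

/-- the nerve of `Q` has the rational cohomology of a point -/
def Acyc (Q : Type) [Preorder Q] : Prop :=
  Nonempty Q ∧
  (∀ h : Ch Q 0 → ℚ, (∀ c : Ch Q 1, ∑ i : Fin 2, (-1) ^ (i : ℕ) * h (face c i) = 0) →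
    ∃ a, ∀ c, h c = a) ∧
  ∀ (k : ℕ) (h : Ch Q (k + 1) → ℚ),
    (∀ c : Ch Q (k + 2), ∑ i : Fin (k + 3), (-1) ^ (i : ℕ) * h (face c i) = 0) →
    ∃ g : Ch Q k → ℚ, ∀ c, h c = ∑ i : Fin (k + 2), (-1) ^ (i : ℕ) * g (face c i)

/-- a functor from a preorder to abelian groups -/
structure PF (O : Type) [Preorder O] where
  /-- the groups -/
  F : O → Type
  [grp : ∀ s, AddCommGroup (F s)]
  /-- the maps -/
  R : ∀ {s t : O}, s ≤ t → F s →+ F t
  R_refl : ∀ s x, R (le_refl s) x = x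
  R_trans : ∀ {s t u : O} (h : s ≤ t) (h' : t ≤ u) x, R h' (R h x) = R (h.trans h') x

attribute [instance] PF.grp

namespace PF

variable {O : Type} [Preorder O] (P : PF O)

/-- nerve cochains -/
abbrev NC (k : ℕ) : Type := ∀ c : Ch O k, P.F (c (Fin.last k))

/-- nerve differential -/
def nd (k : ℕ) (ω : P.NC k) : P.NC (k + 1) := fun c =>
  ∑ i : Fin (k + 2), (-1 : ℤ) ^ (i : ℕ) • P.R (face_le c i) (ω (face c i))

/-- the nerve complex is exact in degree `q + 1` -/
def NEx (q : ℕ) : Prop :=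
  ∀ ω : P.NC (q + 1), P.nd (q + 1) ω = 0 → ∃ η : P.NC q, P.nd q η = ω

open Classical in
/-- incidence differential -/
noncomputable def pd [Fintype O] (inc : O → O → ℤ) (c : ∀ s, P.F s) (t : O) : P.F t :=
  ∑ s, if h : s ≤ t then inc s t • P.R h (c s) else 0

/-- the incidence complex is exact in degree `q + 1` -/
def PEx [Fintype O] (deg : O → ℕ) (inc : O → O → ℤ) (q : ℕ) : Prop :=
  ∀ c : ∀ s, P.F s, (∀ s, deg s ≠ q + 1 → c s = 0) → (∀ t, P.pd inc c t = 0) →
    ∃ b : ∀ s, P.F s, (∀ s, deg s ≠ q → b s = 0) ∧ ∀ t, P.pd inc b t = c t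

end PF

/-- incidence numbers that resolve the constant functor -/
structure IsInc {O : Type} [Preorder O] [Fintype O] (deg : O → ℕ) (inc : O → O → ℤ) : Prop where
  le_of : ∀ s t, inc s t ≠ 0 → s ≤ t
  deg_of : ∀ s t, inc s t ≠ 0 → deg t = deg s + 1
  sq : ∀ s u, ∑ t, inc s t * inc t u = 0
  U0 : ∀ t, ∃ s, s ≤ t ∧ deg s = 0
  U1 : ∀ u, deg u = 1 → ∑ s, inc s u = 0
  U2 : ∀ (G : Type) [AddCommGroup G] (t : O) (x : O → G), (∀ s, deg s ≠ 0 → x s = 0) →
    (∀ u, u ≤ t → ∑ s, inc s u • x s = 0) → ∃ g, ∀ s, s ≤ t → deg s = 0 → x s = g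
  U3 : ∀ (G : Type) [AddCommGroup G] (t : O) (i : ℕ) (x : O → G),
    (∀ s, deg s ≠ i + 1 → x s = 0) → (∀ u, u ≤ t → ∑ s, inc s u • x s = 0) →
    ∃ y : O → G, (∀ s, deg s ≠ i → y s = 0) ∧ ∀ u, u ≤ t → ∑ s, inc s u • y s = x u

/-- a finite diagram of smooth algebras under `R` -/
structure Diag (R : Type) [CommRing R] [Algebra ℂ R] where
  /-- the index set -/
  O : Type
  [pre : Preorder O]
  [fin : Finite O]
  /-- the algebras -/
  B : O → Type
  [ring : ∀ s, CommRing (B s)]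
  [alg : ∀ s, Algebra ℂ (B s)]
  smooth : ∀ s, Algebra.Smooth ℂ (B s)
  /-- structure maps -/
  aug : ∀ s, R →ₐ[ℂ] B s
  /-- transition maps -/
  f : ∀ {s t : O}, s ≤ t → (B s →ₐ[ℂ] B t)
  f_aug : ∀ {s t : O} (h : s ≤ t), (f h).comp (aug s) = aug t
  f_refl : ∀ s, f (le_refl s) = AlgHom.id ℂ (B s)
  f_trans : ∀ {s t u : O} (h : s ≤ t) (h' : t ≤ u), (f h').comp (f h) = f (h.trans h')

attribute [instance] Diag.pre Diag.fin Diag.ring Diag.alg

theorem pi_smooth {α : Type} [Finite α] (B : α → Type) [∀ a, CommRing (B a)]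
    [∀ a, Algebra ℂ (B a)] (h : ∀ a, Algebra.Smooth ℂ (B a)) : Algebra.Smooth ℂ (∀ a, B a) := by
  haveI := fun a => (h a).formallySmooth
  haveI := fun a => (h a).finitePresentation
  haveI : Algebra.FiniteType ℂ (∀ a, B a) := inferInstance
  exact ⟨inferInstance, Algebra.FinitePresentation.of_finiteType.mp inferInstance⟩

namespace Diag

variable {R : Type} [CommRing R] [Algebra ℂ R] (D : Diag R)

/-- the functor of `p`-forms -/
noncomputable def formsPF (p : ℕ) : PF D.O where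
  F s := Forms (D.B s) p
  R h := ((pull (D.f h)).toAddMonoidHom.comp (Forms _ p).subtype.toAddMonoidHom).codRestrict
    (Forms _ p) (fun x => pull_mem _ x.2)
  R_refl s x := Subtype.ext (by
    change pull (D.f (le_refl s)) x.1 = x.1
    rw [D.f_refl, pull_id])
  R_trans h h' x := Subtype.ext (by
    change pull (D.f h') (pull (D.f h) x.1) = pull (D.f _) x.1
    rw [pull_pull, D.f_trans])

theorem formsPF_R (p : ℕ) {s t : D.O} (h : s ≤ t) (x : Forms (D.B s) p) :
    ((D.formsPF p).R h x : Forms (D.B t) p).1 = pull (D.f h) x.1 := rfl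

/-- the ring of the `k`-th term of the nerve -/
abbrev NB (k : ℕ) : Type := ∀ c : Ch D.O k, D.B (c (Fin.last k))

/-- the face maps of the nerve -/
noncomputable def nf (k : ℕ) (i : Fin (k + 2)) : D.NB k →ₐ[ℂ] D.NB (k + 1) :=
  AlgHom.pi fun c => (D.f (face_le c i)).comp
    (Pi.evalAlgHom ℂ (fun c : Ch D.O k => D.B (c (Fin.last k))) (face c i))

theorem nf_apply (k : ℕ) (i : Fin (k + 2)) (b : D.NB k) (c : Ch D.O (k + 1)) :
    D.nf k i b c = D.f (face_le c i) (b (face c i)) := rfl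

theorem f_f {s t u : D.O} (h : s ≤ t) (h' : t ≤ u) (b : D.B s) :
    D.f h' (D.f h b) = D.f (h.trans h') b := DFunLike.congr_fun (D.f_trans h h') b

theorem f_aug' {s t : D.O} (h : s ≤ t) (r : R) : D.f h (D.aug s r) = D.aug t r :=
  DFunLike.congr_fun (D.f_aug h) r

/-- the nerve of a diagram -/
noncomputable def toHyper : Hyper R where
  B := D.NB
  smooth k := pi_smooth _ fun _ => D.smooth _
  aug := AlgHom.pi fun c => D.aug _
  d := D.nf
  d_aug := by
    ext r c
    change D.f _ (D.aug _ r) = D.f _ (D.aug _ r)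
    rw [f_aug', f_aug']
  d_d k i j hij := by
    ext b c
    change D.f _ (D.f _ (b _)) = D.f _ (D.f _ (b _))
    rw [f_f, f_f]
    have key : ∀ (c1 c2 : Ch D.O k) (_ : c1 = c2) (h1 : c1 (Fin.last k) ≤ c (Fin.last (k + 2)))
        (h2 : c2 (Fin.last k) ≤ c (Fin.last (k + 2))), D.f h1 (b c1) = D.f h2 (b c2) := by
      rintro c1 _ rfl h1 h2; rfl
    exact key _ _ (face_face c i j hij) _ _

/-- the points of the diagram over a point `x` -/
def El {V : Type} [CommRing V] [Algebra ℂ V] (x : R →ₐ[ℂ] V) : Type :=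
  {q : Σ s, (D.B s →ₐ[ℂ] V) // q.2.comp (D.aug q.1) = x}

instance {V : Type} [CommRing V] [Algebra ℂ V] (x : R →ₐ[ℂ] V) : Preorder (D.El x) where
  le q q' := ∃ h : q.1.1 ≤ q'.1.1, q'.1.2.comp (D.f h) = q.1.2
  le_refl q := ⟨le_refl _, by rw [D.f_refl]; rfl⟩
  le_trans q q' q'' := by
    rintro ⟨h, e⟩ ⟨h', e'⟩
    exact ⟨h.trans h', by rw [← D.f_trans h h', ← AlgHom.comp_assoc, e', e]⟩

theorem El.le_def {V : Type} [CommRing V] [Algebra ℂ V] {x : R →ₐ[ℂ] V} (q q' : D.El x) :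
    q ≤ q' ↔ ∃ h : q.1.1 ≤ q'.1.1, q'.1.2.comp (D.f h) = q.1.2 := Iff.rfl

end Diag

end Pool.Agent.P.MP_824f38_ag.DB
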