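import Pool.Agent.P.MP_824f38_ag.H.Prod

/-! Points and forms of the nerve of a diagram. -/

set_option linter.unusedSectionVars false
set_option linter.style.haveILetI false

namespace Pool.Agent.P.MP_824f38_ag.DB

open Function

variable {R : Type} [CommRing R] [Algebra ℂ R]

section Points

variable (D : Diag R) {V : Type} [CommRing V] [Algebra ℂ V] {x : R →ₐ[ℂ] V}

theorem NerveH_str (k : ℕ) (r : R) : ∀ c : Ch D.O k,
    (D.toHyper.str k r : D.NB k) c = D.aug (c (Fin.last k)) r := by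
  induction k with
  | zero => exact fun _ => rfl
  | succ k ih => exact fun c => (congrArg (D.f _) (ih (face c 0))).trans (D.f_aug' _ r)

/-- the underlying chain -/
def NerveH_ch {k : ℕ} (e : Ch (D.El x) k) : Ch D.O k :=
  ⟨fun i => (e i).1.1, fun _ _ h => (e.monotone h).1⟩

/-- the point of the nerve attached to a chain of points -/
def NerveH_pt {k : ℕ} (e : Ch (D.El x) k) : D.NB k →ₐ[ℂ] V :=
  (e (Fin.last k)).1.2.comp
    (Pi.evalAlgHom ℂ (fun c : Ch D.O k => D.B (c (Fin.last k))) (NerveH_ch D e))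

theorem NerveH_over {k : ℕ} (e : Ch (D.El x) k) : (NerveH_pt D e).comp (D.toHyper.str k) = x :=
  AlgHom.ext fun r => (congrArg (e (Fin.last k)).1.2 (NerveH_str D k r (NerveH_ch D e))).trans
    (DFunLike.congr_fun (e (Fin.last k)).2 r)

theorem NerveH_face {k : ℕ} (e : Ch (D.El x) (k + 1)) (i : Fin (k + 2)) :
    (NerveH_pt D e).comp (D.nf k i) = NerveH_pt D (face e i) :=
  AlgHom.ext fun b => DFunLike.congr_fun (face_le e i).2 (b (NerveH_ch D (face e i)))

theorem NerveH_cob {k : ℕ} (h : (D.NB k →ₐ[ℂ] V) → ℚ) (e : Ch (D.El x) (k + 1)) :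
    D.toHyper.cob k h (NerveH_pt D e) =
      ∑ i : Fin (k + 2), (-1) ^ (i : ℕ) * h (NerveH_pt D (face e i)) :=
  Finset.sum_congr rfl fun i _ => congrArg (_ * h ·) (NerveH_face D e i)

/-- the chain of points attached to a chain and a point of its last term -/
def NerveH_mk {k : ℕ} (c : Ch D.O k) (y : D.B (c (Fin.last k)) →ₐ[ℂ] V)
    (h : y.comp (D.aug _) = x) : Ch (D.El x) k :=
  ⟨fun i => ⟨⟨c i, y.comp (D.f (c.monotone i.le_last))⟩, by
    rw [AlgHom.comp_assoc, D.f_aug, h]⟩, fun _ _ hij => ⟨c.monotone hij, by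
      rw [AlgHom.comp_assoc, D.f_trans]⟩⟩

variable [IsDomain V]

theorem NerveH_inj (k : ℕ) : Injective (NerveH_pt D : Ch (D.El x) k → _) := by
  have key : ∀ e : Ch (D.El x) k, e = NerveH_mk D (NerveH_ch D e) (e (Fin.last k)).1.2
      (e (Fin.last k)).2 := fun e => OrderHom.ext _ _ (funext fun i => Subtype.ext
    (congrArg (Sigma.mk (e i).1.1) (e.monotone i.le_last).2.symm))
  intro e e' h
  have h1 := pi_point_inj (B := fun c : Ch D.O k => D.B (c (Fin.last k))) (a := NerveH_ch D e)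
    (a' := NerveH_ch D e') (y := (e (Fin.last k)).1.2) (y' := (e' (Fin.last k)).1.2) h
  have h2 : ∀ (c c' : Ch D.O k) (y : D.B (c (Fin.last k)) →ₐ[ℂ] V)
      (y' : D.B (c' (Fin.last k)) →ₐ[ℂ] V) (h : y.comp (D.aug _) = x)
      (h' : y'.comp (D.aug _) = x),
      (⟨c, y⟩ : Σ c : Ch D.O k, (D.B (c (Fin.last k)) →ₐ[ℂ] V)) = ⟨c', y'⟩ →
      NerveH_mk D c y h = NerveH_mk D c' y' h' := by
    intro c c' y y' h h' e
    cases e
    rfl
  exact (key e).trans ((h2 _ _ _ _ _ _ h1).trans (key e').symm)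

theorem NerveH_surj {k : ℕ} {y : D.NB k →ₐ[ℂ] V} (h : y.comp (D.toHyper.str k) = x) :
    ∃ e : Ch (D.El x) k, NerveH_pt D e = y := by
  obtain ⟨c, y', rfl⟩ := pi_point (B := fun c : Ch D.O k => D.B (c (Fin.last k))) y
  refine ⟨NerveH_mk D c y' (AlgHom.ext fun r => (congrArg y' (NerveH_str D k r c)).symm.trans
    (DFunLike.congr_fun h r)), AlgHom.ext fun b => ?_⟩
  exact congrArg y' (DFunLike.congr_fun (D.f_refl _) (b c))

end Points

/- Proof. First `D.toHyper.str k r c = D.aug _ r` (induction, `f_aug'`). A chain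
`e : Ch (D.El x) k` gives the chain `c i = (e i).1.1` of `D.O` and the point
`pt e = (e (last k)).1.2.comp (Pi.evalAlgHom _ _ c)` of `D.NB k` over `x`, with
`(pt e).comp (D.nf k i) = pt (face e i)`. `pt` is injective (`pi_point_inj`, and
`(e i).1.2 = (e last).1.2.comp (D.f _)`) and onto the points over `x` (`pi_point`). Transport
`Acyc` along `pt`: pull `h` back to `h ∘ pt`, and extend `g` with `Function.extend pt g 0`. -/
theorem Diag.descent_of (D : Diag R)
    (h : ∀ (V : Type) [CommRing V] [IsDomain V] [ValuationRing V] [Algebra ℂ V] (x : R →ₐ[ℂ] V),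
      Acyc (D.El x)) : D.toHyper.Descent := by
  intro V _ _ _ _ x
  obtain ⟨⟨q⟩, h1, h2⟩ := h V x
  refine ⟨⟨_, NerveH_over D (OrderHom.const _ q)⟩, fun f hf => ?_, fun k f hf => ?_⟩
  · obtain ⟨a, ha⟩ := h1 (fun e => f (NerveH_pt D e)) fun e =>
      (NerveH_cob D f e).symm.trans (hf _ (NerveH_over D e))
    refine ⟨a, fun y hy => ?_⟩
    obtain ⟨e, rfl⟩ := NerveH_surj D hy
    exact ha e
  · obtain ⟨g, hg⟩ := h2 k (fun e => f (NerveH_pt D e)) fun e =>
      (NerveH_cob D f e).symm.trans (hf _ (NerveH_over D e))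
    refine ⟨extend (NerveH_pt D) g 0, fun y hy => ?_⟩
    obtain ⟨e, rfl⟩ := NerveH_surj D hy
    exact (hg e).trans ((Finset.sum_congr rfl fun i _ => congrArg (_ * ·)
      ((NerveH_inj D k).extend_apply g 0 _).symm).trans (NerveH_cob D _ e).symm)

/-- the components of a form on the nerve -/
noncomputable def NerveH_ev (D : Diag R) {k : ℕ} (c : Ch D.O k) :
    DR (D.NB k) →+* DR (D.B (c (Fin.last k))) :=
  pull (Pi.evalAlgHom ℂ (fun c : Ch D.O k => D.B (c (Fin.last k))) c)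

theorem NerveH_delta (D : Diag R) {p k : ℕ} {ω : DR (D.NB k)} {θ : (D.formsPF p).NC k}
    (h : ∀ c, NerveH_ev D c ω = Subtype.val (θ c)) (c : Ch D.O (k + 1)) :
    NerveH_ev D c (D.toHyper.delta k ω) = Subtype.val ((D.formsPF p).nd k θ c) := by
  change NerveH_ev D c (∑ i : Fin (k + 2), (-1) ^ (i : ℕ) * pull (D.nf k i) ω) =
    (Forms _ p).subtype (∑ i : Fin (k + 2), (-1 : ℤ) ^ (i : ℕ) •
      (show Forms (D.B (c (Fin.last (k + 1)))) p from
        (D.formsPF p).R (face_le c i) (θ (face c i))))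
  rw [map_sum, map_sum]
  refine Finset.sum_congr rfl fun i _ => ?_
  rw [map_mul, map_pow, map_neg, map_one, map_zsmul, zsmul_eq_mul, Int.cast_pow, Int.cast_neg,
    Int.cast_one]
  refine congrArg (_ * ·) ((pull_pull _ _ _).trans ?_)
  exact ((congrArg (pull (D.f (face_le c i))) (h (face c i)).symm).trans (pull_pull _ _ _)).symm

theorem NerveH_ext (D : Diag R) {k : ℕ} {ω ω' : DR (D.NB k)}
    (h : ∀ c, NerveH_ev D c ω = NerveH_ev D c ω') : ω = ω' :=
  sub_eq_zero.1 (pi_forms_ext fun c => (map_sub _ _ _).trans (sub_eq_zero.2 (h c)))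

/- Proof. `ω ↦ fun c => ⟨pull (Pi.evalAlgHom _ _ c) ω, pull_mem _ _⟩` is a bijection from
`Forms (D.NB k) p` onto `(D.formsPF p).NC k` (`pi_forms_ext`, `pi_forms_lift`) and carries
`altSum (D.nf k)` to `nd k` (`pull_pull`; `(evalAlgHom c).comp (nf k i) =
(D.f _).comp (evalAlgHom (face c i))` holds by `rfl`/`ext`). -/
theorem Diag.hnonzero_iff (D : Diag R) (p q : ℕ) :
    D.toHyper.HNonzero p (q + 1) ↔ ¬ (D.formsPF p).NEx q := by
  constructor
  · rintro ⟨ω, h1, h2, h3⟩ H
    obtain ⟨θ, hθ⟩ := H (fun c => ⟨NerveH_ev D c ω, pull_mem _ h1⟩) (funext fun c =>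
      Subtype.ext ((NerveH_delta D (fun _ => rfl) c).symm.trans
        ((congrArg _ h2).trans (map_zero _))))
    obtain ⟨η, h4, h5⟩ := pi_forms_lift (fun c => Subtype.val (θ c)) fun c => (θ c).2
    exact h3 η h4 (NerveH_ext D fun c =>
      (NerveH_delta D h5 c).trans (congrArg Subtype.val (congrFun hθ c)))
  · intro H
    by_contra H'
    refine H fun θ hθ => ?_
    obtain ⟨ω, h1, h2⟩ := pi_forms_lift (fun c => Subtype.val (θ c)) fun c => (θ c).2
    by_contra h3
    refine H' ⟨ω, h1, NerveH_ext D fun c => (NerveH_delta D h2 c).trans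
      ((congrArg Subtype.val (congrFun hθ c)).trans (map_zero _).symm), fun η h4 h5 => h3
        ⟨fun c => ⟨NerveH_ev D c η, pull_mem _ h4⟩, funext fun c => Subtype.ext ?_⟩⟩
    exact (NerveH_delta D (fun _ => rfl) c).symm.trans ((congrArg _ h5).trans (h2 c))

end Pool.Agent.P.MP_824f38_ag.DB
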