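import Pool.Agent.P.MP_824f38_ag.H.Elim

/-! The incidence numbers of the valid states resolve the constant functor. -/

set_option linter.unusedSectionVars false
set_option linter.style.haveILetI false

namespace Pool.Agent.P.MP_824f38_ag.DB

open Function

variable {Θ : Type} [Fintype Θ] [LinearOrder Θ]

open Classical in
/-- extension of a function on objects to all states, by zero -/
noncomputable def ObInc_ext {X : Ix Θ} {G : Type} [AddCommGroup G] (x : Ob X → G) (s : Θ → St) :
    G := if h : X.valid s then x (Ob.st s h) else 0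

/-- the raw Koszul differential -/
noncomputable def ObInc_D {G : Type} [AddCommGroup G] (c : (Θ → St) → G) (t : Θ → St) : G :=
  ∑ θ, if t θ = none then
    sg t θ • (c (update t θ (some true)) - c (update t θ (some false))) else 0

theorem ObInc_ext_pos {X : Ix Θ} {G : Type} [AddCommGroup G] (x : Ob X → G) {s : Θ → St}
    (h : X.valid s) : ObInc_ext x s = x (Ob.st s h) := dif_pos h

theorem ObInc_ext_neg {X : Ix Θ} {G : Type} [AddCommGroup G] (x : Ob X → G) {s : Θ → St}
    (h : ¬ X.valid s) : ObInc_ext x s = 0 := dif_neg h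

theorem ObInc_sum_ob {X : Ix Θ} {G : Type} [AddCommGroup G] (f : Ob X → G) :
    ∑ s, f s = f Ob.base + ∑ s, ObInc_ext f s := by
  classical
  have h := Fintype.sum_of_injective (Ob.toOpt : Ob X → _) Ob.toOpt_inj f
    (fun o => o.elim (f Ob.base) (ObInc_ext f)) ?_ ?_
  · rw [h, Fintype.sum_option]; rfl
  · intro o ho
    cases o with
    | none => exact absurd ⟨Ob.base, rfl⟩ ho
    | some s =>
      have hs : ¬ X.valid s := fun hs => ho ⟨Ob.st s hs, rfl⟩
      exact ObInc_ext_neg f hs
  · intro o
    cases o with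
    | base => rfl
    | st s hs => exact (ObInc_ext_pos f hs).symm

theorem ObInc_sum {X : Ix Θ} {G : Type} [AddCommGroup G] (x : Ob X → G) (t : Θ → St)
    (ht : X.valid t) : ∑ s, Ob.inc s (Ob.st t ht) • x s =
      Ob.inc Ob.base (Ob.st t ht) • x Ob.base + ObInc_D (ObInc_ext x) t := by
  classical
  rw [ObInc_sum_ob]
  congr 1
  have h1 : ∀ s, ObInc_ext (fun s => Ob.inc s (Ob.st t ht) • x s) s =
      ∑ θ, ∑ b : Bool, if t θ = none ∧ s = update t θ (some b) then
        (sg t θ * (if b then 1 else -1)) • ObInc_ext x s else 0 := by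
    intro s
    by_cases hs : X.valid s
    · rw [ObInc_ext_pos _ hs, ObInc_ext_pos _ hs]
      simp only [Ob.inc, Finset.sum_smul, ite_smul, zero_smul]
    · rw [ObInc_ext_neg _ hs, ObInc_ext_neg _ hs]
      simp
  simp only [h1]
  rw [Finset.sum_comm]
  refine Finset.sum_congr rfl fun θ _ => ?_
  rw [Finset.sum_comm]
  by_cases h : t θ = none
  · simp only [h, true_and, Finset.sum_ite_eq', Finset.mem_univ, if_true, Fintype.sum_bool,
      mul_one, Bool.false_eq_true, if_false, mul_neg, neg_smul, smul_sub, sub_eq_add_neg, smul_add,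
      smul_neg]
  · simp [h]

theorem ObInc_cdeg_update {t : Θ → St} {θ : Θ} (h : t θ = none) (b : Bool) :
    cdeg t = cdeg (update t θ (some b)) + 1 := by
  unfold cdeg
  have : (Finset.univ.filter fun θ' => t θ' = none) =
      insert θ (Finset.univ.filter fun θ' => update t θ (some b) θ' = none) := by
    ext θ'
    by_cases e : θ' = θ
    · subst e; simp [h]
    · simp [e]
  rw [this, Finset.card_insert_of_notMem (by simp)]

theorem ObInc_cdeg_zero {s : Θ → St} : cdeg s = 0 ↔ ∀ θ, s θ ≠ none := by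
  simp [cdeg]

theorem ObInc_one {t : Θ → St} {θ : Θ} (h : t θ = none) (h1 : cdeg t = 1) {θ' : Θ}
    (h' : t θ' = none) : θ' = θ := by
  by_contra e
  have h2 := ObInc_cdeg_update h true
  have h3 : cdeg (update t θ (some true)) = 0 := by omega
  exact ObInc_cdeg_zero.1 h3 θ' (by rw [update_of_ne e]; exact h')

theorem ObInc_D_one {G : Type} [AddCommGroup G] (c : (Θ → St) → G) {t : Θ → St} {θ : Θ}
    (h : t θ = none) (h1 : cdeg t = 1) :
    ObInc_D c t = c (update t θ (some true)) - c (update t θ (some false)) := by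
  unfold ObInc_D
  rw [Finset.sum_eq_single θ]
  · have : sg t θ = 1 := by
      unfold sg
      rw [Finset.filter_eq_empty_iff.2, Finset.card_empty, pow_zero]
      rintro θ' - ⟨hlt, h'⟩
      exact hlt.ne (ObInc_one h h1 h')
    rw [if_pos h, this, one_smul]
  · intro θ' _ e
    exact if_neg fun h' => e (ObInc_one h h1 h')
  · simp

theorem ObInc_valid_update {X : Ix Θ} {s t : Θ → St} (ht : X.valid t) (hs : X.valid s)
    (hst : cle s t) {θ : Θ} (h : t θ = none) {a : St} (ha : X.edge θ → a ≠ some false) :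
    cle (update s θ a) t ∧ X.valid (update s θ a) := by
  have h1 : cle (update s θ a) t := by
    intro θ'
    by_cases e : θ' = θ
    · subst e; exact Or.inr h
    · rw [update_of_ne e]; exact hst θ'
  refine ⟨h1, X.down _ t ht h1 fun θ' hθ' => ?_⟩
  by_cases e : θ' = θ
  · subst e; rw [update_self]; exact ha hθ'
  · rw [update_of_ne e]; exact X.valid_edge s θ' hs hθ'

theorem ObInc_not_valid {X : Ix Θ} (s : Θ → St) {θ : Θ} (h : X.edge θ) :
    ¬ X.valid (update s θ (some false)) := fun hv =>
  X.valid_edge _ θ hv h (update_self ..)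

/-- the indicator of degree zero -/
def ObInc_z (X : Ix Θ) (s : Ob X) : ℤ := if s.deg = 0 then 1 else 0

theorem ObInc_base {X : Ix Θ} (t : Θ → St) (ht : X.valid t) :
    Ob.inc Ob.base (Ob.st t ht) + ObInc_D (ObInc_ext (ObInc_z X)) t = 0 := by
  classical
  by_cases h1 : cdeg t = 1
  · obtain ⟨θ, hθ⟩ : ∃ θ, t θ = none := by
      by_contra hh
      have := ObInc_cdeg_zero.2 fun θ hθ => hh ⟨θ, hθ⟩
      omega
    have hz : ∀ b, cdeg (update t θ (some b)) = 0 := fun b => by
      have := ObInc_cdeg_update hθ b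
      omega
    have hp := (ObInc_valid_update ht ht (cle_refl t) hθ (a := some true) (by simp)).2
    rw [ObInc_D_one _ hθ h1, ObInc_ext_pos _ hp]
    by_cases he : X.edge θ
    · have hb : X.bd t := ⟨θ, he, hθ⟩
      rw [ObInc_ext_neg _ (ObInc_not_valid t he)]
      simp [Ob.inc, h1, hb, ObInc_z, Ob.deg, hz]
    · have hb : ¬ X.bd t := by
        rintro ⟨θ', he', h'⟩
        exact he (ObInc_one hθ h1 h' ▸ he')
      have hm := (ObInc_valid_update ht ht (cle_refl t) hθ (a := some false)
        (fun h => absurd h he)).2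
      rw [ObInc_ext_pos _ hm]
      simp [Ob.inc, hb, ObInc_z, Ob.deg, hz]
  · have h0 : ∀ θ b, t θ = none → ObInc_ext (ObInc_z X) (update t θ (some b)) = 0 := by
      intro θ b hθ
      have := ObInc_cdeg_update hθ b
      by_cases hv : X.valid (update t θ (some b))
      · rw [ObInc_ext_pos _ hv]
        exact if_neg (by simp only [Ob.deg]; omega)
      · exact ObInc_ext_neg _ hv
    have h2 : ObInc_D (ObInc_ext (ObInc_z X)) t = 0 := by
      refine Finset.sum_eq_zero fun θ _ => ?_
      by_cases hθ : t θ = none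
      · rw [if_pos hθ, h0 θ _ hθ, h0 θ _ hθ, sub_self, smul_zero]
      · exact if_neg hθ
    rw [h2]
    simp [Ob.inc, h1]

theorem ObInc_ne {X : Ix Θ} {s t : Θ → St} {hs : X.valid s} {ht : X.valid t}
    (h : Ob.inc (Ob.st s hs) (Ob.st t ht) ≠ 0) :
    ∃ θ b, t θ = none ∧ s = update t θ (some b) := by
  by_contra hh
  apply h
  simp only [Ob.inc]
  refine Finset.sum_eq_zero fun θ _ => Finset.sum_eq_zero fun b _ => if_neg fun h' => ?_
  exact hh ⟨θ, b, h'⟩

theorem ObInc_le_deg {X : Ix Θ} (s t : Ob X) (h : Ob.inc s t ≠ 0) :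
    s ≤ t ∧ t.deg = s.deg + 1 := by
  cases t with
  | base => cases s <;> exact absurd rfl h
  | st t ht =>
    cases s with
    | base =>
      have h' : cdeg t = 1 ∧ X.bd t := by
        by_contra hh
        exact h (if_neg hh)
      exact ⟨h'.2, h'.1⟩
    | st s hs =>
      obtain ⟨θ, b, hθ, rfl⟩ := ObInc_ne h
      exact ⟨cle_update hθ _, ObInc_cdeg_update hθ b⟩

/-- admissible states below `t0` with the directions in `U` frozen -/
def ObInc_ok (X : Ix Θ) (t0 : Θ → St) (U : Finset Θ) (s : Θ → St) : Prop :=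
  X.valid s ∧ cle s t0 ∧ ∀ θ ∈ U, s θ = some true

open Classical in
/-- the cube of states below `t0` with the directions in `U` eliminated -/
noncomputable def ObInc_cube (X : Ix Θ) (G : Type) [AddCommGroup G] (t0 : Θ → St)
    (U : Finset Θ) : CP Θ G where
  ok := ObInc_ok X t0 U
  N s := if ObInc_ok X t0 U s ∧ ∀ θ ∈ U, ¬ X.edge θ then ⊤ else ⊥
  r _ := AddMonoidHom.id G

theorem ObInc_mem {X : Ix Θ} {G : Type} [AddCommGroup G] {t0 : Θ → St} {U : Finset Θ}
    {s : Θ → St} {x : G} : x ∈ (ObInc_cube X G t0 U).N s ↔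
      (ObInc_ok X t0 U s ∧ ∀ θ ∈ U, ¬ X.edge θ) ∨ x = 0 := by
  by_cases h : ObInc_ok X t0 U s ∧ ∀ θ ∈ U, ¬ X.edge θ
  · simp only [ObInc_cube, if_pos h, AddSubgroup.mem_top, true_iff]
    exact Or.inl h
  · simp only [ObInc_cube, if_neg h, AddSubgroup.mem_bot]
    exact ⟨Or.inr, fun h' => h'.resolve_left h⟩

theorem ObInc_d_pos {X : Ix Θ} {G : Type} [AddCommGroup G] {t0 : Θ → St} {U : Finset Θ}
    (c : (Θ → St) → G) {t : Θ → St} (h : ObInc_ok X t0 U t) :
    (ObInc_cube X G t0 U).d c t = ObInc_D c t := if_pos h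

theorem ObInc_d_neg {X : Ix Θ} {G : Type} [AddCommGroup G] {t0 : Θ → St} {U : Finset Θ}
    (c : (Θ → St) → G) {t : Θ → St} (h : ¬ ObInc_ok X t0 U t) :
    (ObInc_cube X G t0 U).d c t = 0 := if_neg h

theorem ObInc_good (X : Ix Θ) (G : Type) [AddCommGroup G] (t0 : Θ → St) (U : Finset Θ) :
    (ObInc_cube X G t0 U).Good where
  bot s hs := by
    ext x
    rw [ObInc_mem, AddSubgroup.mem_bot]
    exact ⟨fun h => h.resolve_left fun h' => hs h'.1, Or.inr⟩
  mem t θ b x ht _ hx := by
    rw [ObInc_mem] at hx ⊢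
    exact hx.imp (fun h => ⟨ht, h.2⟩) id
  conv u w t huw hwt hu ht := by
    refine ⟨X.down w t ht.1 hwt fun θ hθ => ?_, cle_trans hwt ht.2.1, fun θ hθ => ?_⟩
    · rcases huw θ with e | e
      · rw [← e]; exact X.valid_edge u θ hu.1 hθ
      · rw [e]; simp
    · rcases hwt θ with e | e
      · rw [e]; exact ht.2.2 θ hθ
      · rw [ht.2.2 θ hθ] at e; simp at e
  comm _ _ _ _ _ _ _ := rfl

theorem ObInc_ok_insert {X : Ix Θ} {t0 : Θ → St} {U : Finset Θ} {θ : Θ} {s : Θ → St} :
    ObInc_ok X t0 (insert θ U) s ↔ ObInc_ok X t0 U s ∧ s θ = some true := by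
  simp only [ObInc_ok, Finset.mem_insert, forall_eq_or_imp]
  tauto

theorem ObInc_ok_update {X : Ix Θ} {t0 : Θ → St} (h0 : X.valid t0) {U : Finset Θ} {θ : Θ}
    (hθ : t0 θ = none) (hU : θ ∉ U) {s : Θ → St} (hs : ObInc_ok X t0 U s) {a : St}
    (ha : X.edge θ → a ≠ some false) : ObInc_ok X t0 U (update s θ a) := by
  obtain ⟨h1, h2⟩ := ObInc_valid_update h0 hs.1 hs.2.1 hθ ha
  refine ⟨h2, h1, fun θ' h' => ?_⟩
  rw [update_of_ne (by rintro rfl; exact hU h')]
  exact hs.2.2 θ' h'

theorem ObInc_step {X : Ix Θ} (G : Type) [AddCommGroup G] {t0 : Θ → St} (h0 : X.valid t0)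
    {U : Finset Θ} {θ : Θ} (hθ : t0 θ = none) (hU : θ ∉ U) (q : ℕ) :
    (ObInc_cube X G t0 U).Ex q ↔ (ObInc_cube X G t0 (insert θ U)).Ex q := by
  have hN' : ∀ s, s θ ≠ some true → (ObInc_cube X G t0 (insert θ U)).N s = ⊥ := fun s hs =>
    (ObInc_good X G t0 _).bot s fun h => hs (ObInc_ok_insert.1 h).2
  by_cases he : X.edge θ
  · refine (CP.edge_elim (C' := ObInc_cube X G t0 (insert θ U)) (ObInc_good X G t0 U) θ rfl
      (fun s hs => X.valid_edge s θ hs.1 he)
      (fun s => ObInc_ok_insert) ?_ hN' ?_).2 q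
    · intro s x _
      rw [ObInc_mem, ObInc_mem]
      constructor
      · rintro (h | h)
        · exact absurd he (h.2 θ (Finset.mem_insert_self _ _))
        · exact ⟨Or.inr h, fun _ => h⟩
      · rintro ⟨h | h, h'⟩
        · exact Or.inr (h' (ObInc_ok_update h0 hθ hU h.1 (by simp)))
        · exact Or.inr h
    · intro t y _ hy
      refine ⟨y, ?_, rfl⟩
      rw [ObInc_mem] at hy ⊢
      exact hy.imp (fun h => ⟨ObInc_ok_update h0 hθ hU h.1 (by simp), h.2⟩) id
  · have hind : ∀ s a, ObInc_ok X t0 U (update s θ a) ↔ ObInc_ok X t0 U s := by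
      intro s a
      refine ⟨fun h => ?_, fun h => ObInc_ok_update h0 hθ hU h fun h' => absurd h' he⟩
      have := ObInc_ok_update h0 hθ hU h (a := s θ) fun h' => absurd h' he
      rwa [update_idem, update_eq_self] at this
    refine (CP.corner_elim (C' := ObInc_cube X G t0 (insert θ U)) (ObInc_good X G t0 U) θ rfl
      (fun _ => rfl) hind
      (fun s => ObInc_ok_insert) ?_ hN' ?_).2 q
    · intro s hs
      ext x
      rw [AddSubgroup.mem_inf, ObInc_mem, ObInc_mem, ObInc_mem, hind, ObInc_ok_insert]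
      simp only [Finset.mem_insert, forall_eq_or_imp, hs, he, and_true, not_false_eq_true,
        true_and, and_self]
    · intro t _ x hx
      refine AddSubgroup.mem_sup_left ?_
      rw [ObInc_mem] at hx ⊢
      rwa [hind]

theorem ObInc_ex {X : Ix Θ} (G : Type) [AddCommGroup G] {t0 : Θ → St} (h0 : X.valid t0)
    (q : ℕ) : (ObInc_cube X G t0 ∅).Ex q := by
  have key : ∀ U : Finset Θ, (∀ θ ∈ U, t0 θ = none) →
      ((ObInc_cube X G t0 ∅).Ex q ↔ (ObInc_cube X G t0 U).Ex q) := by
    intro U
    induction U using Finset.induction_on with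
    | empty => exact fun _ => Iff.rfl
    | insert θ U hU ih =>
      intro h
      rw [ih fun θ' h' => h θ' (Finset.mem_insert_of_mem h')]
      exact ObInc_step G h0 (h θ (Finset.mem_insert_self _ _)) hU q
  rw [key (Finset.univ.filter fun θ => t0 θ = none) (by simp)]
  intro c hc hq _
  refine ⟨fun _ => 0, fun s => zero_mem _, fun _ _ => rfl, fun t => ?_⟩
  have h1 : c t = 0 := by
    rcases ObInc_mem.1 (hc t) with h | h
    · refine hq t ?_
      have : cdeg t = 0 := ObInc_cdeg_zero.2 fun θ hθ => by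
        have h2 : t0 θ = none := by
          rcases h.1.2.1 θ with e | e
          · rw [← e, hθ]
          · exact e
        have h3 := h.1.2.2 θ (by simp [h2])
        rw [hθ] at h3
        simp at h3
      omega
    · exact h
  rw [h1]
  simp [CP.d]

theorem ObInc_D_congr {G : Type} [AddCommGroup G] {c c' : (Θ → St) → G} {t : Θ → St}
    (h : ∀ s, cle s t → c s = c' s) : ObInc_D c t = ObInc_D c' t := by
  refine Finset.sum_congr rfl fun θ _ => ?_
  by_cases hθ : t θ = none
  · rw [if_pos hθ, if_pos hθ, h _ (cle_update hθ _), h _ (cle_update hθ _)]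
  · rw [if_neg hθ, if_neg hθ]

open Classical in
/-- truncation of a function on objects to the states below `t0` -/
noncomputable def ObInc_tr {X : Ix Θ} {G : Type} [AddCommGroup G] (t0 : Θ → St) (x : Ob X → G)
    (s : Θ → St) : G := if cle s t0 then ObInc_ext x s else 0

theorem ObInc_tr_mem {X : Ix Θ} {G : Type} [AddCommGroup G] (t0 : Θ → St) (x : Ob X → G)
    (s : Θ → St) : ObInc_tr t0 x s ∈ (ObInc_cube X G t0 ∅).N s := by
  rw [ObInc_mem]
  by_cases h : cle s t0
  · by_cases hv : X.valid s
    · exact Or.inl ⟨⟨hv, h, by simp⟩, by simp⟩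
    · exact Or.inr ((if_pos h).trans (ObInc_ext_neg x hv))
  · exact Or.inr (if_neg h)

theorem ObInc_d_tr {X : Ix Θ} {G : Type} [AddCommGroup G] {t0 : Θ → St} (x : Ob X → G)
    {t : Θ → St} (ht : X.valid t) (h : cle t t0) :
    (ObInc_cube X G t0 ∅).d (ObInc_tr t0 x) t = ObInc_D (ObInc_ext x) t := by
  rw [ObInc_d_pos _ ⟨ht, h, by simp⟩]
  exact ObInc_D_congr fun s hs => if_pos (cle_trans hs h)

theorem ObInc_DD {X : Ix Θ} {G : Type} [AddCommGroup G] (x y : Ob X → G)
    (h : ∀ t ht, y (Ob.st t ht) = ObInc_D (ObInc_ext x) t) {u : Θ → St} (hu : X.valid u) :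
    ObInc_D (ObInc_ext y) u = 0 := by
  have h1 := CP.d_d (ObInc_good X G u ∅) _ (ObInc_tr_mem u x) u
  rw [ObInc_d_pos _ ⟨hu, cle_refl u, by simp⟩] at h1
  rw [← h1]
  refine ObInc_D_congr fun s hs => ?_
  by_cases hv : X.valid s
  · rw [ObInc_ext_pos _ hv, h, ObInc_d_tr x hv hs]
  · rw [ObInc_ext_neg _ hv, ObInc_d_neg _ fun h' => hv h'.1]

theorem ObInc_to_base {X : Ix Θ} (s : Ob X) : Ob.inc s Ob.base = 0 := by
  cases s <;> rfl

theorem ObInc_sq {X : Ix Θ} (s u : Ob X) : ∑ t, Ob.inc s t * Ob.inc t u = 0 := by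
  classical
  cases u with
  | base => simp [ObInc_to_base]
  | st u hu =>
    have h1 := ObInc_sum (fun t => Ob.inc s t) u hu
    simp only [smul_eq_mul, ObInc_to_base, mul_zero, zero_add] at h1
    simp only [mul_comm (Ob.inc s _)]
    rw [h1]
    cases s with
    | base =>
      refine ObInc_DD (fun s => - ObInc_z X s) _ (fun t ht => ?_) hu
      have h2 := ObInc_base t ht
      have h3 := ObInc_sum (fun s => - ObInc_z X s) t ht
      have h4 := ObInc_sum (ObInc_z X) t ht
      simp only [smul_neg, Finset.sum_neg_distrib] at h3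
      linarith
    | st s hs =>
      refine ObInc_DD (fun t => if t = Ob.st s hs then 1 else 0) _ (fun t ht => ?_) hu
      have h3 := ObInc_sum (fun t => if t = Ob.st s hs then (1 : ℤ) else 0) t ht
      simpa using h3

/-- the zeros replaced by plus -/
def ObInc_top (t : Θ → St) (θ : Θ) : St := if t θ = none then some true else t θ

theorem ObInc_top_le (t : Θ → St) : cle (ObInc_top t) t := fun θ => by
  by_cases h : t θ = none
  · exact Or.inr h
  · exact Or.inl (if_neg h)

theorem ObInc_top_valid {X : Ix Θ} {t : Θ → St} (ht : X.valid t) : X.valid (ObInc_top t) := by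
  refine X.down _ t ht (ObInc_top_le t) fun θ hθ => ?_
  unfold ObInc_top
  split_ifs
  · simp
  · exact X.valid_edge t θ ht hθ

theorem ObInc_top_deg (t : Θ → St) : cdeg (ObInc_top t) = 0 :=
  ObInc_cdeg_zero.2 fun θ => by
    unfold ObInc_top
    split_ifs with h
    · simp
    · exact h

theorem ObInc_flip {X : Ix Θ} {G : Type} [AddCommGroup G] {t : Θ → St} (ht : X.valid t)
    {x : Ob X → G} (hx : ∀ u, u ≤ Ob.st t ht → ∑ s, Ob.inc s u • x s = 0) {s : Θ → St}
    (hs : X.valid s) (hst : cle s t) (h0 : cdeg s = 0) {θ : Θ} (hθ : t θ = none) :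
    (X.edge θ → ObInc_ext x (update s θ (some true)) = x Ob.base) ∧
      (¬ X.edge θ → ObInc_ext x (update s θ (some true)) =
        ObInc_ext x (update s θ (some false))) := by
  obtain ⟨h1, h2⟩ := ObInc_valid_update ht hs hst hθ (a := none) (by simp)
  have h3 : update s θ none θ = none := update_self ..
  have h4 : cdeg (update s θ none) = 1 := by
    rw [ObInc_cdeg_update h3 true, update_idem, ObInc_cdeg_zero.2]
    intro θ'
    by_cases e : θ' = θ
    · subst e; simp
    · rw [update_of_ne e]; exact ObInc_cdeg_zero.1 h0 θ'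
  have h5 := hx (Ob.st _ h2) h1
  rw [ObInc_sum, ObInc_D_one _ h3 h4, update_idem, update_idem] at h5
  constructor
  · intro he
    have hb : X.bd (update s θ none) := ⟨θ, he, h3⟩
    rw [ObInc_ext_neg _ (ObInc_not_valid s he)] at h5
    simp only [Ob.inc, h4, hb, and_self, if_true, neg_smul, one_smul, sub_zero] at h5
    exact (neg_add_eq_zero.1 h5).symm
  · intro he
    have hb : ¬ X.bd (update s θ none) := by
      rintro ⟨θ', he', h'⟩
      exact he (ObInc_one h3 h4 h' ▸ he')
    simp only [Ob.inc, hb, and_false, if_false, zero_smul, zero_add] at h5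
    exact sub_eq_zero.1 h5

theorem ObInc_conn {X : Ix Θ} {G : Type} [AddCommGroup G] {t : Θ → St} (ht : X.valid t)
    {x : Ob X → G} (hx : ∀ u, u ≤ Ob.st t ht → ∑ s, Ob.inc s u • x s = 0) (n : ℕ) :
    ∀ s : Θ → St, X.valid s → cle s t → cdeg s = 0 →
      (Finset.univ.filter fun θ => s θ ≠ ObInc_top t θ).card = n →
      ObInc_ext x s = ObInc_ext x (ObInc_top t) := by
  induction n with
  | zero =>
    intro s _ _ _ h
    have : s = ObInc_top t := by
      funext θ
      by_contra e
      have h' := Finset.card_eq_zero.1 h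
      exact Finset.filter_eq_empty_iff.1 h' (Finset.mem_univ θ) e
    rw [this]
  | succ n ih =>
    intro s hs hst h0 h
    obtain ⟨θ, hθ⟩ := Finset.card_pos.1 (h.symm ▸ Nat.succ_pos n :
      0 < (Finset.univ.filter fun θ => s θ ≠ ObInc_top t θ).card)
    have hne : s θ ≠ ObInc_top t θ := (Finset.mem_filter.1 hθ).2
    have hz : t θ = none := by
      by_contra e
      rcases hst θ with e' | e'
      · exact hne (e'.trans (if_neg e).symm)
      · exact e e'
    have htop : ObInc_top t θ = some true := if_pos hz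
    have hm : s θ = some false := by
      have h1 := ObInc_cdeg_zero.1 h0 θ
      rw [htop] at hne
      rcases hsθ : s θ with _ | _ | _ <;> simp_all
    have he : ¬ X.edge θ := fun he => X.valid_edge s θ hs he hm
    have h1 := (ObInc_flip ht hx hs hst h0 hz).2 he
    rw [← hm, update_eq_self] at h1
    obtain ⟨h2, h3⟩ := ObInc_valid_update ht hs hst hz (a := some true) (by simp)
    rw [← h1]
    refine ih _ h3 h2 (ObInc_cdeg_zero.2 fun θ' => ?_) ?_
    · by_cases e : θ' = θ
      · subst e; simp
      · rw [update_of_ne e]; exact ObInc_cdeg_zero.1 h0 θ'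
    · have : (Finset.univ.filter fun θ' => update s θ (some true) θ' ≠ ObInc_top t θ') =
          (Finset.univ.filter fun θ => s θ ≠ ObInc_top t θ).erase θ := by
        ext θ'
        by_cases e : θ' = θ
        · subst e; simp [htop]
        · simp [e]
      rw [this, Finset.card_erase_of_mem hθ, h]
      rfl

theorem Ob.isInc (X : Ix Θ) : IsInc (Ob.deg : Ob X → ℕ) Ob.inc := by
  refine ⟨fun s t h => (ObInc_le_deg s t h).1, fun s t h => (ObInc_le_deg s t h).2, ObInc_sq,
    fun t => ?_, fun u hu => ?_, fun G _ t x _ hx => ?_, fun G _ t i x hd hx => ?_⟩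
  · cases t with
    | base => exact ⟨Ob.base, le_refl _, rfl⟩
    | st t ht => exact ⟨Ob.st _ (ObInc_top_valid ht), ObInc_top_le t, ObInc_top_deg t⟩
  · cases u with
    | base => simp [ObInc_to_base]
    | st u hv =>
      have h1 := ObInc_sum (ObInc_z X) u hv
      have h2 := ObInc_base u hv
      have h3 : ObInc_z X Ob.base = 1 := if_pos rfl
      rw [h3, smul_eq_mul, mul_one, h2] at h1
      rw [← h1]
      refine Finset.sum_congr rfl fun s _ => ?_
      by_cases h : Ob.inc s (Ob.st u hv) = 0
      · rw [h, zero_smul]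
      · have h4 := (ObInc_le_deg _ _ h).2
        have h5 : ObInc_z X s = 1 := if_pos (by omega)
        rw [h5, smul_eq_mul, mul_one]
  · cases t with
    | base =>
      refine ⟨x Ob.base, fun s hs _ => ?_⟩
      cases s with
      | base => rfl
      | st s h => exact absurd hs (Ob.st_le_base s h)
    | st t ht =>
      refine ⟨ObInc_ext x (ObInc_top t), fun s hs h0 => ?_⟩
      cases s with
      | base =>
        obtain ⟨θ, he, hθ⟩ := hs
        have h1 := (ObInc_flip ht hx (ObInc_top_valid ht) (ObInc_top_le t) (ObInc_top_deg t)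
          hθ).1 he
        have h2 : ObInc_top t θ = some true := if_pos hθ
        rw [← h2, update_eq_self] at h1
        exact h1.symm
      | st s h =>
        rw [← ObInc_ext_pos x h]
        exact ObInc_conn ht hx _ s h hs h0 rfl
  · have hb : x Ob.base = 0 := hd _ (Nat.succ_ne_zero i).symm
    cases t with
    | base =>
      refine ⟨fun _ => 0, fun _ _ => rfl, fun u hu => ?_⟩
      cases u with
      | base => simp [hb]
      | st s h => exact absurd hu (Ob.st_le_base s h)
    | st t ht =>
      have hA : ∀ s, cdeg s ≠ i + 1 → ObInc_tr t x s = 0 := by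
        intro s hs
        unfold ObInc_tr
        split_ifs
        · by_cases hv : X.valid s
          · rw [ObInc_ext_pos _ hv]; exact hd _ hs
          · exact ObInc_ext_neg _ hv
        · rfl
      have hB : ∀ u, (ObInc_cube X G t ∅).d (ObInc_tr t x) u = 0 := by
        intro u
        by_cases h : ObInc_ok X t ∅ u
        · have h1 := hx (Ob.st u h.1) h.2.1
          rw [ObInc_sum, hb, smul_zero, zero_add] at h1
          rw [ObInc_d_tr x h.1 h.2.1, h1]
        · exact ObInc_d_neg _ h
      obtain ⟨b, hbN, hbd, hdb⟩ := ObInc_ex G ht i (ObInc_tr t x) (ObInc_tr_mem t x) hA hB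
      refine ⟨fun s => s.toOpt.elim 0 b, fun s hs => ?_, fun u hu => ?_⟩
      · cases s with
        | base => rfl
        | st s h => exact hbd s hs
      · cases u with
        | base => simp [hb, ObInc_to_base]
        | st u h =>
          have h1 := hdb u
          rw [ObInc_d_pos _ ⟨h, hu, by simp⟩] at h1
          have h2 : ObInc_tr t x u = x (Ob.st u h) := (if_pos hu).trans (ObInc_ext_pos x h)
          rw [ObInc_sum, ← h2, ← h1]
          refine ((congrArg (· + _) (smul_zero _)).trans (zero_add _)).trans ?_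
          refine ObInc_D_congr fun s _ => ?_
          by_cases hv : X.valid s
          · exact ObInc_ext_pos _ hv
          · rw [ObInc_ext_neg _ hv]
            exact ((ObInc_mem.1 (hbN s)).resolve_left fun h' => hv h'.1.1).symm

end Pool.Agent.P.MP_824f38_ag.DB
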