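import Pool.Agent.P.MP_824f38_ag.H.Chart

/-! Forms on toric varieties as logarithmic forms on the torus. -/

set_option linter.unusedSectionVars false
set_option linter.style.haveILetI false

namespace Pool.Agent.P.MP_824f38_ag.DB

open Function

variable {ι : Type} [Fintype ι] [LinearOrder ι] {Q : AddSubmonoid (ι → ℤ)}

theorem PhiEx_ind {P : MA Q → Prop} (h0 : ∀ m, P (chi m)) (h1 : ∀ x y, P x → P y → P (x + y))
    (h2 : ∀ (c : ℂ) x, P x → P (c • x)) (a : MA Q) : P a :=
  AddMonoidAlgebra.induction_on a h0 h1 h2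

/-- forms on the torus as a ring -/
abbrev PhiEx_T (ι : Type) : Type := AddMonoidAlgebra (Lam ι) (ι → ℤ)

/-- the complexified vector -/
noncomputable def PhiEx_v (m : ι → ℤ) : Lam ι := ExteriorAlgebra.ι ℂ fun k => (m k : ℂ)

theorem PhiEx_v_add (m m' : ι → ℤ) : PhiEx_v (m + m') = PhiEx_v m + PhiEx_v m' := by
  unfold PhiEx_v
  rw [← map_add]
  congr 1
  funext k
  simp

theorem PhiEx_v_swap (m m' : ι → ℤ) : PhiEx_v m * PhiEx_v m' + PhiEx_v m' * PhiEx_v m = 0 :=
  ExteriorAlgebra.ι_add_mul_swap _ _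

theorem PhiEx_wz_succ {p : ℕ} (w : Fin (p + 1) → (ι → ℤ)) :
    wz w = PhiEx_v (w 0) * wz fun i => w i.succ := by
  unfold wz PhiEx_v
  rw [ExteriorAlgebra.ιMulti_succ_apply]
  rfl

/-- the monomials -/
noncomputable def PhiEx_mon (Q : AddSubmonoid (ι → ℤ)) : Multiplicative Q →* PhiEx_T ι where
  toFun m := AddMonoidAlgebra.single ((Multiplicative.toAdd m : Q) : ι → ℤ) 1
  map_one' := rfl
  map_mul' a b := by
    rw [AddMonoidAlgebra.single_mul_single, one_mul, toAdd_mul, AddSubmonoid.coe_add]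

/-- functions as forms of degree zero -/
noncomputable def PhiEx_e (Q : AddSubmonoid (ι → ℤ)) : MA Q →ₐ[ℂ] PhiEx_T ι :=
  AddMonoidAlgebra.lift ℂ (PhiEx_T ι) Q (PhiEx_mon Q)

theorem PhiEx_e_chi (m : Q) :
    PhiEx_e Q (chi m) = AddMonoidAlgebra.single (m : ι → ℤ) 1 := by
  simp only [PhiEx_e, chi, AddMonoidAlgebra.lift_single, one_smul]
  rfl

theorem PhiEx_comm (a : MA Q) (x : PhiEx_T ι) : PhiEx_e Q a * x = x * PhiEx_e Q a := by
  induction a using PhiEx_ind with
  | h0 m =>
    rw [PhiEx_e_chi]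
    induction x using AddMonoidAlgebra.induction_linear with
    | zero => simp
    | add x y hx hy => rw [mul_add, add_mul, hx, hy]
    | single μ r =>
      rw [AddMonoidAlgebra.single_mul_single, AddMonoidAlgebra.single_mul_single, add_comm, one_mul,
        mul_one]
  | h1 a b ha hb => rw [map_add, mul_add, add_mul, ha, hb]
  | h2 c a ha => rw [map_smul, smul_mul_assoc, mul_smul_comm, ha]

/-- the differential -/
noncomputable def PhiEx_d (Q : AddSubmonoid (ι → ℤ)) : MA Q →ₗ[ℂ] PhiEx_T ι :=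
  Finsupp.linearCombination ℂ
    (fun m : Q => (AddMonoidAlgebra.single (m : ι → ℤ) (PhiEx_v m) : PhiEx_T ι)) ∘ₗ
    (AddMonoidAlgebra.coeffLinearEquiv ℂ).toLinearMap

theorem PhiEx_d_chi (m : Q) :
    PhiEx_d Q (chi m) = AddMonoidAlgebra.single (m : ι → ℤ) (PhiEx_v m) := by
  change Finsupp.linearCombination ℂ _ (Finsupp.single m 1) = _
  rw [Finsupp.linearCombination_single, one_smul]

theorem PhiEx_leib (a b : MA Q) :
    PhiEx_d Q (a * b) = PhiEx_e Q a * PhiEx_d Q b + PhiEx_e Q b * PhiEx_d Q a := by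
  induction a using PhiEx_ind with
  | h0 m =>
    induction b using PhiEx_ind with
    | h0 m' =>
      rw [← chi_add, PhiEx_d_chi, PhiEx_d_chi, PhiEx_d_chi, PhiEx_e_chi, PhiEx_e_chi,
        AddMonoidAlgebra.single_mul_single, AddMonoidAlgebra.single_mul_single, one_mul, one_mul,
        AddSubmonoid.coe_add, PhiEx_v_add, AddMonoidAlgebra.single_add, add_comm (m' : ι → ℤ),
        add_comm]
    | h1 x y hx hy => simp only [mul_add, map_add, add_mul, hx, hy]; abel
    | h2 c x hx => simp only [mul_smul_comm, map_smul, smul_mul_assoc, hx, smul_add]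
  | h1 x y hx hy => simp only [mul_add, map_add, add_mul, hx, hy]; abel
  | h2 c x hx => simp only [mul_smul_comm, map_smul, smul_mul_assoc, hx, smul_add]

theorem PhiEx_swap (a b : MA Q) :
    PhiEx_d Q a * PhiEx_d Q b + PhiEx_d Q b * PhiEx_d Q a = 0 := by
  induction a using PhiEx_ind with
  | h0 m =>
    induction b using PhiEx_ind with
    | h0 m' =>
      rw [PhiEx_d_chi, PhiEx_d_chi, AddMonoidAlgebra.single_mul_single,
        AddMonoidAlgebra.single_mul_single, add_comm (m' : ι → ℤ), ← AddMonoidAlgebra.single_add,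
        PhiEx_v_swap, AddMonoidAlgebra.single_zero]
    | h1 x y hx hy =>
      rw [map_add, mul_add, add_mul, add_add_add_comm, hx, hy, add_zero]
    | h2 c x hx => rw [map_smul, mul_smul_comm, smul_mul_assoc, ← smul_add, hx, smul_zero]
  | h1 x y hx hy => rw [map_add, mul_add, add_mul, add_add_add_comm, hx, hy, add_zero]
  | h2 c x hx => rw [map_smul, mul_smul_comm, smul_mul_assoc, ← smul_add, hx, smul_zero]

theorem PhiEx_ring (Q : AddSubmonoid (ι → ℤ)) : ∃ s : DR (MA Q) →ₐ[ℂ] PhiEx_T ι,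
    (∀ a, s (algebraMap (MA Q) (DR (MA Q)) a) = PhiEx_e Q a) ∧ ∀ a, s (dd a) = PhiEx_d Q a := by
  letI : Algebra (MA Q) (PhiEx_T ι) := (PhiEx_e Q).toRingHom.toAlgebra' PhiEx_comm
  have hs : ∀ (a : MA Q) (x : PhiEx_T ι), a • x = PhiEx_e Q a * x := fun _ _ => rfl
  haveI : IsScalarTower ℂ (MA Q) (PhiEx_T ι) := ⟨fun c a x => by
    rw [hs, hs, map_smul, smul_mul_assoc]⟩
  let δ : Derivation ℂ (MA Q) (PhiEx_T ι) := Derivation.mk' (PhiEx_d Q) PhiEx_leib
  have hD : ∀ a, δ.liftKaehlerDifferential (KaehlerDifferential.D ℂ (MA Q) a) = PhiEx_d Q a :=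
    fun a => δ.liftKaehlerDifferential_comp_D a
  have hsp : ∀ x, x ∈ Submodule.span (MA Q) (Set.range (KaehlerDifferential.D ℂ (MA Q))) :=
    fun x => by rw [KaehlerDifferential.span_range_derivation]; trivial
  have hsw : ∀ x y, δ.liftKaehlerDifferential x * δ.liftKaehlerDifferential y +
      δ.liftKaehlerDifferential y * δ.liftKaehlerDifferential x = 0 := by
    intro x y
    induction hsp x using Submodule.span_induction with
    | mem x hx =>
      obtain ⟨a, rfl⟩ := hx
      induction hsp y using Submodule.span_induction with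
      | mem y hy =>
        obtain ⟨b, rfl⟩ := hy
        rw [hD, hD, PhiEx_swap]
      | zero => simp
      | add y z _ _ hy hz => rw [map_add, mul_add, add_mul, add_add_add_comm, hy, hz, add_zero]
      | smul c y _ hy => rw [map_smul, mul_smul_comm, smul_mul_assoc, ← smul_add, hy, smul_zero]
    | zero => simp
    | add x z _ _ hx hz => rw [map_add, mul_add, add_mul, add_add_add_comm, hx, hz, add_zero]
    | smul c x _ hx => rw [map_smul, mul_smul_comm, smul_mul_assoc, ← smul_add, hx, smul_zero]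
  have hsq : ∀ x, δ.liftKaehlerDifferential x * δ.liftKaehlerDifferential x = 0 := by
    intro x
    have h := hsw x x
    rw [← two_smul ℂ] at h
    exact (smul_eq_zero.1 h).resolve_left two_ne_zero
  let s : DR (MA Q) →ₐ[MA Q] PhiEx_T ι :=
    ExteriorAlgebra.lift (MA Q) ⟨δ.liftKaehlerDifferential, hsq⟩
  refine ⟨s.restrictScalars ℂ, fun a => s.commutes a, fun a => ?_⟩
  change s (ExteriorAlgebra.ι (MA Q) _) = _
  rw [ExteriorAlgebra.lift_ι_apply, hD]

/- Proof. `T = AddMonoidAlgebra (Lam ι) (ι → ℤ)` is an `MA Q`-algebra through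
`chi m ↦ single m 1` (central; `RingHom.toAlgebra'`, compare `Piece.smul_eq_zero_of_pull` in
`DRBasic`). The linear map `chi m ↦ single m (ι (fun k => (m k : ℂ)))` is a derivation
(check Leibniz on monomials). Its values lie in the span `T₁` of the `single μ (ι x)`, an
`MA Q`-submodule on which `f * g + g * f = 0`, so `f * f = 0` (characteristic zero). Lift by
`Derivation.liftKaehlerDifferential` and `ExteriorAlgebra.lift`, compose with `coeff`; the formula
follows by induction on `p` (`wd_succ`, `ExteriorAlgebra.ιMulti_succ_apply`). -/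
theorem exists_phi (Q : AddSubmonoid (ι → ℤ)) : ∃ Φ, IsPhi Q Φ := by
  obtain ⟨s, h1, h2⟩ := PhiEx_ring Q
  have hw : ∀ (p : ℕ) (v : Fin p → Q), s (wd fun i => chi (v i)) =
      AddMonoidAlgebra.single (∑ i, (v i : ι → ℤ)) (wz fun i => (v i : ι → ℤ)) := by
    intro p
    induction p with
    | zero =>
      intro v
      rw [wd_zero, map_one, Finset.univ_eq_empty, Finset.sum_empty, wz,
        ExteriorAlgebra.ιMulti_zero_apply]
      rfl
    | succ p ih =>
      intro v
      rw [wd_succ, map_mul, h2, PhiEx_d_chi, ih fun i => v i.succ,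
        AddMonoidAlgebra.single_mul_single, Fin.sum_univ_succ, PhiEx_wz_succ]
  refine ⟨(AddMonoidAlgebra.coeffLinearEquiv ℂ).toLinearMap ∘ₗ s.toLinearMap, fun p m v => ?_⟩
  change (s _).coeff = _
  rw [Algebra.smul_def, map_mul, h1, hw, PhiEx_e_chi, AddMonoidAlgebra.single_mul_single, one_mul]
  rfl

/-- the span of the monomial forms -/
noncomputable def PhiEx_S (Q : AddSubmonoid (ι → ℤ)) (p : ℕ) : Submodule ℂ (DR (MA Q)) :=
  Submodule.span ℂ {ω | ∃ (m : Q) (v : Fin p → Q), ω = chi m • wd fun i => chi (v i)}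

theorem PhiEx_S_smul {p : ℕ} (a : MA Q) {ω : DR (MA Q)} (h : ω ∈ PhiEx_S Q p) :
    a • ω ∈ PhiEx_S Q p := by
  induction a using PhiEx_ind with
  | h0 m =>
    induction h using Submodule.span_induction with
    | mem x hx =>
      obtain ⟨m', v, rfl⟩ := hx
      rw [smul_smul, ← chi_add]
      exact Submodule.subset_span ⟨_, v, rfl⟩
    | zero => simp
    | add x y _ _ hx hy => rw [smul_add]; exact add_mem hx hy
    | smul c x _ hx => rw [smul_comm]; exact Submodule.smul_mem _ c hx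
  | h1 x y hx hy => rw [add_smul]; exact add_mem hx hy
  | h2 c x hx => rw [smul_assoc]; exact Submodule.smul_mem _ c hx

theorem PhiEx_S_dd {p : ℕ} (a : MA Q) {ω : DR (MA Q)} (h : ω ∈ PhiEx_S Q p) :
    dd a * ω ∈ PhiEx_S Q (p + 1) := by
  induction a using PhiEx_ind with
  | h0 m =>
    induction h using Submodule.span_induction with
    | mem x hx =>
      obtain ⟨m', v, rfl⟩ := hx
      refine Submodule.subset_span ⟨m', Fin.cons m v, ?_⟩
      rw [mul_smul_comm, wd_succ]
      rfl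
    | zero => simp
    | add x y _ _ hx hy => rw [mul_add]; exact add_mem hx hy
    | smul c x _ hx => rw [mul_smul_comm]; exact Submodule.smul_mem _ c hx
  | h1 x y hx hy => rw [dd_add, add_mul]; exact add_mem hx hy
  | h2 c x hx => rw [dd_csmul, smul_mul_assoc]; exact Submodule.smul_mem _ c hx

theorem PhiEx_S_wd {p : ℕ} (v : Fin p → MA Q) : wd v ∈ PhiEx_S Q p := by
  induction p with
  | zero =>
    refine Submodule.subset_span ⟨0, Fin.elim0, ?_⟩
    rw [wd_zero, wd_zero, chi_zero, one_smul]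
  | succ p ih => rw [wd_succ]; exact PhiEx_S_dd _ (ih _)

/- `forms_induction`, multilinearity of `wd` over `ℂ` in each slot (induct on `p` with
`wd_succ`, `dd_add`, `dd_csmul`), and `AddMonoidAlgebra.induction_on`. -/
theorem forms_mem_span {p : ℕ} {ω : DR (MA Q)} (hω : ω ∈ Forms (MA Q) p) :
    ω ∈ Submodule.span ℂ {ω | ∃ (m : Q) (v : Fin p → Q), ω = chi m • wd fun i => chi (v i)} := by
  exact forms_induction (P := fun ω => ω ∈ PhiEx_S Q p) (zero_mem _)
    (fun a v => PhiEx_S_smul a (PhiEx_S_wd v)) (fun _ _ => add_mem) hω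

theorem PhiEx_sum_iff {G I : Finset (ι → ℤ)} {J : Finset ι} (h : Cmp Q G I J) {κ : Type}
    (s : Finset κ) (v : κ → Q) : (∀ w ∈ I, ((∑ i ∈ s, v i : Q) : ι → ℤ) ⬝ᵥ w = 0) ↔
      ∀ i ∈ s, ∀ w ∈ I, (v i : ι → ℤ) ⬝ᵥ w = 0 := by
  classical
  induction s using Finset.induction_on with
  | empty => simp
  | insert i s hi ih => rw [Finset.sum_insert hi, h.add_iff, ih, Finset.forall_mem_insert]

theorem PhiEx_map_wz (b : Finset ι) {p : ℕ} (w : Fin p → (ι → ℤ)) :
    ExteriorAlgebra.map (prjC b) (wz w) = wz fun i => prj b (w i) := by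
  unfold wz
  rw [ExteriorAlgebra.map_apply_ιMulti]
  congr 1
  funext i k
  by_cases hk : k ∈ b <;> simp [prjC_apply, prj, hk]

theorem PhiEx_wd_zero {A : Type} [CommRing A] [Algebra ℂ A] {p : ℕ} (v : Fin p → A) (i : Fin p)
    (h : v i = 0) : wd v = 0 :=
  (ExteriorAlgebra.ιMulti A p).map_coord_zero i (by rw [h, map_zero])

/- Check on the generators: if `m` and all `v i` vanish on `I` use `tmap_chi_pos`, `rho_single`,
`ExteriorAlgebra.map_apply_ιMulti`; otherwise both sides are zero (`Cmp.add_iff`: the sum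
vanishes on `I` iff all summands do; a wedge with `dd 0` vanishes). -/
theorem phi_tmap {G I : Finset (ι → ℤ)} {J : Finset ι} (h : Cmp Q G I J) {Φ Φ'}
    (hΦ : IsPhi Q Φ) (hΦ' : IsPhi (CM G I J) Φ') (a : Finset (ι → ℤ)) (b : Finset ι)
    (ha : ∀ m ∈ Q, (∀ v ∈ I, m ⬝ᵥ v = 0) ↔ ∀ v ∈ a, m ⬝ᵥ v = 0)
    (hb : ∀ m ∈ Q, prj J m = prj b m) {p : ℕ} {ω : DR (MA Q)} (hω : ω ∈ Forms (MA Q) p) :
    Φ' (pull (tmap h) ω) = rho a b (Φ ω) := by
  have hs := forms_mem_span hω
  clear hω
  induction hs using Submodule.span_induction with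
  | mem x hx =>
    obtain ⟨m, v, rfl⟩ := hx
    have e : (m : ι → ℤ) + ∑ i, (v i : ι → ℤ) = ((m + ∑ i, v i : Q) : ι → ℤ) := by simp
    have hiff : (∀ w ∈ a, ((m : ι → ℤ) + ∑ i, (v i : ι → ℤ)) ⬝ᵥ w = 0) ↔
        (∀ w ∈ I, (m : ι → ℤ) ⬝ᵥ w = 0) ∧ ∀ i, ∀ w ∈ I, (v i : ι → ℤ) ⬝ᵥ w = 0 := by
      rw [e, ← ha _ (m + ∑ i, v i).2, h.add_iff, PhiEx_sum_iff h]
      simp only [Finset.mem_univ, forall_true_left]
    rw [pull_smul, pull_wd, hΦ, rho_single]
    split_ifs with hc
    · obtain ⟨h1, h2⟩ := hiff.1 hc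
      rw [tmap_chi_pos h m h1, funext fun i => tmap_chi_pos h (v i) (h2 i),
        hΦ' p _ fun i => ⟨prj J (v i), h.prj_mem _ (h2 i)⟩, PhiEx_map_wz]
      congr 1
      · rw [e, ← hb _ (m + ∑ i, v i).2, ← e, prj_add]
        exact congrArg _ (map_sum (prjHom J) _ _).symm
      · exact congrArg wz (funext fun i => hb _ (v i).2)
    · rw [hiff, not_and_or] at hc
      rcases hc with hc | hc
      · rw [tmap_chi_neg h m hc, zero_smul, map_zero]
      · obtain ⟨i, hi⟩ := not_forall.1 hc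
        rw [PhiEx_wd_zero _ i (tmap_chi_neg h (v i) hi), smul_zero, map_zero]
  | zero => simp
  | add x y _ _ hx hy => simp only [map_add, hx, hy]
  | smul c x _ hx => rw [pull_csmul, map_smul, map_smul, map_smul, hx]

end Pool.Agent.P.MP_824f38_ag.DB
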