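import Pool.Agent.P.MP_824f38_ag.H.Nerve

/-! Forms and points of finite products of algebras. -/

set_option linter.unusedSectionVars false
set_option linter.style.haveILetI false

namespace Pool.Agent.P.MP_824f38_ag.DB

open Function

variable {α : Type} {B : α → Type} [∀ a, CommRing (B a)] [∀ a, Algebra ℂ (B a)]

open Classical in
/-- a factor of a product -/
noncomputable def piPiece (B : α → Type) [∀ a, CommRing (B a)] [∀ a, Algebra ℂ (B a)] (a : α) :
    Piece (∀ a, B a) (B a) where
  π := Pi.evalAlgHom ℂ B a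
  sec := LinearMap.single ℂ B a
  π_sec b := by simp
  sec_π b := by
    funext j
    by_cases h : j = a
    · subst h; simp
    · simp [h]

theorem piPiece_sum [Fintype α] : ∑ a, (piPiece B a).sec 1 = 1 := by
  classical
  funext j
  simp [piPiece, Finset.sum_apply]

theorem pi_forms_ext [Finite α] {ω : DR (∀ a, B a)}
    (h : ∀ a, pull (Pi.evalAlgHom ℂ B a) ω = 0) : ω = 0 := by
  letI := Fintype.ofFinite α
  rw [← one_smul (∀ a, B a) ω, ← piPiece_sum, Finset.sum_smul]
  exact Finset.sum_eq_zero fun a _ => (piPiece B a).smul_eq_zero_of_pull (h a)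

theorem pi_forms_lift [Finite α] {p : ℕ} (θ : ∀ a, DR (B a)) (hθ : ∀ a, θ a ∈ Forms (B a) p) :
    ∃ ω ∈ Forms (∀ a, B a) p, ∀ a, pull (Pi.evalAlgHom ℂ B a) ω = θ a := by
  classical
  letI := Fintype.ofFinite α
  choose w hw hw' using fun a => (piPiece B a).exists_lift (hθ a)
  refine ⟨∑ a, (piPiece B a).sec 1 • w a,
    Submodule.sum_mem _ fun a _ => Submodule.smul_mem _ _ (hw a), fun a => ?_⟩
  rw [map_sum, Finset.sum_eq_single a]
  · rw [pull_smul]
    have : Pi.evalAlgHom ℂ B a ((piPiece B a).sec 1) = 1 := (piPiece B a).π_sec 1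
    rw [this, one_smul]; exact hw' a
  · intro b _ hb
    rw [pull_smul]
    have : Pi.evalAlgHom ℂ B a ((piPiece B b).sec 1) = 0 := by simp [piPiece, hb.symm]
    rw [this, zero_smul]
  · simp

variable {V : Type} [CommRing V] [IsDomain V] [Algebra ℂ V]

theorem pi_point [Finite α] (y : (∀ a, B a) →ₐ[ℂ] V) :
    ∃ a, ∃ y' : B a →ₐ[ℂ] V, y = y'.comp (Pi.evalAlgHom ℂ B a) := by
  letI := Fintype.ofFinite α
  obtain ⟨a, ha⟩ : ∃ a, y ((piPiece B a).sec 1) ≠ 0 := by
    by_contra h
    push Not at h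
    have := congrArg y (piPiece_sum (B := B))
    rw [map_sum, Finset.sum_eq_zero fun a _ => h a, map_one] at this
    exact zero_ne_one this
  have h1 : y ((piPiece B a).sec 1) = 1 := by
    have := congrArg y ((piPiece B a).one_mul_sec 1)
    rw [map_mul] at this
    exact mul_left_cancel₀ ha (this.trans (mul_one _).symm)
  refine ⟨a, AlgHom.ofLinearMap (y.toLinearMap.comp (piPiece B a).sec) h1 (fun b c => ?_), ?_⟩
  · simp [Piece.sec_mul]
  · refine AlgHom.ext fun b => ?_
    change y b = y ((piPiece B a).sec ((piPiece B a).π b))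
    rw [Piece.sec_π, map_mul, h1, one_mul]

theorem pi_point_inj {a a' : α} {y : B a →ₐ[ℂ] V} {y' : B a' →ₐ[ℂ] V}
    (h : y.comp (Pi.evalAlgHom ℂ B a) = y'.comp (Pi.evalAlgHom ℂ B a')) :
    (⟨a, y⟩ : Σ a, (B a →ₐ[ℂ] V)) = ⟨a', y'⟩ := by
  classical
  by_cases e : a = a'
  · subst e
    congr 1
    refine AlgHom.ext fun b => ?_
    simpa using DFunLike.congr_fun h (Pi.single a b)
  · have := DFunLike.congr_fun h (Pi.single a 1)
    simp [Ne.symm e] at this

end Pool.Agent.P.MP_824f38_ag.DB
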