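import Pool.Agent.P.MP_824f38_ag.H.Chart

/-! Complexes of incomplete colourings. -/

set_option linter.unusedSectionVars false

namespace Pool.Agent.P.MP_824f38_ag.DB

open Function

variable {ι : Type} [Fintype ι] [LinearOrder ι]

/-- incomplete colourings -/
abbrev PC (ι : Type) : Type := ι → Option ℤ

/-- the missing coordinates -/
def pJ (x : PC ι) : Finset ι := Finset.univ.filter fun i => x i = none

/-- the values, zero on the missing coordinates -/
def pval (x : PC ι) : ι → ℤ := fun i => (x i).getD 0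

/-- the sign -/
def psg (x : PC ι) (j : ι) : ℤ := (-1) ^ (Finset.univ.filter fun i => i < j ∧ x i = none).card

/-- the signed sum of the deletions of the coordinates in `F` -/
noncomputable def pD (F : Finset ι) : (PC ι →₀ ℂ) →ₗ[ℂ] (PC ι →₀ ℂ) :=
  Finsupp.lsum ℂ fun x => ∑ j ∈ F,
    if x j = none then 0 else (psg x j : ℂ) • Finsupp.lsingle (update x j none)

theorem pD_single (F : Finset ι) (x : PC ι) (c : ℂ) : pD F (Finsupp.single x c) =
    ∑ j ∈ F, if x j = none then 0 else Finsupp.single (update x j none) ((psg x j : ℂ) * c) := by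
  rw [pD, Finsupp.lsum_single, LinearMap.sum_apply]
  refine Finset.sum_congr rfl fun j _ => ?_
  split_ifs <;> simp

/-- exactness in degree `q + 1` of the complex spanned by `E` -/
def FEx (E : Set (PC ι)) (F : Finset ι) (q : ℕ) : Prop :=
  ∀ c : PC ι →₀ ℂ, (∀ x ∈ c.support, x ∈ E ∧ (pJ x).card = q + 1) → pD F c = 0 →
    ∃ b : PC ι →₀ ℂ, (∀ x ∈ b.support, x ∈ E ∧ (pJ x).card = q) ∧ pD F b = c

/-- `E` is stable under deletion of the coordinates in `F` -/
def Closed (E : Set (PC ι)) (F : Finset ι) : Prop := ∀ x ∈ E, ∀ j ∈ F, update x j none ∈ E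

variable (col : ι → Col)

/-- the coordinates that may be deleted -/
def FS (S : Finset ι) : Finset ι := Finset.univ.filter fun i => i ∉ S ∧ col i ≠ .O

/-- admissible colourings -/
def ES (S : Finset ι) : Set (PC ι) := {x | pJ x ⊆ FS col S ∧ Gam col (pJ x) (pval x) S}

/-- generic colourings -/
def Gen (x : PC ι) : Prop := ∀ k, col k = .A → x k ≠ some 1

/-- the number of coordinates of a given kind -/
def cnt (a : Col) : ℕ := (Finset.univ.filter fun i => col i = a).card

/-- the zero set of a state -/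
def zs (s : ι → St) : Finset ι := Finset.univ.filter fun j => s j = none

open Classical in
/-- the small cube -/
noncomputable def smallCP (p : ℕ) : CP ι (Crd ι) where
  ok s := (∀ j, s j ≠ some false) ∧ ∀ j ∈ zs s, col j ≠ .O
  N s := if (∀ j, s j ≠ some false) ∧ ∀ j ∈ zs s, col j ≠ .O then
    (Finsupp.supported ℂ ℂ {x : (ι → ℤ) × Finset ι | x.2.card = p ∧ Disjoint x.2 (zs s) ∧
      (∀ j ∈ zs s, x.1 j = 0) ∧ Gam col (zs s) x.1 x.2}).toAddSubgroup else ⊥
  r j := (cmap j).toAddMonoidHom

end Pool.Agent.P.MP_824f38_ag.DB
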