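import Pool.Agent.P.MP_824f38_ag.H.Nerve

/-! Two augmentations of a double complex with exact rows and columns. -/

set_option linter.unusedSectionVars false
set_option linter.style.haveILetI false

namespace Pool.Agent.P.MP_824f38_ag.DB

open Function

/- Proof. Call `x : D i j` closed if `h x = 0` and `v x = 0`. Let `Sh i j` say: every closed
`x : D (i+1) j` is `h y` with `v y = 0`; `Sv i j` say: every closed `x : D i (j+1)` is `v y` with
`h y = 0`. Then `Sv i j ↔ Sh i j` (given closed `x : D (i+1) j` write `x = h y` by `hex`, apply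
`Sv` to `v y`, subtract; symmetric), `Sh i (j+1) ↔ Sv (i+1) j` (`v y = 0` gives `y = v w`, so
`x = h v w = v (h w)`), exactness of `A` in degree `q+1` is `Sh q 0`, and exactness of `B` is
`Sv 0 q`. Induct along the antidiagonal. -/
theorem zigzag {D : ℕ → ℕ → Type} [∀ i j, AddCommGroup (D i j)] {A B : ℕ → Type}
    [∀ i, AddCommGroup (A i)] [∀ j, AddCommGroup (B j)]
    (h : ∀ i j, D i j →+ D (i + 1) j) (v : ∀ i j, D i j →+ D i (j + 1))
    (dA : ∀ i, A i →+ A (i + 1)) (dB : ∀ j, B j →+ B (j + 1))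
    (α : ∀ i, A i →+ D i 0) (β : ∀ j, B j →+ D 0 j)
    (hv : ∀ i j x, h i (j + 1) (v i j x) = v (i + 1) j (h i j x))
    (hh : ∀ i j x, h (i + 1) j (h i j x) = 0) (vv : ∀ i j x, v i (j + 1) (v i j x) = 0)
    (hα : ∀ i a, h i 0 (α i a) = α (i + 1) (dA i a))
    (vβ : ∀ j b, v 0 j (β j b) = β (j + 1) (dB j b))
    (αinj : ∀ i, Injective (α i)) (βinj : ∀ j, Injective (β j))
    (αex : ∀ i x, v i 0 x = 0 ↔ ∃ a, α i a = x) (βex : ∀ j x, h 0 j x = 0 ↔ ∃ b, β j b = x)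
    (vex : ∀ i j x, v i (j + 1) x = 0 → ∃ y, v i j y = x)
    (hex : ∀ i j x, h (i + 1) j x = 0 → ∃ y, h i j y = x) (q : ℕ) :
    (∀ a, dA (q + 1) a = 0 → ∃ a', dA q a' = a) ↔ (∀ b, dB (q + 1) b = 0 → ∃ b', dB q b' = b) := by
  let Sh : ℕ → ℕ → Prop := fun i j => ∀ x : D (i + 1) j, h (i + 1) j x = 0 → v (i + 1) j x = 0 →
    ∃ y : D i j, h i j y = x ∧ v i j y = 0
  let Sv : ℕ → ℕ → Prop := fun i j => ∀ x : D i (j + 1), h i (j + 1) x = 0 → v i (j + 1) x = 0 →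
    ∃ y : D i j, v i j y = x ∧ h i j y = 0
  have e1 : ∀ i j, Sh i j ↔ Sv i j := by
    intro i j
    constructor
    · intro H x h1 h2
      obtain ⟨y, rfl⟩ := vex i j x h2
      obtain ⟨y', k1, k2⟩ := H (h i j y) (hh i j y) (by rw [← hv, h1])
      exact ⟨y - y', by rw [map_sub, k2, sub_zero], by rw [map_sub, k1, sub_self]⟩
    · intro H x h1 h2
      obtain ⟨y, rfl⟩ := hex i j x h1
      obtain ⟨y', k1, k2⟩ := H (v i j y) (by rw [hv, h2]) (vv i j y)
      exact ⟨y - y', by rw [map_sub, k2, sub_zero], by rw [map_sub, k1, sub_self]⟩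
  have e2 : ∀ i j, Sv (i + 1) j ↔ Sh i (j + 1) := by
    intro i j
    constructor
    · intro H x h1 h2
      obtain ⟨y, rfl, k⟩ := H x h1 h2
      obtain ⟨w, rfl⟩ := hex i j y k
      exact ⟨v i j w, hv i j w, vv i j w⟩
    · intro H x h1 h2
      obtain ⟨y, rfl, k⟩ := H x h1 h2
      obtain ⟨w, rfl⟩ := vex i j y k
      exact ⟨h i j w, (hv i j w).symm, hh i j w⟩
  have e3 : ∀ i j, Sv i j ↔ Sv 0 (i + j) := by
    intro i
    induction i with
    | zero => intro j; rw [Nat.zero_add]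
    | succ i ih =>
      intro j
      rw [e2, e1, ih, show i + (j + 1) = i + 1 + j by omega]
  have eA : (∀ a, dA (q + 1) a = 0 → ∃ a', dA q a' = a) ↔ Sh q 0 := by
    constructor
    · intro H x h1 h2
      obtain ⟨a, rfl⟩ := (αex _ x).1 h2
      obtain ⟨a', rfl⟩ := H a (αinj _ (by rw [← hα, h1, map_zero]))
      exact ⟨α q a', hα q a', (αex _ _).2 ⟨a', rfl⟩⟩
    · intro H a ha
      obtain ⟨y, k1, k2⟩ := H (α _ a) (by rw [hα, ha, map_zero]) ((αex _ _).2 ⟨a, rfl⟩)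
      obtain ⟨a', rfl⟩ := (αex _ y).1 k2
      exact ⟨a', αinj _ (by rw [← hα, k1])⟩
  have eB : (∀ b, dB (q + 1) b = 0 → ∃ b', dB q b' = b) ↔ Sv 0 q := by
    constructor
    · intro H x h1 h2
      obtain ⟨b, rfl⟩ := (βex _ x).1 h1
      obtain ⟨b', rfl⟩ := H b (βinj _ (by rw [← vβ, h2, map_zero]))
      exact ⟨β q b', vβ q b', (βex _ _).2 ⟨b', rfl⟩⟩
    · intro H b hb
      obtain ⟨y, k1, k2⟩ := H (β _ b) ((βex _ _).2 ⟨b, rfl⟩) (by rw [vβ, hb, map_zero])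
      obtain ⟨b', rfl⟩ := (βex _ y).1 k2
      exact ⟨b', βinj _ (by rw [← vβ, k1])⟩
  rw [eA, eB, e1, e3, Nat.add_zero]

end Pool.Agent.P.MP_824f38_ag.DB
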